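import Mathlib

/-!
Deterministic oracle machines (structured programs over finitely many stacks of bits, unit cost per
instruction), the relativised classes `Sigma_k^A` and the join of two oracles.
-/

set_option autoImplicit false

namespace Pool.Agent.H9

/-- An oracle: a set of bit strings, given by its characteristic function. -/
abbrev Oracle := List Bool → Bool

/-- Programs of deterministic oracle machines. The memory consists of stacks of bits numbered
`0, 1, 2, ...`; every program uses finitely many of them. -/
inductive Prog : Type
  /-- do nothing -/
  | skip : Prog
  /-- push a bit on a stack -/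
  | push : ℕ → Bool → Prog
  /-- remove the top bit of a stack -/
  | pop : ℕ → Prog
  /-- sequential composition -/
  | seq : Prog → Prog → Prog
  /-- branch on the top of a stack: empty stack / bit 0 / bit 1 -/
  | cond : ℕ → Prog → Prog → Prog → Prog
  /-- while the stack is not empty, execute the body -/
  | loop : ℕ → Prog → Prog
  /-- oracle query: if the content of the stack belongs to the oracle execute the first
  program, otherwise the second one -/
  | ask : ℕ → Prog → Prog → Prog
  deriving Countable

/-- A configuration: the list of programs still to be executed, and the contents of the stacks. -/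
abbrev Cfg := List Prog × (ℕ → List Bool)

/-- One step of the machine (one unit of time). A configuration without remaining programs has
halted. -/
def step (A : Oracle) : Cfg → Cfg
  | ([], s) => ([], s)
  | (Prog.skip :: k, s) => (k, s)
  | (Prog.push i b :: k, s) => (k, Function.update s i (b :: s i))
  | (Prog.pop i :: k, s) => (k, Function.update s i (s i).tail)
  | (Prog.seq p q :: k, s) => (p :: q :: k, s)
  | (Prog.cond i p q r :: k, s) =>
      match s i with
      | [] => (p :: k, s)
      | false :: _ => (q :: k, s)
      | true :: _ => (r :: k, s)
  | (Prog.loop i p :: k, s) =>
      match s i with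
      | [] => (k, s)
      | _ :: _ => (p :: Prog.loop i p :: k, s)
  | (Prog.ask i p q :: k, s) => if A (s i) = true then (p :: k, s) else (q :: k, s)

/-- The start configuration on inputs `xs`: the `i`-th input string is on stack `i`, all other
stacks are empty. -/
def start (p : Prog) (xs : List (List Bool)) : Cfg := ([p], fun i => xs.getD i [])

/-- The configuration reached after `t` steps. -/
def run (A : Oracle) (p : Prog) (xs : List (List Bool)) (t : ℕ) : Cfg :=
  (step A)^[t] (start p xs)

/-- The machine halts within `t` steps with a `1` on top of stack `0`. -/
def AcceptsIn (A : Oracle) (p : Prog) (xs : List (List Bool)) (t : ℕ) : Prop :=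
  (run A p xs t).1 = [] ∧ ((run A p xs t).2 0).head? = some true

/-- The machine accepts the inputs `xs`. -/
def Accepts (A : Oracle) (p : Prog) (xs : List (List Bool)) : Prop :=
  ∃ t, AcceptsIn A p xs t

/-- Total length of the input strings. -/
def totalLength (xs : List (List Bool)) : ℕ := (xs.map List.length).sum

/-- `p` with oracle `A` runs in polynomial time on `j`-tuples of strings. -/
def PolyTime (A : Oracle) (j : ℕ) (p : Prog) : Prop :=
  ∃ T : Polynomial ℕ, ∀ xs : List (List Bool), xs.length = j →
    (run A p xs (T.eval (totalLength xs))).1 = []

/-- `Alt ex k m φ`: the alternating quantifier prefix with `k` blocks of strings of length exactly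
`m`, the first one existential if `ex = true` and universal if `ex = false`, applied to `φ`. -/
def Alt (ex : Bool) : ℕ → ℕ → (List (List Bool) → Prop) → Prop
  | 0, _, φ => φ []
  | k + 1, m, φ =>
      match ex with
      | true => ∃ u : List Bool, u.length = m ∧ Alt false k m (fun us => φ (u :: us))
      | false => ∀ u : List Bool, u.length = m → Alt true k m (fun us => φ (u :: us))

/-- The class `Sigma_k^{P,A}` of the polynomial hierarchy relative to the oracle `A`;
`SigmaP A 0` is `P^A` and `SigmaP A 1` is `NP^A`. -/
def SigmaP (A : Oracle) (k : ℕ) : Set (Set (List Bool)) :=
  {L | ∃ (q : Polynomial ℕ) (p : Prog), PolyTime A (k + 1) p ∧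
    ∀ x : List Bool, x ∈ L ↔
      Alt true k (q.eval x.length) (fun us => Accepts A p (x :: us))}

/-- The join of two oracles. -/
def join (A B : Oracle) : Oracle
  | [] => false
  | false :: w => A w
  | true :: w => B w

end Pool.Agent.H9
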