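import Mathlib

/-!
Decision trees, as a predicate on functions of a 0/1 assignment.
-/

set_option autoImplicit false

namespace Pool.Agent.H9

/-- `DTP Q n f`: the predicate `f` of an assignment is computed by a decision tree of depth at most
`n` all of whose queries are in `Q`. -/
inductive DTP {α : Type*} (Q : Set α) : ℕ → ((α → Bool) → Prop) → Prop
  | const (n : ℕ) (P : Prop) : DTP Q n (fun _ => P)
  | node (n : ℕ) (q : α) (hq : q ∈ Q) (f g : (α → Bool) → Prop) :
      DTP Q n f → DTP Q n g → DTP Q (n + 1) (fun a => (a q = true ∧ f a) ∨ (a q = false ∧ g a))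

variable {α β : Type*}

theorem DTP.congr {Q : Set α} {n : ℕ} {f g : (α → Bool) → Prop} (hf : DTP Q n f)
    (h : ∀ a, f a ↔ g a) : DTP Q n g := by
  have : f = g := funext fun a => propext (h a)
  exact this ▸ hf

theorem DTP.mono {Q : Set α} {n : ℕ} {f : (α → Bool) → Prop} (hf : DTP Q n f) :
    ∀ {m : ℕ}, n ≤ m → DTP Q m f := by
  induction hf with
  | const n P => intro m _; exact DTP.const m P
  | node n q hq f g _ _ ihf ihg =>
    intro m hm
    obtain ⟨m', rfl⟩ : ∃ m', m = m' + 1 := ⟨m - 1, by omega⟩
    exact DTP.node m' q hq f g (ihf (by omega)) (ihg (by omega))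

theorem DTP.mono_set {Q R : Set α} {n : ℕ} {f : (α → Bool) → Prop} (hf : DTP Q n f)
    (h : Q ⊆ R) : DTP R n f := by
  induction hf with
  | const n P => exact DTP.const n P
  | node n q hq f g _ _ ihf ihg => exact DTP.node n q (h hq) f g ihf ihg

theorem DTP.not {Q : Set α} {n : ℕ} {f : (α → Bool) → Prop} (hf : DTP Q n f) :
    DTP Q n (fun a => ¬ f a) := by
  induction hf with
  | const n P => exact DTP.const n (¬ P)
  | node n q hq f g _ _ ihf ihg =>
    refine (DTP.node n q hq _ _ ihf ihg).congr ?_
    intro a
    cases h : a q <;> simp [h]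

/-- Case distinction on a predicate computed by a decision tree. -/
theorem DTP.ite {Q : Set α} {m n : ℕ} {c f g : (α → Bool) → Prop} (hc : DTP Q m c)
    (hf : DTP Q n f) (hg : DTP Q n g) :
    DTP Q (m + n) (fun a => (c a ∧ f a) ∨ (¬ c a ∧ g a)) := by
  induction hc with
  | const m P =>
    by_cases hP : P
    · exact (hf.mono (by omega)).congr (fun a => by simp [hP])
    · exact (hg.mono (by omega)).congr (fun a => by simp [hP])
  | node m q hq c d _ _ ihc ihd =>
    have := DTP.node (m + n) q hq _ _ ihc ihd
    refine (this.mono (by omega)).congr ?_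
    intro a
    cases h : a q <;> simp [h]

theorem DTP.var {Q : Set α} (q : α) (hq : q ∈ Q) : DTP Q 1 (fun a => a q = true) := by
  refine (DTP.node 0 q hq _ _ (DTP.const 0 True) (DTP.const 0 False)).congr ?_
  intro a; simp

/-- Composition: substitute for every variable a predicate with a decision tree. -/
theorem DTP.comp {Q : Set α} {R : Set β} {n m : ℕ} {f : (α → Bool) → Prop} (hf : DTP Q n f)
    (σ : (β → Bool) → α → Bool) (hσ : ∀ q ∈ Q, DTP R m (fun b => σ b q = true)) :
    DTP R (n * m) (fun b => f (σ b)) := by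
  induction hf with
  | const n P => exact DTP.const _ P
  | node n q hq f g _ _ ihf ihg =>
    have h := DTP.ite (hσ q hq) ihf ihg
    refine (h.mono (by ring_nf; omega)).congr ?_
    intro b
    cases h : σ b q <;> simp [h]

/-- A predicate with a decision tree over a set of variables depends only on these variables. -/
theorem DTP.depends {Q : Set α} {n : ℕ} {f : (α → Bool) → Prop} (hf : DTP Q n f)
    {a b : α → Bool} (h : ∀ q ∈ Q, a q = b q) : f a ↔ f b := by
  induction hf with
  | const n P => exact Iff.rfl
  | node n q hq f g _ _ ihf ihg => simp only [ihf, ihg, h q hq]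

/-- A term is a list of literals; `Sat t a` says that the assignment `a` satisfies it. -/
def Sat (t : List (α × Bool)) (a : α → Bool) : Prop := ∀ l ∈ t, a l.1 = l.2

/-- A term is consistent if it contains no pair of opposite literals. -/
def Cons (t : List (α × Bool)) : Prop := ∀ v, ¬ ((v, true) ∈ t ∧ (v, false) ∈ t)

theorem DTP.terms {Q : Set α} {n : ℕ} {f : (α → Bool) → Prop} (hf : DTP Q n f) :
    ∃ F : List (List (α × Bool)), (∀ t ∈ F, t.length ≤ n) ∧ ∀ a, f a ↔ ∃ t ∈ F, Sat t a := by
  induction hf with
  | const n P =>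
    by_cases hP : P
    · refine ⟨[[]], by simp, ?_⟩
      intro a; simp [hP, Sat]
    · exact ⟨[], by simp, fun a => by simp [hP]⟩
  | node n q hq f g _ _ ihf ihg =>
    obtain ⟨F, hF1, hF2⟩ := ihf
    obtain ⟨G, hG1, hG2⟩ := ihg
    refine ⟨F.map (fun t => (q, true) :: t) ++ G.map (fun t => (q, false) :: t), ?_, ?_⟩
    · intro t ht
      simp only [List.mem_append, List.mem_map] at ht
      rcases ht with ⟨t', ht', rfl⟩ | ⟨t', ht', rfl⟩
      · simpa using hF1 t' ht'
      · simpa using hG1 t' ht'
    · intro a
      show (a q = true ∧ f a) ∨ (a q = false ∧ g a) ↔ _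
      rw [hF2, hG2]
      constructor
      · rintro (⟨h1, t, ht, hs⟩ | ⟨h1, t, ht, hs⟩)
        · refine ⟨(q, true) :: t, ?_, ?_⟩
          · simp only [List.mem_append, List.mem_map]
            exact Or.inl ⟨t, ht, rfl⟩
          · intro l hl
            simp only [List.mem_cons] at hl
            rcases hl with rfl | hl
            · exact h1
            · exact hs l hl
        · refine ⟨(q, false) :: t, ?_, ?_⟩
          · simp only [List.mem_append, List.mem_map]
            exact Or.inr ⟨t, ht, rfl⟩
          · intro l hl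
            simp only [List.mem_cons] at hl
            rcases hl with rfl | hl
            · exact h1
            · exact hs l hl
      · rintro ⟨t, ht, hs⟩
        simp only [List.mem_append, List.mem_map] at ht
        rcases ht with ⟨t', ht', rfl⟩ | ⟨t', ht', rfl⟩
        · left
          exact ⟨hs (q, true) (by simp), t', ht', fun l hl => hs l (by simp [hl])⟩
        · right
          exact ⟨hs (q, false) (by simp), t', ht', fun l hl => hs l (by simp [hl])⟩

/-- Terms of a finite disjunction of decision trees, all consistent. -/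
theorem terms_of_exists {Q : Set α} {n : ℕ} {ι : Type*} (S : Finset ι)
    {f : ι → (α → Bool) → Prop} (hf : ∀ i ∈ S, DTP Q n (f i)) :
    ∃ F : List (List (α × Bool)), (∀ t ∈ F, t.length ≤ n ∧ Cons t) ∧
      ∀ a, (∃ i ∈ S, f i a) ↔ ∃ t ∈ F, Sat t a := by
  classical
  have key : ∃ F : List (List (α × Bool)), (∀ t ∈ F, t.length ≤ n) ∧
      ∀ a, (∃ i ∈ S, f i a) ↔ ∃ t ∈ F, Sat t a := by
    induction S using Finset.induction_on with
    | empty => exact ⟨[], by simp, by simp⟩
    | insert i S hi ih =>
      obtain ⟨F, hF1, hF2⟩ := ih (fun j hj => hf j (Finset.mem_insert_of_mem hj))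
      obtain ⟨G, hG1, hG2⟩ := (hf i (Finset.mem_insert_self i S)).terms
      refine ⟨G ++ F, ?_, ?_⟩
      · intro t ht
        rcases List.mem_append.1 ht with h | h
        · exact hG1 t h
        · exact hF1 t h
      · intro a
        have e : (∃ j ∈ insert i S, f j a) ↔ (f i a ∨ ∃ j ∈ S, f j a) := by
          simp
        rw [e, hF2 a, hG2 a]
        simp only [List.mem_append, or_and_right, exists_or]
  obtain ⟨F, hF1, hF2⟩ := key
  refine ⟨F.filter (fun t => decide (Cons t)), ?_, ?_⟩
  · intro t ht
    rw [List.mem_filter] at ht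
    exact ⟨hF1 t ht.1, by simpa using ht.2⟩
  · intro a
    rw [hF2 a]
    constructor
    · rintro ⟨t, ht, hs⟩
      refine ⟨t, ?_, hs⟩
      rw [List.mem_filter]
      refine ⟨ht, ?_⟩
      simp only [decide_eq_true_eq]
      rintro v ⟨h1, h2⟩
      have e1 := hs _ h1
      have e2 := hs _ h2
      simp only at e1 e2
      rw [e1] at e2
      exact absurd e2 (by simp)
    · rintro ⟨t, ht, hs⟩
      rw [List.mem_filter] at ht
      exact ⟨t, ht.1, hs⟩

end Pool.Agent.H9
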