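import Mathlib
import Pool.Agent.H9.Machine
import Pool.Agent.H9.DT

/-!
Basic facts on runs of oracle machines: monotonicity, the decision tree lemma, composition.
-/

set_option autoImplicit false

namespace Pool.Agent.H9

theorem step_halted (A : Oracle) (s : ℕ → List Bool) : step A ([], s) = ([], s) := rfl

theorem iterate_halted (A : Oracle) (s : ℕ → List Bool) (n : ℕ) :
    (step A)^[n] ([], s) = ([], s) := by
  induction n with
  | zero => rfl
  | succ n ih => rw [Function.iterate_succ_apply, step_halted, ih]

theorem iterate_of_halted {A : Oracle} {c : Cfg} {n m : ℕ} (h : ((step A)^[n] c).1 = [])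
    (hnm : n ≤ m) : (step A)^[m] c = (step A)^[n] c := by
  obtain ⟨d, rfl⟩ := Nat.exists_eq_add_of_le hnm
  rw [add_comm, Function.iterate_add_apply]
  generalize (step A)^[n] c = c' at h
  obtain ⟨l, s⟩ := c'
  simp only at h
  subst h
  exact iterate_halted A s d

theorem run_of_halted {A : Oracle} {p : Prog} {xs : List (List Bool)} {n m : ℕ}
    (h : (run A p xs n).1 = []) (hnm : n ≤ m) : run A p xs m = run A p xs n :=
  iterate_of_halted h hnm

theorem accepts_iff_of_halted {A : Oracle} {p : Prog} {xs : List (List Bool)} {t : ℕ}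
    (h : (run A p xs t).1 = []) : Accepts A p xs ↔ AcceptsIn A p xs t := by
  constructor
  · rintro ⟨m, h1, h2⟩
    rcases Nat.le_total m t with hmt | htm
    · have := run_of_halted h1 hmt
      refine ⟨h, ?_⟩
      rw [this]; exact h2
    · have := run_of_halted h htm
      refine ⟨h, ?_⟩
      rw [← this]; exact h2
  · intro h'
    exact ⟨t, h'⟩

/-- **Decision tree lemma**: the outcome of `t` steps is a decision tree of depth `t` over the
oracle, with short queries. -/
theorem dtp_iterate (Λ : ℕ) : ∀ (t : ℕ) (c : Cfg), (∀ i, (c.2 i).length + t ≤ Λ) →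
    DTP {w : List Bool | w.length ≤ Λ} t
      (fun A => ((step A)^[t] c).1 = [] ∧ (((step A)^[t] c).2 0).head? = some true) := by
  intro t
  induction t with
  | zero =>
    intro c _
    exact DTP.const 0 (c.1 = [] ∧ (c.2 0).head? = some true)
  | succ t ih =>
    intro c hc
    -- a step that does not depend on the oracle
    have hdet : ∀ c' : Cfg, (∀ A, step A c = c') → (∀ i, (c'.2 i).length + t ≤ Λ) →
        DTP {w : List Bool | w.length ≤ Λ} (t + 1)
        (fun A => ((step A)^[t + 1] c).1 = [] ∧
          (((step A)^[t + 1] c).2 0).head? = some true) := by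
      intro c' h1 h2
      refine ((ih c' h2).mono (Nat.le_succ t)).congr ?_
      intro A
      rw [Function.iterate_succ_apply, h1 A]
    obtain ⟨k, s⟩ := c
    simp only at hc
    have hup : ∀ (i : ℕ) (v : List Bool), v.length ≤ (s i).length + 1 →
        ∀ j, ((Function.update s i v) j).length + t ≤ Λ := by
      intro i v hv j
      by_cases hj : j = i
      · subst hj
        rw [Function.update_self]
        have := hc j
        omega
      · rw [Function.update_of_ne hj]
        have := hc j
        omega
    have hs : ∀ j, (s j).length + t ≤ Λ := fun j => by have := hc j; omega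
    match k with
    | [] => exact hdet ([], s) (fun A => rfl) hs
    | Prog.skip :: k => exact hdet (k, s) (fun A => rfl) hs
    | Prog.push i b :: k =>
      exact hdet (k, Function.update s i (b :: s i)) (fun A => rfl) (hup i _ (by simp))
    | Prog.pop i :: k =>
      exact hdet (k, Function.update s i (s i).tail) (fun A => rfl) (hup i _ (by simp; omega))
    | Prog.seq p q :: k => exact hdet (p :: q :: k, s) (fun A => rfl) hs
    | Prog.cond i p q r :: k =>
      match hsi : s i with
      | [] => exact hdet (p :: k, s) (fun A => by simp [step, hsi]) hs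
      | false :: _ => exact hdet (q :: k, s) (fun A => by simp [step, hsi]) hs
      | true :: _ => exact hdet (r :: k, s) (fun A => by simp [step, hsi]) hs
    | Prog.loop i p :: k =>
      match hsi : s i with
      | [] => exact hdet (k, s) (fun A => by simp [step, hsi]) hs
      | _ :: _ => exact hdet (p :: Prog.loop i p :: k, s) (fun A => by simp [step, hsi]) hs
    | Prog.ask i p q :: k =>
      have h1 := DTP.node t (s i) (Q := {w : List Bool | w.length ≤ Λ})
        (by have := hc i; show (s i).length ≤ Λ; omega) _ _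
        (ih (p :: k, s) hs) (ih (q :: k, s) hs)
      refine h1.congr ?_
      intro A
      rw [Function.iterate_succ_apply]
      cases hA : A (s i)
      · simp [step, hA]
      · simp [step, hA]

theorem length_start_le (p : Prog) (xs : List (List Bool)) (i : ℕ) :
    ((start p xs).2 i).length ≤ totalLength xs := by
  simp only [start, totalLength]
  induction xs generalizing i with
  | nil => simp
  | cons x xs ih =>
    cases i with
    | zero => simp
    | succ i =>
      have := ih i
      simp only [List.getD_cons_succ, List.map_cons, List.sum_cons]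
      omega

theorem dtp_acceptsIn (p : Prog) (xs : List (List Bool)) (t Λ : ℕ)
    (h : totalLength xs + t ≤ Λ) :
    DTP {w : List Bool | w.length ≤ Λ} t (fun A => AcceptsIn A p xs t) :=
  dtp_iterate Λ t (start p xs) (fun i => by
    have := length_start_le p xs i
    omega)

/-! ### Executions of programs -/

/-- Program `p`, started in memory state `s`, ends in memory state `s'` after at most `N` steps. -/
def Exec (A : Oracle) (p : Prog) (s s' : ℕ → List Bool) (N : ℕ) : Prop :=
  ∃ n ≤ N, ∀ k : List Prog, (step A)^[n] (p :: k, s) = (k, s')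

theorem Exec.mono {A : Oracle} {p : Prog} {s s' : ℕ → List Bool} {N M : ℕ}
    (h : Exec A p s s' N) (hNM : N ≤ M) : Exec A p s s' M := by
  obtain ⟨n, hn, h⟩ := h
  exact ⟨n, hn.trans hNM, h⟩

theorem exec_skip (A : Oracle) (s : ℕ → List Bool) : Exec A Prog.skip s s 1 :=
  ⟨1, le_rfl, fun _ => rfl⟩

theorem exec_push (A : Oracle) (s : ℕ → List Bool) (i : ℕ) (b : Bool) :
    Exec A (Prog.push i b) s (Function.update s i (b :: s i)) 1 :=
  ⟨1, le_rfl, fun _ => rfl⟩

theorem exec_pop (A : Oracle) (s : ℕ → List Bool) (i : ℕ) :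
    Exec A (Prog.pop i) s (Function.update s i (s i).tail) 1 :=
  ⟨1, le_rfl, fun _ => rfl⟩

theorem Exec.seq {A : Oracle} {p q : Prog} {s s' s'' : ℕ → List Bool} {N M : ℕ}
    (h1 : Exec A p s s' N) (h2 : Exec A q s' s'' M) :
    Exec A (Prog.seq p q) s s'' (N + M + 1) := by
  obtain ⟨n, hn, h1⟩ := h1
  obtain ⟨m, hm, h2⟩ := h2
  refine ⟨m + (n + 1), by omega, ?_⟩
  intro k
  rw [Function.iterate_add_apply, Function.iterate_succ_apply]
  have : step A (Prog.seq p q :: k, s) = (p :: q :: k, s) := rfl
  rw [this, h1, h2]

theorem exec_cond_nil {A : Oracle} {p q r : Prog} {i : ℕ} {s s' : ℕ → List Bool} {N : ℕ}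
    (hs : s i = []) (h : Exec A p s s' N) : Exec A (Prog.cond i p q r) s s' (N + 1) := by
  obtain ⟨n, hn, h⟩ := h
  refine ⟨n + 1, by omega, ?_⟩
  intro k
  rw [Function.iterate_succ_apply]
  have : step A (Prog.cond i p q r :: k, s) = (p :: k, s) := by simp [step, hs]
  rw [this, h]

theorem exec_cond_cons {A : Oracle} {p q r : Prog} {i : ℕ} {s s' : ℕ → List Bool} {N : ℕ}
    {b : Bool} {l : List Bool} (hs : s i = b :: l)
    (h : Exec A (if b then r else q) s s' N) : Exec A (Prog.cond i p q r) s s' (N + 1) := by
  obtain ⟨n, hn, h⟩ := h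
  refine ⟨n + 1, by omega, ?_⟩
  intro k
  rw [Function.iterate_succ_apply]
  have : step A (Prog.cond i p q r :: k, s) = ((if b then r else q) :: k, s) := by
    cases b <;> simp [step, hs]
  rw [this, h]

theorem exec_ask {A : Oracle} {p q : Prog} {i : ℕ} {s s' : ℕ → List Bool} {N : ℕ}
    (h : Exec A (if A (s i) = true then p else q) s s' N) :
    Exec A (Prog.ask i p q) s s' (N + 1) := by
  obtain ⟨n, hn, h⟩ := h
  refine ⟨n + 1, by omega, ?_⟩
  intro k
  rw [Function.iterate_succ_apply]
  have : step A (Prog.ask i p q :: k, s) = ((if A (s i) = true then p else q) :: k, s) := by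
    by_cases hA : A (s i) = true <;> simp [step, hA]
  rw [this, h]

theorem exec_loop_nil {A : Oracle} {p : Prog} {i : ℕ} {s : ℕ → List Bool}
    (hs : s i = []) : Exec A (Prog.loop i p) s s 1 :=
  ⟨1, le_rfl, fun k => by simp [step, hs]⟩

theorem exec_loop_cons {A : Oracle} {p : Prog} {i : ℕ} {s s' s'' : ℕ → List Bool} {N M : ℕ}
    {b : Bool} {l : List Bool} (hs : s i = b :: l) (h1 : Exec A p s s' N)
    (h2 : Exec A (Prog.loop i p) s' s'' M) : Exec A (Prog.loop i p) s s'' (N + M + 1) := by
  obtain ⟨n, hn, h1⟩ := h1
  obtain ⟨m, hm, h2⟩ := h2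
  refine ⟨m + (n + 1), by omega, ?_⟩
  intro k
  rw [Function.iterate_add_apply, Function.iterate_succ_apply]
  have : step A (Prog.loop i p :: k, s) = (p :: Prog.loop i p :: k, s) := by simp [step, hs]
  rw [this, h1, h2]

/-- A loop whose body pops one bit from the control stack: `f b s` is the effect of the body on
the rest of the memory when the bit is `b`. -/
theorem exec_loop {A : Oracle} {p : Prog} {i N : ℕ}
    (F : List Bool → (ℕ → List Bool) → (ℕ → List Bool))
    (hnil : ∀ s, s i = [] → F [] s = s)
    (hbody : ∀ (b : Bool) (l : List Bool) (s : ℕ → List Bool), s i = b :: l →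
      ∃ s', Exec A p s s' N ∧ s' i = l ∧ F l s' = F (b :: l) s) :
    ∀ (l : List Bool) (s : ℕ → List Bool), s i = l →
      Exec A (Prog.loop i p) s (F l s) (l.length * (N + 1) + 1) := by
  intro l
  induction l with
  | nil =>
    intro s hs
    rw [hnil s hs]
    simpa using exec_loop_nil hs
  | cons b l ih =>
    intro s hs
    obtain ⟨s', h1, h2, h3⟩ := hbody b l s hs
    have h4 := ih s' h2
    rw [h3] at h4
    refine (exec_loop_cons hs h1 h4).mono ?_
    simp only [List.length_cons]
    ring_nf
    omega

theorem exec_loop_inv {A : Oracle} {p : Prog} {i N : ℕ}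
    {Inv : List Bool → (ℕ → List Bool) → Prop}
    (hbody : ∀ (b : Bool) (l : List Bool) (s : ℕ → List Bool), s i = b :: l → Inv (b :: l) s →
      ∃ s', Exec A p s s' N ∧ s' i = l ∧ Inv l s') :
    ∀ (l : List Bool) (s : ℕ → List Bool), s i = l → Inv l s →
      ∃ s', Exec A (Prog.loop i p) s s' (l.length * (N + 1) + 1) ∧ s' i = [] ∧ Inv [] s' := by
  intro l
  induction l with
  | nil =>
    intro s hs hI
    exact ⟨s, by simpa using exec_loop_nil hs, hs, hI⟩
  | cons b l ih =>
    intro s hs hI
    obtain ⟨s', h1, h2, h3⟩ := hbody b l s hs hI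
    obtain ⟨s'', h4, h5, h6⟩ := ih s' h2 h3
    refine ⟨s'', (exec_loop_cons hs h1 h4).mono ?_, h5, h6⟩
    simp only [List.length_cons]
    ring_nf
    omega

theorem run_of_exec {A : Oracle} {p : Prog} {xs : List (List Bool)} {s' : ℕ → List Bool} {N : ℕ}
    (h : Exec A p (fun i => xs.getD i []) s' N) : run A p xs N = ([], s') := by
  obtain ⟨n, hn, h⟩ := h
  have h1 : (step A)^[n] (start p xs) = ([], s') := h []
  have h2 : ((step A)^[n] (start p xs)).1 = [] := by rw [h1]
  rw [run, iterate_of_halted h2 hn, h1]

end Pool.Agent.H9
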