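import Mathlib
import Pool.Agent.H9.Run

/-!
Concrete oracle programs and their running times.
-/

set_option autoImplicit false

namespace Pool.Agent.H9

/-- Sequence of a list of programs. -/
def seqs : List Prog → Prog
  | [] => Prog.skip
  | p :: ps => Prog.seq p (seqs ps)

theorem exec_seqs_nil (A : Oracle) (s : ℕ → List Bool) : Exec A (seqs []) s s 1 := exec_skip A s

theorem exec_seqs_cons {A : Oracle} {p : Prog} {ps : List Prog} {s s' s'' : ℕ → List Bool}
    {N M : ℕ} (h1 : Exec A p s s' N) (h2 : Exec A (seqs ps) s' s'' M) :
    Exec A (seqs (p :: ps)) s s'' (N + M + 1) := Exec.seq h1 h2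

/-- Move the content of stack `i` on stack `j` (reversing it). -/
def moveAll (i j : ℕ) : Prog :=
  Prog.loop i (Prog.cond i Prog.skip
    (Prog.seq (Prog.pop i) (Prog.push j false)) (Prog.seq (Prog.pop i) (Prog.push j true)))

theorem exec_moveAll (A : Oracle) {i j : ℕ} (hij : i ≠ j) (s : ℕ → List Bool) :
    ∃ s', Exec A (moveAll i j) s s' ((s i).length * 5 + 1) ∧ s' i = [] ∧
      s' j = (s i).reverse ++ s j ∧ ∀ m, m ≠ i → m ≠ j → s' m = s m := by
  obtain ⟨s', h1, h2, h3⟩ := exec_loop_inv (A := A) (i := i) (N := 4)
    (p := Prog.cond i Prog.skip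
      (Prog.seq (Prog.pop i) (Prog.push j false)) (Prog.seq (Prog.pop i) (Prog.push j true)))
    (Inv := fun l t => (l.reverse ++ t j = (s i).reverse ++ s j) ∧
      ∀ m, m ≠ i → m ≠ j → t m = s m) (by
      intro b l t ht hI
      refine ⟨Function.update (Function.update t i l) j (b :: t j), ?_, ?_, ?_, ?_⟩
      · apply exec_cond_cons ht
        have h1 : Exec A (Prog.seq (Prog.pop i) (Prog.push j b)) t
            (Function.update (Function.update t i l) j (b :: t j)) 3 := by
          have h2 := exec_pop A t i
          rw [ht, List.tail_cons] at h2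
          have h3 := exec_push A (Function.update t i l) j b
          rw [Function.update_of_ne hij.symm] at h3
          exact h2.seq h3
        cases b
        · simpa using h1
        · simpa using h1
      · rw [Function.update_of_ne hij, Function.update_self]
      · rw [Function.update_self]
        have := hI.1
        simp only [List.reverse_cons, List.append_assoc, List.singleton_append] at this
        exact this
      · intro m hm1 hm2
        rw [Function.update_of_ne hm2, Function.update_of_ne hm1]
        exact hI.2 m hm1 hm2) (s i) s rfl ⟨rfl, fun _ _ _ => rfl⟩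
  refine ⟨s', h1, h2, ?_, h3.2⟩
  simpa using h3.1

/-- Move the contents of several stacks on stack `W`. -/
def moves (W : ℕ) : List ℕ → Prog
  | [] => Prog.skip
  | i :: is => Prog.seq (moveAll i W) (moves W is)

theorem exec_moves (A : Oracle) (W : ℕ) : ∀ (is : List ℕ), is.Nodup → W ∉ is →
    ∀ s : ℕ → List Bool, ∃ s', Exec A (moves W is) s s'
      (((is.map s).map List.length).sum * 5 + 2 * is.length + 1) ∧
      s' W = ((is.map s).flatten).reverse ++ s W ∧ ∀ m, m ∉ is → m ≠ W → s' m = s m := by
  intro is
  induction is with
  | nil =>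
    intro _ _ s
    exact ⟨s, (exec_skip A s).mono (by simp), by simp, fun _ _ _ => rfl⟩
  | cons i is ih =>
    intro hnd hW s
    have hiW : i ≠ W := fun h => hW (by simp [h])
    obtain ⟨s1, h1, h2, h3, h4⟩ := exec_moveAll A hiW s
    obtain ⟨s2, h5, h6, h7⟩ := ih hnd.of_cons (fun h => hW (by simp [h])) s1
    have hmap : is.map s1 = is.map s := by
      apply List.map_congr_left
      intro m hm
      apply h4
      · intro e
        subst e
        exact (List.nodup_cons.1 hnd).1 hm
      · intro e
        subst e
        exact hW (by simp [hm])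
    refine ⟨s2, (h1.seq h5).mono ?_, ?_, ?_⟩
    · rw [hmap]
      simp only [List.map_cons, List.sum_cons, List.length_cons]
      ring_nf
      omega
    · rw [h6, hmap, h3]
      simp
    · intro m hm hmW
      have hm1 : m ≠ i := fun h => hm (by simp [h])
      have hm2 : m ∉ is := fun h => hm (by simp [h])
      rw [h7 m hm2 hmW, h4 m hm1 hmW]

/-! ### Squaring a unary number -/

/-- Square the unary number on stack 2 (stacks 3, 4, 5 are work space). -/
def sq : Prog :=
  seqs [Prog.loop 2 (seqs [Prog.pop 2, Prog.push 3 true, Prog.push 4 true]),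
    Prog.loop 3 (seqs [Prog.pop 3, Prog.loop 4 (seqs [Prog.pop 4, Prog.push 5 true,
      Prog.push 2 true]), Prog.loop 5 (seqs [Prog.pop 5, Prog.push 4 true])]),
    Prog.loop 4 (Prog.pop 4)]

theorem exec_sq (A : Oracle) (s : ℕ → List Bool) (m : ℕ) (h2 : s 2 = List.replicate m true)
    (h3 : s 3 = []) (h4 : s 4 = []) (h5 : s 5 = []) :
    ∃ s', Exec A sq s s' (20 * (m + 1) * (m + 1)) ∧ s' 2 = List.replicate (m * m) true ∧
      s' 3 = [] ∧ s' 4 = [] ∧ s' 5 = [] ∧ s' 0 = s 0 ∧ s' 1 = s 1 := by
  -- first loop
  obtain ⟨s1, e1, a1, b1⟩ := exec_loop_inv (A := A) (i := 2) (N := 7)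
    (p := seqs [Prog.pop 2, Prog.push 3 true, Prog.push 4 true])
    (Inv := fun l t => l.length ≤ m ∧ t 3 = List.replicate (m - l.length) true ∧
      t 4 = List.replicate (m - l.length) true ∧ t 5 = [] ∧ t 0 = s 0 ∧ t 1 = s 1) (by
      intro b l t ht hI
      obtain ⟨hI0, hI3, hI4, hI5, hI0', hI1'⟩ := hI
      refine ⟨Function.update (Function.update (Function.update t 2 l) 3 (true :: t 3)) 4
        (true :: t 4), ?_, ?_, ?_, ?_, ?_, ?_, ?_, ?_⟩
      · have g1 := exec_pop A t 2
        rw [ht, List.tail_cons] at g1
        have g2 := exec_push A (Function.update t 2 l) 3 true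
        have g3 := exec_push A (Function.update (Function.update t 2 l) 3 (true :: t 3)) 4 true
        simp only [Function.update_of_ne (show (3 : ℕ) ≠ 2 by norm_num)] at g2
        simp only [Function.update_of_ne (show (4 : ℕ) ≠ 3 by norm_num),
          Function.update_of_ne (show (4 : ℕ) ≠ 2 by norm_num)] at g3
        exact exec_seqs_cons g1 (exec_seqs_cons g2 (exec_seqs_cons g3 (exec_seqs_nil _ _)))
      · simp [Function.update_of_ne]
      · simp only [List.length_cons] at hI0
        omega
      · rw [Function.update_of_ne (by norm_num), Function.update_self, hI3]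
        simp only [List.length_cons] at hI0 ⊢
        have : m - l.length = (m - (l.length + 1)) + 1 := by omega
        rw [this, List.replicate_succ]
      · rw [Function.update_self, hI4]
        simp only [List.length_cons] at hI0 ⊢
        have : m - l.length = (m - (l.length + 1)) + 1 := by omega
        rw [this, List.replicate_succ]
      · simp [Function.update_of_ne, hI5]
      · simp [Function.update_of_ne, hI0']
      · simp [Function.update_of_ne, hI1']) (s 2) s rfl (by
      rw [h2]; simp [h3, h4, h5])
  obtain ⟨_, b3, b4, b5, b0, b1'⟩ := b1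
  simp only [List.length_nil, Nat.sub_zero] at b3 b4
  -- second loop
  obtain ⟨s2, e2, a2, c2⟩ := exec_loop_inv (A := A) (i := 3) (N := 14 * m + 10)
    (p := seqs [Prog.pop 3, Prog.loop 4 (seqs [Prog.pop 4, Prog.push 5 true,
      Prog.push 2 true]), Prog.loop 5 (seqs [Prog.pop 5, Prog.push 4 true])])
    (Inv := fun l t => l.length ≤ m ∧ t 2 = List.replicate ((m - l.length) * m) true ∧
      t 4 = List.replicate m true ∧ t 5 = [] ∧ t 0 = s 0 ∧ t 1 = s 1) (by
      intro b l t ht hI
      obtain ⟨hI0, hI2, hI4, hI5, hI0', hI1'⟩ := hI
      simp only [List.length_cons] at hI0 hI2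
      have g1 := exec_pop A t 3
      rw [ht, List.tail_cons] at g1
      -- inner loop 4
      obtain ⟨u1, f1, f2, f3⟩ := exec_loop_inv (A := A) (i := 4) (N := 7)
        (p := seqs [Prog.pop 4, Prog.push 5 true, Prog.push 2 true])
        (Inv := fun l' t' => l'.length ≤ m ∧ t' 5 = List.replicate (m - l'.length) true ∧
          t' 2 = List.replicate ((m - (l.length + 1)) * m + (m - l'.length)) true ∧
          t' 3 = l ∧ t' 0 = s 0 ∧ t' 1 = s 1) (by
          intro b' l' t' ht' hJ
          obtain ⟨hJ0, hJ5, hJ2, hJ3, hJ0', hJ1'⟩ := hJ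
          simp only [List.length_cons] at hJ0 hJ5 hJ2
          refine ⟨Function.update (Function.update (Function.update t' 4 l') 5 (true :: t' 5)) 2
            (true :: t' 2), ?_, ?_, ?_, ?_, ?_, ?_, ?_, ?_⟩
          · have g1 := exec_pop A t' 4
            rw [ht', List.tail_cons] at g1
            have g2 := exec_push A (Function.update t' 4 l') 5 true
            have g3 := exec_push A (Function.update (Function.update t' 4 l') 5 (true :: t' 5))
              2 true
            simp only [Function.update_of_ne (show (5 : ℕ) ≠ 4 by norm_num)] at g2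
            simp only [Function.update_of_ne (show (2 : ℕ) ≠ 5 by norm_num),
              Function.update_of_ne (show (2 : ℕ) ≠ 4 by norm_num)] at g3
            exact exec_seqs_cons g1 (exec_seqs_cons g2 (exec_seqs_cons g3 (exec_seqs_nil _ _)))
          · simp [Function.update_of_ne]
          · omega
          · rw [Function.update_of_ne (by norm_num), Function.update_self, hJ5]
            have : m - l'.length = (m - (l'.length + 1)) + 1 := by omega
            rw [this, List.replicate_succ]
          · rw [Function.update_self, hJ2]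
            have : (m - (l.length + 1)) * m + (m - l'.length) =
                ((m - (l.length + 1)) * m + (m - (l'.length + 1))) + 1 := by omega
            rw [this, List.replicate_succ]
          · simp [Function.update_of_ne, hJ3]
          · simp [Function.update_of_ne, hJ0']
          · simp [Function.update_of_ne, hJ1']) ((Function.update t 3 l) 4)
          (Function.update t 3 l) rfl (by
          rw [Function.update_of_ne (by norm_num), hI4]
          simp [Function.update_of_ne, hI5, hI2, hI0', hI1'])
      obtain ⟨_, f5, f2', f3', f0, f1'⟩ := f3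
      simp only [List.length_nil, Nat.sub_zero] at f5 f2'
      -- inner loop 5
      obtain ⟨u2, k1, k2, k3⟩ := exec_loop_inv (A := A) (i := 5) (N := 5)
        (p := seqs [Prog.pop 5, Prog.push 4 true])
        (Inv := fun l' t' => l'.length ≤ m ∧ t' 4 = List.replicate (m - l'.length) true ∧
          t' 2 = u1 2 ∧ t' 3 = l ∧ t' 0 = s 0 ∧ t' 1 = s 1) (by
          intro b' l' t' ht' hJ
          obtain ⟨hJ0, hJ4, hJ2, hJ3, hJ0', hJ1'⟩ := hJ
          simp only [List.length_cons] at hJ0 hJ4
          refine ⟨Function.update (Function.update t' 5 l') 4 (true :: t' 4),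
            ?_, ?_, ?_, ?_, ?_, ?_, ?_, ?_⟩
          · have g1 := exec_pop A t' 5
            rw [ht', List.tail_cons] at g1
            have g2 := exec_push A (Function.update t' 5 l') 4 true
            simp only [Function.update_of_ne (show (4 : ℕ) ≠ 5 by norm_num)] at g2
            exact exec_seqs_cons g1 (exec_seqs_cons g2 (exec_seqs_nil _ _))
          · simp [Function.update_of_ne]
          · omega
          · rw [Function.update_self, hJ4]
            have : m - l'.length = (m - (l'.length + 1)) + 1 := by omega
            rw [this, List.replicate_succ]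
          · simp [Function.update_of_ne, hJ2]
          · simp [Function.update_of_ne, hJ3]
          · simp [Function.update_of_ne, hJ0']
          · simp [Function.update_of_ne, hJ1']) (u1 5) u1 rfl (by
          rw [f5]
          simp [f2, f3', f0, f1'])
      obtain ⟨_, k4, k2', k3', k0, k1'⟩ := k3
      simp only [List.length_nil, Nat.sub_zero] at k4
      refine ⟨u2, ?_, k3', by omega, ?_, k4, k2, k0, k1'⟩
      · refine (exec_seqs_cons g1 (exec_seqs_cons f1
          (exec_seqs_cons k1 (exec_seqs_nil _ _)))).mono ?_
        rw [Function.update_of_ne (by norm_num), hI4, f5]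
        simp only [List.length_replicate]
        omega
      · rw [k2', f2']
        have : m - l.length = (m - (l.length + 1)) + 1 := by omega
        rw [this]
        ring_nf) (s1 3) s1 rfl (by
      rw [b3]
      simp [a1, b4, b5, b0, b1'])
  obtain ⟨_, c2', c4, c5, c0, c1⟩ := c2
  simp only [List.length_nil, Nat.sub_zero] at c2'
  -- third loop
  obtain ⟨s3, e3, a3, d3⟩ := exec_loop_inv (A := A) (i := 4) (N := 1) (p := Prog.pop 4)
    (Inv := fun _ t => t 2 = s2 2 ∧ t 3 = [] ∧ t 5 = [] ∧ t 0 = s 0 ∧ t 1 = s 1) (by
      intro b l t ht hI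
      obtain ⟨hI2, hI3, hI5, hI0', hI1'⟩ := hI
      refine ⟨Function.update t 4 l, ?_, ?_, ?_, ?_, ?_, ?_, ?_⟩
      · have g1 := exec_pop A t 4
        rw [ht, List.tail_cons] at g1
        exact g1
      · simp
      · simp [Function.update_of_ne, hI2]
      · simp [Function.update_of_ne, hI3]
      · simp [Function.update_of_ne, hI5]
      · simp [Function.update_of_ne, hI0']
      · simp [Function.update_of_ne, hI1']) (s2 4) s2 rfl ⟨rfl, a2, c5, c0, c1⟩
  obtain ⟨d2, d3', d5, d0, d1⟩ := d3
  refine ⟨s3, ?_, ?_, d3', a3, d5, d0, d1⟩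
  · refine (exec_seqs_cons e1 (exec_seqs_cons e2 (exec_seqs_cons e3 (exec_seqs_nil _ _)))).mono ?_
    rw [h2, b3, c4]
    simp only [List.length_replicate]
    nlinarith
  · rw [d2, c2']

end Pool.Agent.H9
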