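import Mathlib
import Pool.Agent.H9.Progs

/-!
The program computing a padded code of its input, with its running time.
-/

set_option autoImplicit false

namespace Pool.Agent.H9

/-- Code of the triple `(e, x, N)`: `1^e 0 (1 x_1)(1 x_2)... 0 1^N`. -/
def code (e : ℕ) (x : List Bool) (N : ℕ) : List Bool :=
  List.replicate e true ++ false :: (x.flatMap (fun b => [true, b]) ++
    false :: List.replicate N true)

theorem code_length (e : ℕ) (x : List Bool) (N : ℕ) :
    (code e x N).length = e + 2 * x.length + N + 2 := by
  simp only [code, List.length_append, List.length_replicate, List.length_cons,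
    List.length_flatMap]
  simp
  ring

theorem replicate_append_false_inj {a b : ℕ} {u v : List Bool}
    (h : List.replicate a true ++ false :: u = List.replicate b true ++ false :: v) :
    a = b ∧ u = v := by
  induction a generalizing b with
  | zero =>
    cases b with
    | zero => simpa using h
    | succ b => simp [List.replicate_succ] at h
  | succ a ih =>
    cases b with
    | zero => simp [List.replicate_succ] at h
    | succ b =>
      simp only [List.replicate_succ, List.cons_append, List.cons.injEq, true_and] at h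
      obtain ⟨h1, h2⟩ := ih h
      exact ⟨by omega, h2⟩

theorem dbl_inj {x y : List Bool} {u v : List Bool}
    (h : x.flatMap (fun b => [true, b]) ++ false :: u =
      y.flatMap (fun b => [true, b]) ++ false :: v) : x = y ∧ u = v := by
  induction x generalizing y with
  | nil =>
    cases y with
    | nil => simpa using h
    | cons b y => simp at h
  | cons a x ih =>
    cases y with
    | nil => simp at h
    | cons b y =>
      simp only [List.flatMap_cons, List.cons_append, List.nil_append, List.cons.injEq,
        true_and] at h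
      obtain ⟨h1, h2⟩ := h
      obtain ⟨h3, h4⟩ := ih h2
      exact ⟨by rw [h1, h3], h4⟩

theorem code_inj {e e' : ℕ} {x x' : List Bool} {N N' : ℕ} (h : code e x N = code e' x' N') :
    e = e' ∧ x = x' ∧ N = N' := by
  obtain ⟨h1, h2⟩ := replicate_append_false_inj h
  obtain ⟨h3, h4⟩ := dbl_inj h2
  refine ⟨h1, h3, ?_⟩
  have := congrArg List.length h4
  simpa using this

/-! ### Iterated squaring -/

/-- `c` squarings. -/
def sqs : ℕ → Prog
  | 0 => Prog.skip
  | c + 1 => Prog.seq sq (sqs c)

theorem exec_sqs (A : Oracle) : ∀ (c : ℕ) (s : ℕ → List Bool) (m : ℕ), 1 ≤ m →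
    s 2 = List.replicate m true → s 3 = [] → s 4 = [] → s 5 = [] →
    ∃ s', Exec A (sqs c) s s' (c * (20 * (m ^ 2 ^ c + 1) * (m ^ 2 ^ c + 1) + 1) + 1) ∧
      s' 2 = List.replicate (m ^ 2 ^ c) true ∧
      s' 3 = [] ∧ s' 4 = [] ∧ s' 5 = [] ∧ s' 0 = s 0 ∧ s' 1 = s 1 := by
  intro c
  induction c with
  | zero =>
    intro s m hm h2 h3 h4 h5
    exact ⟨s, by simpa [sqs] using exec_skip A s, by simpa using h2, h3, h4, h5, rfl, rfl⟩
  | succ c ih =>
    intro s m hm h2 h3 h4 h5
    obtain ⟨s1, e1, a2, a3, a4, a5, a0, a1⟩ := exec_sq A s m h2 h3 h4 h5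
    obtain ⟨s2, e2, b2, b3, b4, b5, b0, b1⟩ := ih s1 (m * m) (Nat.mul_pos hm hm) a2 a3 a4 a5
    have hpow : (m * m) ^ 2 ^ c = m ^ 2 ^ (c + 1) := by
      rw [← pow_two, ← pow_mul]
      congr 1
      rw [pow_succ, mul_comm]
    rw [hpow] at e2 b2
    refine ⟨s2, (e1.seq e2).mono ?_, b2, b3, b4, b5, b0.trans a0, b1.trans a1⟩
    have h6 : m ≤ m ^ 2 ^ (c + 1) := by
      calc m = m ^ 1 := (pow_one m).symm
        _ ≤ m ^ 2 ^ (c + 1) := Nat.pow_le_pow_right hm Nat.one_le_two_pow
    generalize m ^ 2 ^ (c + 1) = M at h6
    have h7 : 20 * (m + 1) * (m + 1) ≤ 20 * (M + 1) * (M + 1) := by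
      gcongr
    nlinarith

/-- The program computing the code of its input. -/
def mkCode (e c : ℕ) : Prog :=
  seqs [Prog.loop 0 (Prog.cond 0 Prog.skip
      (seqs [Prog.pop 0, Prog.push 1 false, Prog.push 2 true])
      (seqs [Prog.pop 0, Prog.push 1 true, Prog.push 2 true])),
    Prog.push 2 true, Prog.push 2 true,
    sqs c,
    Prog.push 2 false,
    Prog.loop 1 (Prog.cond 1 Prog.skip
      (seqs [Prog.pop 1, Prog.push 2 false, Prog.push 2 true])
      (seqs [Prog.pop 1, Prog.push 2 true, Prog.push 2 true])),
    Prog.push 2 false,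
    seqs (List.replicate e (Prog.push 2 true))]

theorem exec_pushes (A : Oracle) (i : ℕ) : ∀ (e : ℕ) (s : ℕ → List Bool),
    ∃ s', Exec A (seqs (List.replicate e (Prog.push i true))) s s' (2 * e + 1) ∧
      s' i = List.replicate e true ++ s i ∧ ∀ j, j ≠ i → s' j = s j := by
  intro e
  induction e with
  | zero =>
    intro s
    exact ⟨s, by simpa [seqs] using exec_skip A s, by simp, fun _ _ => rfl⟩
  | succ e ih =>
    intro s
    obtain ⟨s1, e1, h1, h2⟩ := ih (Function.update s i (true :: s i))
    refine ⟨s1, ?_, ?_, ?_⟩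
    · rw [List.replicate_succ]
      exact (exec_seqs_cons (exec_push A s i true) e1).mono (by omega)
    · rw [h1, Function.update_self, List.replicate_succ', List.append_assoc]
      rfl
    · intro j hj
      rw [h2 j hj, Function.update_of_ne hj]

/-- A bound for the running time of `mkCode e c` on an input of length `n`. -/
def codeTime (e c n : ℕ) : ℕ :=
  c * (20 * ((n + 2) ^ 2 ^ c + 1) * ((n + 2) ^ 2 ^ c + 1) + 1) + 20 * n + 2 * e + 30

theorem exec_mkCode (A : Oracle) (e c : ℕ) (s : ℕ → List Bool) (h1 : s 1 = []) (h2 : s 2 = [])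
    (h3 : s 3 = []) (h4 : s 4 = []) (h5 : s 5 = []) :
    ∃ s', Exec A (mkCode e c) s s' (codeTime e c (s 0).length) ∧
      s' 2 = code e (s 0) (((s 0).length + 2) ^ 2 ^ c) ∧ s' 0 = [] := by
  -- first loop
  obtain ⟨s1, e1, a0, a1, a2, a3, a4, a5⟩ := exec_loop_inv (A := A) (i := 0) (N := 8)
    (p := Prog.cond 0 Prog.skip
      (seqs [Prog.pop 0, Prog.push 1 false, Prog.push 2 true])
      (seqs [Prog.pop 0, Prog.push 1 true, Prog.push 2 true]))
    (Inv := fun l t => l.reverse ++ t 1 = (s 0).reverse ∧
      (∃ r, t 2 = List.replicate r true ∧ r + l.length = (s 0).length) ∧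
      t 3 = [] ∧ t 4 = [] ∧ t 5 = []) (by
      intro b l t ht hI
      obtain ⟨hI1, ⟨r, hr1, hr2⟩, hI3, hI4, hI5⟩ := hI
      refine ⟨Function.update (Function.update (Function.update t 0 l) 1 (b :: t 1)) 2
        (true :: t 2), ?_, ?_, ?_, ⟨r + 1, ?_, ?_⟩, ?_, ?_, ?_⟩
      · apply exec_cond_cons ht
        have g1 := exec_pop A t 0
        rw [ht, List.tail_cons] at g1
        have g2 := exec_push A (Function.update t 0 l) 1 b
        have g3 := exec_push A (Function.update (Function.update t 0 l) 1 (b :: t 1)) 2 true
        simp only [Function.update_of_ne (show (1 : ℕ) ≠ 0 by norm_num)] at g2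
        simp only [Function.update_of_ne (show (2 : ℕ) ≠ 1 by norm_num),
          Function.update_of_ne (show (2 : ℕ) ≠ 0 by norm_num)] at g3
        have g4 := exec_seqs_cons g1 (exec_seqs_cons g2 (exec_seqs_cons g3 (exec_seqs_nil _ _)))
        cases b
        · simpa using g4
        · simpa using g4
      · simp [Function.update_of_ne]
      · rw [Function.update_of_ne (by norm_num), Function.update_self]
        rw [← hI1]
        simp
      · rw [Function.update_self, hr1, List.replicate_succ]
      · rw [← hr2]
        simp only [List.length_cons]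
        omega
      · simp [Function.update_of_ne, hI3]
      · simp [Function.update_of_ne, hI4]
      · simp [Function.update_of_ne, hI5]) (s 0) s rfl
      ⟨by simp [h1], ⟨0, by simp [h2], by simp⟩, h3, h4, h5⟩
  obtain ⟨r, hr1, hr2⟩ := a2
  simp only [List.length_nil, Nat.add_zero] at hr2
  subst hr2
  simp only [List.reverse_nil, List.nil_append] at a1
  -- push
  have e2 := exec_push A s1 2 true
  have e3 := exec_push A (Function.update s1 2 (true :: s1 2)) 2 true
  rw [Function.update_self, Function.update_idem] at e3
  set s3 := Function.update s1 2 (true :: true :: s1 2) with hs3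
  have c2 : s3 2 = List.replicate ((s 0).length + 2) true := by
    rw [hs3, Function.update_self, hr1, List.replicate_succ, List.replicate_succ]
  have c0 : s3 0 = [] := by rw [hs3, Function.update_of_ne (by norm_num), a0]
  have c1 : s3 1 = (s 0).reverse := by rw [hs3, Function.update_of_ne (by norm_num), a1]
  have c3 : s3 3 = [] := by rw [hs3, Function.update_of_ne (by norm_num), a3]
  have c4 : s3 4 = [] := by rw [hs3, Function.update_of_ne (by norm_num), a4]
  have c5 : s3 5 = [] := by rw [hs3, Function.update_of_ne (by norm_num), a5]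
  -- squarings
  obtain ⟨s4, e4, d2, d3, d4, d5, d0, d1⟩ := exec_sqs A c s3 ((s 0).length + 2) (by omega)
    c2 c3 c4 c5
  set N := ((s 0).length + 2) ^ 2 ^ c with hN
  have e5 := exec_push A s4 2 false
  set s5 := Function.update s4 2 (false :: s4 2) with hs5
  -- second loop
  obtain ⟨s6, e6, f1, f2, f0⟩ := exec_loop_inv (A := A) (i := 1) (N := 8)
    (p := Prog.cond 1 Prog.skip
      (seqs [Prog.pop 1, Prog.push 2 false, Prog.push 2 true])
      (seqs [Prog.pop 1, Prog.push 2 true, Prog.push 2 true]))
    (Inv := fun l t => (l.reverse.flatMap (fun b => [true, b]) ++ t 2 =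
      (s 0).flatMap (fun b => [true, b]) ++ false :: List.replicate N true) ∧ t 0 = []) (by
      intro b l t ht hI
      obtain ⟨hI1, hI0⟩ := hI
      refine ⟨Function.update (Function.update t 1 l) 2 (true :: b :: t 2), ?_, ?_, ?_, ?_⟩
      · apply exec_cond_cons ht
        have g1 := exec_pop A t 1
        rw [ht, List.tail_cons] at g1
        have g2 := exec_push A (Function.update t 1 l) 2 b
        have g3 := exec_push A (Function.update (Function.update t 1 l) 2 (b :: t 2)) 2 true
        simp only [Function.update_of_ne (show (2 : ℕ) ≠ 1 by norm_num)] at g2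
        rw [Function.update_self, Function.update_idem] at g3
        have g4 := exec_seqs_cons g1 (exec_seqs_cons g2 (exec_seqs_cons g3 (exec_seqs_nil _ _)))
        cases b
        · simpa using g4
        · simpa using g4
      · simp [Function.update_of_ne]
      · rw [Function.update_self]
        rw [← hI1]
        simp
      · simp [Function.update_of_ne, hI0]) (s5 1) s5 rfl
      ⟨by
        rw [hs5, Function.update_of_ne (by norm_num), Function.update_self, d1, c1, d2]
        simp, by
        rw [hs5, Function.update_of_ne (by norm_num), d0, c0]⟩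
  simp only [List.reverse_nil, List.flatMap_nil, List.nil_append] at f2
  have e7 := exec_push A s6 2 false
  set s7 := Function.update s6 2 (false :: s6 2) with hs7
  obtain ⟨s8, e8, g2, gj⟩ := exec_pushes A 2 e s7
  refine ⟨s8, ?_, ?_, ?_⟩
  · refine (exec_seqs_cons e1 (exec_seqs_cons e2 (exec_seqs_cons e3 (exec_seqs_cons e4
      (exec_seqs_cons e5 (exec_seqs_cons e6 (exec_seqs_cons e7 (exec_seqs_cons e8
      (exec_seqs_nil _ _))))))))).mono ?_
    have h51 : (s5 1).length = (s 0).length := by
      rw [hs5, Function.update_of_ne (by norm_num), d1, c1, List.length_reverse]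
    rw [h51, codeTime, ← hN]
    ring_nf
    omega
  · rw [g2, hs7, Function.update_self, f2]
    rfl
  · rw [gj 0 (by norm_num), hs7, Function.update_of_ne (by norm_num), f0]

end Pool.Agent.H9
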