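import Mathlib
import Pool.Agent.H9.DT

/-!
Hastad's block switching lemma (the version adapted to Sipser functions), with a Razborov style
encoding proof.

The variables `v : ν` are grouped in blocks by `blk : ν → ι`. A restriction is a finite set
`X ⊆ ν ⊕ ι`: the variables `v` with `inl v ∉ X` get the constant `c`; the other ones (the special
variables) get the value of their block, which is a new free variable if `inr (blk v) ∈ X` and a
constant `an (blk v)` otherwise.
-/

set_option autoImplicit false

namespace Pool.Agent.H9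

open Classical

variable {ν ι : Type*}

/-- The value of a variable under the restriction `X`, with block constants `an` and free block
variables `y`. -/
noncomputable def full (blk : ν → ι) (c : Bool) (X : Finset (ν ⊕ ι)) (an y : ι → Bool) (v : ν) :
    Bool :=
  if Sum.inl v ∈ X then (if Sum.inr (blk v) ∈ X then y (blk v) else an (blk v)) else c

/-- The variable is not fixed by the restriction. -/
def Star (blk : ν → ι) (X : Finset (ν ⊕ ι)) (v : ν) : Prop :=
  Sum.inl v ∈ X ∧ Sum.inr (blk v) ∈ X

/-- The value of a fixed variable. -/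
noncomputable def fixv (blk : ν → ι) (c : Bool) (X : Finset (ν ⊕ ι)) (an : ι → Bool) (v : ν) :
    Bool :=
  if Sum.inl v ∈ X then an (blk v) else c

/-- The term is falsified by the restriction. -/
def Fals (blk : ν → ι) (c : Bool) (X : Finset (ν ⊕ ι)) (an : ι → Bool) (t : List (ν × Bool)) :
    Prop :=
  ∃ l ∈ t, ¬ Star blk X l.1 ∧ fixv blk c X an l.1 ≠ l.2

/-- The first term not falsified. -/
noncomputable def first (blk : ν → ι) (c : Bool) (F : List (List (ν × Bool)))
    (X : Finset (ν ⊕ ι)) (an : ι → Bool) : Option (List (ν × Bool)) :=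
  F.find? (fun t => decide (¬ Fals blk c X an t))

/-- A pointer literal of a term. -/
def Ptr (blk : ν → ι) (c : Bool) (X : Finset (ν ⊕ ι)) (t : List (ν × Bool)) (l : ν × Bool) : Prop :=
  l ∈ t ∧ Star blk X l.1 ∧
    (l.2 = c ∨ ∀ l' ∈ t, blk l'.1 = blk l.1 → Sum.inl l'.1 ∈ X → l'.2 ≠ c)

/-- The current term of the process. -/
def Cur (blk : ν → ι) (c : Bool) (F : List (List (ν × Bool))) (m : Option (List (ν × Bool)))
    (X : Finset (ν ⊕ ι)) (an : ι → Bool) (t : List (ν × Bool)) : Prop :=
  m = some t ∨ (m = none ∧ first blk c F X an = some t)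

/-- The canonical process following a code, together with the encoded restriction. -/
inductive Proc (blk : ν → ι) (c : Bool) (F : List (List (ν × Bool))) :
    List (ℕ × Bool × Bool) → Option (List (ν × Bool)) → Finset (ν ⊕ ι) → (ι → Bool) →
      Finset (ν ⊕ ι) → Prop
  | nil (m : Option (List (ν × Bool))) (X : Finset (ν ⊕ ι)) (an : ι → Bool) :
      Proc blk c F [] m X an X
  | step (j : ℕ) (last a : Bool) (cs : List (ℕ × Bool × Bool)) (m : Option (List (ν × Bool)))
      (X : Finset (ν ⊕ ι)) (an : ι → Bool) (X1 : Finset (ν ⊕ ι)) (t : List (ν × Bool))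
      (l : ν × Bool) (hcur : Cur blk c F m X an t) (hj : t[j]? = some l)
      (hptr : Ptr blk c X t l)
      (hlast : last = true → ∀ l', ¬ Ptr blk c (X.erase (Sum.inr (blk l.1))) t l')
      (hrec : Proc blk c F cs (if last then none else some t) (X.erase (Sum.inr (blk l.1)))
        (Function.update an (blk l.1) a) X1) :
      Proc blk c F ((j, last, a) :: cs) m X an
        (if l.2 = c then insert (Sum.inr (blk l.1)) (X1.erase (Sum.inl l.1)) else X1)

variable {blk : ν → ι} {c : Bool} {F : List (List (ν × Bool))}

theorem ptr_of_star {X : Finset (ν ⊕ ι)} {t : List (ν × Bool)} {l : ν × Bool} (hl : l ∈ t)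
    (hs : Star blk X l.1) : ∃ l', Ptr blk c X t l' := by
  by_cases h : ∀ l' ∈ t, blk l'.1 = blk l.1 → Sum.inl l'.1 ∈ X → l'.2 ≠ c
  · exact ⟨l, hl, hs, Or.inr h⟩
  · push Not at h
    obtain ⟨l', h1, h2, h3, h4⟩ := h
    exact ⟨l', h1, ⟨h3, h2 ▸ hs.2⟩, Or.inl h4⟩

theorem Proc.sub {cs : List (ℕ × Bool × Bool)} {m : Option (List (ν × Bool))}
    {X X' : Finset (ν ⊕ ι)} {an : ι → Bool} (h : Proc blk c F cs m X an X') : X' ⊆ X := by
  induction h with
  | nil m X an => exact Finset.Subset.refl _
  | step j last a cs m X an X1 t l hcur hj hptr hlast hrec ih =>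
    split_ifs with hc
    · intro z hz
      rw [Finset.mem_insert, Finset.mem_erase] at hz
      rcases hz with rfl | ⟨_, hz⟩
      · exact hptr.2.1.2
      · exact Finset.mem_of_mem_erase (ih hz)
    · intro z hz
      exact Finset.mem_of_mem_erase (ih hz)

theorem Proc.keep {cs : List (ℕ × Bool × Bool)} {m : Option (List (ν × Bool))}
    {X X' : Finset (ν ⊕ ι)} {an : ι → Bool} (h : Proc blk c F cs m X an X') :
    ∀ v, Sum.inr (blk v) ∉ X → (Sum.inl v ∈ X' ↔ Sum.inl v ∈ X) := by
  induction h with
  | nil m X an => intro v _; exact Iff.rfl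
  | step j last a cs m X an X1 t l hcur hj hptr hlast hrec ih =>
    intro v hv
    have hne : blk v ≠ blk l.1 := by
      intro e
      exact hv (e ▸ hptr.2.1.2)
    have hvl : v ≠ l.1 := fun e => hne (by rw [e])
    have h1 : Sum.inr (blk v) ∉ X.erase (Sum.inr (blk l.1)) := by
      intro h
      exact hv (Finset.mem_of_mem_erase h)
    have h2 := ih v h1
    have h3 : (Sum.inl v ∈ X.erase (Sum.inr (blk l.1))) ↔ Sum.inl v ∈ X := by
      simp [Finset.mem_erase]
    split_ifs with hc
    · rw [Finset.mem_insert, Finset.mem_erase]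
      constructor
      · rintro (h | ⟨_, h⟩)
        · exact absurd h (by simp)
        · exact h3.1 (h2.1 h)
      · intro h
        exact Or.inr ⟨by simpa using hvl, h2.2 (h3.2 h)⟩
    · exact h2.trans h3

theorem Proc.card {cs : List (ℕ × Bool × Bool)} {m : Option (List (ν × Bool))}
    {X X' : Finset (ν ⊕ ι)} {an : ι → Bool} (h : Proc blk c F cs m X an X') :
    X'.card + cs.length = X.card := by
  induction h with
  | nil m X an => simp
  | step j last a cs m X an X1 t l hcur hj hptr hlast hrec ih =>
    have hmem : Sum.inr (blk l.1) ∈ X := hptr.2.1.2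
    have h0 : (X.erase (Sum.inr (blk l.1))).card + 1 = X.card :=
      Finset.card_erase_add_one hmem
    have hnot : Sum.inr (blk l.1) ∉ X1 := fun h => by
      have := hrec.sub h
      simp at this
    split_ifs with hc
    · have hv : Sum.inl l.1 ∈ X1 := by
        rw [hrec.keep l.1 (by simp)]
        simp [Finset.mem_erase, hptr.2.1.1]
      have h1 : Sum.inr (blk l.1) ∉ X1.erase (Sum.inl l.1) := fun h =>
        hnot (Finset.mem_of_mem_erase h)
      rw [Finset.card_insert_of_notMem h1, Finset.card_erase_add_one hv, List.length_cons]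
      omega
    · rw [List.length_cons]
      omega

/-- Fixed variables keep their value under the encoding. -/
theorem Proc.fixed {cs : List (ℕ × Bool × Bool)} {m : Option (List (ν × Bool))}
    {X X' : Finset (ν ⊕ ι)} {an : ι → Bool} (h : Proc blk c F cs m X an X') (v : ν)
    (hv : ¬ Star blk X v) : ¬ Star blk X' v ∧ fixv blk c X' an v = fixv blk c X an v := by
  by_cases h1 : Sum.inl v ∈ X
  · have h2 : Sum.inr (blk v) ∉ X := fun h2 => hv ⟨h1, h2⟩
    have h3 := (h.keep v h2).2 h1
    refine ⟨fun h4 => h2 (h.sub h4.2), ?_⟩
    simp [fixv, h1, h3]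
  · have h3 : Sum.inl v ∉ X' := fun h3 => h1 (h.sub h3)
    refine ⟨fun h4 => h3 h4.1, ?_⟩
    simp [fixv, h1, h3]

theorem Proc.unfals {cs : List (ℕ × Bool × Bool)} {m : Option (List (ν × Bool))}
    {X X' : Finset (ν ⊕ ι)} {an : ι → Bool} (h : Proc blk c F cs m X an X') :
    (∀ i, Sum.inr i ∈ X → an i = !c) → ∀ t, Cons t → Cur blk c F m X an t →
      ∀ l ∈ t, Star blk X l.1 → Star blk X' l.1 ∨ fixv blk c X' an l.1 = l.2 := by
  induction h with
  | nil m X an => intro _ t _ _ l _ hs; exact Or.inl hs
  | step j last a cs m X an X1 t0 l0 hcur hj hptr hlast hrec ih =>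
    intro hinv t ht hc' l hl hs
    have htt : t0 = t := by
      rcases hcur with h1 | ⟨h1, h2⟩ <;> rcases hc' with h3 | ⟨h3, h4⟩
      · rw [h1] at h3; exact Option.some.inj h3
      · rw [h1] at h3; exact absurd h3 (by simp)
      · rw [h1] at h3; exact absurd h3 (by simp)
      · rw [h2] at h4; exact Option.some.inj h4
    subst htt
    have hnot : Sum.inr (blk l0.1) ∉ X1 := fun h => by
      have := hrec.sub h
      simp at this
    by_cases hb : blk l.1 = blk l0.1
    · have hlX1 : Sum.inl l.1 ∈ X1 := by
        rw [hrec.keep l.1 (by rw [hb]; simp)]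
        simp [Finset.mem_erase, hs.1]
      by_cases hc0 : l0.2 = c
      · rw [if_pos hc0]
        by_cases hv : l.1 = l0.1
        · right
          have : Sum.inl l.1 ∉ insert (Sum.inr (blk l0.1)) (X1.erase (Sum.inl l0.1)) := by
            rw [hv]; simp
          rw [fixv, if_neg this]
          by_contra hne
          apply ht l.1
          have e1 : (l.1, c) ∈ t0 := by
            rw [hv, ← hc0]; exact hptr.1
          have e2 : (l.1, !c) ∈ t0 := by
            have : l.2 = !c := by
              cases h5 : l.2 <;> cases h6 : c <;> simp_all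
            rw [← this]; exact hl
          cases h6 : c
          · rw [h6] at e1 e2; exact ⟨e2, e1⟩
          · rw [h6] at e1 e2; exact ⟨e1, e2⟩
        · left
          refine ⟨?_, ?_⟩
          · rw [Finset.mem_insert, Finset.mem_erase]
            exact Or.inr ⟨by simpa using hv, hlX1⟩
          · rw [hb]; exact Finset.mem_insert_self _ _
      · rw [if_neg hc0]
        right
        rw [fixv, if_pos hlX1, hb, hinv _ hptr.2.1.2]
        rcases hptr.2.2 with h | h
        · exact absurd h hc0
        · have := h l hl hb hs.1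
          cases h5 : l.2 <;> cases h6 : c <;> simp_all
    · have hs1 : Star blk (X.erase (Sum.inr (blk l0.1))) l.1 := by
        refine ⟨by simp [Finset.mem_erase, hs.1], ?_⟩
        rw [Finset.mem_erase]
        exact ⟨by simpa using hb, hs.2⟩
      have hvne : l.1 ≠ l0.1 := fun e => hb (by rw [e])
      cases last with
      | true =>
        obtain ⟨l', hl'⟩ := ptr_of_star (c := c) hl hs1
        exact absurd hl' (hlast rfl l')
      | false =>
        have hinv1 : ∀ i, Sum.inr i ∈ X.erase (Sum.inr (blk l0.1)) →
            Function.update an (blk l0.1) a i = !c := by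
          intro i hi
          rw [Finset.mem_erase] at hi
          have : i ≠ blk l0.1 := by
            intro e; exact hi.1 (by rw [e])
          rw [Function.update_of_ne this]
          exact hinv i hi.2
        have h1 := ih hinv1 t0 ht (Or.inl (by simp)) l hl hs1
        have key : ∀ Y : Finset (ν ⊕ ι), (Sum.inl l.1 ∈ Y ↔ Sum.inl l.1 ∈ X1) →
            (Sum.inr (blk l.1) ∈ Y ↔ Sum.inr (blk l.1) ∈ X1) →
            Star blk Y l.1 ∨ fixv blk c Y an l.1 = l.2 := by
          intro Y hY1 hY2
          rcases h1 with h1 | h1
          · exact Or.inl ⟨hY1.2 h1.1, hY2.2 h1.2⟩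
          · right
            rw [fixv, Function.update_of_ne hb] at h1
            rw [fixv]
            by_cases h7 : Sum.inl l.1 ∈ X1
            · rw [if_pos h7] at h1
              rw [if_pos (hY1.2 h7)]; exact h1
            · rw [if_neg h7] at h1
              rw [if_neg (fun h => h7 (hY1.1 h))]; exact h1
        split_ifs with hc0
        · apply key
          · rw [Finset.mem_insert, Finset.mem_erase]
            constructor
            · rintro (h | ⟨_, h⟩)
              · exact absurd h (by simp)
              · exact h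
            · intro h; exact Or.inr ⟨by simpa using hvne, h⟩
          · rw [Finset.mem_insert, Finset.mem_erase]
            constructor
            · rintro (h | ⟨_, h⟩)
              · exact absurd (Sum.inr.inj h) hb
              · exact h
            · intro h; exact Or.inr ⟨by simp, h⟩
        · exact key X1 Iff.rfl Iff.rfl

theorem Proc.first_eq (hF : ∀ t ∈ F, Cons t) {cs : List (ℕ × Bool × Bool)}
    {X X' : Finset (ν ⊕ ι)} {an : ι → Bool} (h : Proc blk c F cs none X an X')
    (hinv : ∀ i, Sum.inr i ∈ X → an i = !c) {t : List (ν × Bool)}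
    (ht : first blk c F X an = some t) : first blk c F X' an = some t := by
  unfold first at ht ⊢
  rw [List.find?_eq_some_iff_append] at ht ⊢
  obtain ⟨h1, as, bs, h2, h3⟩ := ht
  refine ⟨?_, as, bs, h2, ?_⟩
  · simp only [decide_eq_true_eq] at h1 ⊢
    rintro ⟨l, hl, h4, h5⟩
    have htF : t ∈ F := by rw [h2]; simp
    have hfirst : first blk c F X an = some t := by
      unfold first
      rw [List.find?_eq_some_iff_append]
      exact ⟨by simpa using h1, as, bs, h2, h3⟩
    by_cases hs : Star blk X l.1
    · rcases h.unfals hinv t (hF t htF) (Or.inr ⟨rfl, hfirst⟩) l hl hs with h6 | h6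
      · exact h4 h6
      · exact h5 h6
    · obtain ⟨_, h7⟩ := h.fixed l.1 hs
      apply h1
      exact ⟨l, hl, hs, by rw [← h7]; exact h5⟩
  · intro t' ht'
    have h4 := h3 t' ht'
    simp only [Bool.not_eq_true', decide_eq_false_iff_not, not_not] at h4 ⊢
    obtain ⟨l, hl, h5, h6⟩ := h4
    obtain ⟨h7, h8⟩ := h.fixed l.1 h5
    exact ⟨l, hl, h7, by rw [h8]; exact h6⟩

theorem Proc.inj (hF : ∀ t ∈ F, Cons t) : ∀ (cs : List (ℕ × Bool × Bool))
    (m : Option (List (ν × Bool))) (X Y Z : Finset (ν ⊕ ι)) (an : ι → Bool),
    Proc blk c F cs m X an Z → Proc blk c F cs m Y an Z →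
    (∀ i, Sum.inr i ∈ X → an i = !c) → (∀ i, Sum.inr i ∈ Y → an i = !c) → X = Y := by
  intro cs
  induction cs with
  | nil =>
    intro m X Y Z an hX hY _ _
    cases hX
    cases hY
    rfl
  | cons e cs ih =>
    intro m X Y Z an hX hY hiX hiY
    have hX' := hX
    have hY' := hY
    generalize hZ : Z = Z0 at hX
    cases hX with
    | step j last a _ _ _ _ X1 t l hcur hj hptr hlast hrec =>
      generalize hZ' : Z = Z0' at hY
      cases hY with
      | step _ _ _ _ _ _ _ Y1 t2 l2 hcur2 hj2 hptr2 hlast2 hrec2 =>
        have htt : t = t2 := by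
          rcases hcur with h1 | ⟨h1, h2⟩ <;> rcases hcur2 with h3 | ⟨h3, h4⟩
          · rw [h1] at h3; exact Option.some.inj h3
          · rw [h1] at h3; exact absurd h3 (by simp)
          · rw [h1] at h3; exact absurd h3 (by simp)
          · subst h1
            have e1 := hX'.first_eq hF hiX h2
            have e2 := hY'.first_eq hF hiY h4
            rw [e1] at e2
            exact Option.some.inj e2
        subst htt
        have hll : l = l2 := by
          rw [hj] at hj2; exact Option.some.inj hj2
        subst hll
        have hnX : Sum.inr (blk l.1) ∉ X1 := fun h => by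
          have := hrec.sub h
          simp at this
        have hnY : Sum.inr (blk l.1) ∉ Y1 := fun h => by
          have := hrec2.sub h
          simp at this
        have hvX : Sum.inl l.1 ∈ X1 := by
          rw [hrec.keep l.1 (by simp)]
          simp [Finset.mem_erase, hptr.2.1.1]
        have hvY : Sum.inl l.1 ∈ Y1 := by
          rw [hrec2.keep l.1 (by simp)]
          simp [Finset.mem_erase, hptr2.2.1.1]
        have hXY : X1 = Y1 := by
          have hE := hZ.symm.trans hZ'
          by_cases hc : l.2 = c
          · rw [if_pos hc, if_pos hc] at hE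
            ext z
            by_cases hz1 : z = Sum.inr (blk l.1)
            · subst hz1; exact ⟨fun h => absurd h hnX, fun h => absurd h hnY⟩
            · by_cases hz2 : z = Sum.inl l.1
              · subst hz2; exact ⟨fun _ => hvY, fun _ => hvX⟩
              · have := Finset.ext_iff.1 hE z
                simp only [Finset.mem_insert, Finset.mem_erase, hz1, hz2, false_or, ne_eq,
                  not_false_eq_true, true_and] at this
                exact this
          · rw [if_neg hc, if_neg hc] at hE
            exact hE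
        subst hXY
        have hi1 : ∀ (W : Finset (ν ⊕ ι)), (∀ i, Sum.inr i ∈ W → an i = !c) →
            ∀ i, Sum.inr i ∈ W.erase (Sum.inr (blk l.1)) →
            Function.update an (blk l.1) a i = !c := by
          intro W hW i hi
          rw [Finset.mem_erase] at hi
          have : i ≠ blk l.1 := by
            intro e; exact hi.1 (by rw [e])
          rw [Function.update_of_ne this]
          exact hW i hi.2
        have hE := ih _ _ _ _ _ hrec hrec2 (hi1 X hiX) (hi1 Y hiY)
        have h1 := Finset.insert_erase hptr.2.1.2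
        have h2 := Finset.insert_erase hptr2.2.1.2
        rw [← h1, ← h2, hE]

theorem full_erase {X : Finset (ν ⊕ ι)} (an y : ι → Bool) {i : ι} (hi : Sum.inr i ∈ X) :
    full blk c (X.erase (Sum.inr i)) (Function.update an i (y i)) y = full blk c X an y := by
  funext v
  unfold full
  by_cases h1 : Sum.inl v ∈ X
  · have h1' : Sum.inl v ∈ X.erase (Sum.inr i) := by simp [Finset.mem_erase, h1]
    rw [if_pos h1, if_pos h1']
    by_cases h2 : blk v = i
    · subst h2
      rw [if_neg (by simp), if_pos hi]
      simp
    · have h3 : (Sum.inr (blk v) ∈ X.erase (Sum.inr i)) ↔ Sum.inr (blk v) ∈ X := by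
        rw [Finset.mem_erase]
        exact ⟨fun h => h.2, fun h => ⟨by simpa using h2, h⟩⟩
      by_cases h4 : Sum.inr (blk v) ∈ X
      · rw [if_pos h4, if_pos (h3.2 h4)]
      · rw [if_neg h4, if_neg (fun h => h4 (h3.1 h)), Function.update_of_ne h2]
  · have h1' : Sum.inl v ∉ X.erase (Sum.inr i) := by simp [Finset.mem_erase, h1]
    rw [if_neg h1, if_neg h1']

theorem full_of_not_star {X : Finset (ν ⊕ ι)} (an y : ι → Bool) {v : ν} (hv : ¬ Star blk X v) :
    full blk c X an y v = fixv blk c X an v := by
  unfold full fixv
  by_cases h1 : Sum.inl v ∈ X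
  · rw [if_pos h1, if_pos h1, if_neg (fun h => hv ⟨h1, h⟩)]
  · rw [if_neg h1, if_neg h1]

/-- If no code of length `s + 1` can be followed, the restricted disjunction has a decision tree of
depth `s`. -/
theorem dt_of_not_follow {T : ℕ} (hT : ∀ t ∈ F, t.length ≤ T) :
    ∀ (s : ℕ) (m : Option (List (ν × Bool))) (X : Finset (ν ⊕ ι)) (an : ι → Bool),
      (∀ t, m = some t → t ∈ F ∧ ∃ l, Ptr blk c X t l) →
      (∀ cs : List (ℕ × Bool × Bool), cs.length = s + 1 → (∀ e ∈ cs, e.1 < T) →
        ∀ X', ¬ Proc blk c F cs m X an X') →
      DTP Set.univ s (fun y => ∃ t ∈ F, Sat t (full blk c X an y)) := by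
  intro s
  induction s with
  | zero =>
    intro m X an hm hno
    -- no pointer at all
    have hnp : ∀ t, t ∈ F → Cur blk c F m X an t → ∀ l, ¬ Ptr blk c X t l := by
      intro t htF ht l hl
      obtain ⟨j, hj, hjl⟩ := List.getElem_of_mem hl.1
      have hj' : t[j]? = some l := by
        rw [List.getElem?_eq_getElem hj, hjl]
      refine hno [(j, decide (∀ l', ¬ Ptr blk c (X.erase (Sum.inr (blk l.1))) t l'), true)]
        (by simp) ?_ _ (Proc.step j _ true [] m X an _ t l ht hj' hl ?_ (Proc.nil _ _ _))
      · intro e he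
        simp only [List.mem_singleton] at he
        subst he
        exact lt_of_lt_of_le hj (hT t htF)
      · intro h
        simpa using h
    cases m with
    | some t =>
      obtain ⟨htF, l, hl⟩ := hm t rfl
      exact absurd hl (hnp t htF (Or.inl rfl) l)
    | none =>
      cases hf : first blk c F X an with
      | none =>
        refine (DTP.const 0 False).congr ?_
        intro y
        simp only [false_iff, not_exists, not_and]
        intro t ht hs
        unfold first at hf
        rw [List.find?_eq_none] at hf
        have := hf t ht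
        simp only [decide_eq_true_eq, not_not] at this
        obtain ⟨l, hl, h1, h2⟩ := this
        exact h2 (by rw [← full_of_not_star an y h1]; exact hs l hl)
      | some t =>
        have htF : t ∈ F := List.mem_of_find?_eq_some hf
        have hstar : ∀ l ∈ t, ¬ Star blk X l.1 := by
          intro l hl hs
          obtain ⟨l', hl'⟩ := ptr_of_star (c := c) hl hs
          exact hnp t htF (Or.inr ⟨rfl, hf⟩) l' hl'
        have hnf : ¬ Fals blk c X an t := by
          have := List.find?_some hf
          simpa using this
        refine (DTP.const 0 True).congr ?_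
        intro y
        simp only [true_iff]
        refine ⟨t, htF, ?_⟩
        intro l hl
        rw [full_of_not_star an y (hstar l hl)]
        by_contra h
        exact hnf ⟨l, hl, hstar l hl, h⟩
  | succ s ih =>
    intro m X an hm hno
    -- the step on a pointer
    have hstep : ∀ t, t ∈ F → Cur blk c F m X an t → ∀ l, Ptr blk c X t l →
        DTP Set.univ (s + 1) (fun y => ∃ t ∈ F, Sat t (full blk c X an y)) := by
      intro t htF ht l hl
      obtain ⟨j, hj, hjl⟩ := List.getElem_of_mem hl.1
      have hj' : t[j]? = some l := by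
        rw [List.getElem?_eq_getElem hj, hjl]
      have hrec : ∀ a : Bool, DTP Set.univ s (fun y => ∃ t ∈ F,
          Sat t (full blk c (X.erase (Sum.inr (blk l.1))) (Function.update an (blk l.1) a) y)) := by
        intro a
        apply ih (if decide (∀ l', ¬ Ptr blk c (X.erase (Sum.inr (blk l.1))) t l') = true
          then none else some t)
        · intro t' ht'
          by_cases hd : ∀ l', ¬ Ptr blk c (X.erase (Sum.inr (blk l.1))) t l'
          · rw [if_pos (by simpa using hd)] at ht'
            exact absurd ht' (by simp)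
          · rw [if_neg (by simpa using hd)] at ht'
            obtain rfl := Option.some.inj ht'
            push Not at hd
            exact ⟨htF, hd⟩
        · intro cs hcs hcsT X' hX'
          refine hno ((j, decide (∀ l', ¬ Ptr blk c (X.erase (Sum.inr (blk l.1))) t l'), a) :: cs)
            (by simp [hcs]) ?_ _ (Proc.step j _ a cs m X an _ t l ht hj' hl ?_ hX')
          · intro e he
            rcases List.mem_cons.1 he with rfl | he
            · exact lt_of_lt_of_le hj (hT t htF)
            · exact hcsT e he
          · intro h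
            simpa using h
      refine (DTP.node s (blk l.1) (Set.mem_univ _) _ _ (hrec true) (hrec false)).congr ?_
      intro y
      have hfe := full_erase (c := c) (blk := blk) an y hl.2.1.2
      cases hy : y (blk l.1)
      · rw [hy] at hfe
        simp [hfe]
      · rw [hy] at hfe
        simp [hfe]
    cases m with
    | some t =>
      obtain ⟨htF, l, hl⟩ := hm t rfl
      exact hstep t htF (Or.inl rfl) l hl
    | none =>
      cases hf : first blk c F X an with
      | none =>
        refine (DTP.const _ False).congr ?_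
        intro y
        simp only [false_iff, not_exists, not_and]
        intro t ht hs
        unfold first at hf
        rw [List.find?_eq_none] at hf
        have := hf t ht
        simp only [decide_eq_true_eq, not_not] at this
        obtain ⟨l, hl, h1, h2⟩ := this
        exact h2 (by rw [← full_of_not_star an y h1]; exact hs l hl)
      | some t =>
        have htF : t ∈ F := List.mem_of_find?_eq_some hf
        by_cases hp : ∃ l, Ptr blk c X t l
        · obtain ⟨l, hl⟩ := hp
          exact hstep t htF (Or.inr ⟨rfl, hf⟩) l hl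
        · have hstar : ∀ l ∈ t, ¬ Star blk X l.1 := by
            intro l hl hs
            exact hp (ptr_of_star (c := c) hl hs)
          have hnf : ¬ Fals blk c X an t := by
            have := List.find?_some hf
            simpa using this
          refine (DTP.const _ True).congr ?_
          intro y
          simp only [true_iff]
          refine ⟨t, htF, ?_⟩
          intro l hl
          rw [full_of_not_star an y (hstar l hl)]
          by_contra h
          exact hnf ⟨l, hl, hstar l hl, h⟩

/-! ### Weights -/

/-- The weight of a subset `X` of `U` under the random subset with parameter `p`. -/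
noncomputable def wt {α : Type*} (p : ℝ) (U X : Finset α) : ℝ :=
  p ^ X.card * (1 - p) ^ (U.card - X.card)

theorem wt_nonneg {α : Type*} {p : ℝ} (h0 : 0 ≤ p) (h1 : p ≤ 1) (U X : Finset α) :
    0 ≤ wt p U X :=
  mul_nonneg (pow_nonneg h0 _) (pow_nonneg (by linarith) _)

theorem wt_sum {α : Type*} (p : ℝ) (U : Finset α) : ∑ X ∈ U.powerset, wt p U X = 1 := by
  unfold wt
  rw [Finset.sum_pow_mul_eq_add_pow]
  simp

/-- The probability of a set of restrictions. -/
noncomputable def pr {α : Type*} (p : ℝ) (U : Finset α) (E : Finset α → Prop) : ℝ :=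
  ∑ X ∈ U.powerset.filter E, wt p U X

theorem pr_nonneg {α : Type*} {p : ℝ} (h0 : 0 ≤ p) (h1 : p ≤ 1) (U : Finset α)
    (E : Finset α → Prop) : 0 ≤ pr p U E :=
  Finset.sum_nonneg fun X _ => wt_nonneg h0 h1 U X

theorem pr_mono {α : Type*} {p : ℝ} (h0 : 0 ≤ p) (h1 : p ≤ 1) (U : Finset α)
    {E E' : Finset α → Prop} (h : ∀ X ⊆ U, E X → E' X) : pr p U E ≤ pr p U E' := by
  apply Finset.sum_le_sum_of_subset_of_nonneg
  · intro X hX
    rw [Finset.mem_filter, Finset.mem_powerset] at hX ⊢
    exact ⟨hX.1, h X hX.1 hX.2⟩
  · intro X _ _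
    exact wt_nonneg h0 h1 U X

theorem pr_or {α : Type*} {p : ℝ} (h0 : 0 ≤ p) (h1 : p ≤ 1) (U : Finset α)
    (E E' : Finset α → Prop) : pr p U (fun X => E X ∨ E' X) ≤ pr p U E + pr p U E' := by
  have h : pr p U (fun X => E X ∨ E' X) =
      ∑ X ∈ U.powerset.filter E ∪ U.powerset.filter E', wt p U X := by
    unfold pr
    apply Finset.sum_congr _ (fun _ _ => rfl)
    ext X
    simp only [Finset.mem_filter, Finset.mem_union]
    tauto
  rw [h]
  unfold pr
  have := Finset.sum_nonneg (s := U.powerset.filter E ∩ U.powerset.filter E')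
    (f := fun X => wt p U X) (fun X _ => wt_nonneg h0 h1 U X)
  have h2 := Finset.sum_union_inter (s₁ := U.powerset.filter E) (s₂ := U.powerset.filter E')
    (f := fun X => wt p U X)
  linarith

theorem pr_exists {α κ : Type*} {p : ℝ} (h0 : 0 ≤ p) (h1 : p ≤ 1) (U : Finset α)
    (S : Finset κ) (E : κ → Finset α → Prop) (b : ℝ) (hb : ∀ k ∈ S, pr p U (E k) ≤ b) :
    pr p U (fun X => ∃ k ∈ S, E k X) ≤ S.card * b := by
  induction S using Finset.induction_on with
  | empty =>
    simp only [Finset.notMem_empty, false_and, exists_false, Finset.card_empty, Nat.cast_zero,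
      zero_mul]
    unfold pr
    simp
  | insert k S hk ih =>
    have h2 : pr p U (fun X => ∃ j ∈ insert k S, E j X) ≤
        pr p U (E k) + pr p U (fun X => ∃ j ∈ S, E j X) := by
      refine le_trans (pr_mono h0 h1 U ?_) (pr_or h0 h1 U _ _)
      intro X _ hX
      obtain ⟨j, hj, hjX⟩ := hX
      rcases Finset.mem_insert.1 hj with rfl | hj
      · exact Or.inl hjX
      · exact Or.inr ⟨j, hj, hjX⟩
    have h3 := ih (fun j hj => hb j (Finset.mem_insert_of_mem hj))
    have h4 := hb k (Finset.mem_insert_self k S)
    rw [Finset.card_insert_of_notMem hk]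
    push_cast
    linarith

theorem exists_of_pr_lt_one {α : Type*} {p : ℝ} (U : Finset α) (E : Finset α → Prop)
    (h : pr p U E < 1) : ∃ X ⊆ U, ¬ E X := by
  by_contra hcon
  push Not at hcon
  have : pr p U E = 1 := by
    unfold pr
    rw [Finset.filter_true_of_mem]
    · exact wt_sum p U
    · intro X hX
      exact hcon X (Finset.mem_powerset.1 hX)
  linarith

/-- The probability that a random subset misses `B ⊆ U`. -/
theorem pr_disjoint {α : Type*} {p : ℝ} (U B : Finset α) (hB : B ⊆ U) :
    pr p U (fun X => Disjoint X B) = (1 - p) ^ B.card := by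
  have h1 : pr p U (fun X => Disjoint X B) = ∑ X ∈ (U \ B).powerset, wt p U X := by
    unfold pr
    apply Finset.sum_congr _ (fun _ _ => rfl)
    ext X
    simp only [Finset.mem_filter, Finset.mem_powerset, Finset.subset_sdiff]
  rw [h1]
  have h2 : ∀ X ∈ (U \ B).powerset, wt p U X = wt p (U \ B) X * (1 - p) ^ B.card := by
    intro X hX
    rw [Finset.mem_powerset] at hX
    unfold wt
    have h3 : (U \ B).card + B.card = U.card := Finset.card_sdiff_add_card_eq_card hB
    have h4 : X.card ≤ (U \ B).card := Finset.card_le_card hX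
    rw [mul_assoc, ← pow_add]
    congr 2
    omega
  rw [Finset.sum_congr rfl h2, ← Finset.sum_mul, wt_sum, one_mul]

/-- A fixed code is followed with small probability. -/
theorem pr_follow (hF : ∀ t ∈ F, Cons t) {p : ℝ} (h0 : 0 < p) (h1 : p < 1)
    (U : Finset (ν ⊕ ι)) (cs : List (ℕ × Bool × Bool)) :
    pr p U (fun X => ∃ X', Proc blk c F cs none X (fun _ => !c) X') ≤
      (p / (1 - p)) ^ cs.length := by
  have hq : 0 < 1 - p := by linarith
  set E : Finset (ν ⊕ ι) → Prop := fun X => ∃ X', Proc blk c F cs none X (fun _ => !c) X' with hE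
  let enc : Finset (ν ⊕ ι) → Finset (ν ⊕ ι) := fun X => if h : E X then h.choose else X
  have henc : ∀ X, E X → Proc blk c F cs none X (fun _ => !c) (enc X) := by
    intro X hX
    simp only [enc, dif_pos hX]
    exact hX.choose_spec
  have hw : ∀ X ∈ U.powerset.filter E,
      wt p U X = (p / (1 - p)) ^ cs.length * wt p U (enc X) := by
    intro X hX
    rw [Finset.mem_filter, Finset.mem_powerset] at hX
    have hc := (henc X hX.2).card
    have hle := Finset.card_le_card hX.1
    unfold wt
    rw [div_pow, ← hc, pow_add]
    have e1 : U.card - (enc X).card = (U.card - ((enc X).card + cs.length)) + cs.length := by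
      omega
    rw [e1, pow_add]
    have hne : (1 - p) ^ cs.length ≠ 0 := pow_ne_zero _ hq.ne'
    field_simp
  unfold pr
  rw [Finset.sum_congr rfl hw, ← Finset.mul_sum]
  have hinj : Set.InjOn enc (U.powerset.filter E : Finset (Finset (ν ⊕ ι))) := by
    intro X hX Y hY hXY
    rw [Finset.mem_coe, Finset.mem_filter] at hX hY
    have hx := henc X hX.2
    have hy := henc Y hY.2
    rw [hXY] at hx
    exact Proc.inj hF cs none X Y _ _ hx hy (fun _ _ => rfl) (fun _ _ => rfl)
  have hsum : ∑ X ∈ U.powerset.filter E, wt p U (enc X) ≤ 1 := by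
    rw [← wt_sum p U]
    rw [← Finset.sum_image (f := fun X => wt p U X) hinj]
    apply Finset.sum_le_sum_of_subset_of_nonneg
    · intro Z hZ
      rw [Finset.mem_image] at hZ
      obtain ⟨X, hX, rfl⟩ := hZ
      rw [Finset.mem_filter, Finset.mem_powerset] at hX
      rw [Finset.mem_powerset]
      exact (henc X hX.2).sub.trans hX.1
    · intro X _ _
      exact wt_nonneg h0.le h1.le U X
  calc (p / (1 - p)) ^ cs.length * ∑ X ∈ U.powerset.filter E, wt p U (enc X)
      ≤ (p / (1 - p)) ^ cs.length * 1 :=
        mul_le_mul_of_nonneg_left hsum (pow_nonneg (div_nonneg h0.le hq.le) _)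
    _ = _ := mul_one _

/-- **Block switching lemma.** -/
theorem switching {T : ℕ} (hF : ∀ t ∈ F, t.length ≤ T ∧ Cons t) {p : ℝ} (h0 : 0 < p)
    (h1 : p < 1) (U : Finset (ν ⊕ ι)) (s : ℕ) :
    pr p U (fun X => ¬ DTP Set.univ s
        (fun y => ∃ t ∈ F, Sat t (full blk c X (fun _ => !c) y))) ≤
      (4 * T * (p / (1 - p))) ^ (s + 1) := by
  have hq : 0 < 1 - p := by linarith
  -- the codes
  let codes : Finset (List (ℕ × Bool × Bool)) :=
    (Finset.univ : Finset (Fin (s + 1) → Fin T × Bool × Bool)).image
      (fun f => List.ofFn (fun i => ((f i).1.val, (f i).2)))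
  have hcard : codes.card ≤ (4 * T) ^ (s + 1) := by
    refine le_trans Finset.card_image_le ?_
    rw [Finset.card_univ]
    simp only [Fintype.card_pi, Fintype.card_prod, Fintype.card_fin, Fintype.card_bool,
      Finset.prod_const, Finset.card_univ]
    apply Nat.pow_le_pow_left
    omega
  have hlen : ∀ cs ∈ codes, cs.length = s + 1 := by
    intro cs hcs
    simp only [codes, Finset.mem_image, Finset.mem_univ, true_and] at hcs
    obtain ⟨f, rfl⟩ := hcs
    simp
  have hmem : ∀ cs : List (ℕ × Bool × Bool), cs.length = s + 1 → (∀ e ∈ cs, e.1 < T) →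
      cs ∈ codes := by
    intro cs hcs hT
    simp only [codes, Finset.mem_image, Finset.mem_univ, true_and]
    refine ⟨fun i => (⟨(cs[i.val]'(by rw [hcs]; exact i.2)).1, hT _ (List.getElem_mem _)⟩,
      (cs[i.val]'(by rw [hcs]; exact i.2)).2), ?_⟩
    apply List.ext_getElem
    · simp only [List.length_ofFn, hcs]
    · intro n h1 h2
      simp only [List.getElem_ofFn]
  have hT0 : (0 : ℝ) ≤ p / (1 - p) := div_nonneg h0.le hq.le
  have step1 : pr p U (fun X => ¬ DTP Set.univ s
        (fun y => ∃ t ∈ F, Sat t (full blk c X (fun _ => !c) y))) ≤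
      pr p U (fun X => ∃ cs ∈ codes, ∃ X', Proc blk c F cs none X (fun _ => !c) X') := by
    apply pr_mono h0.le h1.le
    intro X _ hX
    by_contra hcon
    apply hX
    apply dt_of_not_follow (T := T) (fun t ht => (hF t ht).1) s none X (fun _ => !c)
    · intro t ht
      exact absurd ht (by simp)
    · intro cs hcs hcT X' hX'
      exact hcon ⟨cs, hmem cs hcs hcT, X', hX'⟩
  have step2 := pr_exists h0.le h1.le U codes
    (fun cs X => ∃ X', Proc blk c F cs none X (fun _ => !c) X')
    ((p / (1 - p)) ^ (s + 1)) (by
      intro cs hcs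
      have := pr_follow (blk := blk) (c := c) (fun t ht => (hF t ht).2) h0 h1 U cs
      rw [hlen cs hcs] at this
      exact this)
  refine le_trans step1 (le_trans step2 ?_)
  rw [mul_pow (4 * (T : ℝ))]
  apply mul_le_mul_of_nonneg_right _ (pow_nonneg hT0 _)
  calc (codes.card : ℝ) ≤ (((4 * T) ^ (s + 1) : ℕ) : ℝ) := by exact_mod_cast hcard
    _ = (4 * (T : ℝ)) ^ (s + 1) := by push_cast; ring

end Pool.Agent.H9
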