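import Mathlib
import Pool.Agent.H9.Machine
import Pool.Agent.H9.DT
import Pool.Agent.H9.Switch

/-!
The depth hierarchy theorem for alternating quantifier prefixes over decision trees
(Hastad's theorem for Sipser functions).
-/

set_option autoImplicit false

namespace Pool.Agent.H9

open Classical

/-- All bit strings of length `m`. -/
noncomputable def strings (m : ℕ) : Finset (List Bool) :=
  (Finset.univ : Finset (Fin m → Bool)).image List.ofFn

theorem mem_strings {m : ℕ} {u : List Bool} : u ∈ strings m ↔ u.length = m := by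
  unfold strings
  rw [Finset.mem_image]
  constructor
  · rintro ⟨f, _, rfl⟩
    simp
  · intro h
    subst h
    exact ⟨fun i => u.get i, Finset.mem_univ _, List.ofFn_get u⟩

theorem card_strings (m : ℕ) : (strings m).card = 2 ^ m := by
  unfold strings
  rw [Finset.card_image_of_injective _ List.ofFn_injective]
  simp

/-- All tuples of bit strings of prescribed lengths. -/
noncomputable def paths : List ℕ → Finset (List (List Bool))
  | [] => {[]}
  | m :: ms => (strings m ×ˢ paths ms).image (fun z => z.1 :: z.2)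

theorem mem_paths {ms : List ℕ} {us : List (List Bool)} :
    us ∈ paths ms ↔ us.map List.length = ms := by
  induction ms generalizing us with
  | nil => simp [paths]
  | cons m ms ih =>
    simp only [paths, Finset.mem_image, Finset.mem_product, Prod.exists]
    constructor
    · rintro ⟨u, vs, ⟨h1, h2⟩, rfl⟩
      rw [mem_strings] at h1
      rw [ih] at h2
      simp [h1, h2]
    · intro h
      cases us with
      | nil => simp at h
      | cons u vs =>
        simp only [List.map_cons, List.cons.injEq] at h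
        exact ⟨u, vs, ⟨mem_strings.2 h.1, ih.2 h.2⟩, rfl⟩

theorem card_paths (ms : List ℕ) : (paths ms).card = 2 ^ ms.sum := by
  induction ms with
  | nil => simp [paths]
  | cons m ms ih =>
    simp only [paths]
    rw [Finset.card_image_of_injective, Finset.card_product, card_strings, ih, List.sum_cons,
      pow_add]
    rintro ⟨a, b⟩ ⟨c, d⟩ h
    simp only [List.cons.injEq] at h
    exact Prod.ext h.1 h.2

/-- A quantifier over strings of length `m`, existential if `e = true`. -/
def qt (e : Bool) (m : ℕ) (φ : List Bool → Prop) : Prop :=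
  match e with
  | true => ∃ u : List Bool, u.length = m ∧ φ u
  | false => ∀ u : List Bool, u.length = m → φ u

theorem qt_congr {e : Bool} {m : ℕ} {φ ψ : List Bool → Prop}
    (h : ∀ u : List Bool, u.length = m → (φ u ↔ ψ u)) : qt e m φ ↔ qt e m ψ := by
  cases e
  · exact forall_congr' fun u => imp_congr_right fun hu => h u hu
  · exact exists_congr fun u => and_congr_right fun hu => h u hu

/-- Alternating quantifiers over strings of prescribed lengths. -/
def AltL : Bool → List ℕ → (List (List Bool) → Prop) → Prop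
  | _, [], φ => φ []
  | ex, m :: ms, φ => qt ex m (fun u => AltL (!ex) ms (fun us => φ (u :: us)))

theorem AltL_congr {ms : List ℕ} {ex : Bool} {φ ψ : List (List Bool) → Prop}
    (h : ∀ us : List (List Bool), us.map List.length = ms → (φ us ↔ ψ us)) :
    AltL ex ms φ ↔ AltL ex ms ψ := by
  induction ms generalizing ex φ ψ with
  | nil => exact h [] rfl
  | cons m ms ih =>
    apply qt_congr
    intro u hu
    apply ih
    intro us hus
    apply h
    simp [hu, hus]

theorem Alt_eq (ex : Bool) (k m : ℕ) (φ : List (List Bool) → Prop) :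
    Alt ex k m φ ↔ AltL ex (List.replicate k m) φ := by
  induction k generalizing ex φ with
  | zero => exact Iff.rfl
  | succ k ih =>
    rw [List.replicate_succ]
    cases ex
    · exact forall_congr' fun u => imp_congr_right fun _ => ih _ _
    · exact exists_congr fun u => and_congr_right fun _ => ih _ _

theorem AltL_snoc (ex : Bool) (ms : List ℕ) (m : ℕ) (φ : List (List Bool) → Prop) :
    AltL ex (ms ++ [m]) φ ↔
      AltL ex ms (fun us => qt (ex ^^ ms.length.bodd) m (fun u => φ (us ++ [u]))) := by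
  induction ms generalizing ex φ with
  | nil => simp [AltL]
  | cons m0 ms ih =>
    simp only [List.cons_append, AltL]
    apply qt_congr
    intro u _
    rw [ih]
    have : (!ex ^^ ms.length.bodd) = (ex ^^ (m0 :: ms).length.bodd) := by
      simp only [List.length_cons, Nat.bodd_succ]
      cases ex <;> cases ms.length.bodd <;> rfl
    rw [this]

/-- A decision tree can be fooled outside the few variables that it reads. -/
theorem DTP.cert {α : Type*} {Q : Set α} {n : ℕ} {f : (α → Bool) → Prop} (hf : DTP Q n f)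
    (a : α → Bool) : ∃ R : Finset α, R.card ≤ n ∧
      ∀ b : α → Bool, (∀ q ∈ R, a q = b q) → (f a ↔ f b) := by
  induction hf with
  | const n P => exact ⟨∅, by simp, fun b _ => Iff.rfl⟩
  | node n q hq f g _ _ ihf ihg =>
    cases haq : a q with
    | true =>
      obtain ⟨R, hR, h⟩ := ihf
      refine ⟨insert q R, (Finset.card_insert_le _ _).trans (by omega), ?_⟩
      intro b hb
      have h1 : b q = true := by rw [← hb q (Finset.mem_insert_self _ _)]; exact haq
      have h2 := h b (fun r hr => hb r (Finset.mem_insert_of_mem hr))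
      simp [haq, h1, h2]
    | false =>
      obtain ⟨R, hR, h⟩ := ihg
      refine ⟨insert q R, (Finset.card_insert_le _ _).trans (by omega), ?_⟩
      intro b hb
      have h1 : b q = false := by rw [← hb q (Finset.mem_insert_self _ _)]; exact haq
      have h2 := h b (fun r hr => hb r (Finset.mem_insert_of_mem hr))
      simp [haq, h1, h2]

/-- The numerical estimate used for blocks of size at least `4 ^ μ`. -/
theorem pow_estimate {μ B N : ℕ} (hB : B + 3 ≤ 2 ^ μ) (hN : 2 ^ (2 * μ) ≤ N) :
    (2 : ℝ) ^ B * (1 - (1 / 2 : ℝ) ^ μ) ^ N ≤ 1 / 8 := by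
  have hp0 : (0 : ℝ) < (1 / 2 : ℝ) ^ μ := by positivity
  have hp1 : (1 / 2 : ℝ) ^ μ ≤ 1 := pow_le_one₀ (by norm_num) (by norm_num)
  have h1 : (1 - (1 / 2 : ℝ) ^ μ) ^ N ≤ (1 - (1 / 2 : ℝ) ^ μ) ^ (2 ^ (2 * μ)) :=
    pow_le_pow_of_le_one (by linarith) (by linarith) hN
  have h2 : (1 - (1 / 2 : ℝ) ^ μ) ^ (2 ^ (2 * μ)) ≤ (1 / 2 : ℝ) ^ (2 ^ μ) := by
    have h3 : (1 - (1 / 2 : ℝ) ^ μ) ^ (2 ^ μ) ≤ 1 / 2 := by
      have h4 : 1 - (1 / 2 : ℝ) ^ μ ≤ Real.exp (-(1 / 2 : ℝ) ^ μ) := by
        have := Real.add_one_le_exp (-(1 / 2 : ℝ) ^ μ)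
        linarith
      have h5 : (1 - (1 / 2 : ℝ) ^ μ) ^ (2 ^ μ) ≤ Real.exp (-(1 / 2 : ℝ) ^ μ) ^ (2 ^ μ) :=
        pow_le_pow_left₀ (by linarith) h4 _
      rw [← Real.exp_nat_mul] at h5
      have h6 : ((2 ^ μ : ℕ) : ℝ) * (-(1 / 2 : ℝ) ^ μ) = -1 := by
        push_cast
        rw [mul_neg, ← mul_pow]
        norm_num
      rw [h6] at h5
      have h7 : Real.exp (-1) ≤ 1 / 2 := by
        rw [Real.exp_neg, inv_le_comm₀ (Real.exp_pos 1) (by norm_num)]
        have := Real.exp_one_gt_d9
        norm_num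
        linarith
      linarith
    have h8 : (2 : ℕ) ^ (2 * μ) = 2 ^ μ * 2 ^ μ := by rw [two_mul, pow_add]
    rw [h8, pow_mul]
    exact pow_le_pow_left₀ (pow_nonneg (by linarith) _) h3 _
  have h3 : (1 / 2 : ℝ) ^ (2 ^ μ) ≤ (1 / 2 : ℝ) ^ (B + 3) :=
    pow_le_pow_of_le_one (by norm_num) (by norm_num) hB
  have h4 : (2 : ℝ) ^ B * (1 / 2 : ℝ) ^ (B + 3) = 1 / 8 := by
    rw [pow_add, ← mul_assoc, ← mul_pow]
    norm_num
  calc (2 : ℝ) ^ B * (1 - (1 / 2 : ℝ) ^ μ) ^ N
      ≤ (2 : ℝ) ^ B * (1 / 2 : ℝ) ^ (B + 3) := by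
        apply mul_le_mul_of_nonneg_left _ (by positivity)
        linarith
    _ = 1 / 8 := h4

/-- The estimate for the switching lemma. -/
theorem switch_estimate {μ k q T : ℕ} (hT : T * 2 ^ (k + 5) ≤ 2 ^ μ) (hq : q ≤ T) :
    (2 : ℝ) ^ (q * k) * (4 * T * ((1 / 2 : ℝ) ^ μ / (1 - (1 / 2 : ℝ) ^ μ))) ^ (T + 1) ≤ 1 / 4 := by
  rcases Nat.eq_zero_or_pos T with h0 | hTpos
  · subst h0
    simp
  have hμ : 1 ≤ μ := by
    by_contra hcon
    have : μ = 0 := by omega
    subst this
    have h1 : 1 ≤ T := hTpos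
    have h2 : 2 ^ (k + 5) ≥ 2 := by
      calc 2 ^ (k + 5) ≥ 2 ^ 1 := Nat.pow_le_pow_right (by norm_num) (by omega)
        _ = 2 := by norm_num
    nlinarith
  set p : ℝ := (1 / 2 : ℝ) ^ μ with hp
  have hp0 : 0 < p := by positivity
  have hp1 : p ≤ 1 / 2 := by
    calc p ≤ (1 / 2 : ℝ) ^ 1 := pow_le_pow_of_le_one (by norm_num) (by norm_num) hμ
      _ = 1 / 2 := by norm_num
  have hb : p / (1 - p) ≤ 2 * p := by
    rw [div_le_iff₀ (by linarith)]
    nlinarith
  have hb0 : 0 ≤ p / (1 - p) := div_nonneg hp0.le (by linarith)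
  have h1 : (4 * T * (p / (1 - p))) ≤ (1 / 2 : ℝ) ^ (k + 2) := by
    have h2 : (T : ℝ) * 2 ^ (k + 5) * p ≤ 1 := by
      have h3 : (T : ℝ) * 2 ^ (k + 5) ≤ 2 ^ μ := by exact_mod_cast hT
      calc (T : ℝ) * 2 ^ (k + 5) * p ≤ 2 ^ μ * p := mul_le_mul_of_nonneg_right h3 hp0.le
        _ = 1 := by rw [hp, ← mul_pow]; norm_num
    have h4 : 4 * (T : ℝ) * (p / (1 - p)) ≤ 4 * T * (2 * p) :=
      mul_le_mul_of_nonneg_left hb (by positivity)
    have h5 : 4 * (T : ℝ) * (2 * p) = ((T : ℝ) * 2 ^ (k + 5) * p) * (1 / 2 : ℝ) ^ (k + 2) := by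
      have : (2 : ℝ) ^ (k + 5) * (1 / 2 : ℝ) ^ (k + 2) = 8 := by
        have e : k + 5 = (k + 2) + 3 := by ring
        rw [e, pow_add, mul_assoc, mul_comm ((2 : ℝ) ^ 3), ← mul_assoc, ← mul_pow]
        norm_num
      calc 4 * (T : ℝ) * (2 * p) = (T : ℝ) * p * 8 := by ring
        _ = (T : ℝ) * p * ((2 : ℝ) ^ (k + 5) * (1 / 2 : ℝ) ^ (k + 2)) := by rw [this]
        _ = _ := by ring
    rw [h5] at h4
    refine le_trans h4 ?_
    calc ((T : ℝ) * 2 ^ (k + 5) * p) * (1 / 2 : ℝ) ^ (k + 2) ≤ 1 * (1 / 2 : ℝ) ^ (k + 2) :=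
          mul_le_mul_of_nonneg_right h2 (by positivity)
      _ = _ := one_mul _
  have h6 : (4 * T * (p / (1 - p))) ^ (T + 1) ≤ ((1 / 2 : ℝ) ^ (k + 2)) ^ (T + 1) :=
    pow_le_pow_left₀ (by positivity) h1 _
  have h7 : ((1 / 2 : ℝ) ^ (k + 2)) ^ (T + 1) ≤ (1 / 2 : ℝ) ^ (q * k + 2) := by
    rw [← pow_mul]
    apply pow_le_pow_of_le_one (by norm_num) (by norm_num)
    nlinarith [Nat.mul_le_mul_right k hq]
  calc (2 : ℝ) ^ (q * k) * (4 * T * (p / (1 - p))) ^ (T + 1)
      ≤ (2 : ℝ) ^ (q * k) * (1 / 2 : ℝ) ^ (q * k + 2) :=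
        mul_le_mul_of_nonneg_left (h6.trans h7) (by positivity)
    _ = 1 / 4 := by
        rw [pow_add, ← mul_assoc, ← mul_pow]
        norm_num

/-- A good restriction exists: it collapses a family of narrow disjunctions to shallow decision
trees and hits every set of a given family. -/
theorem collapse {ν ι κ : Type*} (blk : ν → ι) (c : Bool) (K : Finset κ)
    (f : κ → (ν → Bool) → Prop) (W s : ℕ)
    (hf : ∀ k ∈ K, ∃ F : List (List (ν × Bool)), (∀ t ∈ F, t.length ≤ W ∧ Cons t) ∧
      ∀ a, f k a ↔ ∃ t ∈ F, Sat t a)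
    (U : Finset (ν ⊕ ι)) (S : Finset (Finset (ν ⊕ ι))) (N : ℕ)
    (hS : ∀ B ∈ S, B ⊆ U ∧ N ≤ B.card) {p : ℝ} (hp0 : 0 < p) (hp1 : p < 1)
    (hnum : K.card * (4 * W * (p / (1 - p))) ^ (s + 1) + S.card * (1 - p) ^ N < 1) :
    ∃ X ⊆ U, (∀ k ∈ K, DTP Set.univ s (fun y => f k (full blk c X (fun _ => !c) y))) ∧
      ∀ B ∈ S, ¬ Disjoint X B := by
  have h1 : pr p U (fun X => ∃ k ∈ K,
      ¬ DTP Set.univ s (fun y => f k (full blk c X (fun _ => !c) y))) ≤
      K.card * (4 * W * (p / (1 - p))) ^ (s + 1) := by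
    apply pr_exists hp0.le hp1.le
    intro k hk
    obtain ⟨F, hF1, hF2⟩ := hf k hk
    have h := switching (blk := blk) (c := c) hF1 hp0 hp1 U s
    refine le_trans (pr_mono hp0.le hp1.le U ?_) h
    intro X _ hX hD
    exact hX (hD.congr (fun y => (hF2 _).symm))
  have h2 : pr p U (fun X => ∃ B ∈ S, Disjoint X B) ≤ S.card * (1 - p) ^ N := by
    apply pr_exists hp0.le hp1.le
    intro B hB
    rw [pr_disjoint U B (hS B hB).1]
    exact pow_le_pow_of_le_one (by linarith) (by linarith) (hS B hB).2
  have h3 := pr_or hp0.le hp1.le U (fun X => ∃ k ∈ K,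
      ¬ DTP Set.univ s (fun y => f k (full blk c X (fun _ => !c) y)))
      (fun X => ∃ B ∈ S, Disjoint X B)
  obtain ⟨X, hXU, hX⟩ := exists_of_pr_lt_one U _ (lt_of_le_of_lt (h3.trans (add_le_add h1 h2)) hnum)
  push Not at hX
  exact ⟨X, hXU, fun k hk => by simpa using hX.1 k hk, fun B hB => hX.2 B hB⟩

/-- The quantified value of a block. -/
theorem block_value {blk : List (List Bool) → List (List Bool)} {e : Bool}
    {X : Finset (List (List Bool) ⊕ List (List Bool))} {y : List (List Bool) → Bool}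
    {i : List (List Bool)} {m : ℕ} (hblk : ∀ w : List Bool, blk (i ++ [w]) = i)
    (hhit : ∃ w : List Bool, w.length = m ∧ Sum.inl (i ++ [w]) ∈ X) :
    qt e m (fun w => full blk (!e) X (fun _ => !(!e)) y (i ++ [w]) = true) ↔
      (if Sum.inr i ∈ X then y i else e) = true := by
  obtain ⟨w0, hw0, hw0X⟩ := hhit
  have key : ∀ w : List Bool, full blk (!e) X (fun _ => !(!e)) y (i ++ [w]) =
      if Sum.inl (i ++ [w]) ∈ X then (if Sum.inr i ∈ X then y i else e) else !e := by
    intro w
    unfold full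
    rw [hblk w]
    simp
  cases e with
  | true =>
    simp only [qt, key]
    constructor
    · rintro ⟨w, hw, h⟩
      by_cases hX : Sum.inl (i ++ [w]) ∈ X
      · rwa [if_pos hX] at h
      · rw [if_neg hX] at h; simp at h
    · intro h
      exact ⟨w0, hw0, by rw [if_pos hw0X]; exact h⟩
  | false =>
    simp only [qt, key]
    constructor
    · intro h
      have := h w0 hw0
      rwa [if_pos hw0X] at this
    · intro h w hw
      by_cases hX : Sum.inl (i ++ [w]) ∈ X
      · rw [if_pos hX]; exact h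
      · rw [if_neg hX]; rfl

/-- One stage: a restriction of the two bottom levels of a Sipser tree. -/
theorem stage {κ : Type*} (ms : List ℕ) (μ h m2 B : ℕ) (e : Bool) (hh : 2 * μ ≤ h)
    (hm2 : 2 * μ ≤ m2) (hB : ms.sum + (2 * μ + h) ≤ B) (hBμ : B + 3 ≤ 2 ^ μ)
    (K : Finset κ) (f : κ → (List (List Bool) → Bool) → Prop) (W s : ℕ)
    (hf : ∀ k ∈ K, ∃ F : List (List (List (List Bool) × Bool)),
      (∀ t ∈ F, t.length ≤ W ∧ Cons t) ∧ ∀ a, f k a ↔ ∃ t ∈ F, Sat t a)
    (hK : (K.card : ℝ) * (4 * W * ((1 / 2 : ℝ) ^ μ / (1 - (1 / 2 : ℝ) ^ μ))) ^ (s + 1) ≤ 1 / 4) :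
    ∃ σ : (List (List Bool) → Bool) → (List (List Bool) → Bool),
      (∀ v, DTP Set.univ 1 (fun b => σ b v = true)) ∧
      (∀ k ∈ K, DTP Set.univ s (fun b => f k (σ b))) ∧
      (∀ g ∈ paths ms, ∀ b : List (List Bool) → Bool,
        qt (!e) (2 * μ + h) (fun u => qt e m2 (fun w => σ b (g ++ [u] ++ [w]) = true)) ↔
          qt (!e) (2 * μ) (fun u => b (g ++ [u]) = true)) ∧
      (∀ g ∈ paths ms, ∀ u ∈ strings (2 * μ), ∃ u'' ∈ strings h, ∃ w ∈ strings m2,
        ∀ b : List (List Bool) → Bool, σ b (g ++ [u ++ u''] ++ [w]) = b (g ++ [u])) := by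
  have hμ : 1 ≤ μ := by
    by_contra hcon
    have : μ = 0 := by omega
    subst this
    simp at hBμ
  set p : ℝ := (1 / 2 : ℝ) ^ μ with hp
  have hp0 : 0 < p := by positivity
  have hp1 : p < 1 := by
    calc p ≤ (1 / 2 : ℝ) ^ 1 := pow_le_pow_of_le_one (by norm_num) (by norm_num) hμ
      _ < 1 := by norm_num
  let blk : List (List Bool) → List (List Bool) := List.dropLast
  have hblk : ∀ (i : List (List Bool)) (w : List Bool), blk (i ++ [w]) = i := fun i w => by
    simp [blk]
  -- the two families of sets to be hit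
  let leafset : List (List Bool) → Finset (List (List Bool) ⊕ List (List Bool)) := fun i =>
    (strings m2).image (fun w => Sum.inl (i ++ [w]))
  let groupset : List (List Bool) × List Bool → Finset (List (List Bool) ⊕ List (List Bool)) :=
    fun gu => (strings h).image (fun u'' => Sum.inr (gu.1 ++ [gu.2 ++ u'']))
  let S1 := (paths (ms ++ [2 * μ + h])).image leafset
  let S2 := (paths ms ×ˢ strings (2 * μ)).image groupset
  let U := (S1 ∪ S2).biUnion id
  have hc1 : ∀ i, (leafset i).card = 2 ^ m2 := by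
    intro i
    simp only [leafset]
    rw [Finset.card_image_of_injective, card_strings]
    intro a b hab
    have := Sum.inl.inj hab
    simpa using this
  have hc2 : ∀ gu, (groupset gu).card = 2 ^ h := by
    intro gu
    simp only [groupset]
    rw [Finset.card_image_of_injective, card_strings]
    intro a b hab
    have := Sum.inr.inj hab
    simpa using this
  have hN : ∀ n, 2 * μ ≤ n → 2 ^ (2 * μ) ≤ 2 ^ n := fun n hn =>
    Nat.pow_le_pow_right (by norm_num) hn
  have hScard : ((S1 ∪ S2).card : ℝ) ≤ 2 * 2 ^ B := by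
    have h1 : S1.card ≤ 2 ^ B := by
      refine Finset.card_image_le.trans ?_
      rw [card_paths]
      apply Nat.pow_le_pow_right (by norm_num)
      simpa using hB
    have h2 : S2.card ≤ 2 ^ B := by
      refine Finset.card_image_le.trans ?_
      rw [Finset.card_product, card_paths, card_strings, ← pow_add]
      apply Nat.pow_le_pow_right (by norm_num)
      omega
    have h3 := Finset.card_union_le S1 S2
    have h4 : (S1 ∪ S2).card ≤ 2 * 2 ^ B := by omega
    exact_mod_cast h4
  obtain ⟨X, hXU, hXf, hXS⟩ := collapse blk (!e) K f W s hf U (S1 ∪ S2) (2 ^ (2 * μ)) (by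
      intro T hT
      refine ⟨?_, ?_⟩
      · intro z hz
        simp only [U, Finset.mem_biUnion, id]
        exact ⟨T, hT, hz⟩
      · rcases Finset.mem_union.1 hT with hT | hT
        · simp only [S1, Finset.mem_image] at hT
          obtain ⟨i, _, rfl⟩ := hT
          rw [hc1]; exact hN _ hm2
        · simp only [S2, Finset.mem_image] at hT
          obtain ⟨gu, _, rfl⟩ := hT
          rw [hc2]; exact hN _ hh) hp0 hp1 (by
      have h1 := pow_estimate (μ := μ) (B := B) (N := 2 ^ (2 * μ)) hBμ le_rfl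
      rw [← hp] at h1
      have h2 : ((S1 ∪ S2).card : ℝ) * (1 - p) ^ (2 ^ (2 * μ)) ≤
          2 * 2 ^ B * (1 - p) ^ (2 ^ (2 * μ)) :=
        mul_le_mul_of_nonneg_right hScard (pow_nonneg (by linarith) _)
      have h3 : 2 * 2 ^ B * (1 - p) ^ (2 ^ (2 * μ)) ≤ 1 / 4 := by
        rw [mul_assoc]; linarith
      linarith)
  have hleaf : ∀ g ∈ paths ms, ∀ u : List Bool, u.length = 2 * μ + h →
      ∃ w : List Bool, w.length = m2 ∧ Sum.inl (g ++ [u] ++ [w]) ∈ X := by
    intro g hg u hu
    have h1 : leafset (g ++ [u]) ∈ S1 ∪ S2 := by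
      apply Finset.mem_union_left
      simp only [S1, Finset.mem_image]
      refine ⟨g ++ [u], ?_, rfl⟩
      rw [mem_paths] at hg ⊢
      simp [hg, hu]
    have h2 := hXS _ h1
    rw [Finset.not_disjoint_iff] at h2
    obtain ⟨z, hzX, hz⟩ := h2
    simp only [leafset, Finset.mem_image] at hz
    obtain ⟨w, hw, rfl⟩ := hz
    exact ⟨w, mem_strings.1 hw, hzX⟩
  have hgroup : ∀ g ∈ paths ms, ∀ u ∈ strings (2 * μ),
      ∃ u'' ∈ strings h, Sum.inr (g ++ [u ++ u'']) ∈ X := by
    intro g hg u hu
    have h1 : groupset (g, u) ∈ S1 ∪ S2 := by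
      apply Finset.mem_union_right
      simp only [S2, Finset.mem_image]
      exact ⟨(g, u), Finset.mem_product.2 ⟨hg, hu⟩, rfl⟩
    have h2 := hXS _ h1
    rw [Finset.not_disjoint_iff] at h2
    obtain ⟨z, hzX, hz⟩ := h2
    simp only [groupset, Finset.mem_image] at hz
    obtain ⟨w, hw, rfl⟩ := hz
    exact ⟨w, hw, hzX⟩
  -- the selected child of every group
  let sel : List (List Bool) → List Bool → List Bool := fun g u =>
    if hgu : ∃ u'' ∈ strings h, Sum.inr (g ++ [u ++ u'']) ∈ X then hgu.choose else []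
  have hsel : ∀ g ∈ paths ms, ∀ u ∈ strings (2 * μ), sel g u ∈ strings h ∧
      Sum.inr (g ++ [u ++ sel g u]) ∈ X := by
    intro g hg u hu
    have h1 := hgroup g hg u hu
    simp only [sel, dif_pos h1]
    exact h1.choose_spec
  -- block values as functions of the new variables
  let yv : (List (List Bool) → Bool) → List (List Bool) → Bool := fun b i =>
    if (i.getLastD []).drop (2 * μ) = sel i.dropLast ((i.getLastD []).take (2 * μ)) then
      b (i.dropLast ++ [(i.getLastD []).take (2 * μ)]) else e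
  have hyv : ∀ b g u, yv b (g ++ [u]) =
      if u.drop (2 * μ) = sel g (u.take (2 * μ)) then b (g ++ [u.take (2 * μ)]) else e := by
    intro b g u
    simp [yv]
  refine ⟨fun b => full blk (!e) X (fun _ => !(!e)) (yv b), ?_, ?_, ?_, ?_⟩
  · intro v
    by_cases h1 : Sum.inl v ∈ X
    · by_cases h2 : Sum.inr (blk v) ∈ X
      · by_cases h3 : ((blk v).getLastD []).drop (2 * μ) =
            sel (blk v).dropLast (((blk v).getLastD []).take (2 * μ))
        · refine (DTP.var ((blk v).dropLast ++ [((blk v).getLastD []).take (2 * μ)])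
            (Set.mem_univ _)).congr ?_
          intro b
          simp only [full, if_pos h1, if_pos h2, yv, if_pos h3]
        · refine (DTP.const 1 (e = true)).congr ?_
          intro b
          simp only [full, if_pos h1, if_pos h2, yv, if_neg h3]
      · refine (DTP.const 1 ((!(!e)) = true)).congr ?_
        intro b
        simp only [full, if_pos h1, if_neg h2]
    · refine (DTP.const 1 ((!e) = true)).congr ?_
      intro b
      simp only [full, if_neg h1]
  · intro k hk
    have h1 := (hXf k hk).comp (R := Set.univ) (m := 1) yv (by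
      intro i _
      by_cases h3 : (i.getLastD []).drop (2 * μ) =
            sel i.dropLast ((i.getLastD []).take (2 * μ))
      · refine (DTP.var (i.dropLast ++ [(i.getLastD []).take (2 * μ)])
            (Set.mem_univ _)).congr ?_
        intro b
        simp only [yv, if_pos h3]
      · refine (DTP.const 1 (e = true)).congr ?_
        intro b
        simp only [yv, if_neg h3])
    simpa using h1
  · intro g hg b
    have hval : ∀ u : List Bool, u.length = 2 * μ + h →
        (qt e m2 (fun w => full blk (!e) X (fun _ => !(!e)) (yv b) (g ++ [u] ++ [w]) = true) ↔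
        (if Sum.inr (g ++ [u]) ∈ X then yv b (g ++ [u]) else e) = true) := by
      intro u hu
      exact block_value (hblk _) (hleaf g hg u hu)
    rw [qt_congr hval]
    -- values of the children
    have hv2 : ∀ u : List Bool, u.length = 2 * μ + h →
        (if Sum.inr (g ++ [u]) ∈ X then yv b (g ++ [u]) else e) =
        if u.drop (2 * μ) = sel g (u.take (2 * μ)) then b (g ++ [u.take (2 * μ)]) else e := by
      intro u hu
      by_cases h1 : u.drop (2 * μ) = sel g (u.take (2 * μ))
      · have h2 : Sum.inr (g ++ [u]) ∈ X := by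
          have h3 := (hsel g hg (u.take (2 * μ)) (mem_strings.2 (by simp [hu]))).2
          rw [← h1, List.take_append_drop] at h3
          exact h3
        rw [if_pos h2, hyv, if_pos h1]
      · rw [hyv, if_neg h1, ite_self]
    cases e with
    | true =>
      simp only [qt, Bool.not_true]
      constructor
      · intro hall u hu
        have h1 := hsel g hg u (mem_strings.2 hu)
        have h2 : (u ++ sel g u).length = 2 * μ + h := by
          simp [hu, mem_strings.1 h1.1]
        have h3 := hall _ h2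
        rw [hv2 _ h2] at h3
        have h4 : (u ++ sel g u).take (2 * μ) = u := by
          rw [← hu, List.take_left]
        have h5 : (u ++ sel g u).drop (2 * μ) = sel g u := by
          rw [← hu, List.drop_left]
        rw [h4, h5, if_pos rfl] at h3
        exact h3
      · intro hall u hu
        rw [hv2 u hu]
        by_cases h1 : u.drop (2 * μ) = sel g (u.take (2 * μ))
        · rw [if_pos h1]
          exact hall _ (by simp [hu])
        · rw [if_neg h1]
    | false =>
      simp only [qt, Bool.not_false]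
      constructor
      · rintro ⟨u, hu, h0⟩
        rw [hv2 u hu] at h0
        by_cases h1 : u.drop (2 * μ) = sel g (u.take (2 * μ))
        · rw [if_pos h1] at h0
          exact ⟨u.take (2 * μ), by simp [hu], h0⟩
        · rw [if_neg h1] at h0
          exact absurd h0 (by simp)
      · rintro ⟨u, hu, h0⟩
        have h1 := hsel g hg u (mem_strings.2 hu)
        have h2 : (u ++ sel g u).length = 2 * μ + h := by
          simp [hu, mem_strings.1 h1.1]
        refine ⟨u ++ sel g u, h2, ?_⟩
        rw [hv2 _ h2]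
        have h4 : (u ++ sel g u).take (2 * μ) = u := by
          rw [← hu, List.take_left]
        have h5 : (u ++ sel g u).drop (2 * μ) = sel g u := by
          rw [← hu, List.drop_left]
        rw [h4, h5, if_pos rfl]
        exact h0
  · intro g hg u hu
    have h1 := hsel g hg u hu
    have h2 : (u ++ sel g u).length = 2 * μ + h := by
      simp [mem_strings.1 hu, mem_strings.1 h1.1]
    obtain ⟨w, hw, hwX⟩ := hleaf g hg _ h2
    refine ⟨sel g u, h1.1, w, mem_strings.2 hw, ?_⟩
    intro b
    have h4 : (u ++ sel g u).take (2 * μ) = u := by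
      rw [← mem_strings.1 hu, List.take_left]
    have h5 : (u ++ sel g u).drop (2 * μ) = sel g u := by
      rw [← mem_strings.1 hu, List.drop_left]
    simp only [full]
    rw [if_pos hwX, hblk, if_pos h1.2, hyv, h4, h5, if_pos rfl]

end Pool.Agent.H9
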