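import Mathlib
import Pool.Agent.H9.Code
import Pool.Agent.H9.Hier

/-!
Basic facts on the relativised classes: monotonicity in the level, and the closure criterion
for `P = NP`.
-/

set_option autoImplicit false

namespace Pool.Agent.H9

/-! ### Polynomials with natural coefficients -/

theorem poly_mono (T : Polynomial ℕ) {a b : ℕ} (h : a ≤ b) : T.eval a ≤ T.eval b := by
  rw [Polynomial.eval_eq_sum_range, Polynomial.eval_eq_sum_range]
  exact Finset.sum_le_sum fun i _ => Nat.mul_le_mul_left _ (Nat.pow_le_pow_left h i)

theorem poly_le_pow (R : Polynomial ℕ) : ∃ c : ℕ, ∀ n : ℕ, R.eval n ≤ (n + 2) ^ 2 ^ c := by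
  set C := ∑ i ∈ Finset.range (R.natDegree + 1), R.coeff i with hC
  refine ⟨C + R.natDegree, fun n => ?_⟩
  have h1 : R.eval n ≤ C * (n + 2) ^ R.natDegree := by
    rw [Polynomial.eval_eq_sum_range, hC, Finset.sum_mul]
    apply Finset.sum_le_sum
    intro i hi
    apply Nat.mul_le_mul_left
    calc n ^ i ≤ (n + 2) ^ i := Nat.pow_le_pow_left (by omega) i
      _ ≤ (n + 2) ^ R.natDegree := Nat.pow_le_pow_right (by omega) (by
        have := Finset.mem_range.1 hi; omega)
  have h2 : C ≤ (n + 2) ^ C := by
    calc C ≤ 2 ^ C := Nat.lt_two_pow_self.le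
      _ ≤ (n + 2) ^ C := Nat.pow_le_pow_left (by omega) C
  calc R.eval n ≤ C * (n + 2) ^ R.natDegree := h1
    _ ≤ (n + 2) ^ C * (n + 2) ^ R.natDegree := Nat.mul_le_mul_right _ h2
    _ = (n + 2) ^ (C + R.natDegree) := by rw [pow_add]
    _ ≤ (n + 2) ^ 2 ^ (C + R.natDegree) :=
      Nat.pow_le_pow_right (by omega) Nat.lt_two_pow_self.le

/-! ### A preliminary phase -/

theorem iterate_seq {A : Oracle} {c p : Prog} {s s' : ℕ → List Bool} {N : ℕ}
    (h : Exec A c s s' N) : ∃ n ≤ N + 1, ∀ t,
      (step A)^[t + n] ([Prog.seq c p], s) = (step A)^[t] ([p], s') := by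
  obtain ⟨n, hn, h⟩ := h
  refine ⟨n + 1, by omega, ?_⟩
  intro t
  rw [← add_assoc, Function.iterate_succ_apply, Function.iterate_add_apply]
  have : step A ([Prog.seq c p], s) = ([c, p], s) := rfl
  rw [this, h]

theorem accepts_seq {A : Oracle} {c p : Prog} {xs ys : List (List Bool)} {N : ℕ}
    (h : Exec A c (fun i => xs.getD i []) (fun i => ys.getD i []) N) :
    Accepts A (Prog.seq c p) xs ↔ Accepts A p ys := by
  obtain ⟨n, _, h⟩ := iterate_seq (p := p) h
  constructor
  · rintro ⟨t, h1, h2⟩
    refine ⟨t, ?_⟩
    have h3 : run A (Prog.seq c p) xs (t + n) = run A p ys t := h t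
    have h4 := run_of_halted h1 (Nat.le_add_right t n)
    unfold AcceptsIn
    rw [← h3, h4]
    exact ⟨h1, h2⟩
  · rintro ⟨t, h1, h2⟩
    refine ⟨t + n, ?_⟩
    have h3 : run A (Prog.seq c p) xs (t + n) = run A p ys t := h t
    unfold AcceptsIn
    rw [h3]
    exact ⟨h1, h2⟩

theorem halts_seq {A : Oracle} {c p : Prog} {xs ys : List (List Bool)} {N t : ℕ}
    (h : Exec A c (fun i => xs.getD i []) (fun i => ys.getD i []) N)
    (ht : (run A p ys t).1 = []) : (run A (Prog.seq c p) xs (t + N + 1)).1 = [] := by
  obtain ⟨n, hn, h⟩ := iterate_seq (p := p) h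
  have h3 : run A (Prog.seq c p) xs (t + n) = run A p ys t := h t
  have h4 : (run A (Prog.seq c p) xs (t + n)).1 = [] := by rw [h3]; exact ht
  rw [run_of_halted h4 (by omega)]
  exact h4

/-- Empty the stack `j`. -/
theorem exec_clear (A : Oracle) (j : ℕ) : ∀ (l : List Bool) (s : ℕ → List Bool), s j = l →
    Exec A (Prog.loop j (Prog.pop j)) s (Function.update s j []) (l.length * 2 + 1) := by
  intro l
  induction l with
  | nil =>
    intro s hs
    have : Function.update s j [] = s := by
      rw [← hs]; exact Function.update_eq_self j s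
    rw [this]
    simpa using exec_loop_nil hs
  | cons b l ih =>
    intro s hs
    have h1 := exec_pop A s j
    rw [hs, List.tail_cons] at h1
    have h2 := ih (Function.update s j l) (by simp)
    rw [Function.update_idem] at h2
    refine (exec_loop_cons hs h1 h2).mono ?_
    simp only [List.length_cons]
    omega

/-! ### The levels are increasing -/

theorem getD_append_singleton (ys : List (List Bool)) (z : List Bool) :
    Function.update (fun i => (ys ++ [z]).getD i []) ys.length [] = fun i => ys.getD i [] := by
  funext i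
  by_cases hi : i = ys.length
  · subst hi
    simp
  · rw [Function.update_of_ne hi]
    rcases Nat.lt_or_gt_of_ne hi with h | h
    · simp [List.getD_eq_getElem?_getD, List.getElem?_append_left h]
    · have h1 : (ys ++ [z])[i]? = none := by
        rw [List.getElem?_eq_none_iff]
        simp
        omega
      have h2 : ys[i]? = none := by
        rw [List.getElem?_eq_none_iff]
        omega
      simp [List.getD_eq_getElem?_getD, h1, h2]

theorem totalLength_append (ys : List (List Bool)) (z : List Bool) :
    totalLength (ys ++ [z]) = totalLength ys + z.length := by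
  simp [totalLength]

theorem sigmaP_mono (A : Oracle) (k : ℕ) : SigmaP A k ⊆ SigmaP A (k + 1) := by
  rintro L ⟨q, p, ⟨T, hT⟩, hL⟩
  have hclear : ∀ (ys : List (List Bool)) (z : List Bool), ys.length = k + 1 →
      Exec A (Prog.loop (k + 1) (Prog.pop (k + 1))) (fun i => (ys ++ [z]).getD i [])
        (fun i => ys.getD i []) (z.length * 2 + 1) := by
    intro ys z hys
    have h := exec_clear A (k + 1) z (fun i => (ys ++ [z]).getD i []) (by
      simp [← hys])
    rw [← hys, getD_append_singleton] at h
    rw [← hys]
    exact h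
  refine ⟨q, Prog.seq (Prog.loop (k + 1) (Prog.pop (k + 1))) p, ?_, ?_⟩
  · refine ⟨T + Polynomial.X * 2 + 2, ?_⟩
    intro xs hxs
    obtain ⟨ys, z, rfl⟩ : ∃ ys z, xs = ys ++ [z] := by
      have : xs ≠ [] := by
        intro h; rw [h] at hxs; simp at hxs
      exact ⟨xs.dropLast, xs.getLast this, (List.dropLast_append_getLast this).symm⟩
    have hys : ys.length = k + 1 := by simpa using hxs
    have h1 := halts_seq (hclear ys z hys) (hT ys hys)
    have h2 : T.eval (totalLength ys) ≤ T.eval (totalLength (ys ++ [z])) :=
      poly_mono T (by rw [totalLength_append]; omega)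
    have h3 : T.eval (totalLength ys) + (z.length * 2 + 1) + 1 ≤
        (T + Polynomial.X * 2 + 2).eval (totalLength (ys ++ [z])) := by
      have h5 : z.length ≤ totalLength (ys ++ [z]) := by rw [totalLength_append]; omega
      simp only [Polynomial.eval_add, Polynomial.eval_mul, Polynomial.eval_X,
        Polynomial.eval_ofNat]
      omega
    rw [run_of_halted h1 h3]
    exact h1
  · intro x
    rw [hL x, Alt_eq, Alt_eq]
    rw [List.replicate_succ', AltL_snoc]
    apply AltL_congr
    intro us hus
    have hlen : us.length = k := by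
      have := congrArg List.length hus
      simpa using this
    have hkey : ∀ u : List Bool, (Accepts A (Prog.seq (Prog.loop (k + 1) (Prog.pop (k + 1))) p)
        (x :: (us ++ [u])) ↔ Accepts A p (x :: us)) := by
      intro u
      exact accepts_seq (hclear (x :: us) u (by simp [hlen]))
    generalize (true ^^ (List.replicate k (Polynomial.eval x.length q)).length.bodd) = e
    cases e with
    | true =>
      simp only [qt]
      constructor
      · intro h
        exact ⟨List.replicate (q.eval x.length) true, by simp, (hkey _).2 h⟩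
      · rintro ⟨u, _, h⟩
        exact (hkey u).1 h
    | false =>
      simp only [qt]
      constructor
      · intro h u _
        exact (hkey u).2 h
      · intro h
        exact (hkey (List.replicate (q.eval x.length) true)).1 (h _ (by simp))

/-! ### The closure criterion -/

/-- A word `w = code e x N` is in the slow universal existential set relative to `A`: the machine
number `e` with certificates of length `q(|x|)` accepts within `t = T(|x| + q(|x|))` steps, where
`(t + |x| + q(|x|) + 2)^2 ≤ N`. -/
def KProp (g : ℕ → Prog × Polynomial ℕ × Polynomial ℕ) (A : Oracle) (w : List Bool) : Prop :=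
  ∃ (e : ℕ) (x : List Bool) (N : ℕ), w = code e x N ∧
    ((g e).2.2.eval (x.length + (g e).2.1.eval x.length) + x.length +
      (g e).2.1.eval x.length + 2) ^ 2 ≤ N ∧
    ∃ u : List Bool, u.length = (g e).2.1.eval x.length ∧
      AcceptsIn A (g e).1 [x, u] ((g e).2.2.eval (x.length + (g e).2.1.eval x.length))

theorem kprop_local {g : ℕ → Prog × Polynomial ℕ × Polynomial ℕ} {A A' : Oracle} {w : List Bool}
    (h : ∀ v : List Bool, (v.length + 2) ^ 2 ≤ w.length → A v = A' v) :
    KProp g A w ↔ KProp g A' w := by
  unfold KProp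
  apply exists_congr; intro e
  apply exists_congr; intro x
  apply exists_congr; intro N
  apply and_congr_right; intro hw
  apply and_congr_right; intro hN
  apply exists_congr; intro u
  apply and_congr_right; intro hu
  refine (dtp_acceptsIn (g e).1 [x, u] _
    ((g e).2.2.eval (x.length + (g e).2.1.eval x.length) + x.length +
      (g e).2.1.eval x.length) ?_).depends ?_
  · simp only [totalLength, List.map_cons, List.map_nil, List.sum_cons, List.sum_nil, hu]
    omega
  · intro v hv
    apply h
    have h1 : v.length + 2 ≤ (g e).2.2.eval (x.length + (g e).2.1.eval x.length) + x.length +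
      (g e).2.1.eval x.length + 2 := by
      have : v.length ≤ _ := hv
      omega
    calc (v.length + 2) ^ 2 ≤ _ := Nat.pow_le_pow_left h1 2
      _ ≤ N := hN
      _ ≤ w.length := by rw [hw, code_length]; omega

/-- If some program answers queries to the slow universal existential set, then `P = NP`. -/
theorem sigma_zero_eq_one (A : Oracle) (g : ℕ → Prog × Polynomial ℕ × Polynomial ℕ)
    (hg : Function.Surjective g) (fin : Prog) (N0 : ℕ)
    (hfin : ∀ s : ℕ → List Bool, s 0 = [] → ∃ s', Exec A fin s s' N0 ∧
      ((s' 0).head? = some true ↔ KProp g A (s 2))) :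
    SigmaP A 0 = SigmaP A 1 := by
  apply Set.Subset.antisymm (sigmaP_mono A 0)
  rintro L ⟨q, p, ⟨T, hT⟩, hL⟩
  obtain ⟨e, he⟩ := hg (p, q, T)
  obtain ⟨c, hc⟩ := poly_le_pow ((T.comp (Polynomial.X + q) + Polynomial.X + q + 2) ^ 2)
  -- the running time
  have hrun : ∀ x : List Bool, ∃ s', run A (Prog.seq (mkCode e c) fin) [x]
      (codeTime e c x.length + N0 + 1) = ([], s') ∧
      ((s' 0).head? = some true ↔ KProp g A (code e x ((x.length + 2) ^ 2 ^ c))) := by
    intro x
    obtain ⟨s1, h1, h2, h3⟩ := exec_mkCode A e c (fun i => [x].getD i []) (by simp) (by simp)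
      (by simp) (by simp) (by simp)
    obtain ⟨s2, h4, h5⟩ := hfin s1 h3
    refine ⟨s2, run_of_exec ?_, ?_⟩
    · have := h1.seq h4
      simpa using this
    · rw [h5, h2]
      simp
  refine ⟨0, Prog.seq (mkCode e c) fin, ?_, ?_⟩
  · -- polynomial time
    refine ⟨Polynomial.C c * (20 * ((Polynomial.X + 2) ^ 2 ^ c + 1) *
      ((Polynomial.X + 2) ^ 2 ^ c + 1) + 1) + 20 * Polynomial.X + Polynomial.C (2 * e + 30) +
      Polynomial.C (N0 + 1), ?_⟩
    intro xs hxs
    obtain ⟨x, rfl⟩ := List.length_eq_one_iff.1 hxs
    obtain ⟨s', h1, _⟩ := hrun x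
    have h2 : (run A (Prog.seq (mkCode e c) fin) [x] (codeTime e c x.length + N0 + 1)).1 = [] := by
      rw [h1]
    rw [run_of_halted h2]
    · exact h2
    · simp only [totalLength, List.map_cons, List.map_nil, List.sum_cons, List.sum_nil,
        Polynomial.eval_add, Polynomial.eval_mul, Polynomial.eval_X,
        Polynomial.eval_ofNat, Polynomial.eval_C, Polynomial.eval_pow, Polynomial.eval_one,
        add_zero, codeTime]
      omega
  · intro x
    show x ∈ L ↔ Accepts A (Prog.seq (mkCode e c) fin) [x]
    obtain ⟨s', h1, h2⟩ := hrun x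
    have h3 : (run A (Prog.seq (mkCode e c) fin) [x] (codeTime e c x.length + N0 + 1)).1 = [] := by
      rw [h1]
    rw [accepts_iff_of_halted h3, hL x]
    unfold AcceptsIn
    rw [h1]
    simp only [true_and]
    rw [h2]
    have hge1 : (g e).1 = p := by rw [he]
    have hge2 : (g e).2.1 = q := by rw [he]
    have hge3 : (g e).2.2 = T := by rw [he]
    have hhalt : ∀ u : List Bool, u.length = q.eval x.length →
        (run A p [x, u] (T.eval (x.length + q.eval x.length))).1 = [] := by
      intro u hu
      have := hT [x, u] rfl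
      simpa [totalLength, hu] using this
    simp only [Alt]
    constructor
    · rintro ⟨u, hu, hacc⟩
      refine ⟨e, x, _, rfl, ?_, u, ?_, ?_⟩
      · rw [hge2, hge3]
        have := hc x.length
        simpa [Polynomial.eval_comp] using this
      · rw [hge2]; exact hu
      · rw [hge1, hge2, hge3]
        exact (accepts_iff_of_halted (hhalt u hu)).1 hacc
    · rintro ⟨e', x', N', hcode, _, u, hu, hacc⟩
      obtain ⟨rfl, rfl, rfl⟩ := code_inj hcode
      rw [hge2] at hu
      rw [hge1, hge2, hge3] at hacc
      exact ⟨u, hu, _, hacc⟩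

/-- An enumeration of all triples of a program and two polynomials. -/
theorem exists_enum : ∃ g : ℕ → Prog × Polynomial ℕ × Polynomial ℕ, Function.Surjective g := by
  have : Countable (Polynomial ℕ) := by
    rw [← Cardinal.mk_le_aleph0_iff]
    refine (Polynomial.cardinalMk_le_max (R := ℕ)).trans ?_
    simp
  have : Nonempty (Prog × Polynomial ℕ × Polynomial ℕ) := ⟨(Prog.skip, 0, 0)⟩
  exact exists_surjective_nat _

end Pool.Agent.H9
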