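import Mathlib
import Pool.Agent.H9.Classes

/-!
The pointer walk languages, in `Sigma_{k+1}` relative to the oracle.
-/

set_option autoImplicit false

namespace Pool.Agent.H9

/-- Follow the pointer bits of `P` for `m` steps, starting at (reversed) address `r`. -/
def walk (P : Oracle) : ℕ → List Bool → List Bool
  | 0, r => r
  | m + 1, r => walk P m (P r :: r)

theorem walk_length (P : Oracle) (m : ℕ) (r : List Bool) :
    (walk P m r).length = m + r.length := by
  induction m generalizing r with
  | zero => simp [walk]
  | succ m ih =>
    simp only [walk]
    rw [ih]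
    simp only [List.length_cons]
    omega

/-- The pointer bits stored in the right half of a join. -/
def rightSeed (J : Oracle) : Oracle := fun r => J (true :: false :: r)

/-- The data bits stored in the left half of a join. -/
def leftSeed (J : Oracle) : Oracle := fun r => J (false :: false :: r)

/-- The value at a path: follow the pointers and read the data bit. -/
def val (J : Oracle) (n : ℕ) (us : List (List Bool)) : Prop :=
  leftSeed J (walk (rightSeed J) n us.flatten.reverse) = true

/-- The pointer walk language of level `k + 1`. -/
def Lang (J : Oracle) (k : ℕ) : Set (List Bool) :=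
  {x | Alt true (k + 1) x.length (fun us => val J x.length us)}

/-- One step of the walk. -/
def walkBody (W : ℕ) : Prog :=
  seqs [Prog.pop 0, Prog.push W false, Prog.push W true,
    Prog.ask W (seqs [Prog.pop W, Prog.pop W, Prog.push W true])
      (seqs [Prog.pop W, Prog.pop W, Prog.push W false])]

theorem exec_walkBody (J : Oracle) (W : ℕ) (hW : W ≠ 0) (b : Bool) (l : List Bool)
    (t : ℕ → List Bool) (ht : t 0 = b :: l) :
    ∃ s', Exec J (walkBody W) t s' 16 ∧ s' 0 = l ∧ s' W = rightSeed J (t W) :: t W := by
  have g1 := exec_pop J t 0
  rw [ht, List.tail_cons] at g1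
  set t1 := Function.update t 0 l with ht1
  have g2 := exec_push J t1 W false
  set t2 := Function.update t1 W (false :: t1 W) with ht2
  have g3 := exec_push J t2 W true
  set t3 := Function.update t2 W (true :: t2 W) with ht3
  have hW1 : t1 W = t W := by rw [ht1, Function.update_of_ne hW]
  have hW2 : t2 W = false :: t W := by rw [ht2, Function.update_self, hW1]
  have hW3 : t3 W = true :: false :: t W := by rw [ht3, Function.update_self, hW2]
  have h30 : t3 0 = l := by
    rw [ht3, Function.update_of_ne hW.symm, ht2, Function.update_of_ne hW.symm, ht1,
      Function.update_self]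
  clear_value t3
  have key : ∀ c : Bool, Exec J (seqs [Prog.pop W, Prog.pop W, Prog.push W c]) t3
      (Function.update t3 W (c :: t W)) 7 := by
    intro c
    have f1 := exec_pop J t3 W
    rw [hW3, List.tail_cons] at f1
    have f2 := exec_pop J (Function.update t3 W (false :: t W)) W
    rw [Function.update_self, List.tail_cons, Function.update_idem] at f2
    have f3 := exec_push J (Function.update t3 W (t W)) W c
    rw [Function.update_self, Function.update_idem] at f3
    exact exec_seqs_cons f1 (exec_seqs_cons f2 (exec_seqs_cons f3 (exec_seqs_nil _ _)))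
  have g4 : Exec J (Prog.ask W (seqs [Prog.pop W, Prog.pop W, Prog.push W true])
      (seqs [Prog.pop W, Prog.pop W, Prog.push W false])) t3
      (Function.update t3 W (rightSeed J (t W) :: t W)) 8 := by
    apply exec_ask
    rw [hW3]
    by_cases h : J (true :: false :: t W) = true
    · rw [if_pos h]
      have : rightSeed J (t W) = true := h
      rw [this]
      exact key true
    · rw [if_neg h]
      have : rightSeed J (t W) = false := by simpa [rightSeed] using h
      rw [this]
      exact key false
  refine ⟨_, exec_seqs_cons g1 (exec_seqs_cons g2 (exec_seqs_cons g3 (exec_seqs_cons g4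
    (exec_seqs_nil _ _)))), ?_, ?_⟩
  · rw [Function.update_of_ne hW.symm, h30]
  · rw [Function.update_self]

/-- The program deciding the value at a path. -/
def walkProg (k : ℕ) : Prog :=
  seqs [moves (k + 2) (List.range' 1 (k + 1)), Prog.loop 0 (walkBody (k + 2)),
    Prog.push (k + 2) false, Prog.push (k + 2) false,
    Prog.ask (k + 2) (Prog.push 0 true) Prog.skip]

theorem map_range'_getD (x : List Bool) (us : List (List Bool)) :
    (List.range' 1 us.length).map (fun i => (x :: us).getD i []) = us := by
  apply List.ext_getElem
  · simp
  · intro i h1 h2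
    simp only [List.getElem_map, List.getElem_range']
    have : 1 + 1 * i = i + 1 := by omega
    rw [this, List.getD_cons_succ]
    exact List.getD_eq_getElem _ _ h2

theorem run_walkProg (J : Oracle) (k : ℕ) (x : List Bool) (us : List (List Bool))
    (hus : us.length = k + 1) :
    ∃ s', run J (walkProg k) (x :: us) (30 * totalLength (x :: us) + (2 * k + 40)) = ([], s') ∧
      ((s' 0).head? = some true ↔ val J x.length us) := by
  obtain ⟨s1, e1, h1, h2⟩ := exec_moves J (k + 2) (List.range' 1 (k + 1)) List.nodup_range' (by
    simp [List.mem_range']; omega) (fun i => (x :: us).getD i [])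
  rw [← hus, map_range'_getD] at e1 h1
  have h0 : s1 0 = x := by
    rw [h2 0 (by simp [List.mem_range']; omega) (by omega)]
    simp
  have hW : s1 (us.length + 1) = us.flatten.reverse := by
    have h3 : us.length + 1 = k + 2 := by omega
    rw [← h3] at h1
    rw [h1]
    have : (x :: us).getD (us.length + 1) [] = [] := by simp
    rw [this, List.append_nil]
  have hWk : us.length + 1 = k + 2 := by omega
  rw [hWk] at hW
  obtain ⟨s2, e2, h4, h5⟩ := exec_loop_inv (A := J) (i := 0) (N := 16) (p := walkBody (k + 2))
    (Inv := fun l t => walk (rightSeed J) l.length (t (k + 2)) =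
      walk (rightSeed J) x.length us.flatten.reverse) (by
      intro b l t ht hI
      obtain ⟨s', e, g0, gW⟩ := exec_walkBody J (k + 2) (by omega) b l t ht
      refine ⟨s', e, g0, ?_⟩
      rw [gW, ← hI]
      rfl) x s1 h0 (by rw [hW])
  simp only [List.length_nil, walk] at h5
  have e3 := exec_push J s2 (k + 2) false
  set s3 := Function.update s2 (k + 2) (false :: s2 (k + 2)) with hs3
  have e4 := exec_push J s3 (k + 2) false
  set s4 := Function.update s3 (k + 2) (false :: s3 (k + 2)) with hs4
  have hs4W : s4 (k + 2) = false :: false :: walk (rightSeed J) x.length us.flatten.reverse := by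
    rw [hs4, Function.update_self, hs3, Function.update_self, h5]
  have hs40 : s4 0 = [] := by
    rw [hs4, Function.update_of_ne (by omega), hs3, Function.update_of_ne (by omega), h4]
  have e5 : ∃ s5, Exec J (Prog.ask (k + 2) (Prog.push 0 true) Prog.skip) s4 s5 2 ∧
      ((s5 0).head? = some true ↔ val J x.length us) := by
    by_cases h : J (s4 (k + 2)) = true
    · refine ⟨Function.update s4 0 (true :: s4 0), ?_, ?_⟩
      · apply exec_ask
        rw [if_pos h]
        exact exec_push J s4 0 true
      · rw [Function.update_self]
        rw [hs4W] at h
        have : val J x.length us := h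
        simp [this]
    · refine ⟨s4, ?_, ?_⟩
      · apply exec_ask
        rw [if_neg h]
        exact exec_skip J s4
      · rw [hs40]
        rw [hs4W] at h
        have : ¬ val J x.length us := h
        simp [this]
  obtain ⟨s5, e5, h6⟩ := e5
  refine ⟨s5, run_of_exec ?_, h6⟩
  have e6 := exec_seqs_cons e1 (exec_seqs_cons e2 (exec_seqs_cons e3 (exec_seqs_cons e4
    (exec_seqs_cons e5 (exec_seqs_nil _ _)))))
  unfold walkProg
  rw [← hWk, ← hus]
  rw [← hWk] at e6
  refine e6.mono ?_
  have h7 : totalLength (x :: us) = x.length + (us.map List.length).sum := by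
    simp [totalLength]
  rw [h7, List.length_range']
  omega

theorem lang_mem (J : Oracle) (k : ℕ) : Lang J k ∈ SigmaP J (k + 1) := by
  refine ⟨Polynomial.X, walkProg k, ?_, ?_⟩
  · refine ⟨30 * Polynomial.X + Polynomial.C (2 * k + 40), ?_⟩
    intro xs hxs
    cases xs with
    | nil => simp at hxs
    | cons x us =>
      have hus : us.length = k + 1 := by simpa using hxs
      obtain ⟨s', h1, _⟩ := run_walkProg J k x us hus
      have h2 : (30 * Polynomial.X + Polynomial.C (2 * k + 40) : Polynomial ℕ).eval
          (totalLength (x :: us)) = 30 * totalLength (x :: us) + (2 * k + 40) := by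
        simp
      rw [h2, h1]
  · intro x
    rw [Polynomial.eval_X]
    show Alt true (k + 1) x.length _ ↔ _
    rw [Alt_eq, Alt_eq]
    apply AltL_congr
    intro us hus
    have hlen : us.length = k + 1 := by
      have := congrArg List.length hus
      simpa using this
    obtain ⟨s', h1, h2⟩ := run_walkProg J k x us hlen
    have h3 : (run J (walkProg k) (x :: us)
        (30 * totalLength (x :: us) + (2 * k + 40))).1 = [] := by rw [h1]
    rw [accepts_iff_of_halted h3]
    unfold AcceptsIn
    rw [h1]
    simp only [true_and]
    exact h2.symm

end Pool.Agent.H9
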