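import Mathlib
import Pool.Agent.H9.Walk

/-!
Fixpoints of contractive operators on oracles, the slow closure of a seed, and a diagonalisation
lemma.
-/

set_option autoImplicit false

namespace Pool.Agent.H9

open Classical

/-- The value of `Φ A` at `w` depends only on the values of `A` at shorter words. -/
def Contr (Φ : Oracle → Oracle) : Prop :=
  ∀ (A A' : Oracle) (w : List Bool), (∀ v : List Bool, v.length < w.length → A v = A' v) →
    Φ A w = Φ A' w

/-- The fixpoint of a contractive operator. -/
def fixO (Φ : Oracle → Oracle) : Oracle := fun w => Φ^[w.length + 1] (fun _ => false) w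

theorem iterate_agree {Φ : Oracle → Oracle} (h : Contr Φ) :
    ∀ (n m : ℕ) (w : List Bool), w.length < n → w.length < m →
      Φ^[n] (fun _ => false) w = Φ^[m] (fun _ => false) w := by
  intro n
  induction n with
  | zero => intro m w hn; omega
  | succ n ih =>
    intro m w hn hm
    cases m with
    | zero => omega
    | succ m =>
      rw [Function.iterate_succ_apply', Function.iterate_succ_apply']
      apply h
      intro v hv
      exact ih m v (by omega) (by omega)

theorem fixO_eq {Φ : Oracle → Oracle} (h : Contr Φ) : Φ (fixO Φ) = fixO Φ := by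
  funext w
  have : fixO Φ w = Φ (Φ^[w.length] (fun _ => false)) w := by
    unfold fixO
    rw [Function.iterate_succ_apply']
  rw [this]
  apply h
  intro v hv
  exact iterate_agree h _ _ v (by omega) hv

theorem fixO_congr {Φ Φ' : Oracle → Oracle} (h : Contr Φ) (h' : Contr Φ') (n : ℕ)
    (heq : ∀ (A : Oracle) (w : List Bool), w.length ≤ n → Φ A w = Φ' A w) :
    ∀ (m : ℕ) (w : List Bool), w.length ≤ m → w.length ≤ n → fixO Φ w = fixO Φ' w := by
  intro m
  induction m with
  | zero =>
    intro w hm hn
    rw [← fixO_eq h, ← fixO_eq h', heq _ w hn]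
    apply h'
    intro v hv
    omega
  | succ m ih =>
    intro w hm hn
    rw [← fixO_eq h, ← fixO_eq h', heq _ w hn]
    apply h'
    intro v hv
    exact ih v (by omega) (by omega)

/-! ### The slow closure of a seed -/

/-- The operator whose fixpoint is the closure of the seed `S`. -/
noncomputable def closOp (g : ℕ → Prog × Polynomial ℕ × Polynomial ℕ) (S : Oracle) :
    Oracle → Oracle
  | _, [] => false
  | _, false :: w => S w
  | A, true :: w => decide (KProp g A w)

theorem closOp_contr (g : ℕ → Prog × Polynomial ℕ × Polynomial ℕ) (S : Oracle) :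
    Contr (closOp g S) := by
  intro A A' w h
  match w with
  | [] => rfl
  | false :: w => rfl
  | true :: w =>
    simp only [closOp]
    rw [kprop_local (A := A) (A' := A')]
    intro v hv
    apply h
    simp only [List.length_cons]
    nlinarith

/-- The closure of the seed `S`. -/
noncomputable def cl (g : ℕ → Prog × Polynomial ℕ × Polynomial ℕ) (S : Oracle) : Oracle :=
  fixO (closOp g S)

theorem cl_eq (g : ℕ → Prog × Polynomial ℕ × Polynomial ℕ) (S : Oracle) :
    closOp g S (cl g S) = cl g S := fixO_eq (closOp_contr g S)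

theorem cl_nil (g : ℕ → Prog × Polynomial ℕ × Polynomial ℕ) (S : Oracle) :
    cl g S [] = false := by
  rw [← cl_eq]; rfl

theorem cl_false (g : ℕ → Prog × Polynomial ℕ × Polynomial ℕ) (S : Oracle) (w : List Bool) :
    cl g S (false :: w) = S w := by
  rw [← cl_eq]; rfl

theorem cl_true (g : ℕ → Prog × Polynomial ℕ × Polynomial ℕ) (S : Oracle) (w : List Bool) :
    cl g S (true :: w) = true ↔ KProp g (cl g S) w := by
  rw [← cl_eq]
  simp only [closOp, decide_eq_true_eq]
  rw [cl_eq]

theorem cl_congr (g : ℕ → Prog × Polynomial ℕ × Polynomial ℕ) {S S' : Oracle} {n : ℕ}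
    (h : ∀ w : List Bool, w.length < n → S w = S' w) :
    ∀ w : List Bool, w.length ≤ n → cl g S w = cl g S' w := by
  intro w hw
  refine fixO_congr (closOp_contr g S) (closOp_contr g S') n ?_ w.length w le_rfl hw
  intro A v hv
  match v with
  | [] => rfl
  | false :: v =>
    simp only [closOp]
    exact h v (by simpa using hv)
  | true :: v => rfl

theorem sigma_cl (g : ℕ → Prog × Polynomial ℕ × Polynomial ℕ) (hg : Function.Surjective g)
    (S : Oracle) : SigmaP (cl g S) 0 = SigmaP (cl g S) 1 := by
  refine sigma_zero_eq_one (cl g S) g hg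
    (Prog.seq (Prog.push 2 true) (Prog.ask 2 (Prog.push 0 true) Prog.skip)) 4 ?_
  intro s hs
  have e1 := exec_push (cl g S) s 2 true
  set s1 := Function.update s 2 (true :: s 2) with hs1
  have h2 : s1 2 = true :: s 2 := by rw [hs1, Function.update_self]
  have h0 : s1 0 = [] := by rw [hs1, Function.update_of_ne (by norm_num), hs]
  by_cases h : cl g S (s1 2) = true
  · refine ⟨_, e1.seq (exec_ask (N := 1) (by
      rw [if_pos h]; exact exec_push (cl g S) s1 0 true)), ?_⟩
    rw [Function.update_self]
    rw [h2, cl_true] at h
    simp [h]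
  · refine ⟨_, e1.seq (exec_ask (N := 1) (by
      rw [if_neg h]; exact exec_skip (cl g S) s1)), ?_⟩
    rw [h0]
    rw [h2, cl_true] at h
    simp [h]

/-! ### Diagonalisation -/

/-- Countably many requirements, each of which can be forced by changing the values at long words
only, and is then determined by the values at words of bounded length, can be met
simultaneously. -/
theorem diagonal {α : Type*} (R : ℕ → (List Bool → α) → Prop) (D0 : List Bool → α)
    (h : ∀ (i : ℕ) (D : List Bool → α) (n : ℕ), ∃ (D' : List Bool → α) (n' : ℕ),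
      (∀ w : List Bool, w.length < n → D' w = D w) ∧
      ∀ D'' : List Bool → α, (∀ w : List Bool, w.length < n' → D'' w = D' w) → R i D'') :
    ∃ D : List Bool → α, ∀ i, R i D := by
  choose F G h1 h2 using h
  -- the sequence of conditions
  let st : ℕ → (List Bool → α) × ℕ := fun i => Nat.rec (D0, 0)
    (fun i s => (F i s.1 s.2, max (s.2 + 1) (G i s.1 s.2))) i
  have hst : ∀ i, st (i + 1) = (F i (st i).1 (st i).2,
      max ((st i).2 + 1) (G i (st i).1 (st i).2)) := fun i => rfl
  have hn : ∀ i, i ≤ (st i).2 := by
    intro i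
    induction i with
    | zero => exact Nat.zero_le _
    | succ i ih =>
      rw [hst]
      have : (st i).2 + 1 ≤ max ((st i).2 + 1) (G i (st i).1 (st i).2) := le_max_left _ _
      omega
  have hmono : ∀ i, (st i).2 ≤ (st (i + 1)).2 := by
    intro i
    rw [hst]
    have : (st i).2 + 1 ≤ max ((st i).2 + 1) (G i (st i).1 (st i).2) := le_max_left _ _
    omega
  have hagree : ∀ i j, ∀ w : List Bool, w.length < (st i).2 →
      (st (i + j)).1 w = (st i).1 w ∧ (st i).2 ≤ (st (i + j)).2 := by
    intro i j
    induction j with
    | zero => intro w _; exact ⟨rfl, le_rfl⟩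
    | succ j ih =>
      intro w hw
      obtain ⟨e1, e2⟩ := ih w hw
      refine ⟨?_, e2.trans (hmono _)⟩
      rw [← e1, ← add_assoc, hst]
      exact h1 (i + j) _ _ w (by omega)
  refine ⟨fun w => (st (w.length + 1)).1 w, ?_⟩
  intro i
  have hR := h2 i (st i).1 (st i).2 (fun w => (st (w.length + 1)).1 w) ?_
  · exact hR
  · intro w hw
    show (st (w.length + 1)).1 w = (st (i + 1)).1 w
    have hw1 : w.length < (st (i + 1)).2 := by
      rw [hst]
      exact lt_of_lt_of_le hw (le_max_right _ _)
    have hw2 : w.length < (st (w.length + 1)).2 := lt_of_lt_of_le (Nat.lt_succ_self _) (hn _)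
    rcases Nat.le_total (i + 1) (w.length + 1) with hle | hle
    · obtain ⟨d, hd⟩ := Nat.exists_eq_add_of_le hle
      rw [hd]
      exact (hagree (i + 1) d w hw1).1
    · obtain ⟨d, hd⟩ := Nat.exists_eq_add_of_le hle
      rw [hd]
      exact (hagree (w.length + 1) d w hw2).1.symm

end Pool.Agent.H9
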