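import Mathlib
import Pool.Agent.H9.Clos

/-!
Oracles with a solver table that answers questions about decoy worlds.
-/

set_option autoImplicit false

namespace Pool.Agent.H9

open Classical

/-- A question type: program, length of the quantifier blocks, time bound, number of blocks. -/
abbrev Qn := Prog × Polynomial ℕ × Polynomial ℕ × ℕ

/-- Length of the blocks. -/
def Qn.q (g : Qn) (l : ℕ) : ℕ := g.2.1.eval l

/-- Number of blocks. -/
def Qn.k (g : Qn) : ℕ := g.2.2.2

/-- Running time. -/
def Qn.t (g : Qn) (l : ℕ) : ℕ := g.2.2.1.eval (l + g.k * g.q l)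

/-- A bound for all lengths and times. -/
def Qn.bnd (g : Qn) (l : ℕ) : ℕ := g.t l + l + g.k * g.q l

/-- The answer to question `g` about `x` in the world `B`. -/
def Qn.ans (g : Qn) (B : Oracle) (x : List Bool) : Prop :=
  Alt true g.k (g.q x.length) (fun us => AcceptsIn B g.1 (x :: us) (g.t x.length))

theorem totalLength_cons_path {x : List Bool} {us : List (List Bool)} {k m : ℕ}
    (h : us.map List.length = List.replicate k m) : totalLength (x :: us) = x.length + k * m := by
  simp only [totalLength, List.map_cons, List.sum_cons, h, List.sum_replicate, smul_eq_mul]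

theorem Qn.ans_congr (g : Qn) {B B' : Oracle} {x : List Bool}
    (h : ∀ v : List Bool, v.length ≤ g.bnd x.length → B v = B' v) : g.ans B x ↔ g.ans B' x := by
  unfold Qn.ans
  rw [Alt_eq, Alt_eq]
  apply AltL_congr
  intro us hus
  refine (dtp_acceptsIn g.1 (x :: us) _ (g.bnd x.length) ?_).depends h
  rw [totalLength_cons_path hus]
  unfold Qn.bnd
  omega

/-- The solver predicate: `w = code e x N` is true if the answer to question `e` about `x` in the
world number `N` is positive and the square of all its bounds is at most `N`. -/
def KS (g : ℕ → Qn) (B : ℕ → Oracle) (w : List Bool) : Prop :=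
  ∃ (e : ℕ) (x : List Bool) (N : ℕ), w = code e x N ∧ ((g e).bnd x.length + 2) ^ 2 ≤ N ∧
    (g e).ans (B N) x

theorem KS_code (g : ℕ → Qn) (B : ℕ → Oracle) (e : ℕ) (x : List Bool) (N : ℕ) :
    KS g B (code e x N) ↔ ((g e).bnd x.length + 2) ^ 2 ≤ N ∧ (g e).ans (B N) x := by
  constructor
  · rintro ⟨e', x', N', h, h1, h2⟩
    obtain ⟨rfl, rfl, rfl⟩ := code_inj h
    exact ⟨h1, h2⟩
  · rintro ⟨h1, h2⟩
    exact ⟨e, x, N, rfl, h1, h2⟩

theorem KS_congr {g : ℕ → Qn} {B B' : ℕ → Oracle} {w : List Bool}
    (h : ∀ (N : ℕ) (v : List Bool), N ≤ w.length → (v.length + 2) ^ 2 ≤ N → B N v = B' N v) :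
    KS g B w ↔ KS g B' w := by
  unfold KS
  apply exists_congr; intro e
  apply exists_congr; intro x
  apply exists_congr; intro N
  apply and_congr_right; intro hw
  apply and_congr_right; intro hN
  apply Qn.ans_congr
  intro v hv
  apply h
  · rw [hw, code_length]; omega
  · exact (Nat.pow_le_pow_left (by omega) 2).trans hN

/-- The table: real seeds, and the seeds of the decoy worlds. -/
abbrev Tab := List Bool → Bool × (ℕ → Bool)

/-- The world number `N`: decoy seeds, and the solver bits of `A`. -/
def mask (D : Tab) (N : ℕ) (A : Oracle) : Oracle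
  | false :: v => (D v).2 N
  | v => A v

/-- The operator defining the oracle. -/
noncomputable def wOp (g : ℕ → Qn) (D : Tab) : Oracle → Oracle
  | _, [] => false
  | _, false :: w => (D w).1
  | A, true :: w => decide (KS g (fun N => mask D N A) w)

theorem wOp_contr (g : ℕ → Qn) (D : Tab) : Contr (wOp g D) := by
  intro A A' w h
  match w with
  | [] => rfl
  | false :: w => rfl
  | true :: w =>
    simp only [wOp]
    apply decide_eq_decide.2
    apply KS_congr
    intro N v hN hv
    match v with
    | [] => exact h [] (by simp)
    | false :: v => rfl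
    | true :: v =>
      apply h
      simp only [List.length_cons] at hv ⊢
      nlinarith

/-- The oracle given by the table `D`. -/
noncomputable def world (g : ℕ → Qn) (D : Tab) : Oracle := fixO (wOp g D)

theorem world_eq (g : ℕ → Qn) (D : Tab) : wOp g D (world g D) = world g D :=
  fixO_eq (wOp_contr g D)

theorem world_nil (g : ℕ → Qn) (D : Tab) : world g D [] = false := by
  rw [← world_eq]; rfl

theorem world_false (g : ℕ → Qn) (D : Tab) (w : List Bool) :
    world g D (false :: w) = (D w).1 := by
  rw [← world_eq]; rfl

theorem world_true (g : ℕ → Qn) (D : Tab) (w : List Bool) :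
    world g D (true :: w) = true ↔ KS g (fun N => mask D N (world g D)) w := by
  conv_lhs => rw [← world_eq]
  simp only [wOp, decide_eq_true_eq]

/-- Short solver bits depend only on the decoy seeds. -/
theorem world_true_congr {g : ℕ → Qn} {D D' : Tab} {M : ℕ}
    (h : ∀ N < M, ∀ v : List Bool, (v.length + 3) ^ 2 ≤ N → (D v).2 N = (D' v).2 N) :
    ∀ (l : ℕ) (w : List Bool), w.length ≤ l → w.length < M →
      world g D (true :: w) = world g D' (true :: w) := by
  intro l
  induction l with
  | zero =>
    intro w hw hM
    rw [Bool.eq_iff_iff, world_true, world_true]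
    apply KS_congr
    intro N v hN hv
    exfalso
    have : 0 < (v.length + 2) ^ 2 := by positivity
    omega
  | succ l ih =>
    intro w hw hM
    rw [Bool.eq_iff_iff, world_true, world_true]
    apply KS_congr
    intro N v hN hv
    match v with
    | [] => simp only [mask, world_nil]
    | false :: v => exact h N (by omega) v (by simpa using hv)
    | true :: v =>
      simp only [mask]
      simp only [List.length_cons] at hv
      apply ih v
      · nlinarith
      · nlinarith

/-- Words of length at most `n` depend only on the table below `n`. -/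
theorem world_congr {g : ℕ → Qn} {D D' : Tab} {n : ℕ}
    (h : ∀ w : List Bool, w.length < n → D w = D' w) :
    ∀ w : List Bool, w.length ≤ n → world g D w = world g D' w := by
  intro w hw
  match w with
  | [] => rw [world_nil, world_nil]
  | false :: w =>
    rw [world_false, world_false, h w (by simpa using hw)]
  | true :: w =>
    refine world_true_congr (M := n) ?_ w.length w le_rfl (by simpa using hw)
    intro N hN v hv
    rw [h v (by nlinarith)]

/-- If the decoy seeds of world `N` are real, the solver is correct. -/
theorem solver_correct {g : ℕ → Qn} {D : Tab} {e N : ℕ} {x : List Bool}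
    (hN : ((g e).bnd x.length + 2) ^ 2 ≤ N)
    (h : ∀ v : List Bool, v.length < (g e).bnd x.length → (D v).2 N = (D v).1) :
    world g D (true :: code e x N) = true ↔ (g e).ans (world g D) x := by
  rw [world_true, KS_code]
  have : (g e).ans (mask D N (world g D)) x ↔ (g e).ans (world g D) x := by
    apply Qn.ans_congr
    intro v hv
    match v with
    | [] => rfl
    | false :: v =>
      simp only [mask]
      rw [world_false, h v (by simpa using hv)]
    | true :: v => rfl
  rw [this]
  exact and_iff_right hN

/-! ### The diagonal languages -/

/-- The diagonal language of level `k + 1`. -/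
def Lang3 (A : Oracle) (k : ℕ) : Set (List Bool) :=
  {x | Alt true (k + 1) x.length (fun us => A (false :: (x :: us).flatten.reverse) = true)}

/-- The program deciding the value at a path. -/
def readProg3 (k : ℕ) : Prog :=
  seqs [moves (k + 2) (List.range (k + 2)), Prog.push (k + 2) false,
    Prog.ask (k + 2) (Prog.push 0 true) Prog.skip]

theorem map_range_getD (xs : List (List Bool)) :
    (List.range xs.length).map (fun i => xs.getD i []) = xs := by
  apply List.ext_getElem
  · simp
  · intro i h1 h2
    simp only [List.getElem_map, List.getElem_range]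
    exact List.getD_eq_getElem _ _ h2

theorem run_readProg3 (A : Oracle) (k : ℕ) (x : List Bool) (us : List (List Bool))
    (hus : us.length = k + 1) :
    ∃ s', run A (readProg3 k) (x :: us) (30 * totalLength (x :: us) + (2 * k + 40)) = ([], s') ∧
      ((s' 0).head? = some true ↔ A (false :: (x :: us).flatten.reverse) = true) := by
  have hlen : (x :: us).length = k + 2 := by simp [hus]
  obtain ⟨s1, e1, h1, h2⟩ := exec_moves A (k + 2) (List.range (k + 2)) List.nodup_range (by
    simp) (fun i => (x :: us).getD i [])
  have hmap : (List.range (k + 2)).map (fun i => (x :: us).getD i []) = x :: us := by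
    rw [← hlen]; exact map_range_getD _
  rw [hmap] at e1 h1
  -- stack 0 after the moves
  have h0 : s1 0 = [] := by
    obtain ⟨t1, f1, f2, f3, f4⟩ := exec_moveAll A (i := 0) (j := k + 2) (by omega)
      (fun i => (x :: us).getD i [])
    obtain ⟨t2, f5, f6, f7⟩ := exec_moves A (k + 2) (List.range' 1 (k + 1)) List.nodup_range' (by
      simp [List.mem_range']; omega) t1
    have g1 := f1.seq f5
    have g2 : Prog.seq (moveAll 0 (k + 2)) (moves (k + 2) (List.range' 1 (k + 1))) =
        moves (k + 2) (List.range (k + 2)) := by
      rw [List.range_eq_range', List.range'_succ]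
      rfl
    rw [g2] at g1
    have g3 : s1 = t2 := by
      obtain ⟨a, _, ha⟩ := e1
      obtain ⟨b, _, hb⟩ := g1
      have ha' := ha []
      have hb' := hb []
      rcases Nat.le_total a b with hab | hab
      · have := iterate_of_halted (A := A) (c := ([moves (k + 2) (List.range (k + 2))],
          fun i => (x :: us).getD i [])) (n := a) (m := b) (by rw [ha']) hab
        rw [ha', hb'] at this
        exact (congrArg Prod.snd this).symm
      · have := iterate_of_halted (A := A) (c := ([moves (k + 2) (List.range (k + 2))],
          fun i => (x :: us).getD i [])) (n := b) (m := a) (by rw [hb']) hab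
        rw [ha', hb'] at this
        exact congrArg Prod.snd this
    rw [g3, f7 0 (by simp [List.mem_range']; omega) (by omega), f2]
  have hW : s1 (k + 2) = (x :: us).flatten.reverse := by
    rw [h1]
    have : (x :: us).getD (k + 2) [] = [] := by
      rw [List.getD_eq_getElem?_getD, List.getElem?_eq_none (by omega)]
      rfl
    rw [this, List.append_nil]
  have e3 := exec_push A s1 (k + 2) false
  set s3 := Function.update s1 (k + 2) (false :: s1 (k + 2)) with hs3
  have hs3W : s3 (k + 2) = false :: (x :: us).flatten.reverse := by
    rw [hs3, Function.update_self, hW]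
  have hs30 : s3 0 = [] := by
    rw [hs3, Function.update_of_ne (by omega), h0]
  have e5 : ∃ s5, Exec A (Prog.ask (k + 2) (Prog.push 0 true) Prog.skip) s3 s5 2 ∧
      ((s5 0).head? = some true ↔ A (false :: (x :: us).flatten.reverse) = true) := by
    by_cases h : A (s3 (k + 2)) = true
    · refine ⟨Function.update s3 0 (true :: s3 0), ?_, ?_⟩
      · apply exec_ask
        rw [if_pos h]
        exact exec_push A s3 0 true
      · rw [Function.update_self]
        rw [hs3W] at h
        simp only [List.head?_cons, true_iff]
        exact h
    · refine ⟨s3, ?_, ?_⟩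
      · apply exec_ask
        rw [if_neg h]
        exact exec_skip A s3
      · rw [hs30]
        rw [hs3W] at h
        constructor
        · intro h'; simp at h'
        · intro h'; exact absurd h' h
  obtain ⟨s5, e5, h6⟩ := e5
  refine ⟨s5, run_of_exec ?_, h6⟩
  have e6 := exec_seqs_cons e1 (exec_seqs_cons e3
    (exec_seqs_cons e5 (exec_seqs_nil _ _)))
  unfold readProg3
  refine e6.mono ?_
  have h7 : totalLength (x :: us) = ((x :: us).map List.length).sum := rfl
  rw [h7, List.length_range]
  omega

theorem lang3_mem (A : Oracle) (k : ℕ) : Lang3 A k ∈ SigmaP A (k + 1) := by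
  refine ⟨Polynomial.X, readProg3 k, ?_, ?_⟩
  · refine ⟨30 * Polynomial.X + Polynomial.C (2 * k + 40), ?_⟩
    intro xs hxs
    cases xs with
    | nil => simp at hxs
    | cons x us =>
      have hus : us.length = k + 1 := by simpa using hxs
      obtain ⟨s', h1, _⟩ := run_readProg3 A k x us hus
      have h2 : (30 * Polynomial.X + Polynomial.C (2 * k + 40) : Polynomial ℕ).eval
          (totalLength (x :: us)) = 30 * totalLength (x :: us) + (2 * k + 40) := by
        simp
      rw [h2, h1]
  · intro x
    rw [Polynomial.eval_X]
    have h0 : x ∈ Lang3 A k ↔ Alt true (k + 1) x.length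
      (fun us => A (false :: (x :: us).flatten.reverse) = true) := Iff.rfl
    rw [h0, Alt_eq, Alt_eq]
    apply AltL_congr
    intro us hus
    have hlen : us.length = k + 1 := by
      have := congrArg List.length hus
      simpa using this
    obtain ⟨s', h1, h2⟩ := run_readProg3 A k x us hlen
    have h3 : (run A (readProg3 k) (x :: us)
        (30 * totalLength (x :: us) + (2 * k + 40))).1 = [] := by rw [h1]
    rw [accepts_iff_of_halted h3]
    unfold AcceptsIn
    rw [h1]
    simp only [true_and]
    exact h2.symm

end Pool.Agent.H9
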