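import Mathlib
import Pool.Agent.H9.Hier

/-!
The depth hierarchy theorem.
-/

set_option autoImplicit false

namespace Pool.Agent.H9

open Classical

theorem xor_bodd_succ (ex : Bool) (k : ℕ) : (ex ^^ (k + 1).bodd) = !(ex ^^ k.bodd) := by
  rw [Nat.bodd_succ]
  cases ex <;> cases k.bodd <;> rfl

/-- The inner quantifier over decision trees, in the form of a narrow disjunction. -/
theorem terms_of_qt {α : Type*} {T q : ℕ} {e : Bool} {D : List Bool → (α → Bool) → Prop}
    (hD : ∀ u ∈ strings q, DTP Set.univ T (D u)) :
    ∃ F : List (List (α × Bool)), (∀ t ∈ F, t.length ≤ T ∧ Cons t) ∧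
      ∀ a, (if e = true then ¬ qt (!e) q (fun u => D u a) else qt (!e) q (fun u => D u a)) ↔
        ∃ t ∈ F, Sat t a := by
  cases e with
  | true =>
    obtain ⟨F, hF1, hF2⟩ := terms_of_exists (strings q) (f := fun u a => ¬ D u a)
      (fun u hu => (hD u hu).not)
    refine ⟨F, hF1, ?_⟩
    intro a
    rw [← hF2 a]
    simp only [qt, Bool.not_true, if_true]
    push Not
    exact exists_congr fun u => and_congr_left fun _ => mem_strings.symm
  | false =>
    obtain ⟨F, hF1, hF2⟩ := terms_of_exists (strings q) (f := D) hD
    refine ⟨F, hF1, ?_⟩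
    intro a
    rw [← hF2 a]
    simp only [qt, Bool.not_false]
    exact exists_congr fun u => and_congr_left fun _ => mem_strings.symm

/-- **Depth hierarchy theorem**: a Sipser tree with `k + 1` levels is not computed by `k`
alternating quantifier blocks over shallow decision trees. -/
theorem hierarchy {q T μ K B : ℕ} (hBμ : B + 3 ≤ 2 ^ μ) (hq : q ≤ T)
    (hT : T * 2 ^ (K + 5) ≤ 2 ^ μ) :
    ∀ (k : ℕ) (ex : Bool) (ms : List ℕ) (m : ℕ)
      (D : List (List Bool) → (List (List Bool) → Bool) → Prop),
      k ≤ K → ms.length = k → (∀ x ∈ ms, 4 * μ ≤ x) → 2 * μ ≤ m → ms.sum + m ≤ B →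
      (∀ ws ∈ paths (List.replicate k q), DTP Set.univ T (D ws)) →
      ∃ a : List (List Bool) → Bool,
        ¬ (AltL ex (ms ++ [m]) (fun us => a us = true) ↔
          AltL ex (List.replicate k q) (fun ws => D ws a)) := by
  have hTμ : T < 2 ^ μ := by
    rcases Nat.eq_zero_or_pos T with h0 | h0
    · subst h0; positivity
    · have : 2 ≤ 2 ^ (K + 5) := by
        calc 2 = 2 ^ 1 := by norm_num
          _ ≤ 2 ^ (K + 5) := Nat.pow_le_pow_right (by norm_num) (by omega)
      nlinarith
  intro k
  induction k with
  | zero =>
    intro ex ms m D _ hms _ hm _ hD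
    obtain rfl : ms = [] := List.length_eq_zero_iff.1 hms
    have hD0 : DTP Set.univ T (D []) := hD [] (by simp [paths])
    have hcard : T < 2 ^ m :=
      lt_of_lt_of_le hTμ (Nat.pow_le_pow_right (by norm_num) (by omega))
    obtain ⟨R, hR, hcert⟩ := hD0.cert (fun _ => !ex)
    have hex : ∃ u : List Bool, u.length = m ∧ [u] ∉ R := by
      by_contra hcon
      push Not at hcon
      have h1 : (strings m).image (fun u => [u]) ⊆ R := by
        intro z hz
        rw [Finset.mem_image] at hz
        obtain ⟨u, hu, rfl⟩ := hz
        exact hcon u (mem_strings.1 hu)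
      have h2 := Finset.card_le_card h1
      rw [Finset.card_image_of_injective _ (fun a b hab => by simpa using hab),
        card_strings] at h2
      omega
    obtain ⟨u, hu, huR⟩ := hex
    by_contra hcon
    push Not at hcon
    have h0 := hcon (fun _ => !ex)
    have h1 := hcon (fun v => if v = [u] then ex else !ex)
    have h2 := hcert (fun v => if v = [u] then ex else !ex) (by
      intro v hv
      have : v ≠ [u] := fun h => huR (h ▸ hv)
      simp [this])
    simp only [List.nil_append, List.replicate_zero, AltL] at h0 h1
    rw [← h0, ← h1] at h2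
    cases ex with
    | true =>
      simp only [qt, Bool.not_true] at h2
      have h3 : ∃ v : List Bool, v.length = m ∧ (if [v] = [u] then true else false) = true :=
        ⟨u, hu, by simp⟩
      obtain ⟨v, _, hv⟩ := h2.2 h3
      exact absurd hv (by simp)
    | false =>
      simp only [qt, Bool.not_false] at h2
      have h3 := h2.1 (fun _ _ => by simp) u hu
      simp at h3
  | succ k ih =>
    intro ex ms m D hkK hms hms4 hm hsum hD
    obtain ⟨ms', m1, rfl⟩ : ∃ ms' m1, ms = ms' ++ [m1] := by
      have : ms ≠ [] := by
        intro h; rw [h] at hms; simp at hms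
      exact ⟨ms.dropLast, ms.getLast this, (List.dropLast_append_getLast this).symm⟩
    have hms' : ms'.length = k := by simpa using hms
    have hm1 : 4 * μ ≤ m1 := hms4 m1 (by simp)
    obtain ⟨h, rfl⟩ : ∃ h, m1 = 2 * μ + h := ⟨m1 - 2 * μ, by omega⟩
    have hh : 2 * μ ≤ h := by omega
    have hsum' : ms'.sum + (2 * μ + h) + m ≤ B := by simpa using hsum
    set e : Bool := ex ^^ (k + 1).bodd with he
    have he' : (ex ^^ k.bodd) = !e := by
      rw [he, xor_bodd_succ]; simp
    have hrep : List.replicate (k + 1) q = List.replicate k q ++ [q] := by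
      rw [List.replicate_succ']
    -- the family of bottom functions
    have hDws : ∀ ws ∈ paths (List.replicate k q), ∀ u ∈ strings q,
        DTP Set.univ T (D (ws ++ [u])) := by
      intro ws hws u hu
      apply hD
      rw [mem_paths] at hws ⊢
      rw [hrep]
      simp [hws, mem_strings.1 hu]
    have hsw := switch_estimate (μ := μ) (k := k) (q := q) (T := T) (by
      refine le_trans (Nat.mul_le_mul_left T ?_) hT
      exact Nat.pow_le_pow_right (by norm_num) (by omega)) hq
    obtain ⟨σ, _, hσ2, hσ3, _⟩ := stage ms' μ h m B e hh hm (by omega) hBμ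
      (paths (List.replicate k q))
      (fun ws a => if e = true then ¬ qt (!e) q (fun u => D (ws ++ [u]) a)
        else qt (!e) q (fun u => D (ws ++ [u]) a)) T T
      (fun ws hws => terms_of_qt (hDws ws hws)) (by
        rw [card_paths]
        have : (List.replicate k q).sum = q * k := by simp [mul_comm]
        rw [this]
        push_cast
        exact hsw)
    have hD' : ∀ ws ∈ paths (List.replicate k q),
        DTP Set.univ T (fun b => qt (!e) q (fun u => D (ws ++ [u]) (σ b))) := by
      intro ws hws
      have h1 := hσ2 ws hws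
      by_cases hee : e = true
      · refine h1.not.congr ?_
        intro b
        simp only [if_pos hee, not_not]
      · refine h1.congr ?_
        intro b
        simp only [if_neg hee]
    obtain ⟨b, hb⟩ := ih ex ms' (2 * μ)
      (fun ws b => qt (!e) q (fun u => D (ws ++ [u]) (σ b))) (by omega) hms'
      (fun x hx => hms4 x (by simp [hx])) le_rfl (by omega) hD'
    refine ⟨σ b, ?_⟩
    intro hcon
    apply hb
    rw [AltL_snoc ex (ms' ++ [2 * μ + h]) m, AltL_snoc ex ms', hrep,
      AltL_snoc ex (List.replicate k q) q, List.length_append, List.length_singleton, hms',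
      List.length_replicate, ← he, he'] at hcon
    rw [AltL_snoc, hms', he']
    rw [← hcon]
    apply AltL_congr
    intro g hg
    exact (hσ3 g (mem_paths.2 hg) b).symm

end Pool.Agent.H9
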