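import Mathlib
import Pool.Agent.H9.Switch

/-!
Expectations over random finite sets, resampling, influences.
-/

set_option autoImplicit false

namespace Pool.Agent.H9

open Classical

/-- Expectation over the random subset of `U` with parameter `p`. -/
noncomputable def ex {α : Type*} (p : ℝ) (U : Finset α) (f : Finset α → ℝ) : ℝ :=
  ∑ X ∈ U.powerset, wt p U X * f X

/-- Indicator of a proposition. -/
noncomputable def ind (P : Prop) : ℝ := if P then 1 else 0

theorem ind_nonneg (P : Prop) : 0 ≤ ind P := by unfold ind; split_ifs <;> norm_num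

theorem ind_le_one (P : Prop) : ind P ≤ 1 := by unfold ind; split_ifs <;> norm_num

theorem ind_true {P : Prop} (h : P) : ind P = 1 := by unfold ind; rw [if_pos h]

theorem ind_false {P : Prop} (h : ¬ P) : ind P = 0 := by unfold ind; rw [if_neg h]

theorem ind_mono {P Q : Prop} (h : P → Q) : ind P ≤ ind Q := by
  unfold ind
  split_ifs with h1 h2 h2
  · exact le_rfl
  · exact absurd (h h1) h2
  · norm_num
  · exact le_rfl

theorem ind_congr {P Q : Prop} (h : P ↔ Q) : ind P = ind Q := by
  rw [propext h]

variable {α β : Type*}

theorem pr_eq_ex (p : ℝ) (U : Finset α) (E : Finset α → Prop) :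
    pr p U E = ex p U (fun X => ind (E X)) := by
  unfold pr ex
  rw [Finset.sum_filter]
  apply Finset.sum_congr rfl
  intro X _
  unfold ind
  by_cases h : E X
  · simp [h]
  · simp [h]

theorem ex_empty (p : ℝ) (f : Finset α → ℝ) : ex p ∅ f = f ∅ := by
  simp [ex, wt]

theorem ex_insert (p : ℝ) {U : Finset α} {v : α} (hv : v ∉ U) (f : Finset α → ℝ) :
    ex p (insert v U) f = p * ex p U (fun X => f (insert v X)) + (1 - p) * ex p U f := by
  unfold ex
  rw [Finset.sum_powerset_insert hv, Finset.mul_sum, Finset.mul_sum, add_comm]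
  congr 1
  · apply Finset.sum_congr rfl
    intro X hX
    rw [Finset.mem_powerset] at hX
    have hvX : v ∉ X := fun h => hv (hX h)
    have hle := Finset.card_le_card hX
    unfold wt
    rw [Finset.card_insert_of_notMem hv, Finset.card_insert_of_notMem hvX]
    have e : U.card + 1 - (X.card + 1) = U.card - X.card := by omega
    rw [e, pow_succ]
    ring
  · apply Finset.sum_congr rfl
    intro X hX
    rw [Finset.mem_powerset] at hX
    have hle := Finset.card_le_card hX
    unfold wt
    rw [Finset.card_insert_of_notMem hv]
    have e : U.card + 1 - X.card = (U.card - X.card) + 1 := by omega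
    rw [e, pow_succ]
    ring

theorem ex_const (p : ℝ) (U : Finset α) (c : ℝ) : ex p U (fun _ => c) = c := by
  unfold ex
  rw [← Finset.sum_mul, wt_sum, one_mul]

theorem ex_congr {p : ℝ} {U : Finset α} {f g : Finset α → ℝ} (h : ∀ X ⊆ U, f X = g X) :
    ex p U f = ex p U g := by
  apply Finset.sum_congr rfl
  intro X hX
  rw [h X (Finset.mem_powerset.1 hX)]

theorem ex_mono {p : ℝ} (h0 : 0 ≤ p) (h1 : p ≤ 1) {U : Finset α} {f g : Finset α → ℝ}
    (h : ∀ X ⊆ U, f X ≤ g X) : ex p U f ≤ ex p U g := by
  apply Finset.sum_le_sum
  intro X hX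
  exact mul_le_mul_of_nonneg_left (h X (Finset.mem_powerset.1 hX)) (wt_nonneg h0 h1 U X)

theorem ex_nonneg {p : ℝ} (h0 : 0 ≤ p) (h1 : p ≤ 1) {U : Finset α} {f : Finset α → ℝ}
    (h : ∀ X ⊆ U, 0 ≤ f X) : 0 ≤ ex p U f := by
  have := ex_mono h0 h1 (f := fun _ => 0) h
  rwa [ex_const] at this

theorem ex_le_const {p : ℝ} (h0 : 0 ≤ p) (h1 : p ≤ 1) {U : Finset α} {f : Finset α → ℝ} {c : ℝ}
    (h : ∀ X ⊆ U, f X ≤ c) : ex p U f ≤ c := by
  have := ex_mono h0 h1 (g := fun _ => c) h
  rwa [ex_const] at this

theorem const_le_ex {p : ℝ} (h0 : 0 ≤ p) (h1 : p ≤ 1) {U : Finset α} {f : Finset α → ℝ} {c : ℝ}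
    (h : ∀ X ⊆ U, c ≤ f X) : c ≤ ex p U f := by
  have := ex_mono h0 h1 (f := fun _ => c) h
  rwa [ex_const] at this

theorem ex_add (p : ℝ) (U : Finset α) (f g : Finset α → ℝ) :
    ex p U (fun X => f X + g X) = ex p U f + ex p U g := by
  unfold ex
  rw [← Finset.sum_add_distrib]
  apply Finset.sum_congr rfl
  intro X _
  ring

theorem ex_mul (p : ℝ) (U : Finset α) (c : ℝ) (f : Finset α → ℝ) :
    ex p U (fun X => c * f X) = c * ex p U f := by
  unfold ex
  rw [Finset.mul_sum]
  apply Finset.sum_congr rfl
  intro X _
  ring

theorem ex_sum {κ : Type*} (p : ℝ) (U : Finset α) (S : Finset κ) (f : κ → Finset α → ℝ) :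
    ex p U (fun X => ∑ i ∈ S, f i X) = ∑ i ∈ S, ex p U (f i) := by
  unfold ex
  rw [Finset.sum_comm]
  apply Finset.sum_congr rfl
  intro X _
  rw [Finset.mul_sum]

theorem ex_comm (p q : ℝ) (U : Finset α) (V : Finset β) (f : Finset α → Finset β → ℝ) :
    ex p U (fun X => ex q V (fun Y => f X Y)) = ex q V (fun Y => ex p U (fun X => f X Y)) := by
  unfold ex
  simp only [Finset.mul_sum]
  rw [Finset.sum_comm]
  apply Finset.sum_congr rfl
  intro Y _
  apply Finset.sum_congr rfl
  intro X _
  ring

theorem ex_union (p : ℝ) {U V : Finset α} (h : Disjoint U V) (f : Finset α → ℝ) :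
    ex p (U ∪ V) f = ex p U (fun X => ex p V (fun Y => f (X ∪ Y))) := by
  induction U using Finset.induction_on generalizing f with
  | empty => simp [ex_empty]
  | insert v U hv ih =>
    have hd : Disjoint U V := h.mono_left (Finset.subset_insert v U)
    have hvV : v ∉ V := Finset.disjoint_left.1 h (Finset.mem_insert_self v U)
    have hvU : v ∉ U ∪ V := by
      rw [Finset.mem_union]
      exact fun h => h.elim hv hvV
    rw [Finset.insert_union, ex_insert p hvU, ex_insert p hv, ih hd, ih hd]
    simp only [Finset.insert_union]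

/-- Union (with classical decidability). -/
noncomputable def uni (X Y : Finset α) : Finset α := X ∪ Y

theorem mem_uni {X Y : Finset α} {v : α} : v ∈ uni X Y ↔ v ∈ X ∨ v ∈ Y := by simp [uni]

/-- The elements of `U` with property `P`. -/
noncomputable def sub (U : Finset α) (P : α → Prop) : Finset α := U.filter P

theorem mem_sub {U : Finset α} {P : α → Prop} {v : α} : v ∈ sub U P ↔ v ∈ U ∧ P v := by
  simp [sub]

theorem sub_subset (U : Finset α) (P : α → Prop) : sub U P ⊆ U := Finset.filter_subset _ _

theorem ex_split (p : ℝ) (U : Finset α) (P : α → Prop) (f : Finset α → ℝ) :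
    ex p U f = ex p (sub U P) (fun X => ex p (sub U (fun v => ¬ P v)) (fun Y => f (uni X Y))) := by
  have h1 : sub U P ∪ sub U (fun v => ¬ P v) = U := by
    ext v
    simp only [Finset.mem_union, mem_sub]
    tauto
  have h2 : Disjoint (sub U P) (sub U (fun v => ¬ P v)) := by
    rw [Finset.disjoint_left]
    intro v hv1 hv2
    rw [mem_sub] at hv1 hv2
    exact hv2.2 hv1.2
  conv_lhs => rw [← h1]
  rw [ex_union p h2]
  rfl

theorem ex_image (p : ℝ) (U : Finset α) {e : α → β} (he : Function.Injective e)
    (f : Finset β → ℝ) : ex p (U.image e) f = ex p U (fun X => f (X.image e)) := by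
  induction U using Finset.induction_on generalizing f with
  | empty => simp [ex_empty]
  | insert v U hv ih =>
    have hv' : e v ∉ U.image e := by
      rw [Finset.mem_image]
      rintro ⟨w, hw, h⟩
      exact hv (he h ▸ hw)
    rw [Finset.image_insert, ex_insert p hv', ex_insert p hv, ih, ih]
    simp only [Finset.image_insert]

/-- Coordinates on which the function does not depend can be dropped. -/
theorem ex_drop {p : ℝ} {U V : Finset α} (hV : V ⊆ U) {f : Finset α → ℝ}
    (h : ∀ X ⊆ V, ∀ Y ⊆ U \ V, f (X ∪ Y) = f X) : ex p U f = ex p V f := by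
  have e : V ∪ U \ V = U := Finset.union_sdiff_of_subset hV
  conv_lhs => rw [← e]
  rw [ex_union p (Finset.disjoint_sdiff)]
  apply ex_congr
  intro X hX
  rw [ex_congr (g := fun _ => f X) (fun Y hY => h X hX Y hY), ex_const]

theorem ex_two {γ : Type*} (p : ℝ) (U : Finset α) (V : Finset β) {e₁ : α → γ} {e₂ : β → γ}
    (h₁ : Function.Injective e₁) (h₂ : Function.Injective e₂) (h : ∀ a b, e₁ a ≠ e₂ b)
    (f : Finset γ → ℝ) : ex p (U.image e₁ ∪ V.image e₂) f =
      ex p U (fun A => ex p V (fun B => f (A.image e₁ ∪ B.image e₂))) := by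
  have hd : Disjoint (U.image e₁) (V.image e₂) := by
    rw [Finset.disjoint_left]
    intro z hz1 hz2
    rw [Finset.mem_image] at hz1 hz2
    obtain ⟨a, _, rfl⟩ := hz1
    obtain ⟨b, _, hb⟩ := hz2
    exact h a b hb.symm
  rw [ex_union p hd, ex_image p U h₁]
  apply ex_congr
  intro A _
  rw [ex_image p V h₂]

theorem ex_disjSum (p : ℝ) (U : Finset α) (V : Finset β) (f : Finset (α ⊕ β) → ℝ) :
    ex p (U.disjSum V) f = ex p U (fun A => ex p V (fun B => f (A.disjSum B))) := by
  have h1 := ex_two p U V (e₁ := (Sum.inl : α → α ⊕ β)) (e₂ := Sum.inr) Sum.inl_injective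
    Sum.inr_injective (fun a b => by simp) f
  refine (congrArg (fun W => ex p W f) ?_).trans (h1.trans ?_)
  · ext z
    simp only [Finset.mem_disjSum, Finset.mem_union, Finset.mem_image]
  · apply ex_congr
    intro A _
    apply ex_congr
    intro B _
    congr 1
    ext z
    simp only [Finset.mem_disjSum, Finset.mem_union, Finset.mem_image]

/-! ### Resampling -/

/-- The set `X` outside `Z` and the set `X'` inside `Z`. -/
noncomputable def mix (Z X X' : Finset α) : Finset α := (X \ Z) ∪ (X' ∩ Z)

theorem mem_mix {Z X X' : Finset α} {v : α} :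
    v ∈ mix Z X X' ↔ (v ∈ X ∧ v ∉ Z) ∨ (v ∈ X' ∧ v ∈ Z) := by
  simp [mix]

theorem mix_empty (X X' : Finset α) : mix ∅ X X' = X := by
  ext v; simp [mem_mix]

theorem ex_mix (p : ℝ) (U Z : Finset α) (f : Finset α → ℝ) :
    ex p U (fun X => ex p U (fun X' => f (mix Z X X'))) = ex p U f := by
  induction U using Finset.induction_on generalizing f with
  | empty => simp [ex_empty, mix]
  | insert v U hv ih =>
    have e : ∀ X X' : Finset α, v ∉ X → v ∉ X' →
        mix Z (insert v X) X' = (if v ∈ Z then mix Z X X' else insert v (mix Z X X')) ∧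
        mix Z X (insert v X') = (if v ∈ Z then insert v (mix Z X X') else mix Z X X') ∧
        mix Z (insert v X) (insert v X') = insert v (mix Z X X') := by
      intro X X' hX hX'
      refine ⟨?_, ?_, ?_⟩
      · split_ifs with hZ
        · ext w
          simp only [mem_mix, Finset.mem_insert]
          constructor
          · rintro (⟨rfl | h, h2⟩ | h)
            · exact absurd hZ h2
            · exact Or.inl ⟨h, h2⟩
            · exact Or.inr h
          · rintro (⟨h, h2⟩ | h)
            · exact Or.inl ⟨Or.inr h, h2⟩
            · exact Or.inr h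
        · ext w
          simp only [mem_mix, Finset.mem_insert]
          constructor
          · rintro (⟨rfl | h, h2⟩ | h)
            · exact Or.inl rfl
            · exact Or.inr (Or.inl ⟨h, h2⟩)
            · exact Or.inr (Or.inr h)
          · rintro (rfl | ⟨h, h2⟩ | h)
            · exact Or.inl ⟨Or.inl rfl, hZ⟩
            · exact Or.inl ⟨Or.inr h, h2⟩
            · exact Or.inr h
      · split_ifs with hZ
        · ext w
          simp only [mem_mix, Finset.mem_insert]
          constructor
          · rintro (h | ⟨rfl | h, h2⟩)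
            · exact Or.inr (Or.inl h)
            · exact Or.inl rfl
            · exact Or.inr (Or.inr ⟨h, h2⟩)
          · rintro (rfl | h | ⟨h, h2⟩)
            · exact Or.inr ⟨Or.inl rfl, hZ⟩
            · exact Or.inl h
            · exact Or.inr ⟨Or.inr h, h2⟩
        · ext w
          simp only [mem_mix, Finset.mem_insert]
          constructor
          · rintro (h | ⟨rfl | h, h2⟩)
            · exact Or.inl h
            · exact absurd h2 hZ
            · exact Or.inr ⟨h, h2⟩
          · rintro (h | ⟨h, h2⟩)
            · exact Or.inl h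
            · exact Or.inr ⟨Or.inr h, h2⟩
      · ext w
        simp only [mem_mix, Finset.mem_insert]
        constructor
        · rintro (⟨rfl | h, h2⟩ | ⟨rfl | h, h2⟩)
          · exact Or.inl rfl
          · exact Or.inr (Or.inl ⟨h, h2⟩)
          · exact Or.inl rfl
          · exact Or.inr (Or.inr ⟨h, h2⟩)
        · rintro (rfl | ⟨h, h2⟩ | ⟨h, h2⟩)
          · by_cases hZ : w ∈ Z
            · exact Or.inr ⟨Or.inl rfl, hZ⟩
            · exact Or.inl ⟨Or.inl rfl, hZ⟩
          · exact Or.inl ⟨Or.inr h, h2⟩
          · exact Or.inr ⟨Or.inr h, h2⟩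
    have hvX : ∀ X ⊆ U, v ∉ X := fun X hX h => hv (hX h)
    rw [ex_insert p hv]
    have h1 : ex p U (fun X => ex p (insert v U) (fun X' => f (mix Z (insert v X) X'))) =
        p * ex p U (fun X => f (insert v X)) + (1 - p) *
          (if v ∈ Z then ex p U f else ex p U (fun X => f (insert v X))) := by
      have h2 : ∀ X ⊆ U, ex p (insert v U) (fun X' => f (mix Z (insert v X) X')) =
          p * ex p U (fun X' => f (insert v (mix Z X X'))) + (1 - p) *
          (if v ∈ Z then ex p U (fun X' => f (mix Z X X')) else
            ex p U (fun X' => f (insert v (mix Z X X')))) := by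
        intro X hX
        rw [ex_insert p hv]
        congr 1
        · congr 1
          apply ex_congr
          intro X' hX'
          rw [(e X X' (hvX X hX) (hvX X' hX')).2.2]
        · congr 1
          split_ifs with hZ
          · apply ex_congr
            intro X' hX'
            rw [(e X X' (hvX X hX) (hvX X' hX')).1, if_pos hZ]
          · apply ex_congr
            intro X' hX'
            rw [(e X X' (hvX X hX) (hvX X' hX')).1, if_neg hZ]
      rw [ex_congr h2, ex_add, ex_mul, ex_mul, ih (fun X => f (insert v X))]
      congr 2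
      split_ifs with hZ
      · exact ih f
      · exact ih (fun X => f (insert v X))
    have h3 : ex p U (fun X => ex p (insert v U) (fun X' => f (mix Z X X'))) =
        p * (if v ∈ Z then ex p U (fun X => f (insert v X)) else ex p U f) +
          (1 - p) * ex p U f := by
      have h2 : ∀ X ⊆ U, ex p (insert v U) (fun X' => f (mix Z X X')) =
          p * (if v ∈ Z then ex p U (fun X' => f (insert v (mix Z X X'))) else
            ex p U (fun X' => f (mix Z X X'))) + (1 - p) * ex p U (fun X' => f (mix Z X X')) := by
        intro X hX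
        rw [ex_insert p hv]
        congr 2
        split_ifs with hZ
        · apply ex_congr
          intro X' hX'
          rw [(e X X' (hvX X hX) (hvX X' hX')).2.1, if_pos hZ]
        · apply ex_congr
          intro X' hX'
          rw [(e X X' (hvX X hX) (hvX X' hX')).2.1, if_neg hZ]
      rw [ex_congr h2, ex_add, ex_mul, ex_mul, ih f]
      congr 2
      split_ifs with hZ
      · exact ih (fun X => f (insert v X))
      · exact ih f
    rw [h1, h3, ex_insert p hv]
    split_ifs <;> ring

/-! ### Influences -/

/-- The influence of `v` on `F`: the probability that the value changes with the membership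
of `v`. -/
noncomputable def infl (p : ℝ) (U : Finset α) (F : Finset α → β) (v : α) : ℝ :=
  ex p U (fun X => ind (F (insert v X) ≠ F (X.erase v)))

/-- The total influence. -/
noncomputable def tot (p : ℝ) (U : Finset α) (F : Finset α → β) : ℝ := ∑ v ∈ U, infl p U F v

theorem infl_nonneg {p : ℝ} (h0 : 0 ≤ p) (h1 : p ≤ 1) (U : Finset α) (F : Finset α → β) (v : α) :
    0 ≤ infl p U F v := ex_nonneg h0 h1 fun _ _ => ind_nonneg _

theorem tot_nonneg {p : ℝ} (h0 : 0 ≤ p) (h1 : p ≤ 1) (U : Finset α) (F : Finset α → β) :
    0 ≤ tot p U F := Finset.sum_nonneg fun v _ => infl_nonneg h0 h1 U F v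

theorem tot_le_card {p : ℝ} (h0 : 0 ≤ p) (h1 : p ≤ 1) (U : Finset α) (F : Finset α → β) :
    tot p U F ≤ U.card := by
  unfold tot
  calc ∑ v ∈ U, infl p U F v ≤ ∑ _v ∈ U, (1 : ℝ) :=
        Finset.sum_le_sum fun v _ => ex_le_const h0 h1 fun _ _ => ind_le_one _
    _ = U.card := by simp

/-- Every value of `F` has a certificate of size `n`. -/
def Cert (n : ℕ) (F : Finset α → β) : Prop :=
  ∀ X, ∃ R : Finset α, R.card ≤ n ∧ ∀ Y, (∀ v ∈ R, v ∈ X ↔ v ∈ Y) → F X = F Y

theorem tot_le_of_cert {p : ℝ} (h0 : 0 ≤ p) (h1 : p ≤ 1) (U : Finset α) {F : Finset α → β}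
    {n : ℕ} (h : Cert n F) : tot p U F ≤ n := by
  unfold tot infl
  rw [← ex_sum]
  apply ex_le_const h0 h1
  intro X _
  obtain ⟨R, hR, hF⟩ := h X
  have key : ∀ v, F (insert v X) ≠ F (X.erase v) → v ∈ R := by
    intro v hv
    by_contra hvR
    apply hv
    rw [← hF (insert v X) (by
      intro w hw
      have : w ≠ v := fun e => hvR (e ▸ hw)
      simp [Finset.mem_insert, this]), ← hF (X.erase v) (by
      intro w hw
      have : w ≠ v := fun e => hvR (e ▸ hw)
      simp [Finset.mem_erase, this])]
  calc ∑ v ∈ U, ind (F (insert v X) ≠ F (X.erase v)) ≤ ∑ v ∈ U, ind (v ∈ R) := by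
        apply Finset.sum_le_sum
        intro v _
        exact ind_mono (key v)
    _ = ((U ∩ R).card : ℝ) := by
        have h2 : ∑ v ∈ U ∩ R, ind (v ∈ R) = ∑ v ∈ U, ind (v ∈ R) :=
          Finset.sum_subset Finset.inter_subset_left
            (fun v hv hv' => ind_false (fun h => hv' (Finset.mem_inter.2 ⟨hv, h⟩)))
        rw [← h2, Finset.sum_congr rfl (fun v hv => ind_true (Finset.mem_inter.1 hv).2)]
        simp
    _ ≤ (R.card : ℝ) := by
        exact_mod_cast Finset.card_le_card Finset.inter_subset_right
    _ ≤ n := by exact_mod_cast hR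

/-- **Resampling changes the value with probability at most the sum of the influences.** -/
theorem resample {p : ℝ} (h0 : 0 ≤ p) (h1 : p ≤ 1) (U Z : Finset α) (F : Finset α → β) :
    ex p U (fun X => ex p U (fun X' => ind (F X ≠ F (mix Z X X')))) ≤
      ∑ v ∈ Z, infl p U F v := by
  induction Z using Finset.induction_on with
  | empty =>
    simp only [mix_empty, ne_eq, not_true_eq_false, ind_false, not_false_eq_true,
      Finset.sum_empty]
    rw [ex_const, ex_const]
  | insert v Z hv ih =>
    rw [Finset.sum_insert hv]
    have hi : infl p U F v = ex p U (fun X => ex p U (fun X' =>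
        ind (F (insert v (mix Z X X')) ≠ F ((mix Z X X').erase v)))) :=
      (ex_mix p U Z (fun X => ind (F (insert v X) ≠ F (X.erase v)))).symm
    rw [hi]
    have : ex p U (fun X => ex p U (fun X' => ind (F X ≠ F (mix (insert v Z) X X')))) ≤
        ex p U (fun X => ex p U (fun X' =>
          ind (F (insert v (mix Z X X')) ≠ F ((mix Z X X').erase v)))) +
        ex p U (fun X => ex p U (fun X' => ind (F X ≠ F (mix Z X X')))) := by
      rw [← ex_add]
      apply ex_mono h0 h1
      intro X _
      rw [← ex_add]
      apply ex_mono h0 h1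
      intro X' _
      by_cases h2 : F X ≠ F (mix (insert v Z) X X')
      · by_cases h3 : F X ≠ F (mix Z X X')
        · rw [ind_true h2, ind_true h3]
          have := ind_nonneg (F (insert v (mix Z X X')) ≠ F ((mix Z X X').erase v))
          linarith
        · have h4 : F (insert v (mix Z X X')) ≠ F ((mix Z X X').erase v) := by
            intro h5
            apply h2
            push Not at h3
            rw [h3]
            have ha : mix Z X X' = insert v (mix Z X X') ∨ mix Z X X' = (mix Z X X').erase v := by
              by_cases hm : v ∈ mix Z X X'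
              · left; rw [Finset.insert_eq_of_mem hm]
              · right; rw [Finset.erase_eq_of_notMem hm]
            have hb : mix (insert v Z) X X' = insert v (mix Z X X') ∨
                mix (insert v Z) X X' = (mix Z X X').erase v := by
              by_cases hm : v ∈ X'
              · left
                ext w
                by_cases hw : w = v
                · subst hw; simp [mem_mix, hm]
                · simp [mem_mix, hw]
              · right
                ext w
                by_cases hw : w = v
                · subst hw; simp [mem_mix, hm]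
                · simp [mem_mix, hw]
            have hc : ∀ M, M = insert v (mix Z X X') ∨ M = (mix Z X X').erase v →
                F M = F (insert v (mix Z X X')) := by
              rintro M (rfl | rfl)
              · rfl
              · exact h5.symm
            rw [hc _ ha, hc _ hb]
          rw [ind_true h2, ind_true h4]
          have := ind_nonneg (F X ≠ F (mix Z X X'))
          linarith
      · rw [ind_false h2]
        have := ind_nonneg (F X ≠ F (mix Z X X'))
        have := ind_nonneg (F (insert v (mix Z X X')) ≠ F ((mix Z X X').erase v))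
        linarith
    linarith

end Pool.Agent.H9
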