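import Mathlib
import Pool.Agent.H9.Prob
import Pool.Agent.H9.Hier2

/-!
The total influence of alternating quantifiers over decision trees, under product distributions.
-/

set_option autoImplicit false

namespace Pool.Agent.H9

open Classical

variable {α β : Type*}

/-- The elements of `A` that are outside `B` or in `Y`. -/
noncomputable def comb (A B Y : Finset α) : Finset α := A.filter (fun v => v ∉ B ∨ v ∈ Y)

theorem mem_comb {A B Y : Finset α} {v : α} : v ∈ comb A B Y ↔ v ∈ A ∧ (v ∉ B ∨ v ∈ Y) := by
  simp [comb]

theorem comb_insert_A {A B Y : Finset α} {v : α} (hB : v ∉ B) :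
    comb (insert v A) B Y = insert v (comb A B Y) := by
  ext w
  simp only [mem_comb, Finset.mem_insert]
  constructor
  · rintro ⟨rfl | h1, h2⟩
    · exact Or.inl rfl
    · exact Or.inr ⟨h1, h2⟩
  · rintro (rfl | ⟨h1, h2⟩)
    · exact ⟨Or.inl rfl, Or.inl hB⟩
    · exact ⟨Or.inr h1, h2⟩

theorem comb_insert_B {A B Y : Finset α} {v : α} (hA : v ∉ A) :
    comb A (insert v B) Y = comb A B Y := by
  ext w
  simp only [mem_comb, Finset.mem_insert]
  constructor
  · rintro ⟨h1, h2⟩
    refine ⟨h1, h2.imp (fun h h' => h (Or.inr h')) id⟩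
  · rintro ⟨h1, h2⟩
    refine ⟨h1, h2.imp (fun h h' => ?_) id⟩
    rcases h' with rfl | h'
    · exact hA h1
    · exact h h'

theorem comb_insert_Y {A B Y : Finset α} {v : α} (hA : v ∉ A) :
    comb A B (insert v Y) = comb A B Y := by
  ext w
  simp only [mem_comb, Finset.mem_insert]
  constructor
  · rintro ⟨h1, h2⟩
    refine ⟨h1, h2.imp id (fun h => ?_)⟩
    rcases h with rfl | h
    · exact absurd h1 hA
    · exact h
  · rintro ⟨h1, h2⟩
    exact ⟨h1, h2.imp id Or.inr⟩

theorem comb_insert_AB {A B Y : Finset α} {v : α} (hA : v ∉ A) (hY : v ∉ Y) :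
    comb (insert v A) (insert v B) Y = comb A B Y := by
  ext w
  simp only [mem_comb, Finset.mem_insert]
  constructor
  · rintro ⟨rfl | h1, h2⟩
    · rcases h2 with h2 | h2
      · exact absurd (Or.inl rfl) h2
      · exact absurd h2 hY
    · exact ⟨h1, h2.imp (fun h h' => h (Or.inr h')) id⟩
  · rintro ⟨h1, h2⟩
    refine ⟨Or.inr h1, h2.imp (fun h h' => ?_) id⟩
    rcases h' with rfl | h'
    · exact hA h1
    · exact h h'

theorem comb_insert_ABY {A B Y : Finset α} {v : α} :
    comb (insert v A) (insert v B) (insert v Y) = insert v (comb A B Y) := by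
  ext w
  simp only [mem_comb, Finset.mem_insert]
  by_cases hw : w = v
  · simp [hw]
  · simp [hw]

theorem ex_comb (p π : ℝ) (U : Finset α) (f : Finset α → ℝ) :
    ex p U (fun A => ex p U (fun B => ex π U (fun Y => f (comb A B Y)))) =
      ex (p * (1 - p + p * π)) U f := by
  induction U using Finset.induction_on generalizing f with
  | empty => simp [ex_empty, comb]
  | insert v U hv ih =>
    have hvX : ∀ X ⊆ U, v ∉ X := fun X hX h => hv (hX h)
    -- `v ∉ A`
    have h1 : ∀ A ⊆ U, ex p (insert v U) (fun B => ex π (insert v U) (fun Y => f (comb A B Y))) =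
        ex p U (fun B => ex π U (fun Y => f (comb A B Y))) := by
      intro A hA
      have h2 : ∀ B, ex π (insert v U) (fun Y => f (comb A B Y)) =
          ex π U (fun Y => f (comb A B Y)) := by
        intro B
        rw [ex_insert π hv]
        simp only [comb_insert_Y (hvX A hA)]
        ring
      simp only [h2]
      rw [ex_insert p hv]
      simp only [comb_insert_B (hvX A hA)]
      ring
    -- `v ∈ A`
    have h3 : ∀ A ⊆ U, ex p (insert v U)
        (fun B => ex π (insert v U) (fun Y => f (comb (insert v A) B Y))) =
        p * (π * ex p U (fun B => ex π U (fun Y => f (insert v (comb A B Y)))) +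
          (1 - π) * ex p U (fun B => ex π U (fun Y => f (comb A B Y)))) +
        (1 - p) * ex p U (fun B => ex π U (fun Y => f (insert v (comb A B Y)))) := by
      intro A hA
      rw [ex_insert p hv]
      congr 2
      · have h4 : ∀ B ⊆ U, ex π (insert v U)
            (fun Y => f (comb (insert v A) (insert v B) Y)) =
            π * ex π U (fun Y => f (insert v (comb A B Y))) +
            (1 - π) * ex π U (fun Y => f (comb A B Y)) := by
          intro B _
          rw [ex_insert π hv]
          congr 2
          · apply ex_congr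
            intro Y _
            rw [comb_insert_ABY]
          · apply ex_congr
            intro Y hY
            rw [comb_insert_AB (hvX A hA) (hvX Y hY)]
        rw [ex_congr h4, ex_add, ex_mul, ex_mul]
      · apply ex_congr
        intro B hB
        have h4 : ∀ Y, comb (insert v A) B Y = insert v (comb A B Y) :=
          fun Y => comb_insert_A (hvX B hB)
        simp only [h4]
        rw [ex_insert π hv]
        have h5 : ∀ Y ⊆ U, f (insert v (comb A B (insert v Y))) =
            f (insert v (comb A B Y)) := by
          intro Y _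
          rw [comb_insert_Y (hvX A hA)]
        rw [ex_congr h5]
        ring
    rw [ex_insert p hv, ex_congr h3, ex_congr h1, ex_insert _ hv]
    rw [ex_add, ex_mul, ex_add, ex_mul, ex_mul, ex_mul, ih f, ih (fun X => f (insert v X))]
    ring

/-- One step of the influence computation. -/
theorem infl_step (p π : ℝ) (U : Finset α) (F : Finset α → β) {v : α} (hvU : v ∈ U) :
    p * p * infl (p * (1 - p + p * π)) U F v =
      ex p U (fun A => ex p U (fun B => if v ∈ A ∧ v ∈ B then
        infl π U (fun Y => F (comb A B Y)) v else 0)) := by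
  obtain ⟨U', hv, rfl⟩ : ∃ U' : Finset α, v ∉ U' ∧ U = insert v U' :=
    ⟨U.erase v, Finset.notMem_erase v U, (Finset.insert_erase hvU).symm⟩
  have hvX : ∀ X ⊆ U', v ∉ X := fun X hX h => hv (hX h)
  have hinfl : ∀ (q : ℝ) (G : Finset α → β), infl q (insert v U') G v =
      ex q U' (fun X => ind (G (insert v X) ≠ G X)) := by
    intro q G
    unfold infl
    rw [ex_insert q hv]
    have h1 : ∀ X ⊆ U', ind (G (insert v (insert v X)) ≠ G ((insert v X).erase v)) =
        ind (G (insert v X) ≠ G X) := by
      intro X hX
      rw [Finset.insert_idem, Finset.erase_insert (hvX X hX)]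
    have h2 : ∀ X ⊆ U', ind (G (insert v X) ≠ G (X.erase v)) =
        ind (G (insert v X) ≠ G X) := by
      intro X hX
      rw [Finset.erase_eq_of_notMem (hvX X hX)]
    rw [ex_congr h1, ex_congr h2]
    ring
  rw [hinfl, ex_insert p hv]
  have h1 : ex p U' (fun A => ex p (insert v U') (fun B => if v ∈ A ∧ v ∈ B then
        infl π (insert v U') (fun Y => F (comb A B Y)) v else 0)) = 0 := by
    have : ∀ A ⊆ U', ex p (insert v U') (fun B => if v ∈ A ∧ v ∈ B then
        infl π (insert v U') (fun Y => F (comb A B Y)) v else 0) = 0 := by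
      intro A hA
      rw [ex_congr (g := fun _ => 0) (fun B _ => if_neg (fun h => hvX A hA h.1)), ex_const]
    rw [ex_congr this, ex_const]
  have h2 : ∀ A ⊆ U', ex p (insert v U') (fun B => if v ∈ insert v A ∧ v ∈ B then
        infl π (insert v U') (fun Y => F (comb (insert v A) B Y)) v else 0) =
      p * ex p U' (fun B => ex π U' (fun Y => ind (F (insert v (comb A B Y)) ≠
        F (comb A B Y)))) := by
    intro A hA
    rw [ex_insert p hv]
    have h3 : ∀ B ⊆ U', (if v ∈ insert v A ∧ v ∈ insert v B then
        infl π (insert v U') (fun Y => F (comb (insert v A) (insert v B) Y)) v else 0) =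
        ex π U' (fun Y => ind (F (insert v (comb A B Y)) ≠ F (comb A B Y))) := by
      intro B hB
      rw [if_pos ⟨Finset.mem_insert_self _ _, Finset.mem_insert_self _ _⟩, hinfl]
      apply ex_congr
      intro Y hY
      rw [comb_insert_ABY, comb_insert_AB (hvX A hA) (hvX Y hY)]
    have h4 : ∀ B ⊆ U', (if v ∈ insert v A ∧ v ∈ B then
        infl π (insert v U') (fun Y => F (comb (insert v A) B Y)) v else 0) = 0 := by
      intro B hB
      exact if_neg (fun h => hvX B hB h.2)
    rw [ex_congr h3, ex_congr h4, ex_const]
    ring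
  rw [h1, ex_congr h2, ex_mul, ex_comb p π U' (fun X => ind (F (insert v X) ≠ F X))]
  ring

theorem tot_step {p π : ℝ} (h0 : 0 ≤ p) (h1 : p ≤ 1) (hπ0 : 0 ≤ π) (hπ1 : π ≤ 1)
    (U : Finset α) (F : Finset α → β) :
    p * p * tot (p * (1 - p + p * π)) U F ≤
      ex p U (fun A => ex p U (fun B => tot π U (fun Y => F (comb A B Y)))) := by
  unfold tot
  rw [Finset.mul_sum]
  have : ∀ v ∈ U, p * p * infl (p * (1 - p + p * π)) U F v ≤
      ex p U (fun A => ex p U (fun B => infl π U (fun Y => F (comb A B Y)) v)) := by
    intro v hv
    rw [infl_step p π U F hv]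
    apply ex_mono h0 h1
    intro A _
    apply ex_mono h0 h1
    intro B _
    split_ifs
    · exact le_rfl
    · exact infl_nonneg hπ0 hπ1 _ _ _
  refine (Finset.sum_le_sum this).trans ?_
  rw [← ex_sum]
  apply ex_mono h0 h1
  intro A _
  rw [← ex_sum]

/-! ### The bias sequence -/

/-- The bias after `d` rounds. -/
noncomputable def bias (p : ℝ) : ℕ → ℝ
  | 0 => p
  | d + 1 => p * (1 - p + p * bias p d)

theorem bias_bounds {p : ℝ} (h0 : 0 ≤ p) (h1 : p ≤ 1 / 2) (d : ℕ) :
    p / 2 ≤ bias p d ∧ bias p d ≤ p := by
  induction d with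
  | zero => exact ⟨by simp [bias]; linarith, le_rfl⟩
  | succ d ih =>
    obtain ⟨h2, h3⟩ := ih
    simp only [bias]
    constructor
    · nlinarith [mul_nonneg h0 h0, mul_nonneg h0 (by linarith : (0 : ℝ) ≤ bias p d)]
    · nlinarith [mul_nonneg h0 (by linarith : (0 : ℝ) ≤ bias p d)]

/-- The 0/1 assignment of a set. -/
noncomputable def mem (X : Finset α) : α → Bool := fun v => decide (v ∈ X)

theorem mem_comb_full (Z : Finset (α ⊕ α)) (A B Y : Finset α) (hZ : Z = A.disjSum B) :
    mem (comb A B Y) = full id false Z (fun _ => !false) (mem Y) := by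
  subst hZ
  funext v
  unfold mem full
  by_cases h1 : v ∈ A
  · by_cases h2 : v ∈ B
    · simp [mem_comb, h1, h2]
    · simp [mem_comb, h1, h2]
  · simp [mem_comb, h1]

theorem cert_of_dtp {n : ℕ} {f : (α → Bool) → Prop} (hf : DTP Set.univ n f) :
    Cert n (fun X => f (mem X)) := by
  intro X
  obtain ⟨R, hR, h⟩ := hf.cert (mem X)
  refine ⟨R, hR, fun Y hY => ?_⟩
  apply propext
  apply h
  intro v hv
  unfold mem
  exact decide_eq_decide.2 (hY v hv)

/-- The total influence of an alternating formula over decision trees. -/
theorem tot_altL {p : ℝ} (h0 : 0 < p) (h1 : p ≤ 1 / 2) (U : Finset α) (s B : ℕ)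
    (hε : (2 : ℝ) ^ B * (4 * s * (p / (1 - p))) ^ (s + 1) * U.card ≤ 1) :
    ∀ (d : ℕ) (ms : List ℕ) (e : Bool) (φ : List (List Bool) → (α → Bool) → Prop),
      ms.length ≤ d → ms.sum ≤ B → (∀ us ∈ paths ms, DTP Set.univ s (φ us)) →
      tot (bias p d) U (fun X => AltL e ms (fun us => φ us (mem X))) ≤
        (s + d) * (1 / (p * p)) ^ d := by
  have hp1 : p ≤ 1 := by linarith
  have hpp : 0 < p * p := by positivity
  have hinv : 1 ≤ 1 / (p * p) := by
    rw [le_div_iff₀ hpp]
    nlinarith
  have hb : ∀ d, 0 ≤ bias p d ∧ bias p d ≤ 1 := fun d => by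
    have := bias_bounds h0.le h1 d
    constructor <;> linarith
  have hnil : ∀ (d : ℕ) (e : Bool) (φ : List (List Bool) → (α → Bool) → Prop),
      (∀ us ∈ paths [], DTP Set.univ s (φ us)) →
      tot (bias p d) U (fun X => AltL e [] (fun us => φ us (mem X))) ≤
        (s + d) * (1 / (p * p)) ^ d := by
    intro d e φ hφ
    have h2 := tot_le_of_cert (hb d).1 (hb d).2 U
      (cert_of_dtp (hφ [] (mem_paths.2 rfl)))
    calc _ ≤ (s : ℝ) := h2
      _ ≤ (s + d) * 1 := by
        have : (0 : ℝ) ≤ d := Nat.cast_nonneg d
        linarith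
      _ ≤ _ := by
        apply mul_le_mul_of_nonneg_left (one_le_pow₀ hinv)
        positivity
  intro d
  induction d with
  | zero =>
    intro ms e φ hms _ hφ
    have : ms = [] := List.length_eq_zero_iff.1 (by omega)
    subst this
    exact hnil 0 e φ hφ
  | succ d ih =>
    intro ms e φ hms hB hφ
    rcases List.eq_nil_or_concat' ms with rfl | ⟨ms', m, rfl⟩
    · exact hnil (d + 1) e φ hφ
    have hlen : ms'.length ≤ d := by simpa using hms
    have hB' : ms'.sum ≤ B := by
      rw [List.sum_append] at hB
      omega
    -- one round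
    set F : Finset α → Prop := fun X => AltL e (ms' ++ [m]) (fun us => φ us (mem X)) with hF
    have hstep := tot_step (α := α) h0.le hp1 (hb d).1 (hb d).2 U F
    have hbias : bias p (d + 1) = p * (1 - p + p * bias p d) := rfl
    rw [← hbias] at hstep
    -- the good event
    let e' : Bool := e ^^ ms'.length.bodd
    let ψ : List (List Bool) → (α → Bool) → Prop := fun us a => qt e' m (fun u => φ (us ++ [u]) a)
    have hFψ : ∀ X, F X ↔ AltL e ms' (fun us => ψ us (mem X)) := by
      intro X
      exact AltL_snoc e ms' m _
    let bad : Finset (α ⊕ α) → Prop := fun Z => ∃ us ∈ paths ms',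
      ¬ DTP Set.univ s (fun y => ψ us (full id false Z (fun _ => !false) y))
    have hp11 : p < 1 := by linarith
    have hbad : ex p U (fun A => ex p U (fun B => ind (bad (A.disjSum B)))) ≤
        2 ^ B * (4 * s * (p / (1 - p))) ^ (s + 1) := by
      rw [← ex_disjSum p U U (fun Z => ind (bad Z)), ← pr_eq_ex]
      refine (pr_exists h0.le hp1 _ (paths ms') _ ((4 * s * (p / (1 - p))) ^ (s + 1)) ?_).trans ?_
      · intro us hus
        obtain ⟨G, hG1, hG2⟩ := terms_of_qt (e := !e') (q := m) (T := s)
          (D := fun u => φ (us ++ [u])) (by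
            intro u hu
            apply hφ
            rw [mem_paths] at hus ⊢
            rw [List.map_append, hus]
            simp [mem_strings.1 hu])
        refine le_trans (pr_mono h0.le hp1 _ ?_)
          (switching (blk := (id : α → α)) (c := false) hG1 h0 hp11 _ s)
        intro Z _ hZ hD
        apply hZ
        have hG2' : ∀ a, (∃ t ∈ G, Sat t a) ↔ (if (!e') = true then ¬ ψ us a else ψ us a) := by
          intro a
          rw [← hG2 a]
          simp only [Bool.not_not]
          rfl
        by_cases he : (!e') = true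
        · refine (hD.not).congr ?_
          intro y
          rw [hG2', if_pos he, not_not]
        · refine hD.congr ?_
          intro y
          rw [hG2', if_neg he]
      · apply mul_le_mul_of_nonneg_right
        · rw [card_paths]
          push_cast
          exact pow_le_pow_right₀ (by norm_num) hB'
        · apply pow_nonneg
          have : 0 ≤ p / (1 - p) := div_nonneg h0.le (by linarith)
          positivity
    -- bound for the total influence of the restricted function
    have hpt : ∀ A ⊆ U, ∀ B' ⊆ U, tot (bias p d) U (fun Y => F (comb A B' Y)) ≤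
        (s + d) * (1 / (p * p)) ^ d + ind (bad (A.disjSum B')) * U.card := by
      intro A _ B' _
      by_cases hbd : bad (A.disjSum B')
      · rw [ind_true hbd, one_mul]
        have h2 := tot_le_card (hb d).1 (hb d).2 U (fun Y => F (comb A B' Y))
        have h3 : 0 ≤ ((s : ℝ) + d) * (1 / (p * p)) ^ d := by positivity
        linarith
      · rw [ind_false hbd, zero_mul, add_zero]
        have h2 : ∀ us ∈ paths ms', DTP Set.univ s
            (fun y => ψ us (full id false (A.disjSum B') (fun _ => !false) y)) := by
          intro us hus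
          by_contra hcon
          exact hbd ⟨us, hus, hcon⟩
        have h3 := ih ms' e (fun us y => ψ us (full id false (A.disjSum B') (fun _ => !false) y))
          hlen hB' h2
        have h4 : (fun Y => F (comb A B' Y)) = (fun Y => AltL e ms'
            (fun us => ψ us (full id false (A.disjSum B') (fun _ => !false) (mem Y)))) := by
          funext Y
          rw [← mem_comb_full (A.disjSum B') A B' Y rfl]
          exact propext (hFψ _)
        rw [h4]
        exact h3
    have hsum : ex p U (fun A => ex p U (fun B' => tot (bias p d) U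
        (fun Y => F (comb A B' Y)))) ≤ (s + d) * (1 / (p * p)) ^ d + 1 := by
      calc _ ≤ ex p U (fun A => ex p U (fun B' => (s + d) * (1 / (p * p)) ^ d +
            U.card * ind (bad (A.disjSum B')))) := by
            apply ex_mono h0.le hp1
            intro A hA
            apply ex_mono h0.le hp1
            intro B' hB'
            have := hpt A hA B' hB'
            linarith
        _ = (s + d) * (1 / (p * p)) ^ d + U.card *
            ex p U (fun A => ex p U (fun B' => ind (bad (A.disjSum B')))) := by
            have : ∀ A ⊆ U, ex p U (fun B' => ((s : ℝ) + d) * (1 / (p * p)) ^ d +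
                U.card * ind (bad (A.disjSum B'))) = (s + d) * (1 / (p * p)) ^ d +
                U.card * ex p U (fun B' => ind (bad (A.disjSum B'))) := by
              intro A _
              rw [ex_add, ex_const, ex_mul]
            rw [ex_congr this, ex_add, ex_const, ex_mul]
        _ ≤ (s + d) * (1 / (p * p)) ^ d + U.card *
            (2 ^ B * (4 * s * (p / (1 - p))) ^ (s + 1)) := by
            have h5 := mul_le_mul_of_nonneg_left hbad (Nat.cast_nonneg (α := ℝ) U.card)
            linarith
        _ ≤ _ := by linarith
    have h6 : 1 ≤ (1 / (p * p)) ^ d := one_le_pow₀ hinv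
    calc tot (bias p (d + 1)) U F = (p * p * tot (bias p (d + 1)) U F) * (1 / (p * p)) := by
          field_simp
      _ ≤ ((s + d) * (1 / (p * p)) ^ d + 1) * (1 / (p * p)) := by
          apply mul_le_mul_of_nonneg_right (hstep.trans hsum)
          positivity
      _ ≤ ((s + d) * (1 / (p * p)) ^ d + (1 / (p * p)) ^ d) * (1 / (p * p)) := by
          apply mul_le_mul_of_nonneg_right _ (by positivity)
          linarith
      _ = (s + ((d + 1 : ℕ) : ℝ)) * (1 / (p * p)) ^ (d + 1) := by
          push_cast
          rw [pow_succ]
          ring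

end Pool.Agent.H9
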