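import Mathlib
import Pool.Agent.H9.Sens

/-!
An average case depth hierarchy theorem: tables whose entries are shallow decision trees over
independent biased bits.
-/

set_option autoImplicit false

namespace Pool.Agent.H9

open Classical

/-- Nodes of the tree: tuples of strings. -/
abbrev Node := List (List Bool)

/-- The quantifier at (zero based) level `l`, existential for even `l`. -/
def ql (l : ℕ) : Bool := true ^^ l.bodd

theorem ql_succ (l : ℕ) : ql (l + 1) = !(ql l) := by
  unfold ql
  rw [Nat.bodd_succ]
  cases l.bodd <;> rfl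

/-- The contents of the nodes of level `l`, from random bits `Z` and the values `t` of the nodes
of level `0`. -/
noncomputable def contT (Z : Finset (Node ⊕ Node)) (t : Node → Bool) : ℕ → Node → Bool
  | 0 => t
  | l + 1 => full List.dropLast (!(ql (l + 1))) Z (fun _ => !(!(ql (l + 1)))) (contT Z t l)

theorem contT_succ (Z : Finset (Node ⊕ Node)) (t : Node → Bool) (l : ℕ) (v : Node) :
    contT Z t (l + 1) v = if Sum.inl v ∈ Z then
      (if Sum.inr v.dropLast ∈ Z then contT Z t l v.dropLast else ql (l + 1))
      else !(ql (l + 1)) := by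
  simp only [contT, full, Bool.not_not]

theorem contT_congr {Z Z' : Finset (Node ⊕ Node)} {t t' : Node → Bool} :
    ∀ (l : ℕ), (∀ v : Node, 2 ≤ v.length → v.length ≤ l + 1 → (Sum.inl v ∈ Z ↔ Sum.inl v ∈ Z')) →
      (∀ v : Node, 1 ≤ v.length → v.length ≤ l → (Sum.inr v ∈ Z ↔ Sum.inr v ∈ Z')) →
      (∀ v : Node, v.length = 1 → t v = t' v) →
      ∀ v : Node, v.length = l + 1 → contT Z t l v = contT Z' t' l v := by
  intro l
  induction l with
  | zero => intro _ _ ht v hv; exact ht v hv
  | succ l ih =>
    intro h1 h2 ht v hv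
    have hd : v.dropLast.length = l + 1 := by rw [List.length_dropLast]; omega
    have h3 := ih (fun w hw1 hw2 => h1 w hw1 (by omega)) (fun w hw1 hw2 => h2 w hw1 (by omega))
      ht v.dropLast hd
    rw [contT_succ, contT_succ, h3]
    have e1 := h1 v (by omega) (by omega)
    have e2 := h2 v.dropLast (by omega) (by omega)
    by_cases ha : Sum.inl v ∈ Z
    · rw [if_pos ha, if_pos (e1.1 ha)]
      by_cases hb : Sum.inr v.dropLast ∈ Z
      · rw [if_pos hb, if_pos (e2.1 hb)]
      · rw [if_neg hb, if_neg (fun h => hb (e2.2 h))]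
    · rw [if_neg ha, if_neg (fun h => ha (e1.2 h))]

/-- A function that depends only on the variables in `Q` has a decision tree of the same depth
with queries in `Q`. -/
theorem DTP.restrict {α : Type*} {Q : Set α} {n : ℕ} {f : (α → Bool) → Prop}
    (hf : DTP Set.univ n f) (h : ∀ a b : α → Bool, (∀ q ∈ Q, a q = b q) → (f a ↔ f b)) :
    DTP Q n f := by
  have h1 := hf.comp (R := Q) (m := 1) (fun b q => if q ∈ Q then b q else false) (by
    intro q _
    by_cases hq : q ∈ Q
    · simp only [if_pos hq]
      exact DTP.var q hq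
    · simp only [if_neg hq]
      exact DTP.const 1 (false = true))
  rw [mul_one] at h1
  refine h1.congr ?_
  intro a
  apply h
  intro q hq
  rw [if_pos hq]

/-- The variables of level `l`. -/
def Qlev (l : ℕ) : Set Node := {v | v.length = l + 1}

/-- **Collapse along all levels**, with high probability. -/
theorem rounds {π : ℝ} (h0 : 0 < π) (h1 : π ≤ 1 / 2) (T B : ℕ) :
    ∀ (l : ℕ) (W : Finset (Node ⊕ Node)) (e : Bool) (qs : List ℕ)
      (D : List (List Bool) → (Node → Bool) → Prop), qs.length = l → qs.sum ≤ B →
      (∀ ws ∈ paths qs, DTP (Qlev l) T (D ws)) →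
      ex π W (fun Z => ind (¬ DTP Set.univ T
        (fun t => AltL e qs (fun ws => D ws (contT Z t l))))) ≤
        l * (2 ^ B * (4 * T * (π / (1 - π))) ^ (T + 1)) := by
  have hπ1 : π ≤ 1 := by linarith
  have hπ11 : π < 1 := by linarith
  have hr : 0 ≤ π / (1 - π) := div_nonneg h0.le (by linarith)
  intro l
  induction l with
  | zero =>
    intro W e qs D hqs _ hD
    have : qs = [] := List.length_eq_zero_iff.1 hqs
    subst this
    have h2 : ∀ Z : Finset (Node ⊕ Node), ind (¬ DTP Set.univ T
        (fun t => AltL e [] (fun ws => D ws (contT Z t 0)))) = 0 := by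
      intro Z
      apply ind_false
      rw [not_not]
      exact (hD [] (mem_paths.2 rfl)).mono_set (Set.subset_univ _)
    simp only [h2, ex_const, Nat.cast_zero, zero_mul, le_refl]
  | succ l ih =>
    intro W e qs D hqs hB hD
    rcases List.eq_nil_or_concat' qs with rfl | ⟨qs', m, rfl⟩
    · simp at hqs
    have hlen : qs'.length = l := by simpa using hqs
    have hB' : qs'.sum ≤ B := by
      rw [List.sum_append] at hB
      omega
    -- the bits of this round
    let rd : Node ⊕ Node → Prop := fun z => (∃ v, z = Sum.inl v ∧ v.length = l + 2) ∨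
      (∃ v, z = Sum.inr v ∧ v.length = l + 1)
    let W1 := sub W rd
    let W2 := sub W (fun z => ¬ rd z)
    let e' : Bool := e ^^ qs'.length.bodd
    let ψ : List (List Bool) → (Node → Bool) → Prop :=
      fun ws a => qt e' m (fun u => D (ws ++ [u]) a)
    let fl : Finset (Node ⊕ Node) → (Node → Bool) → (Node → Bool) := fun Z y =>
      full List.dropLast (!(ql (l + 1))) Z (fun _ => !(!(ql (l + 1)))) y
    let bad : Finset (Node ⊕ Node) → Prop := fun Z => ∃ ws ∈ paths qs',
      ¬ DTP Set.univ T (fun y => ψ ws (fl Z y))
    have hpath : ∀ ws ∈ paths qs', ∀ u ∈ strings m, ws ++ [u] ∈ paths (qs' ++ [m]) := by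
      intro ws hws u hu
      rw [mem_paths] at hws ⊢
      rw [List.map_append, hws]
      simp [mem_strings.1 hu]
    have hψdep : ∀ ws ∈ paths qs', ∀ a b : Node → Bool, (∀ q ∈ Qlev (l + 1), a q = b q) →
        (ψ ws a ↔ ψ ws b) := by
      intro ws hws a b hab
      apply qt_congr
      intro u hu
      exact (hD _ (hpath ws hws u (mem_strings.2 hu))).depends hab
    have hbad : ex π W1 (fun Z => ind (bad Z)) ≤ 2 ^ B * (4 * T * (π / (1 - π))) ^ (T + 1) := by
      rw [← pr_eq_ex]
      refine (pr_exists h0.le hπ1 _ (paths qs') _ ((4 * T * (π / (1 - π))) ^ (T + 1)) ?_).trans ?_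
      · intro ws hws
        obtain ⟨G, hG1, hG2⟩ := terms_of_qt (e := !e') (q := m) (T := T)
          (D := fun u => D (ws ++ [u])) (by
            intro u hu
            exact (hD _ (hpath ws hws u hu)).mono_set (Set.subset_univ _))
        refine le_trans (pr_mono h0.le hπ1 _ ?_)
          (switching (blk := List.dropLast) (c := !(ql (l + 1))) hG1 h0 hπ11 _ T)
        intro Z _ hZ hDD
        apply hZ
        have hG2' : ∀ a, (∃ t ∈ G, Sat t a) ↔ (if (!e') = true then ¬ ψ ws a else ψ ws a) := by
          intro a
          rw [← hG2 a]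
          simp only [Bool.not_not]
          rfl
        by_cases he : (!e') = true
        · refine (hDD.not).congr ?_
          intro y
          rw [hG2', if_pos he, not_not]
        · refine hDD.congr ?_
          intro y
          rw [hG2', if_neg he]
      · apply mul_le_mul_of_nonneg_right
        · rw [card_paths]
          push_cast
          exact pow_le_pow_right₀ (by norm_num) hB'
        · apply pow_nonneg
          positivity
    -- the contents factor
    have hfac : ∀ Z1 ⊆ W1, ∀ Z2 ⊆ W2, ∀ t, AltL e (qs' ++ [m])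
        (fun ws => D ws (contT (uni Z1 Z2) t (l + 1))) ↔
        AltL e qs' (fun ws => ψ ws (fl Z1 (contT Z2 t l))) := by
      intro Z1 hZ1 Z2 hZ2 t
      rw [AltL_snoc]
      apply AltL_congr
      intro ws hws
      apply hψdep ws (mem_paths.2 hws)
      intro v hv
      have hvl : v.length = l + 2 := hv
      have hn1 : ∀ z, rd z → z ∉ Z2 := by
        intro z hz hz2
        exact (mem_sub.1 (hZ2 hz2)).2 hz
      have hn2 : ∀ z, ¬ rd z → z ∉ Z1 := by
        intro z hz hz1
        exact hz (mem_sub.1 (hZ1 hz1)).2
      have hd : v.dropLast.length = l + 1 := by rw [List.length_dropLast]; omega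
      have e1 : Sum.inl v ∈ uni Z1 Z2 ↔ Sum.inl v ∈ Z1 := by
        rw [mem_uni]
        have := hn1 (Sum.inl v) (Or.inl ⟨v, rfl, hvl⟩)
        tauto
      have e2 : Sum.inr v.dropLast ∈ uni Z1 Z2 ↔ Sum.inr v.dropLast ∈ Z1 := by
        rw [mem_uni]
        have := hn1 (Sum.inr v.dropLast) (Or.inr ⟨_, rfl, hd⟩)
        tauto
      have e3 : contT (uni Z1 Z2) t l v.dropLast = contT Z2 t l v.dropLast := by
        apply contT_congr l _ _ (fun _ _ => rfl) _ hd
        · intro w hw1 hw2
          rw [mem_uni]
          have := hn2 (Sum.inl w) (by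
            rintro (⟨v', h3, h4⟩ | ⟨v', h3, h4⟩)
            · rw [← Sum.inl.inj h3] at h4; omega
            · exact absurd h3 (by simp))
          tauto
        · intro w hw1 hw2
          rw [mem_uni]
          have := hn2 (Sum.inr w) (by
            rintro (⟨v', h3, h4⟩ | ⟨v', h3, h4⟩)
            · exact absurd h3 (by simp)
            · rw [← Sum.inr.inj h3] at h4; omega)
          tauto
      show contT (uni Z1 Z2) t (l + 1) v = full List.dropLast (!(ql (l + 1))) Z1
        (fun _ => !(!(ql (l + 1)))) (contT Z2 t l) v
      rw [contT_succ, e3]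
      unfold full
      simp only [e1, e2, Bool.not_not]
    -- the two parts of the error
    have hε : 0 ≤ (2 : ℝ) ^ B * (4 * T * (π / (1 - π))) ^ (T + 1) := by positivity
    rw [ex_split π W rd]
    have hpt : ∀ Z1 ⊆ W1, ex π W2 (fun Z2 => ind (¬ DTP Set.univ T (fun t =>
        AltL e (qs' ++ [m]) (fun ws => D ws (contT (uni Z1 Z2) t (l + 1)))))) ≤
        ind (bad Z1) + l * (2 ^ B * (4 * T * (π / (1 - π))) ^ (T + 1)) := by
      intro Z1 hZ1
      by_cases hb : bad Z1
      · rw [ind_true hb]
        have h3 : ex π W2 (fun Z2 => ind (¬ DTP Set.univ T (fun t =>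
          AltL e (qs' ++ [m]) (fun ws => D ws (contT (uni Z1 Z2) t (l + 1)))))) ≤ 1 :=
          ex_le_const h0.le hπ1 fun _ _ => ind_le_one _
        have h4 : 0 ≤ (l : ℝ) * (2 ^ B * (4 * T * (π / (1 - π))) ^ (T + 1)) :=
          mul_nonneg (Nat.cast_nonneg _) hε
        linarith
      · rw [ind_false hb, zero_add]
        have hgood : ∀ ws ∈ paths qs', DTP (Qlev l) T (fun y => ψ ws (fl Z1 y)) := by
          intro ws hws
          apply DTP.restrict
          · by_contra hcon
            exact hb ⟨ws, hws, hcon⟩
          · intro a b hab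
            apply hψdep ws hws
            intro v hv
            have hvl : v.length = l + 2 := hv
            have hd : v.dropLast.length = l + 1 := by rw [List.length_dropLast]; omega
            simp only [fl, full]
            rw [hab v.dropLast hd]
        have h3 := ih W2 e qs' (fun ws y => ψ ws (fl Z1 y)) hlen hB' hgood
        refine le_trans (le_of_eq ?_) h3
        apply ex_congr
        intro Z2 hZ2
        apply ind_congr
        apply not_congr
        constructor
        · intro h
          exact h.congr (hfac Z1 hZ1 Z2 hZ2)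
        · intro h
          exact h.congr (fun t => (hfac Z1 hZ1 Z2 hZ2 t).symm)
    refine (ex_mono h0.le hπ1 hpt).trans ?_
    rw [ex_add, ex_const]
    push_cast
    linarith

end Pool.Agent.H9
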