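import Mathlib
import Pool.Agent.H9.AvgHier

/-!
The average case depth hierarchy theorem.
-/

set_option autoImplicit false

namespace Pool.Agent.H9

open Classical

/-- The values of the nodes of level `l` of a tree of depth `k + 1`. -/
noncomputable def VN (k : ℕ) (Z : Finset (Node ⊕ Node)) (t : Node → Bool) (l : ℕ) (v : Node) :
    Bool := if l = k ∨ Sum.inr v ∈ Z then contT Z t l v else !(ql l)

/-- Every block contains an active child. -/
def Hits (k m0 n : ℕ) (Z : Finset (Node ⊕ Node)) : Prop :=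
  ∀ l < k, ∀ v ∈ paths (m0 :: List.replicate l n), ∃ u ∈ strings n,
    Sum.inl (v ++ [u]) ∈ Z ∧ Sum.inr (v ++ [u]) ∈ Z

theorem qt_const_of_hit {e : Bool} {n : ℕ} {f : List Bool → Bool} {b : Bool}
    (A : List Bool → Prop) (hA : ∃ u ∈ strings n, A u)
    (hf : ∀ u : List Bool, u.length = n → f u = if A u then b else !e) :
    qt e n (fun u => f u = true) ↔ b = true := by
  obtain ⟨u0, hu0, hA0⟩ := hA
  rw [mem_strings] at hu0
  cases e with
  | true =>
    simp only [qt]
    constructor
    · rintro ⟨u, hu, h⟩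
      rw [hf u hu] at h
      by_cases hAu : A u
      · rwa [if_pos hAu] at h
      · rw [if_neg hAu] at h; simp at h
    · intro h
      exact ⟨u0, hu0, by rw [hf u0 hu0, if_pos hA0]; exact h⟩
  | false =>
    simp only [qt]
    constructor
    · intro h
      have := h u0 hu0
      rwa [hf u0 hu0, if_pos hA0] at this
    · intro h u hu
      rw [hf u hu]
      by_cases hAu : A u
      · rw [if_pos hAu]; exact h
      · rw [if_neg hAu]; rfl

theorem tree_value {k m0 n : ℕ} {Z : Finset (Node ⊕ Node)} (t : Node → Bool)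
    (hZ : Hits k m0 n Z) : ∀ l ≤ k, (AltL true (m0 :: List.replicate l n)
      (fun us => VN k Z t l us = true) ↔ ∃ u ∈ strings m0, VN k Z t 0 [u] = true) := by
  intro l
  induction l with
  | zero =>
    intro _
    simp only [List.replicate_zero, AltL, qt]
    exact exists_congr fun u => and_congr_left fun _ => mem_strings.symm
  | succ l ih =>
    intro hl
    rw [← ih (by omega)]
    have e1 : m0 :: List.replicate (l + 1) n = (m0 :: List.replicate l n) ++ [n] := by
      rw [List.replicate_succ']; rfl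
    rw [e1, AltL_snoc]
    apply AltL_congr
    intro us hus
    have e2 : (true ^^ (m0 :: List.replicate l n).length.bodd) = ql (l + 1) := by
      simp [ql]
    rw [e2]
    obtain ⟨u0, hu0, hA1, hA2⟩ := hZ l (by omega) us (mem_paths.2 hus)
    apply qt_const_of_hit (A := fun u => Sum.inl (us ++ [u]) ∈ Z ∧
      (l + 1 = k ∨ Sum.inr (us ++ [u]) ∈ Z))
    · exact ⟨u0, hu0, hA1, Or.inr hA2⟩
    · intro u _
      have hlk : l ≠ k := by omega
      have e3 : (us ++ [u]).dropLast = us := by simp
      have e4 : VN k Z t l us = if Sum.inr us ∈ Z then contT Z t l us else ql (l + 1) := by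
        unfold VN
        rw [ql_succ]
        simp only [hlk, false_or]
      rw [e4]
      unfold VN
      rw [contT_succ, e3]
      by_cases h1 : Sum.inl (us ++ [u]) ∈ Z
      · by_cases h2 : l + 1 = k ∨ Sum.inr (us ++ [u]) ∈ Z
        · rw [if_pos h2, if_pos h1]
          exact (if_pos (⟨h1, h2⟩ : Sum.inl (us ++ [u]) ∈ Z ∧
            (l + 1 = k ∨ Sum.inr (us ++ [u]) ∈ Z))).symm
        · rw [if_neg h2, if_neg (fun h => h2 h.2)]
      · rw [if_neg h1, if_neg (fun h : Sum.inl (us ++ [u]) ∈ Z ∧ _ => h1 h.1)]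
        split_ifs <;> rfl

/-- The values of the top nodes. -/
noncomputable def topT (Z : Finset (Node ⊕ Node)) : Node → Bool :=
  fun v => decide (Sum.inl v ∈ Z ∧ Sum.inr v ∈ Z)

/-- The random table: the values of the leaves of the tree with `k + 1` levels. -/
noncomputable def cont (k : ℕ) (Z : Finset (Node ⊕ Node)) : Node → Bool := contT Z (topT Z) k

theorem cont_value {k m0 n : ℕ} {Z : Finset (Node ⊕ Node)} (hZ : Hits k m0 n Z) :
    AltL true (m0 :: List.replicate k n) (fun us => cont k Z us = true) ↔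
      ∃ u ∈ strings m0, Sum.inl [u] ∈ Z ∧ Sum.inr [u] ∈ Z := by
  have h1 := tree_value (topT Z) hZ k le_rfl
  have h2 : ∀ us, VN k Z (topT Z) k us = cont k Z us := by
    intro us
    unfold VN cont
    rw [if_pos (Or.inl rfl)]
  simp only [h2] at h1
  rw [h1]
  apply exists_congr
  intro u
  apply and_congr_right
  intro _
  unfold VN
  simp only [contT, topT]
  by_cases hr : Sum.inr [u] ∈ Z
  · rw [if_pos (Or.inr hr)]
    simp [hr]
  · by_cases hk : 0 = k
    · rw [if_pos (Or.inl hk)]
      simp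
    · rw [if_neg (by tauto)]
      simp [hr, ql]

/-! ### Probabilities of simple events -/

theorem ex_pairs {α : Type*} (p : ℝ) {N C : Finset α} (hC : C ⊆ N) :
    ex p N (fun A => ex p N (fun B => ind (∀ w ∈ C, ¬ (w ∈ A ∧ w ∈ B)))) =
      (1 - p * p) ^ C.card := by
  have h1 : ex p N (fun A => ex p N (fun B => ind (∀ w ∈ C, ¬ (w ∈ A ∧ w ∈ B)))) =
      ex p C (fun A => ex p C (fun B => ind (∀ w ∈ C, ¬ (w ∈ A ∧ w ∈ B)))) := by
    rw [ex_drop hC (f := fun A => ex p N (fun B => ind (∀ w ∈ C, ¬ (w ∈ A ∧ w ∈ B))))]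
    · apply ex_congr
      intro A _
      apply ex_drop hC
      intro X hX Y hY
      apply ind_congr
      apply forall₂_congr
      intro w hw
      have : w ∉ Y := fun h => (Finset.mem_sdiff.1 (hY h)).2 hw
      simp [this]
    · intro X hX Y hY
      apply ex_congr
      intro B _
      apply ind_congr
      apply forall₂_congr
      intro w hw
      have : w ∉ Y := fun h => (Finset.mem_sdiff.1 (hY h)).2 hw
      simp [this]
  rw [h1]
  clear h1 hC
  induction C using Finset.induction_on with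
  | empty => simp [ex_empty, ind]
  | insert v C hv ih =>
    have hvX : ∀ X ⊆ C, v ∉ X := fun X hX h => hv (hX h)
    rw [ex_insert p hv, Finset.card_insert_of_notMem hv, pow_succ, ← ih]
    have key : ∀ A B : Finset α, (∀ w ∈ insert v C, ¬ (w ∈ A ∧ w ∈ B)) ↔
        (¬ (v ∈ A ∧ v ∈ B) ∧ ∀ w ∈ C, ¬ (w ∈ A ∧ w ∈ B)) := by
      intro A B
      simp
    have hins : ∀ X : Finset α, ∀ w ∈ C, (w ∈ insert v X ↔ w ∈ X) := by
      intro X w hw
      have : w ≠ v := fun e => hv (e ▸ hw)
      simp [this]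
    have h2 : ∀ A ⊆ C, ex p (insert v C) (fun B =>
        ind (∀ w ∈ insert v C, ¬ (w ∈ insert v A ∧ w ∈ B))) =
        (1 - p) * ex p C (fun B => ind (∀ w ∈ C, ¬ (w ∈ A ∧ w ∈ B))) := by
      intro A _
      rw [ex_insert p hv]
      have h3 : ∀ B ⊆ C, ind (∀ w ∈ insert v C, ¬ (w ∈ insert v A ∧ w ∈ insert v B)) = 0 := by
        intro B _
        apply ind_false
        intro h
        exact h v (Finset.mem_insert_self _ _)
          ⟨Finset.mem_insert_self _ _, Finset.mem_insert_self _ _⟩
      have h4 : ∀ B ⊆ C, ind (∀ w ∈ insert v C, ¬ (w ∈ insert v A ∧ w ∈ B)) =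
          ind (∀ w ∈ C, ¬ (w ∈ A ∧ w ∈ B)) := by
        intro B hB
        apply ind_congr
        rw [key]
        constructor
        · rintro ⟨_, h⟩ w hw hwAB
          exact h w hw ⟨(hins A w hw).2 hwAB.1, hwAB.2⟩
        · intro h
          refine ⟨fun h' => hvX B hB h'.2, ?_⟩
          intro w hw hwAB
          exact h w hw ⟨(hins A w hw).1 hwAB.1, hwAB.2⟩
      rw [ex_congr h3, ex_congr h4, ex_const]
      ring
    have h5 : ∀ A ⊆ C, ex p (insert v C) (fun B =>
        ind (∀ w ∈ insert v C, ¬ (w ∈ A ∧ w ∈ B))) =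
        ex p C (fun B => ind (∀ w ∈ C, ¬ (w ∈ A ∧ w ∈ B))) := by
      intro A hA
      rw [ex_insert p hv]
      have h3 : ∀ B ⊆ C, ind (∀ w ∈ insert v C, ¬ (w ∈ A ∧ w ∈ insert v B)) =
          ind (∀ w ∈ C, ¬ (w ∈ A ∧ w ∈ B)) := by
        intro B hB
        apply ind_congr
        rw [key]
        constructor
        · rintro ⟨_, h⟩ w hw hwAB
          exact h w hw ⟨hwAB.1, (hins B w hw).2 hwAB.2⟩
        · intro h
          refine ⟨fun h' => hvX A hA h'.1, ?_⟩
          intro w hw hwAB
          exact h w hw ⟨hwAB.1, (hins B w hw).1 hwAB.2⟩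
      have h4 : ∀ B ⊆ C, ind (∀ w ∈ insert v C, ¬ (w ∈ A ∧ w ∈ B)) =
          ind (∀ w ∈ C, ¬ (w ∈ A ∧ w ∈ B)) := by
        intro B hB
        apply ind_congr
        rw [key]
        constructor
        · rintro ⟨_, h⟩
          exact h
        · intro h
          exact ⟨fun h' => hvX A hA h'.1, h⟩
      rw [ex_congr h3, ex_congr h4]
      ring
    rw [ex_congr h2, ex_congr h5, ex_mul]
    ring

theorem ex_miss {α : Type*} (p : ℝ) {N C : Finset α} (hC : C ⊆ N) :
    ex p N (fun B => ind (∀ w ∈ C, w ∉ B)) = (1 - p) ^ C.card := by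
  have h := pr_disjoint (p := p) N C hC
  rw [pr_eq_ex] at h
  rw [← h]
  apply ex_congr
  intro B _
  apply ind_congr
  rw [Finset.disjoint_left]
  constructor
  · intro h v hv hvC
    exact h v hvC hv
  · intro h v hvC hv
    exact h hv hvC

/-- Insertion (with classical decidability). -/
noncomputable def ins {α : Type*} (v : α) (X : Finset α) : Finset α := insert v X

theorem mem_ins {α : Type*} {v w : α} {X : Finset α} : w ∈ ins v X ↔ w = v ∨ w ∈ X := by
  simp [ins]

theorem ins_inj {α : Type*} {z : α} {X Y : Finset α} (hX : z ∉ X) (hY : z ∉ Y)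
    (h : ins z X = ins z Y) : X = Y := by
  ext w
  by_cases hw : w = z
  · subst hw
    exact ⟨fun h' => absurd h' hX, fun h' => absurd h' hY⟩
  · have := Finset.ext_iff.1 h w
    simp only [mem_ins, hw, false_or] at this
    exact this

/-- Adding one element multiplies the weight by at least `p`. -/
theorem wt_insert {α : Type*} {p : ℝ} (h0 : 0 ≤ p) (h1 : p ≤ 1) {U Z : Finset α} {z : α}
    (hZ : Z ⊆ U) (hz : z ∉ Z) (hzU : z ∈ U) : p * wt p U Z ≤ wt p U (insert z Z) := by
  have h2 : (insert z Z).card ≤ U.card := Finset.card_le_card (Finset.insert_subset hzU hZ)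
  rw [Finset.card_insert_of_notMem hz] at h2
  unfold wt
  rw [Finset.card_insert_of_notMem hz]
  have e : U.card - Z.card = (U.card - (Z.card + 1)) + 1 := by omega
  rw [e, pow_succ (1 - p), pow_succ p]
  have h3 : 0 ≤ p ^ Z.card * p * (1 - p) ^ (U.card - (Z.card + 1)) := by
    have : 0 ≤ 1 - p := by linarith
    positivity
  calc p * (p ^ Z.card * ((1 - p) ^ (U.card - (Z.card + 1)) * (1 - p)))
      = (p ^ Z.card * p * (1 - p) ^ (U.card - (Z.card + 1))) * (1 - p) := by ring
    _ ≤ (p ^ Z.card * p * (1 - p) ^ (U.card - (Z.card + 1))) * 1 :=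
        mul_le_mul_of_nonneg_left (by linarith) h3
    _ = _ := mul_one _

/-- A weight increasing injection from one event to another. -/
theorem ex_inject {α : Type*} {p : ℝ} (h0 : 0 ≤ p) (h1 : p ≤ 1) {U : Finset α}
    {G E : Finset α → Prop} (z : Finset α → α)
    (hz : ∀ Z ⊆ U, G Z → z Z ∉ Z ∧ z Z ∈ U ∧ E (ins (z Z) Z))
    (hinj : ∀ Z ⊆ U, ∀ Z' ⊆ U, G Z → G Z' → ins (z Z) Z = ins (z Z') Z' → Z = Z') :
    p * ex p U (fun Z => ind (G Z)) ≤ ex p U (fun Z => ind (E Z)) := by
  rw [← pr_eq_ex, ← pr_eq_ex]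
  unfold pr
  rw [Finset.mul_sum]
  calc ∑ Z ∈ U.powerset.filter G, p * wt p U Z
      ≤ ∑ Z ∈ U.powerset.filter G, wt p U (insert (z Z) Z) := by
        apply Finset.sum_le_sum
        intro Z hZ
        rw [Finset.mem_filter, Finset.mem_powerset] at hZ
        obtain ⟨h2, h3, _⟩ := hz Z hZ.1 hZ.2
        exact wt_insert h0 h1 hZ.1 h2 h3
    _ = ∑ Y ∈ (U.powerset.filter G).image (fun Z => insert (z Z) Z), wt p U Y := by
        rw [Finset.sum_image]
        intro Z hZ Z' hZ' h
        rw [Finset.mem_coe, Finset.mem_filter, Finset.mem_powerset] at hZ hZ'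
        exact hinj Z hZ.1 Z' hZ'.1 hZ.2 hZ'.2 h
    _ ≤ ∑ Y ∈ U.powerset.filter E, wt p U Y := by
        apply Finset.sum_le_sum_of_subset_of_nonneg
        · intro Y hY
          rw [Finset.mem_image] at hY
          obtain ⟨Z, hZ, rfl⟩ := hY
          rw [Finset.mem_filter, Finset.mem_powerset] at hZ ⊢
          obtain ⟨_, h3, h4⟩ := hz Z hZ.1 hZ.2
          exact ⟨Finset.insert_subset h3 hZ.1, h4⟩
        · intro Y _ _
          exact wt_nonneg h0 h1 U Y

end Pool.Agent.H9
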