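import Mathlib
import Pool.Agent.H9.AvgHier2

/-!
The average case depth hierarchy theorem: conclusion.
-/

set_option autoImplicit false

namespace Pool.Agent.H9

open Classical

theorem half_pow_pow_le (a : ℕ) : (1 - (1 / 2 : ℝ) ^ a) ^ (2 ^ a) ≤ 1 / 2 := by
  have hp0 : (0 : ℝ) < (1 / 2 : ℝ) ^ a := by positivity
  have hp1 : (1 / 2 : ℝ) ^ a ≤ 1 := pow_le_one₀ (by norm_num) (by norm_num)
  have h4 : 1 - (1 / 2 : ℝ) ^ a ≤ Real.exp (-(1 / 2 : ℝ) ^ a) := by
    have := Real.add_one_le_exp (-(1 / 2 : ℝ) ^ a)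
    linarith
  have h5 : (1 - (1 / 2 : ℝ) ^ a) ^ (2 ^ a) ≤ Real.exp (-(1 / 2 : ℝ) ^ a) ^ (2 ^ a) :=
    pow_le_pow_left₀ (by linarith) h4 _
  have h6 : Real.exp (-(1 / 2 : ℝ) ^ a) ^ (2 ^ a) = Real.exp (-1) := by
    rw [← Real.exp_nat_mul]
    congr 1
    push_cast
    have : (2 : ℝ) ^ a * (1 / 2 : ℝ) ^ a = 1 := by
      rw [← mul_pow]; norm_num
    linarith
  have h7 : Real.exp (-1) ≤ 1 / 2 := by
    rw [Real.exp_neg, inv_eq_one_div]
    apply one_div_le_one_div_of_le (by norm_num)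
    have := Real.add_one_le_exp (1 : ℝ)
    linarith
  linarith

theorem pow_small {x : ℝ} {a b : ℕ} (hx : (1 / 2 : ℝ) ^ a ≤ x) (hx1 : x ≤ 1) (hab : a ≤ b) :
    (1 - x) ^ (2 ^ b) ≤ (1 / 2 : ℝ) ^ (2 ^ (b - a)) := by
  have hp1 : (1 / 2 : ℝ) ^ a ≤ 1 := pow_le_one₀ (by norm_num) (by norm_num)
  calc (1 - x) ^ (2 ^ b) ≤ (1 - (1 / 2 : ℝ) ^ a) ^ (2 ^ b) :=
        pow_le_pow_left₀ (by linarith) (by linarith) _
    _ = ((1 - (1 / 2 : ℝ) ^ a) ^ (2 ^ a)) ^ (2 ^ (b - a)) := by
        rw [← pow_mul, ← pow_add, Nat.add_sub_cancel' hab]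
    _ ≤ (1 / 2 : ℝ) ^ (2 ^ (b - a)) :=
        pow_le_pow_left₀ (pow_nonneg (by linarith) _) (half_pow_pow_le a) _

theorem pow_large {x : ℝ} {a : ℕ} (ha : 1 ≤ a) (_hx0 : 0 ≤ x) (hx : x ≤ (1 / 2 : ℝ) ^ a) :
    1 / 4 ≤ (1 - x) ^ (2 ^ a) := by
  have hp1 : (1 / 2 : ℝ) ^ a ≤ 1 / 2 := by
    calc (1 / 2 : ℝ) ^ a ≤ (1 / 2 : ℝ) ^ 1 :=
          pow_le_pow_of_le_one (by norm_num) (by norm_num) ha
      _ = 1 / 2 := by norm_num
  have h1 : (1 / 2 : ℝ) ≤ (1 - x) ^ (2 ^ (a - 1)) := by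
    have h2 := one_add_mul_le_pow (a := -x) (by linarith) (2 ^ (a - 1))
    have h3 : (((2 ^ (a - 1) : ℕ)) : ℝ) * x ≤ 1 / 2 := by
      calc (((2 ^ (a - 1) : ℕ)) : ℝ) * x ≤ ((2 ^ (a - 1) : ℕ) : ℝ) * (1 / 2 : ℝ) ^ a :=
            mul_le_mul_of_nonneg_left hx (by positivity)
        _ = 1 / 2 := by
            obtain ⟨b, rfl⟩ : ∃ b, a = b + 1 := ⟨a - 1, by omega⟩
            rw [Nat.add_sub_cancel]
            push_cast
            rw [pow_succ, ← mul_assoc, ← mul_pow]
            norm_num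
    have h4 : (1 : ℝ) + ((2 ^ (a - 1) : ℕ) : ℝ) * -x ≤ (1 - x) ^ (2 ^ (a - 1)) := by
      have : (1 : ℝ) + -x = 1 - x := by ring
      rw [this] at h2
      exact h2
    linarith
  have h5 : 2 ^ a = 2 ^ (a - 1) * 2 := by
    rw [← pow_succ]
    congr 1
    omega
  rw [h5, pow_mul]
  nlinarith

/-- The nodes of a tree with `k + 1` levels. -/
noncomputable def nodes (k m0 n : ℕ) : Finset Node :=
  (Finset.range (k + 1)).biUnion (fun l => paths (m0 :: List.replicate l n))

theorem mem_nodes {k m0 n : ℕ} {v : Node} :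
    v ∈ nodes k m0 n ↔ ∃ l ≤ k, v ∈ paths (m0 :: List.replicate l n) := by
  simp only [nodes, Finset.mem_biUnion, Finset.mem_range, Nat.lt_succ_iff]

/-- **The average case depth hierarchy theorem.** -/
theorem avg_hard {π : ℝ} {μ T k n B : ℕ} (hμ : 1 ≤ μ) (hπ0 : (1 / 2 : ℝ) ^ (μ + 1) ≤ π)
    (hπ1 : π ≤ (1 / 2 : ℝ) ^ μ) (hT : B + k + 5 ≤ T) (hTμ : 4 * T * (2 * T + 5) ≤ 2 ^ μ)
    (hn : 3 * μ + 2 ≤ n) (hnμ : 2 * μ + k * n + k + 5 ≤ 2 ^ μ) (e : Bool) (qs : List ℕ)
    (D : List (List Bool) → (Node → Bool) → Prop) (hqs : qs.length = k) (hB : qs.sum ≤ B)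
    (hD : ∀ ws ∈ paths qs, DTP (Qlev k) T (D ws)) :
    π / 16 ≤ ex π ((nodes k (2 * μ) n).disjSum (nodes k (2 * μ) n)) (fun Z =>
      ind (¬ (AltL e qs (fun ws => D ws (cont k Z)) ↔
        AltL true (2 * μ :: List.replicate k n) (fun us => cont k Z us = true)))) := by
  set N := nodes k (2 * μ) n with hN
  set U := N.disjSum N with hU
  have hpos : (0 : ℝ) < (1 / 2 : ℝ) ^ (μ + 1) := by positivity
  have hπpos : 0 < π := by linarith
  have hhalf : (1 / 2 : ℝ) ^ μ ≤ 1 / 2 := by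
    calc (1 / 2 : ℝ) ^ μ ≤ (1 / 2 : ℝ) ^ 1 :=
          pow_le_pow_of_le_one (by norm_num) (by norm_num) hμ
      _ = 1 / 2 := by norm_num
  have hπh : π ≤ 1 / 2 := hπ1.trans hhalf
  have hπ1' : π ≤ 1 := by linarith
  have hpp0 : (1 / 2 : ℝ) ^ (2 * μ + 2) ≤ π * π := by
    have : (1 / 2 : ℝ) ^ (2 * μ + 2) = (1 / 2 : ℝ) ^ (μ + 1) * (1 / 2 : ℝ) ^ (μ + 1) := by
      rw [← pow_add]; congr 1; ring
    rw [this]
    exact mul_le_mul hπ0 hπ0 hpos.le hπpos.le
  have hpp1 : π * π ≤ (1 / 2 : ℝ) ^ (2 * μ) := by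
    have : (1 / 2 : ℝ) ^ (2 * μ) = (1 / 2 : ℝ) ^ μ * (1 / 2 : ℝ) ^ μ := by
      rw [← pow_add]; congr 1; ring
    rw [this]
    exact mul_le_mul hπ1 hπ1 hπpos.le (by positivity)
  have hppos : 0 < π * π := by positivity
  have hpp2 : π * π ≤ 1 := by nlinarith
  -- events
  set F : Finset (Node ⊕ Node) → Prop := fun Z => AltL e qs (fun ws => D ws (cont k Z)) with hF
  set Val : Finset (Node ⊕ Node) → Prop := fun Z =>
    AltL true (2 * μ :: List.replicate k n) (fun us => cont k Z us = true) with hVal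
  let Z0 : Finset (Node ⊕ Node) → Prop := fun Z =>
    ∀ u ∈ strings (2 * μ), ¬ (Sum.inl [u] ∈ Z ∧ Sum.inr [u] ∈ Z)
  let bad1 : Finset (Node ⊕ Node) → Prop := fun Z =>
    ¬ DTP Set.univ T (fun t => AltL e qs (fun ws => D ws (contT Z t k)))
  let bad2 : Finset (Node ⊕ Node) → Prop := fun Z => ∃ l ∈ Finset.range k,
    ∃ v ∈ paths (2 * μ :: List.replicate l n), ∀ w ∈ (strings n).image (fun u => v ++ [u]),
      ¬ (Sum.inl w ∈ Z ∧ Sum.inr w ∈ Z)
  obtain ⟨g, hg1, hg2⟩ : ∃ g, T < 2 ^ g ∧ 2 ^ g ≤ 2 * T := by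
    refine ⟨Nat.log 2 T + 1, Nat.lt_pow_succ_log_self (by norm_num) T, ?_⟩
    rw [pow_succ, mul_comm]
    exact Nat.mul_le_mul_left 2 (Nat.pow_log_le_self 2 (by omega))
  have hgT : g < 2 ^ g := Nat.lt_two_pow_self
  have hgμ : g + 1 ≤ μ := by
    have h1 : 2 ^ (g + 1) ≤ 2 ^ μ := by
      rw [pow_succ]
      nlinarith
    exact (Nat.pow_le_pow_iff_right (by norm_num)).1 h1
  let bad3 : Finset (Node ⊕ Node) → Prop := fun Z => ∃ a ∈ strings g,
    ∀ w ∈ (strings (2 * μ - g)).image (fun u => [a ++ u]), Sum.inr w ∉ Z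
  -- probability of `Z0`
  have hinlN : ∀ u ∈ strings (2 * μ), [u] ∈ N := by
    intro u hu
    rw [hN, mem_nodes]
    refine ⟨0, by omega, ?_⟩
    rw [mem_paths]
    simp [mem_strings.1 hu]
  have hP0 : 1 / 4 ≤ ex π U (fun Z => ind (Z0 Z)) := by
    have h1 := ex_pairs π (N := N) (C := (strings (2 * μ)).image (fun u => [u])) (by
      intro w hw
      rw [Finset.mem_image] at hw
      obtain ⟨u, hu, rfl⟩ := hw
      exact hinlN u hu)
    have h2 : ex π U (fun Z => ind (Z0 Z)) = (1 - π * π) ^ (2 ^ (2 * μ)) := by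
      rw [hU, ex_disjSum]
      have h3 : ((strings (2 * μ)).image (fun u => [u])).card = 2 ^ (2 * μ) := by
        rw [Finset.card_image_of_injective _ (fun a b h => by simpa using h), card_strings]
      rw [← h3, ← h1]
      apply ex_congr
      intro A _
      apply ex_congr
      intro B' _
      apply ind_congr
      simp only [Z0, Finset.mem_image, Finset.inl_mem_disjSum, Finset.inr_mem_disjSum]
      constructor
      · rintro h w ⟨u, hu, rfl⟩
        exact h u hu
      · intro h u hu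
        exact h _ ⟨u, hu, rfl⟩
    rw [h2]
    exact pow_large (by omega) hppos.le hpp1
  -- probability of `bad1`
  have hP1 : ex π U (fun Z => ind (bad1 Z)) ≤ 1 / 32 := by
    refine (rounds hπpos hπh T B k U e qs D hqs hB hD).trans ?_
    have h1 : 4 * (T : ℝ) * (π / (1 - π)) ≤ 1 / 2 := by
      have h2 : π / (1 - π) ≤ 2 * (1 / 2 : ℝ) ^ μ := by
        rw [div_le_iff₀ (by linarith)]
        nlinarith
      have h3 : (16 : ℝ) * T ≤ 2 ^ μ := by
        have : 16 * T ≤ 2 ^ μ := by nlinarith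
        exact_mod_cast this
      have h4 : (2 : ℝ) ^ μ * (1 / 2 : ℝ) ^ μ = 1 := by
        rw [← mul_pow]; norm_num
      have h5 : (0 : ℝ) ≤ T := Nat.cast_nonneg _
      have h6 : (0 : ℝ) < (1 / 2 : ℝ) ^ μ := by positivity
      calc 4 * (T : ℝ) * (π / (1 - π)) ≤ 4 * (T : ℝ) * (2 * (1 / 2 : ℝ) ^ μ) :=
            mul_le_mul_of_nonneg_left h2 (by positivity)
        _ = (16 * T) * (1 / 2 : ℝ) ^ μ / 2 := by ring
        _ ≤ 2 ^ μ * (1 / 2 : ℝ) ^ μ / 2 := by
            have := mul_le_mul_of_nonneg_right h3 h6.le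
            linarith
        _ = 1 / 2 := by rw [h4]
    have h0' : 0 ≤ 4 * (T : ℝ) * (π / (1 - π)) := by
      have : 0 ≤ π / (1 - π) := div_nonneg hπpos.le (by linarith)
      positivity
    have h2 : (4 * (T : ℝ) * (π / (1 - π))) ^ (T + 1) ≤ (1 / 2 : ℝ) ^ (k + B + 5) :=
      (pow_le_pow_left₀ h0' h1 _).trans
        (pow_le_pow_of_le_one (by norm_num) (by norm_num) (by omega))
    have h3 : (k : ℝ) ≤ 2 ^ k := by
      exact_mod_cast Nat.lt_two_pow_self.le
    calc (k : ℝ) * (2 ^ B * (4 * T * (π / (1 - π))) ^ (T + 1))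
        ≤ 2 ^ k * (2 ^ B * (1 / 2 : ℝ) ^ (k + B + 5)) := by
          apply mul_le_mul h3 _ (by positivity) (by positivity)
          exact mul_le_mul_of_nonneg_left h2 (by positivity)
      _ = 1 / 32 := by
          rw [pow_add, pow_add, ← mul_assoc, mul_comm ((2 : ℝ) ^ k * 2 ^ B)]
          have h4 : (2 : ℝ) ^ k * (1 / 2 : ℝ) ^ k = 1 := by rw [← mul_pow]; norm_num
          have h5 : (2 : ℝ) ^ B * (1 / 2 : ℝ) ^ B = 1 := by rw [← mul_pow]; norm_num
          calc (1 / 2 : ℝ) ^ k * (1 / 2 : ℝ) ^ B * (1 / 2 : ℝ) ^ 5 * (2 ^ k * 2 ^ B)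
              = (2 ^ k * (1 / 2 : ℝ) ^ k) * (2 ^ B * (1 / 2 : ℝ) ^ B) * (1 / 2 : ℝ) ^ 5 := by ring
            _ = 1 / 32 := by rw [h4, h5]; norm_num
  -- probability of `bad2`
  have hP2 : ex π U (fun Z => ind (bad2 Z)) ≤ 1 / 32 := by
    rw [← pr_eq_ex]
    have hb : ∀ l ∈ Finset.range k, pr π U (fun Z => ∃ v ∈ paths (2 * μ :: List.replicate l n),
        ∀ w ∈ (strings n).image (fun u => v ++ [u]), ¬ (Sum.inl w ∈ Z ∧ Sum.inr w ∈ Z)) ≤
        2 ^ (2 * μ + k * n) * (1 - π * π) ^ (2 ^ n) := by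
      intro l hl
      rw [Finset.mem_range] at hl
      refine (pr_exists hπpos.le hπ1' U _ _ ((1 - π * π) ^ (2 ^ n)) ?_).trans ?_
      · intro v hv
        rw [pr_eq_ex, hU, ex_disjSum]
        have h1 := ex_pairs π (N := N) (C := (strings n).image (fun u => v ++ [u])) (by
          intro w hw
          rw [Finset.mem_image] at hw
          obtain ⟨u, hu, rfl⟩ := hw
          rw [hN, mem_nodes]
          refine ⟨l + 1, by omega, ?_⟩
          rw [mem_paths] at hv ⊢
          rw [List.map_append, hv, List.replicate_succ']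
          simp [mem_strings.1 hu])
        have h3 : ((strings n).image (fun u => v ++ [u])).card = 2 ^ n := by
          rw [Finset.card_image_of_injective _ (fun a b h => by simpa using h), card_strings]
        rw [h3] at h1
        rw [← h1]
        apply le_of_eq
        apply ex_congr
        intro A _
        apply ex_congr
        intro B' _
        apply ind_congr
        simp only [Finset.inl_mem_disjSum, Finset.inr_mem_disjSum]
      · apply mul_le_mul_of_nonneg_right _ (pow_nonneg (by linarith) _)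
        rw [card_paths]
        push_cast
        apply pow_le_pow_right₀ (by norm_num)
        simp only [List.sum_cons, List.sum_replicate, smul_eq_mul]
        have : l * n ≤ k * n := Nat.mul_le_mul_right _ hl.le
        omega
    refine (pr_exists hπpos.le hπ1' U _ _ _ hb).trans ?_
    rw [Finset.card_range]
    have h1 : (1 - π * π) ^ (2 ^ n) ≤ (1 / 2 : ℝ) ^ (2 ^ (n - (2 * μ + 2))) :=
      pow_small hpp0 hpp2 (by omega)
    have h2 : (1 / 2 : ℝ) ^ (2 ^ (n - (2 * μ + 2))) ≤ (1 / 2 : ℝ) ^ (k + (2 * μ + k * n) + 5) := by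
      apply pow_le_pow_of_le_one (by norm_num) (by norm_num)
      have : 2 ^ μ ≤ 2 ^ (n - (2 * μ + 2)) := Nat.pow_le_pow_right (by norm_num) (by omega)
      omega
    have h3 : (k : ℝ) ≤ 2 ^ k := by
      exact_mod_cast Nat.lt_two_pow_self.le
    calc (k : ℝ) * (2 ^ (2 * μ + k * n) * (1 - π * π) ^ (2 ^ n))
        ≤ 2 ^ k * (2 ^ (2 * μ + k * n) * (1 / 2 : ℝ) ^ (k + (2 * μ + k * n) + 5)) := by
          apply mul_le_mul h3 _ _ (by positivity)
          · exact mul_le_mul_of_nonneg_left (h1.trans h2) (by positivity)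
          · exact mul_nonneg (by positivity) (pow_nonneg (by linarith) _)
      _ = 1 / 32 := by
          rw [pow_add (1 / 2 : ℝ), pow_add (1 / 2 : ℝ)]
          have h4 : (2 : ℝ) ^ k * (1 / 2 : ℝ) ^ k = 1 := by rw [← mul_pow]; norm_num
          have h5 : (2 : ℝ) ^ (2 * μ + k * n) * (1 / 2 : ℝ) ^ (2 * μ + k * n) = 1 := by
            rw [← mul_pow]; norm_num
          calc (2 : ℝ) ^ k * (2 ^ (2 * μ + k * n) *
              ((1 / 2 : ℝ) ^ k * (1 / 2 : ℝ) ^ (2 * μ + k * n) * (1 / 2 : ℝ) ^ 5))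
              = (2 ^ k * (1 / 2 : ℝ) ^ k) * (2 ^ (2 * μ + k * n) *
                (1 / 2 : ℝ) ^ (2 * μ + k * n)) * (1 / 2 : ℝ) ^ 5 := by ring
            _ = 1 / 32 := by rw [h4, h5]; norm_num
  -- probability of `bad3`
  have hP3 : ex π U (fun Z => ind (bad3 Z)) ≤ 1 / 32 := by
    rw [← pr_eq_ex]
    have hb : ∀ a ∈ strings g, pr π U (fun Z =>
        ∀ w ∈ (strings (2 * μ - g)).image (fun u => [a ++ u]), Sum.inr w ∉ Z) ≤
        (1 - π) ^ (2 ^ (2 * μ - g)) := by
      intro a ha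
      rw [pr_eq_ex, hU, ex_disjSum]
      have h1 := ex_miss π (N := N) (C := (strings (2 * μ - g)).image (fun u => [a ++ u])) (by
        intro w hw
        rw [Finset.mem_image] at hw
        obtain ⟨u, hu, rfl⟩ := hw
        apply hinlN
        rw [mem_strings] at ha hu ⊢
        rw [List.length_append]
        omega)
      have h3 : ((strings (2 * μ - g)).image (fun u => [a ++ u])).card = 2 ^ (2 * μ - g) := by
        rw [Finset.card_image_of_injective _ (fun a b h => by simpa using h), card_strings]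
      rw [h3] at h1
      rw [← h1]
      apply le_of_eq
      rw [ex_congr (g := fun _ => ex π N (fun B =>
        ind (∀ w ∈ (strings (2 * μ - g)).image (fun u => [a ++ u]), w ∉ B))), ex_const]
      intro A _
      apply ex_congr
      intro B' _
      apply ind_congr
      simp only [Finset.inr_mem_disjSum]
    refine (pr_exists hπpos.le hπ1' U _ _ _ hb).trans ?_
    rw [card_strings]
    push_cast
    have h1 : (1 - π) ^ (2 ^ (2 * μ - g)) ≤ (1 / 2 : ℝ) ^ (2 ^ (2 * μ - g - (μ + 1))) :=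
      pow_small hπ0 hπ1' (by omega)
    have h2 : g + 5 ≤ 2 ^ (2 * μ - g - (μ + 1)) := by
      have h3 : 2 ^ (2 * μ - g - (μ + 1)) * 2 ^ (g + 1) = 2 ^ μ := by
        rw [← pow_add]
        congr 1
        omega
      have h4 : 2 ^ (g + 1) ≤ 4 * T := by rw [pow_succ]; omega
      by_contra hcon
      push Not at hcon
      have h5 : 2 ^ (2 * μ - g - (μ + 1)) * 2 ^ (g + 1) < (2 * T + 5) * (4 * T) := by
        calc 2 ^ (2 * μ - g - (μ + 1)) * 2 ^ (g + 1) < (g + 5) * 2 ^ (g + 1) :=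
              Nat.mul_lt_mul_of_pos_right hcon (by positivity)
          _ ≤ (2 * T + 5) * (4 * T) := Nat.mul_le_mul (by omega) h4
      rw [h3] at h5
      have : (2 * T + 5) * (4 * T) = 4 * T * (2 * T + 5) := by ring
      omega
    calc (2 : ℝ) ^ g * (1 - π) ^ (2 ^ (2 * μ - g)) ≤ 2 ^ g * (1 / 2 : ℝ) ^ (g + 5) := by
          apply mul_le_mul_of_nonneg_left _ (by positivity)
          exact h1.trans (pow_le_pow_of_le_one (by norm_num) (by norm_num) h2)
      _ = 1 / 32 := by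
          rw [pow_add, ← mul_assoc, ← mul_pow]
          norm_num
  -- the good event
  let A : Finset (Node ⊕ Node) → Prop := fun Z => Z0 Z ∧ ¬ bad1 Z ∧ ¬ bad2 Z ∧ ¬ bad3 Z
  have hPA : 1 / 8 ≤ ex π U (fun Z => ind (A Z)) := by
    have h1 : ex π U (fun Z => ind (Z0 Z)) ≤ ex π U (fun Z => ind (A Z)) +
        (ex π U (fun Z => ind (bad1 Z)) + (ex π U (fun Z => ind (bad2 Z)) +
          ex π U (fun Z => ind (bad3 Z)))) := by
      rw [← ex_add, ← ex_add, ← ex_add]
      apply ex_mono hπpos.le hπ1'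
      intro Z _
      have g1 := ind_nonneg (bad1 Z)
      have g2 := ind_nonneg (bad2 Z)
      have g3 := ind_nonneg (bad3 Z)
      have g4 := ind_nonneg (A Z)
      by_cases h0 : Z0 Z
      · rw [ind_true h0]
        by_cases h1 : bad1 Z
        · rw [ind_true h1]; linarith
        by_cases h2 : bad2 Z
        · rw [ind_true h2]; linarith
        by_cases h3 : bad3 Z
        · rw [ind_true h3]; linarith
        rw [ind_true (show A Z from ⟨h0, h1, h2, h3⟩)]
        linarith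
      · rw [ind_false h0]; linarith
    linarith
  -- hits
  have hhits : ∀ Z, ¬ bad2 Z → Hits k (2 * μ) n Z := by
    intro Z hZ l hl v hv
    by_contra hcon
    push Not at hcon
    apply hZ
    refine ⟨l, Finset.mem_range.2 hl, v, hv, ?_⟩
    intro w hw
    rw [Finset.mem_image] at hw
    obtain ⟨u, hu, rfl⟩ := hw
    rintro ⟨h1, h2⟩
    exact hcon u hu h1 h2
  set E : Finset (Node ⊕ Node) → Prop := fun Z => ¬ (F Z ↔ Val Z) with hE
  -- choice of the element to be added
  have hchoice : ∀ Z, A Z → ¬ F Z → ∃ u ∈ strings (2 * μ), Sum.inr [u] ∈ Z ∧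
      E (ins (Sum.inl [u]) Z) := by
    intro Z hA hFZ
    obtain ⟨h0, h1, h2, h3⟩ := hA
    have h1' : DTP Set.univ T (fun t => AltL e qs (fun ws => D ws (contT Z t k))) := by
      by_contra hcon
      exact h1 hcon
    obtain ⟨R, hR, hcert⟩ := h1'.cert (topT Z)
    have hu : ∃ u ∈ strings (2 * μ), Sum.inr [u] ∈ Z ∧ [u] ∉ R := by
      by_contra hcon
      push Not at hcon
      have h4 : ∀ a ∈ strings g, ∃ u ∈ strings (2 * μ - g), Sum.inr [a ++ u] ∈ Z := by
        intro a ha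
        by_contra hcon2
        push Not at hcon2
        apply h3
        refine ⟨a, ha, ?_⟩
        intro w hw
        rw [Finset.mem_image] at hw
        obtain ⟨u, hu, rfl⟩ := hw
        exact hcon2 u hu
      choose! w hw1 hw2 using h4
      have h5 : (strings g).image (fun a => [a ++ w a]) ⊆ R := by
        intro z hz
        rw [Finset.mem_image] at hz
        obtain ⟨a, ha, rfl⟩ := hz
        apply hcon _ _ (hw2 a ha)
        have := hw1 a ha
        rw [mem_strings] at ha this ⊢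
        rw [List.length_append]
        omega
      have h6 := Finset.card_le_card h5
      rw [Finset.card_image_of_injOn, card_strings] at h6
      · omega
      · intro a ha b hb hab
        rw [Finset.mem_coe, mem_strings] at ha hb
        have h7 : a ++ w a = b ++ w b := by simpa using hab
        exact (List.append_inj h7 (by rw [ha, hb])).1
    obtain ⟨u, hu1, hu2, hu3⟩ := hu
    refine ⟨u, hu1, hu2, ?_⟩
    have hVal' : Val (ins (Sum.inl [u]) Z) := by
      have hh : Hits k (2 * μ) n (ins (Sum.inl [u]) Z) := by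
        intro l hl v hv
        obtain ⟨u', hu', h5, h6⟩ := hhits Z h2 l hl v hv
        exact ⟨u', hu', mem_ins.2 (Or.inr h5), mem_ins.2 (Or.inr h6)⟩
      rw [hVal]
      beta_reduce
      rw [cont_value hh]
      exact ⟨u, hu1, mem_ins.2 (Or.inl rfl), mem_ins.2 (Or.inr hu2)⟩
    have hF' : ¬ F (ins (Sum.inl [u]) Z) := by
      intro h5
      apply hFZ
      rw [hF] at h5 ⊢
      beta_reduce at h5 ⊢
      have h6 : AltL e qs (fun ws => D ws (cont k (ins (Sum.inl [u]) Z))) ↔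
          AltL e qs (fun ws => D ws (contT Z (topT (ins (Sum.inl [u]) Z)) k)) := by
        apply AltL_congr
        intro ws hws
        apply (hD ws (mem_paths.2 hws)).depends
        intro v hv
        apply contT_congr k _ _ (fun _ _ => rfl) v hv
        · intro v' hv1 _
          rw [mem_ins]
          constructor
          · rintro (h | h)
            · rw [Sum.inl.inj h] at hv1
              simp at hv1
            · exact h
          · exact Or.inr
        · intro v' _ _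
          rw [mem_ins]
          constructor
          · rintro (h | h)
            · exact absurd h (by simp)
            · exact h
          · exact Or.inr
      rw [h6] at h5
      refine (hcert _ ?_).2 h5
      intro v hv
      have hvu : v ≠ [u] := fun h => hu3 (h ▸ hv)
      unfold topT
      apply decide_eq_decide.2
      rw [mem_ins, mem_ins]
      constructor
      · rintro ⟨h7, h8⟩
        exact ⟨Or.inr h7, Or.inr h8⟩
      · rintro ⟨h7 | h7, h8 | h8⟩
        · exact absurd h8 (by simp)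
        · exact absurd (Sum.inl.inj h7) hvu
        · exact absurd h8 (by simp)
        · exact ⟨h7, h8⟩
    rw [hE]
    exact fun h => hF' (h.2 hVal')
  -- case `F` true
  have hcaseT : ∀ Z, A Z → F Z → E Z := by
    intro Z hA hFZ hEZ
    have h1 := hEZ.1 hFZ
    rw [hVal] at h1

    rw [cont_value (hhits Z hA.2.2.1)] at h1
    obtain ⟨u, hu, h2⟩ := h1
    exact hA.1 u hu h2
  -- the injection
  let z : Finset (Node ⊕ Node) → Node ⊕ Node := fun Z =>
    if h : ∃ u ∈ strings (2 * μ), Sum.inr [u] ∈ Z ∧ E (ins (Sum.inl [u]) Z) then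
      Sum.inl [h.choose] else Sum.inl []
  have hz : ∀ Z, A Z → ¬ F Z → ∃ u ∈ strings (2 * μ), z Z = Sum.inl [u] ∧ Sum.inr [u] ∈ Z ∧
      E (ins (z Z) Z) := by
    intro Z hA hFZ
    have h := hchoice Z hA hFZ
    refine ⟨h.choose, h.choose_spec.1, ?_, h.choose_spec.2.1, ?_⟩
    · simp only [z, dif_pos h]
    · have : z Z = Sum.inl [h.choose] := by simp only [z, dif_pos h]
      rw [this]
      exact h.choose_spec.2.2
  have hinj := ex_inject hπpos.le hπ1' (U := U) (G := fun Z => A Z ∧ ¬ F Z) (E := E) z (by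
    rintro Z hZU ⟨hA, hFZ⟩
    obtain ⟨u, hu, h1, h2, h3⟩ := hz Z hA hFZ
    refine ⟨?_, ?_, h3⟩
    · rw [h1]
      intro h4
      exact hA.1 u hu ⟨h4, h2⟩
    · rw [h1, hU, Finset.inl_mem_disjSum]
      exact hinlN u hu) (by
    rintro Z hZU Z' hZU' ⟨hA, hFZ⟩ ⟨hA', hFZ'⟩ heq
    obtain ⟨u, hu, h1, h2, h3⟩ := hz Z hA hFZ
    obtain ⟨u', hu', h1', h2', h3'⟩ := hz Z' hA' hFZ'
    rw [h1, h1'] at heq
    have hn : Sum.inl [u] ∉ Z := fun h4 => hA.1 u hu ⟨h4, h2⟩
    have hn' : Sum.inl [u'] ∉ Z' := fun h4 => hA'.1 u' hu' ⟨h4, h2'⟩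
    have huu : u = u' := by
      by_contra hne
      have h5 : Sum.inl [u] ∈ ins (Sum.inl [u']) Z' := by
        rw [← heq]; exact mem_ins.2 (Or.inl rfl)
      have h6 : Sum.inr [u] ∈ ins (Sum.inl [u']) Z' := by
        rw [← heq]; exact mem_ins.2 (Or.inr h2)
      rw [mem_ins] at h5 h6
      rcases h5 with h5 | h5
      · have := Sum.inl.inj h5
        simp only [List.cons.injEq, and_true] at this
        exact hne this
      · rcases h6 with h6 | h6
        · exact absurd h6 (by simp)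
        · exact hA'.1 u hu ⟨h5, h6⟩
    subst huu
    exact ins_inj hn hn' heq)
  have hsum : ex π U (fun Z => ind (A Z)) ≤ ex π U (fun Z => ind (E Z)) +
      ex π U (fun Z => ind (A Z ∧ ¬ F Z)) := by
    rw [← ex_add]
    apply ex_mono hπpos.le hπ1'
    intro Z _
    by_cases hA : A Z
    · rw [ind_true hA]
      by_cases hFZ : F Z
      · rw [ind_true (hcaseT Z hA hFZ)]
        have := ind_nonneg (A Z ∧ ¬ F Z)
        linarith
      · rw [ind_true (show A Z ∧ ¬ F Z from ⟨hA, hFZ⟩)]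
        have := ind_nonneg (E Z)
        linarith
    · rw [ind_false hA]
      have := ind_nonneg (A Z ∧ ¬ F Z)
      have := ind_nonneg (E Z)
      linarith
  by_cases hcase : 1 / 16 ≤ ex π U (fun Z => ind (A Z ∧ ¬ F Z))
  · calc π / 16 = π * (1 / 16) := by ring
      _ ≤ π * ex π U (fun Z => ind (A Z ∧ ¬ F Z)) := mul_le_mul_of_nonneg_left hcase hπpos.le
      _ ≤ _ := hinj
  · push Not at hcase
    have : 1 / 16 ≤ ex π U (fun Z => ind (E Z)) := by linarith
    linarith

end Pool.Agent.H9
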