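import Mathlib
import Pool.Agent.H9.World
import Pool.Agent.H9.AvgHier3

/-!
Decision trees for computations that first run a sampler, certificates of runs, dummy bits.
-/

set_option autoImplicit false

namespace Pool.Agent.H9

open Classical

/-- A decision tree for a predicate of the configuration reached after `t` steps. -/
theorem dtp_bind (Q : Set (List Bool)) (Λ d : ℕ) (hQ : ∀ w : List Bool, w.length ≤ Λ → w ∈ Q)
    (Φ : Cfg → Oracle → Prop) :
    ∀ (t : ℕ) (c : Cfg), (∀ i, (c.2 i).length + t ≤ Λ) →
      (∀ c' : Cfg, (∀ i, (c'.2 i).length ≤ Λ) → DTP Q d (Φ c')) →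
      DTP Q (t + d) (fun A => Φ ((step A)^[t] c) A) := by
  intro t
  induction t with
  | zero =>
    intro c hc hΦ
    rw [Nat.zero_add]
    exact hΦ c (fun i => by have := hc i; omega)
  | succ t ih =>
    intro c hc hΦ
    have hdet : ∀ c' : Cfg, (∀ A, step A c = c') → (∀ i, (c'.2 i).length + t ≤ Λ) →
        DTP Q (t + 1 + d) (fun A => Φ ((step A)^[t + 1] c) A) := by
      intro c' h1 h2
      refine ((ih c' h2 hΦ).mono (by omega)).congr ?_
      intro A
      rw [Function.iterate_succ_apply, h1 A]
    obtain ⟨k, s⟩ := c
    simp only at hc
    have hup : ∀ (i : ℕ) (v : List Bool), v.length ≤ (s i).length + 1 →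
        ∀ j, ((Function.update s i v) j).length + t ≤ Λ := by
      intro i v hv j
      by_cases hj : j = i
      · subst hj
        rw [Function.update_self]
        have := hc j
        omega
      · rw [Function.update_of_ne hj]
        have := hc j
        omega
    have hs : ∀ j, (s j).length + t ≤ Λ := fun j => by have := hc j; omega
    match k with
    | [] => exact hdet ([], s) (fun A => rfl) hs
    | Prog.skip :: k => exact hdet (k, s) (fun A => rfl) hs
    | Prog.push i b :: k =>
      exact hdet (k, Function.update s i (b :: s i)) (fun A => rfl) (hup i _ (by simp))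
    | Prog.pop i :: k =>
      exact hdet (k, Function.update s i (s i).tail) (fun A => rfl) (hup i _ (by simp; omega))
    | Prog.seq p q :: k => exact hdet (p :: q :: k, s) (fun A => rfl) hs
    | Prog.cond i p q r :: k =>
      match hsi : s i with
      | [] => exact hdet (p :: k, s) (fun A => by simp [step, hsi]) hs
      | false :: _ => exact hdet (q :: k, s) (fun A => by simp [step, hsi]) hs
      | true :: _ => exact hdet (r :: k, s) (fun A => by simp [step, hsi]) hs
    | Prog.loop i p :: k =>
      match hsi : s i with
      | [] => exact hdet (k, s) (fun A => by simp [step, hsi]) hs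
      | _ :: _ => exact hdet (p :: Prog.loop i p :: k, s) (fun A => by simp [step, hsi]) hs
    | Prog.ask i p q :: k =>
      have h1 := DTP.node (t + d) (s i) (Q := Q)
        (hQ _ (by have := hc i; omega)) _ _
        (ih (p :: k, s) hs hΦ) (ih (q :: k, s) hs hΦ)
      refine (h1.mono (by omega)).congr ?_
      intro A
      rw [Function.iterate_succ_apply]
      cases hA : A (s i)
      · simp [step, hA]
      · simp [step, hA]

/-- The result of `t` steps is determined by at most `t` short bits of the oracle. -/
theorem cert_iterate (Λ : ℕ) (A : Oracle) : ∀ (t : ℕ) (c : Cfg), (∀ i, (c.2 i).length + t ≤ Λ) →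
    ∃ R : Finset (List Bool), R.card ≤ t ∧ (∀ w ∈ R, w.length ≤ Λ) ∧
      ∀ B : Oracle, (∀ w ∈ R, A w = B w) → (step B)^[t] c = (step A)^[t] c := by
  intro t
  induction t with
  | zero =>
    intro c _
    exact ⟨∅, by simp, by simp, fun B _ => rfl⟩
  | succ t ih =>
    intro c hc
    have hc1 : ∀ i, ((step A c).2 i).length + t ≤ Λ := by
      obtain ⟨k, s⟩ := c
      simp only at hc
      have hs : ∀ j, (s j).length + t ≤ Λ := fun j => by have := hc j; omega
      have hup : ∀ (i : ℕ) (v : List Bool), v.length ≤ (s i).length + 1 →
          ∀ j, ((Function.update s i v) j).length + t ≤ Λ := by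
        intro i v hv j
        by_cases hj : j = i
        · subst hj
          rw [Function.update_self]
          have := hc j
          omega
        · rw [Function.update_of_ne hj]
          have := hc j
          omega
      match k with
      | [] => exact hs
      | Prog.skip :: k => exact hs
      | Prog.push i b :: k => exact hup i _ (by simp)
      | Prog.pop i :: k => exact hup i _ (by simp; omega)
      | Prog.seq p q :: k => exact hs
      | Prog.cond i p q r :: k =>
        match hsi : s i with
        | [] => simpa [step, hsi] using hs
        | false :: _ => simpa [step, hsi] using hs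
        | true :: _ => simpa [step, hsi] using hs
      | Prog.loop i p :: k =>
        match hsi : s i with
        | [] => simpa [step, hsi] using hs
        | _ :: _ => simpa [step, hsi] using hs
      | Prog.ask i p q :: k =>
        cases hA : A (s i)
        · simpa [step, hA] using hs
        · simpa [step, hA] using hs
    obtain ⟨R, hR1, hR2, hR3⟩ := ih (step A c) hc1
    -- the bit read in the first step
    have hstep : ∃ R0 : Finset (List Bool), R0.card ≤ 1 ∧ (∀ w ∈ R0, w.length ≤ Λ) ∧
        ∀ B : Oracle, (∀ w ∈ R0, A w = B w) → step B c = step A c := by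
      obtain ⟨k, s⟩ := c
      simp only at hc
      match k with
      | [] => exact ⟨∅, by simp, by simp, fun B _ => rfl⟩
      | Prog.skip :: k => exact ⟨∅, by simp, by simp, fun B _ => rfl⟩
      | Prog.push i b :: k => exact ⟨∅, by simp, by simp, fun B _ => rfl⟩
      | Prog.pop i :: k => exact ⟨∅, by simp, by simp, fun B _ => rfl⟩
      | Prog.seq p q :: k => exact ⟨∅, by simp, by simp, fun B _ => rfl⟩
      | Prog.cond i p q r :: k => exact ⟨∅, by simp, by simp, fun B _ => rfl⟩
      | Prog.loop i p :: k => exact ⟨∅, by simp, by simp, fun B _ => rfl⟩
      | Prog.ask i p q :: k =>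
        refine ⟨{s i}, by simp, ?_, ?_⟩
        · intro w hw
          rw [Finset.mem_singleton] at hw
          subst hw
          have := hc i
          omega
        · intro B hB
          have := hB (s i) (by simp)
          simp [step, this]
    obtain ⟨R0, hR01, hR02, hR03⟩ := hstep
    refine ⟨R0 ∪ R, (Finset.card_union_le _ _).trans (by omega), ?_, ?_⟩
    · intro w hw
      rcases Finset.mem_union.1 hw with h | h
      · exact hR02 w h
      · exact hR2 w h
    · intro B hB
      rw [Function.iterate_succ_apply, Function.iterate_succ_apply,
        hR03 B (fun w hw => hB w (Finset.mem_union_left _ hw))]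
      exact hR3 B (fun w hw => hB w (Finset.mem_union_right _ hw))

/-- Lengths after `t` steps. -/
theorem length_iterate (A : Oracle) : ∀ (t : ℕ) (c : Cfg) (Λ : ℕ),
    (∀ i, (c.2 i).length + t ≤ Λ) → ∀ i, (((step A)^[t] c).2 i).length ≤ Λ := by
  intro t
  induction t with
  | zero => intro c Λ hc i; exact (hc i)
  | succ t ih =>
    intro c Λ hc
    rw [Function.iterate_succ_apply]
    apply ih
    obtain ⟨k, s⟩ := c
    simp only at hc
    have hs : ∀ j, (s j).length + t ≤ Λ := fun j => by have := hc j; omega
    have hup : ∀ (i : ℕ) (v : List Bool), v.length ≤ (s i).length + 1 →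
        ∀ j, ((Function.update s i v) j).length + t ≤ Λ := by
      intro i v hv j
      by_cases hj : j = i
      · subst hj
        rw [Function.update_self]
        have := hc j
        omega
      · rw [Function.update_of_ne hj]
        have := hc j
        omega
    match k with
    | [] => exact hs
    | Prog.skip :: k => exact hs
    | Prog.push i b :: k => exact hup i _ (by simp)
    | Prog.pop i :: k => exact hup i _ (by simp; omega)
    | Prog.seq p q :: k => exact hs
    | Prog.cond i p q r :: k =>
      match hsi : s i with
      | [] => simpa [step, hsi] using hs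
      | false :: _ => simpa [step, hsi] using hs
      | true :: _ => simpa [step, hsi] using hs
    | Prog.loop i p :: k =>
      match hsi : s i with
      | [] => simpa [step, hsi] using hs
      | _ :: _ => simpa [step, hsi] using hs
    | Prog.ask i p q :: k =>
      cases hA : A (s i)
      · simpa [step, hA] using hs
      · simpa [step, hA] using hs

/-! ### Dummy bits -/

theorem AltL_const (P : Prop) : ∀ (ms : List ℕ) (e : Bool), AltL e ms (fun _ => P) ↔ P := by
  intro ms
  induction ms with
  | nil => intro e; exact Iff.rfl
  | cons m ms ih =>
    intro e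
    simp only [AltL, ih]
    cases e with
    | true =>
      simp only [qt]
      exact ⟨fun ⟨_, _, h⟩ => h, fun h => ⟨List.replicate m true, by simp, h⟩⟩
    | false =>
      simp only [qt]
      exact ⟨fun h => h (List.replicate m true) (by simp), fun h _ _ => h⟩

theorem AltL_take {q Q : ℕ} (hqQ : q ≤ Q) : ∀ (k : ℕ) (e : Bool) (P : List (List Bool) → Prop),
    AltL e (List.replicate k Q) (fun us => P (us.map (List.take q))) ↔
      AltL e (List.replicate k q) P := by
  intro k
  induction k with
  | zero => intro e P; exact Iff.rfl
  | succ k ih =>
    intro e P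
    simp only [List.replicate_succ, AltL, List.map_cons]
    have h1 : ∀ u : List Bool, AltL (!e) (List.replicate k Q) (fun us =>
        P (u.take q :: us.map (List.take q))) ↔
        AltL (!e) (List.replicate k q) (fun us => P (u.take q :: us)) :=
      fun u => ih (!e) (fun us => P (u.take q :: us))
    cases e with
    | true =>
      simp only [qt]
      constructor
      · rintro ⟨u, hu, h⟩
        exact ⟨u.take q, by rw [List.length_take]; omega, (h1 u).1 h⟩
      · rintro ⟨u, hu, h⟩
        refine ⟨u ++ List.replicate (Q - q) true, by simp; omega, (h1 _).2 ?_⟩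
        have h3 : (u ++ List.replicate (Q - q) true).take q = u := List.take_left' hu
        rw [h3]
        exact h
    | false =>
      simp only [qt]
      constructor
      · intro h u hu
        have h2 := (h1 _).1 (h (u ++ List.replicate (Q - q) true) (by simp; omega))
        have h3 : (u ++ List.replicate (Q - q) true).take q = u := List.take_left' hu
        rw [h3] at h2
        exact h2
      · intro h u hu
        exact (h1 u).2 (h (u.take q) (by rw [List.length_take]; omega))

end Pool.Agent.H9
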