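import Mathlib
import Pool.Agent.H9.Clos
import Pool.Agent.H9.Hier2

/-!
Hidden levels: after fixing most of the hidden bits, all bits of the closure of short length are
shallow decision trees.
-/

set_option autoImplicit false

namespace Pool.Agent.H9

open Classical

/-- The bits of length at most `ℓ'` of the oracle `O X` are either decision trees of depth `1` over
`X` or disjunctions of decision trees of depth `t` over the bits of length at most `ℓ`. -/
def Layer {V : Type*} (O : (V → Bool) → Oracle) (ℓ ℓ' t : ℕ) : Prop :=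
  ∀ w : List Bool, w.length ≤ ℓ' → DTP Set.univ 1 (fun X => O X w = true) ∨
    ∃ (S : Finset (List Bool)) (f : List Bool → Oracle → Prop),
      (∀ i ∈ S, DTP {v : List Bool | v.length ≤ ℓ} t (f i)) ∧
      ∀ X, O X w = true ↔ ∃ i ∈ S, f i (O X)

/-- All words of length at most `ℓ`. -/
noncomputable def words (ℓ : ℕ) : Finset (List Bool) := (Finset.range (ℓ + 1)).biUnion strings

theorem mem_words {ℓ : ℕ} {w : List Bool} : w ∈ words ℓ ↔ w.length ≤ ℓ := by
  simp [words, mem_strings]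

theorem card_words (ℓ : ℕ) : (words ℓ).card ≤ 2 ^ (ℓ + 1) := by
  unfold words
  refine Finset.card_biUnion_le.trans ?_
  simp only [card_strings]
  have : ∀ n : ℕ, ∑ i ∈ Finset.range n, 2 ^ i ≤ 2 ^ n := by
    intro n
    have := Nat.geomSum_eq (m := 2) le_rfl n
    rw [this]
    simp
  exact this (ℓ + 1)

/-- The estimate for the switching lemma in `hidden`. -/
theorem hidden_estimate {μ L T : ℕ} (hμ : 1 ≤ μ) (hT : L + 3 ≤ T)
    (hW : 16 * (L * T) ≤ 2 ^ μ) :
    ((words L).card : ℝ) *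
      (4 * ((L * T : ℕ) : ℝ) * ((1 / 2 : ℝ) ^ μ / (1 - (1 / 2 : ℝ) ^ μ))) ^ (T + 1) ≤ 1 / 4 := by
  have hp0 : (0 : ℝ) < (1 / 2 : ℝ) ^ μ := by positivity
  have hp1 : (1 / 2 : ℝ) ^ μ ≤ 1 / 2 := by
    calc (1 / 2 : ℝ) ^ μ ≤ (1 / 2 : ℝ) ^ 1 :=
          pow_le_pow_of_le_one (by norm_num) (by norm_num) hμ
      _ = 1 / 2 := by norm_num
  have h1 : (1 / 2 : ℝ) ^ μ / (1 - (1 / 2 : ℝ) ^ μ) ≤ 2 * (1 / 2 : ℝ) ^ μ := by
    rw [div_le_iff₀ (by linarith)]
    nlinarith
  have hW' : (16 : ℝ) * ((L * T : ℕ) : ℝ) ≤ 2 ^ μ := by exact_mod_cast hW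
  have h2 : 4 * ((L * T : ℕ) : ℝ) * ((1 / 2 : ℝ) ^ μ / (1 - (1 / 2 : ℝ) ^ μ)) ≤ 1 / 2 := by
    have h3 : (2 : ℝ) ^ μ * (1 / 2 : ℝ) ^ μ = 1 := by
      rw [← mul_pow]; norm_num
    have h4 : (0 : ℝ) ≤ ((L * T : ℕ) : ℝ) := Nat.cast_nonneg _
    calc 4 * ((L * T : ℕ) : ℝ) * ((1 / 2 : ℝ) ^ μ / (1 - (1 / 2 : ℝ) ^ μ))
        ≤ 4 * ((L * T : ℕ) : ℝ) * (2 * (1 / 2 : ℝ) ^ μ) :=
          mul_le_mul_of_nonneg_left h1 (by positivity)
      _ = (16 * ((L * T : ℕ) : ℝ)) * ((1 / 2 : ℝ) ^ μ) / 2 := by ring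
      _ ≤ (2 ^ μ) * ((1 / 2 : ℝ) ^ μ) / 2 := by
          have := mul_le_mul_of_nonneg_right hW' hp0.le
          linarith
      _ = 1 / 2 := by rw [h3]
  have h5 : 0 ≤ 4 * ((L * T : ℕ) : ℝ) * ((1 / 2 : ℝ) ^ μ / (1 - (1 / 2 : ℝ) ^ μ)) := by
    have : 0 ≤ (1 / 2 : ℝ) ^ μ / (1 - (1 / 2 : ℝ) ^ μ) := div_nonneg hp0.le (by linarith)
    positivity
  have h6 : (4 * ((L * T : ℕ) : ℝ) * ((1 / 2 : ℝ) ^ μ / (1 - (1 / 2 : ℝ) ^ μ))) ^ (T + 1) ≤
      (1 / 2 : ℝ) ^ (T + 1) := pow_le_pow_left₀ h5 h2 _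
  have h7 : (1 / 2 : ℝ) ^ (T + 1) ≤ (1 / 2 : ℝ) ^ (L + 1 + 3) :=
    pow_le_pow_of_le_one (by norm_num) (by norm_num) (by omega)
  have h8 : ((words L).card : ℝ) ≤ 2 ^ (L + 1) := by exact_mod_cast card_words L
  have h9 : (2 : ℝ) ^ (L + 1) * (1 / 2 : ℝ) ^ (L + 1 + 3) = 1 / 8 := by
    rw [pow_add (1 / 2 : ℝ), ← mul_assoc, ← mul_pow]
    norm_num
  calc _ ≤ (2 : ℝ) ^ (L + 1) * (1 / 2 : ℝ) ^ (L + 1 + 3) :=
        mul_le_mul h8 (h6.trans h7) (pow_nonneg h5 _) (by positivity)
    _ = 1 / 8 := h9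
    _ ≤ 1 / 4 := by norm_num

/-- **Hidden levels.** -/
theorem hidden {μ B T L : ℕ} (ms0 : List ℕ) (ℓ : ℕ → ℕ) (hμ : 1 ≤ μ) (hBμ : B + 3 ≤ 2 ^ μ)
    (hL : 1 ≤ L)
    (hT : L + 3 ≤ T) (hW : 16 * (L * T) ≤ 2 ^ μ) :
    ∀ (j i0 m : ℕ) (O : (List (List Bool) → Bool) → Oracle),
      2 * μ ≤ m → ms0.sum + 4 * μ * j + m ≤ B → (∀ i, i ≤ i0 + j → ℓ i ≤ L) →
      (∀ w : List Bool, w.length ≤ ℓ i0 → DTP Set.univ T (fun X => O X w = true)) →
      (∀ i < j, Layer O (ℓ (i0 + i)) (ℓ (i0 + i + 1)) L) →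
      ∃ σ : (List (List Bool) → Bool) → (List (List Bool) → Bool),
        (∀ w : List Bool, w.length ≤ ℓ (i0 + j) →
          DTP Set.univ T (fun z => O (σ z) w = true)) ∧
        (∀ us ∈ paths ms0, ∃ as : List (List Bool),
          as.map List.length = List.replicate j (4 * μ) ++ [m] ∧
          ∀ z, σ z (us ++ as) = z us) := by
  intro j
  induction j with
  | zero =>
    intro i0 m O hm hB hℓ hbase _
    refine ⟨fun z v => z v.dropLast, ?_, ?_⟩
    · intro w hw
      have h1 := (hbase w hw).comp (R := Set.univ) (m := 1)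
        (fun (z : List (List Bool) → Bool) v => z v.dropLast)
        (fun q _ => DTP.var q.dropLast (Set.mem_univ _))
      rw [mul_one] at h1
      exact h1
    · intro us _
      exact ⟨[List.replicate m true], by simp, fun z => by simp⟩
  | succ j ih =>
    intro i0 m O hm hB hℓ hbase hlayer
    have hL0 : ℓ i0 ≤ L := hℓ i0 (by omega)
    have hL1 : ℓ (i0 + 1) ≤ L := hℓ (i0 + 1) (by omega)
    have hlay0 := hlayer 0 (by omega)
    rw [Nat.add_zero] at hlay0
    have hsub : words (ℓ (i0 + 1)) ⊆ words L := by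
      intro w hw
      rw [mem_words] at hw ⊢
      omega
    have hsum : (ms0 ++ List.replicate j (4 * μ)).sum + (2 * μ + 2 * μ) ≤ B := by
      rw [List.sum_append, List.sum_replicate, smul_eq_mul]
      have : 4 * μ * (j + 1) = j * (4 * μ) + 4 * μ := by ring
      omega
    obtain ⟨σ1, h1, h2, _, h4⟩ := stage (ms0 ++ List.replicate j (4 * μ)) μ (2 * μ) m B true
      le_rfl hm hsum hBμ (words (ℓ (i0 + 1))) (fun w X => O X w = true) (L * T) T (by
        intro w hw
        rw [mem_words] at hw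
        rcases hlay0 w hw with h | ⟨S, f, hf, hX⟩
        · obtain ⟨F, hF1, hF2⟩ := terms_of_exists ({w} : Finset (List Bool))
            (f := fun w X => O X w = true) (n := 1) (Q := Set.univ) (by
              intro i hi
              rw [Finset.mem_singleton] at hi
              subst hi
              exact h)
          refine ⟨F, fun t ht => ⟨(hF1 t ht).1.trans ?_, (hF1 t ht).2⟩, ?_⟩
          · have : 1 ≤ T := by omega
            exact Nat.mul_pos hL this
          · intro a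
            rw [← hF2 a]
            simp
        · obtain ⟨F, hF1, hF2⟩ := terms_of_exists S
            (f := fun i X => f i (O X)) (n := L * T) (Q := Set.univ) (by
              intro i hi
              exact (hf i hi).comp (R := Set.univ) (m := T) (fun X => O X)
                (fun q hq => hbase q hq))
          refine ⟨F, hF1, ?_⟩
          intro a
          rw [← hF2 a]
          exact hX a) (by
        refine le_trans ?_ (hidden_estimate hμ hT hW)
        apply mul_le_mul_of_nonneg_right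
        · exact_mod_cast Finset.card_le_card hsub
        · apply pow_nonneg
          have hp1 : (1 / 2 : ℝ) ^ μ ≤ 1 := pow_le_one₀ (by norm_num) (by norm_num)
          have : 0 ≤ (1 / 2 : ℝ) ^ μ / (1 - (1 / 2 : ℝ) ^ μ) :=
            div_nonneg (by positivity) (by linarith)
          positivity)
    obtain ⟨σ', h5, h6⟩ := ih (i0 + 1) (2 * μ) (fun z => O (σ1 z)) le_rfl (by
      have : 4 * μ * (j + 1) = 4 * μ * j + 4 * μ := by ring
      omega) (fun i hi => hℓ i (by omega)) (by
        intro w hw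
        exact h2 w (mem_words.2 hw)) (by
        intro i hi w hw
        have e1 : i0 + 1 + i = i0 + (i + 1) := by omega
        rw [e1] at hw ⊢
        rcases hlayer (i + 1) (by omega) w hw with h | ⟨S, f, hf, hX⟩
        · left
          have := h.comp (R := Set.univ) (m := 1) σ1 (fun q _ => h1 q)
          exact this
        · right
          exact ⟨S, f, hf, fun X => hX (σ1 X)⟩)
    refine ⟨fun z => σ1 (σ' z), ?_, ?_⟩
    · intro w hw
      have e1 : i0 + (j + 1) = i0 + 1 + j := by omega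
      rw [e1] at hw
      exact h5 w hw
    · intro us hus
      obtain ⟨as', h7, h8⟩ := h6 us hus
      obtain ⟨as'', u, rfl⟩ : ∃ as'' u, as' = as'' ++ [u] := by
        have : as' ≠ [] := by
          intro h; rw [h] at h7; simp at h7
        exact ⟨as'.dropLast, as'.getLast this, (List.dropLast_append_getLast this).symm⟩
      rw [List.map_append, List.map_cons, List.map_nil] at h7
      obtain ⟨h9, h10⟩ := List.append_inj' h7 rfl
      have hu : u.length = 2 * μ := by simpa using h10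
      obtain ⟨u'', hu'', w, hw, h11⟩ := h4 (us ++ as'') (by
        rw [mem_paths] at hus ⊢
        rw [List.map_append, hus, h9]) u (mem_strings.2 hu)
      refine ⟨as'' ++ [u ++ u''] ++ [w], ?_, ?_⟩
      · rw [List.map_append, List.map_append, h9]
        simp only [List.map_cons, List.map_nil, List.length_append, hu, mem_strings.1 hu'',
          mem_strings.1 hw]
        rw [List.replicate_succ']
        congr 3
        omega
      · intro z
        have h12 := h11 (σ' z)
        rw [← h8 z]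
        simpa using h12

end Pool.Agent.H9
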