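import Mathlib
import Pool.Agent.H9.Hidden

/-!
The closure of a seed is layered; coding of data bits and of pointers; growth estimates.
-/

set_option autoImplicit false

namespace Pool.Agent.H9

open Classical

/-- The layers of the closure of a variable seed. -/
theorem layer_cl {V : Type*} (g : ℕ → Prog × Polynomial ℕ × Polynomial ℕ)
    (S : (V → Bool) → Oracle) (hS : ∀ r, DTP Set.univ 1 (fun X => S X r = true)) (ℓ L : ℕ)
    (hℓ : ℓ ≤ L) : Layer (fun X => cl g (S X)) ℓ (ℓ ^ 2) L := by
  intro w hw
  beta_reduce
  match w with
  | [] =>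
    left
    exact (DTP.const 1 False).congr (fun X => by rw [cl_nil]; simp)
  | false :: r =>
    left
    exact (hS r).congr (fun X => by rw [cl_false])
  | true :: r =>
    by_cases hc : ∃ (e : ℕ) (x : List Bool) (N : ℕ), r = code e x N ∧
      ((g e).2.2.eval (x.length + (g e).2.1.eval x.length) + x.length +
        (g e).2.1.eval x.length + 2) ^ 2 ≤ N
    · right
      obtain ⟨e, x, N, hr, hN⟩ := hc
      refine ⟨strings ((g e).2.1.eval x.length), fun u A => AcceptsIn A (g e).1 [x, u]
        ((g e).2.2.eval (x.length + (g e).2.1.eval x.length)), ?_, ?_⟩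
      · intro u hu
        rw [mem_strings] at hu
        have hlen : (g e).2.2.eval (x.length + (g e).2.1.eval x.length) + x.length +
            (g e).2.1.eval x.length ≤ ℓ := by
          have h1 : N < (true :: r).length := by
            rw [hr, List.length_cons, code_length]; omega
          have h2 : ((g e).2.2.eval (x.length + (g e).2.1.eval x.length) + x.length +
            (g e).2.1.eval x.length + 2) ^ 2 < ℓ ^ 2 := by omega
          have h3 := lt_of_pow_lt_pow_left₀ 2 (Nat.zero_le ℓ) h2
          omega
        refine (dtp_acceptsIn (g e).1 [x, u] _ ℓ ?_).mono (by omega)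
        simp only [totalLength, List.map_cons, List.map_nil, List.sum_cons, List.sum_nil, hu]
        omega
      · intro X
        rw [cl_true]
        constructor
        · rintro ⟨e', x', N', h1, _, u, hu, hacc⟩
          obtain ⟨rfl, rfl, rfl⟩ := code_inj (hr.symm.trans h1)
          exact ⟨u, mem_strings.2 hu, hacc⟩
        · rintro ⟨u, hu, hacc⟩
          exact ⟨e, x, N, hr, hN, u, mem_strings.1 hu, hacc⟩
    · left
      refine (DTP.const 1 False).congr (fun X => ?_)
      rw [cl_true]
      constructor
      · exact fun h => h.elim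
      · rintro ⟨e, x, N, h1, h2, _⟩
        exact hc ⟨e, x, N, h1, h2⟩

/-- Short bits of the closure of a variable seed are trivial. -/
theorem base_cl {V : Type*} (g : ℕ → Prog × Polynomial ℕ × Polynomial ℕ)
    (S : (V → Bool) → Oracle) (hS : ∀ r, DTP Set.univ 1 (fun X => S X r = true)) (R : ℕ)
    (hR : ∀ (X Y : V → Bool) (r : List Bool), r.length < R → S X r = S Y r) :
    ∀ w : List Bool, w.length ≤ R ^ 2 →
      DTP Set.univ 1 (fun X => cl g (S X) w = true) := by
  intro w hw
  match w with
  | [] => exact (DTP.const 1 False).congr (fun X => by rw [cl_nil]; simp)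
  | false :: r => exact (hS r).congr (fun X => by rw [cl_false])
  | true :: r =>
    refine (DTP.const 1 (KProp g (cl g (S (fun _ => false))) r)).congr (fun X => ?_)
    rw [cl_true]
    apply kprop_local
    intro v hv
    have h1 : (v.length + 2) ^ 2 < R ^ 2 := by
      simp only [List.length_cons] at hw
      omega
    have h2 := lt_of_pow_lt_pow_left₀ 2 (Nat.zero_le R) h1
    exact cl_congr g (n := R) (fun r' hr' => hR _ X r' hr') v (by omega)

/-! ### Data bits -/

/-- The data table: the (reversed) address of the tuple `v` holds the bit `X v`. -/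
noncomputable def data (Lv : List ℕ) (X : List (List Bool) → Bool) : Oracle := fun r =>
  decide (∃ v ∈ paths Lv, r = v.flatten.reverse ∧ X v = true)

theorem length_flatten_of_paths {Lv : List ℕ} {v : List (List Bool)} (h : v ∈ paths Lv) :
    v.flatten.length = Lv.sum := by
  rw [List.length_flatten, mem_paths.1 h]

theorem data_apply {Lv : List ℕ} (X : List (List Bool) → Bool) {v : List (List Bool)}
    (hv : v ∈ paths Lv) : data Lv X v.flatten.reverse = X v := by
  unfold data
  cases h : X v with
  | true =>
    simp only [decide_eq_true_eq]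
    exact ⟨v, hv, rfl, h⟩
  | false =>
    simp only [decide_eq_false_iff_not]
    rintro ⟨v', hv', h1, h2⟩
    have h3 : v.flatten = v'.flatten := List.reverse_injective h1
    have h4 : v = v' := by
      rw [List.eq_iff_flatten_eq]
      exact ⟨h3, by rw [mem_paths.1 hv, mem_paths.1 hv']⟩
    rw [h4, h2] at h
    exact absurd h (by simp)

theorem data_dtp (Lv : List ℕ) (r : List Bool) :
    DTP Set.univ 1 (fun X => data Lv X r = true) := by
  by_cases h : ∃ v ∈ paths Lv, r = v.flatten.reverse
  · obtain ⟨v, hv, rfl⟩ := h
    exact (DTP.var v (Set.mem_univ _)).congr (fun X => by rw [data_apply X hv])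
  · refine (DTP.const 1 False).congr (fun X => ?_)
    unfold data
    simp only [decide_eq_true_eq]
    constructor
    · exact fun h => h.elim
    · rintro ⟨v, hv, h1, _⟩
      exact h ⟨v, hv, h1⟩

/-! ### Pointers -/

/-- Pointer bits leading from the address `w` of length `L0` to the address `w ++ addr w`. -/
def ptr (L0 : ℕ) (addr : List Bool → List Bool) : Oracle := fun r =>
  (addr (r.reverse.take L0)).getD (r.length - L0) false

theorem walk_ptr {L0 m : ℕ} {addr : List Bool → List Bool} {P : Oracle}
    (hP : ∀ r : List Bool, L0 ≤ r.length → r.length < L0 + m → P r = ptr L0 addr r)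
    {w : List Bool} (hw : w.length = L0) (ha : (addr w).length = m) :
    walk P m w.reverse = (w ++ addr w).reverse := by
  have key : ∀ t d : ℕ, t + d = m →
      walk P d (w ++ (addr w).take t).reverse = (w ++ addr w).reverse := by
    intro t d
    induction d generalizing t with
    | zero =>
      intro htd
      have : (addr w).take t = addr w := by
        apply List.take_of_length_le
        omega
      rw [this]
      rfl
    | succ d ih =>
      intro htd
      have hlen : (w ++ (addr w).take t).reverse.length = L0 + t := by
        simp only [List.length_reverse, List.length_append, List.length_take, hw, ha]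
        omega
      have hbit : P (w ++ (addr w).take t).reverse = (addr w).getD t false := by
        rw [hP _ (by omega) (by omega)]
        unfold ptr
        rw [hlen, List.reverse_reverse, List.take_left' hw, Nat.add_sub_cancel_left]
      simp only [walk]
      rw [hbit]
      have hstep : (addr w).getD t false :: (w ++ (addr w).take t).reverse =
          (w ++ (addr w).take (t + 1)).reverse := by
        have ht : t < (addr w).length := by omega
        rw [List.take_add_one, ← List.append_assoc, List.reverse_append (as := w ++ _)]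
        rw [List.getD_eq_getElem _ _ ht, List.getElem?_eq_getElem ht]
        rfl
      rw [hstep]
      exact ih (t + 1) (by omega)
  have := key 0 m (by omega)
  simpa using this

/-! ### Growth -/

theorem exists_large (P : Polynomial ℕ) (n0 : ℕ) : ∃ μ : ℕ, n0 ≤ μ ∧ P.eval μ ≤ 2 ^ μ := by
  obtain ⟨c, hc⟩ := poly_le_pow P
  have h1 : Filter.Tendsto (fun n : ℕ => (n : ℝ) ^ (2 ^ c) / 2 ^ n) Filter.atTop (nhds 0) :=
    tendsto_pow_const_div_const_pow_of_one_lt (2 ^ c) (by norm_num)
  have h2 : ∀ᶠ n : ℕ in Filter.atTop, (n : ℝ) ^ (2 ^ c) / 2 ^ n < 1 / 4 :=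
    h1.eventually (gt_mem_nhds (by norm_num))
  obtain ⟨m, hm1, hm2⟩ := (h2.and (Filter.eventually_ge_atTop (n0 + 2))).exists
  refine ⟨m - 2, by omega, ?_⟩
  have h3 : (m : ℝ) ^ (2 ^ c) < 1 / 4 * 2 ^ m := by
    rwa [div_lt_iff₀ (by positivity)] at hm1
  have h4 : ((m : ℕ) : ℝ) ^ (2 ^ c) < 2 ^ (m - 2) := by
    have h5 : (2 : ℝ) ^ m = 2 ^ (m - 2) * 4 := by
      have : m = (m - 2) + 2 := by omega
      conv_lhs => rw [this, pow_add]
      norm_num
    rw [h5] at h3
    linarith
  have h6 : m ^ (2 ^ c) < 2 ^ (m - 2) := by exact_mod_cast h4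
  have h7 := hc (m - 2)
  have h8 : m - 2 + 2 = m := by omega
  rw [h8] at h7
  omega

end Pool.Agent.H9
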