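import Mathlib
import Pool.Agent.H9.Bind
import Pool.Agent.H9.Layers

/-!
The table used in one stage of the construction.
-/

set_option autoImplicit false

namespace Pool.Agent.H9

open Classical

/-! ### Contents as functions of bits -/

/-- The contents as a function of the random bits. -/
def contB (b : Node ⊕ Node → Bool) : ℕ → Node → Bool
  | 0, v => b (Sum.inl v) && b (Sum.inr v)
  | l + 1, v => if b (Sum.inl v) = true then
      (if b (Sum.inr v.dropLast) = true then contB b l v.dropLast else ql (l + 1))
      else !(ql (l + 1))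

theorem cont_eq (k : ℕ) (Z : Finset (Node ⊕ Node)) (v : Node) : cont k Z v = contB (mem Z) k v := by
  unfold cont
  induction k generalizing v with
  | zero =>
    simp only [contT, topT, contB, mem]
    by_cases h1 : Sum.inl v ∈ Z <;> by_cases h2 : Sum.inr v ∈ Z <;> simp [h1, h2]
  | succ k ih =>
    rw [contT_succ, ih]
    simp only [contB, mem, decide_eq_true_eq]

theorem dtp_contB : ∀ (l : ℕ) (v : Node),
    DTP Set.univ (2 * l + 2) (fun b : Node ⊕ Node → Bool => contB b l v = true) := by
  intro l
  induction l with
  | zero =>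
    intro v
    have h1 := DTP.ite (DTP.var (Sum.inl v : Node ⊕ Node) (Set.mem_univ _))
      (DTP.var (Sum.inr v : Node ⊕ Node) (Set.mem_univ _)) (DTP.const 1 False)
    refine h1.congr ?_
    intro b
    simp only [contB, Bool.and_eq_true]
    tauto
  | succ l ih =>
    intro v
    have h1 := DTP.ite (DTP.var (Sum.inl v : Node ⊕ Node) (Set.mem_univ _))
      (DTP.ite (DTP.var (Sum.inr v.dropLast : Node ⊕ Node) (Set.mem_univ _)) (ih v.dropLast)
        (DTP.const _ (ql (l + 1) = true))) (DTP.const _ ((!(ql (l + 1))) = true))
    refine (h1.mono (by omega)).congr ?_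
    intro b
    simp only [contB]
    by_cases h1 : b (Sum.inl v) = true
    · by_cases h2 : b (Sum.inr v.dropLast) = true
      · simp [h1, h2]
      · simp [h1, h2]
    · simp [h1]

/-- Indices of random bits: number of the copy, root, bit of the tree. -/
abbrev Idx := ℕ × List Bool × (Node ⊕ Node)

/-- The value at the leaf `y :: us` of the tree with root `y` in copy `j`. Only the first `m0` bits
of the first block matter. -/
def cval (k m0 : ℕ) (b : Idx → Bool) (j : ℕ) : Node → Bool
  | y :: u :: us => if u.drop m0 = List.replicate (u.length - m0) false then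
      contB (fun z => b (j, y, z)) k (u.take m0 :: us) else false
  | _ => false

/-- The value of a padded tree. -/
theorem altL_pad {m0 n k : ℕ} (hm : m0 ≤ n) (c : Node → Bool) :
    AltL true (List.replicate (k + 1) n) (fun us => (match us with
      | u :: us => if u.drop m0 = List.replicate (u.length - m0) false then
          c (u.take m0 :: us) else false
      | _ => false) = true) ↔
    AltL true (m0 :: List.replicate k n) (fun us => c us = true) := by
  rw [List.replicate_succ]
  simp only [AltL, qt]
  constructor
  · rintro ⟨u, hu, h⟩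
    by_cases hd : u.drop m0 = List.replicate (u.length - m0) false
    · refine ⟨u.take m0, by rw [List.length_take]; omega, ?_⟩
      simpa only [hd, if_true] using h
    · exfalso
      simp only [hd, if_false] at h
      have := (AltL_const False (List.replicate k n) (!true)).1 (by simpa using h)
      exact this
  · rintro ⟨u, hu, h⟩
    refine ⟨u ++ List.replicate (n - m0) false, by simp; omega, ?_⟩
    have h1 : (u ++ List.replicate (n - m0) false).take m0 = u := List.take_left' hu
    have h2 : (u ++ List.replicate (n - m0) false).drop m0 = List.replicate (n - m0) false :=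
      List.drop_left' hu
    have h3 : (u ++ List.replicate (n - m0) false).length - m0 = n - m0 := by simp; omega
    rw [h1, h2, h3]
    simpa using h

theorem altL_cval {k m0 n : ℕ} (hm : m0 ≤ n) (b : Idx → Bool) (j : ℕ) (y : List Bool) :
    AltL true (List.replicate (k + 1) n) (fun us => cval k m0 b j (y :: us) = true) ↔
    AltL true (m0 :: List.replicate k n) (fun us => contB (fun z => b (j, y, z)) k us = true) := by
  rw [← altL_pad hm]
  apply AltL_congr
  intro us hus
  cases us with
  | nil => simp at hus
  | cons u us => rfl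

/-! ### Stage parameters -/

/-- Parameters of a stage. -/
structure SP where
  /-- level -/
  k : ℕ
  /-- scale -/
  μ : ℕ
  /-- length of the roots and of the blocks -/
  n : ℕ
  /-- number of bits per solver level -/
  mb : ℕ
  /-- number of solver levels -/
  J : ℕ
  /-- the old table -/
  D0 : Tab
  /-- length of the old table -/
  n0 : ℕ

/-- The base of the thresholds. -/
def SP.R (S : SP) : ℕ := (S.k + 2) * S.n + 3

/-- The thresholds. -/
def SP.thr (S : SP) (j : ℕ) : ℕ := S.R ^ 2 ^ j

/-- The solver level of a world number. -/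
def SP.lvl (S : SP) (N : ℕ) : ℕ := Nat.findGreatest (fun j => S.thr j ≤ N) (S.J + 1)

/-- The block lengths of the addresses. -/
def SP.Lv (S : SP) : List ℕ := List.replicate (S.k + 2) S.n

/-- Same cylinder of level `j`. -/
def SP.Cyl (S : SP) (j : ℕ) (y0 y : List Bool) : Prop := y.take (j * S.mb) = y0.take (j * S.mb)

/-- The copy used for the root `y` in the world number `N`. -/
noncomputable def SP.copyOf (S : SP) (y0 y : List Bool) (N : ℕ) : ℕ :=
  if 1 ≤ S.lvl N ∧ S.lvl N ≤ S.J ∧ S.Cyl (S.lvl N) y0 y then S.lvl N else 0

/-- The contents of the leaves in copy `j`. -/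
def SP.cv (S : SP) (b : Idx → Bool) (j : ℕ) : Node → Bool := cval S.k (2 * S.μ) b j

/-- The contents of the leaves in world number `N`. -/
noncomputable def SP.cvN (S : SP) (y0 : List Bool) (b : Idx → Bool) (N : ℕ) : Node → Bool :=
  fun v => S.cv b (S.copyOf y0 (v.headD []) N) v

/-- The new table. -/
noncomputable def SP.tab (S : SP) (y0 : List Bool) (b : Idx → Bool) : Tab := fun w =>
  if w.length < S.n0 then S.D0 w
  else if w.length = (S.k + 2) * S.n then
    (data S.Lv (S.cv b 0) w, fun N => data S.Lv (S.cvN y0 b N) w)
  else (false, fun _ => false)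

/-- The oracle with given solver bits and given contents of the leaves. -/
noncomputable def SP.orc (S : SP) (κ : List Bool → Bool) (c : Node → Bool) : Oracle
  | [] => false
  | false :: w => if w.length < S.n0 then (S.D0 w).1
      else if w.length = (S.k + 2) * S.n then data S.Lv c w else false
  | true :: w => κ w

theorem SP.thr_mono (S : SP) {i j : ℕ} (h : i ≤ j) : S.thr i ≤ S.thr j := by
  unfold SP.thr
  apply Nat.pow_le_pow_right
  · unfold SP.R; omega
  · exact Nat.pow_le_pow_right (by norm_num) h

theorem SP.thr_succ (S : SP) (j : ℕ) : S.thr (j + 1) = S.thr j ^ 2 := by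
  unfold SP.thr
  rw [pow_succ 2 j, pow_mul]

theorem SP.lvl_lt (S : SP) {N j : ℕ} (hj : 1 ≤ j) (h : N < S.thr j) : S.lvl N < j := by
  by_contra hcon
  push Not at hcon
  have h1 : S.lvl N ≠ 0 := by omega
  have h2 : S.thr (S.lvl N) ≤ N := Nat.findGreatest_of_ne_zero (P := fun j => S.thr j ≤ N)
    (n := S.J + 1) rfl h1
  have h3 := S.thr_mono hcon
  omega

theorem SP.le_lvl (S : SP) {N j : ℕ} (hj : j ≤ S.J + 1) (h : S.thr j ≤ N) : j ≤ S.lvl N :=
  Nat.le_findGreatest hj h

theorem SP.lt_thr_of_lvl (S : SP) {N j : ℕ} (hj : j ≤ S.J) (h : S.lvl N = j) :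
    N < S.thr (j + 1) := by
  by_contra hcon
  push Not at hcon
  have := S.le_lvl (by omega) hcon
  omega

theorem SP.cyl_mono (S : SP) {i j : ℕ} (hij : i ≤ j) {y0 y : List Bool} (h : S.Cyl j y0 y) :
    S.Cyl i y0 y := by
  unfold SP.Cyl at h ⊢
  have h1 : i * S.mb ≤ j * S.mb := Nat.mul_le_mul_right _ hij
  have h2 : ∀ z : List Bool, z.take (i * S.mb) = (z.take (j * S.mb)).take (i * S.mb) := by
    intro z
    rw [List.take_take, Nat.min_eq_left h1]
  rw [h2 y, h2 y0, h]

theorem headD_of_paths {n k : ℕ} {v : Node} (hv : v ∈ paths (List.replicate (k + 2) n)) :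
    ∃ y u us, v = y :: u :: us ∧ y.length = n ∧ u.length = n ∧
      us ∈ paths (List.replicate k n) := by
  rw [mem_paths] at hv
  match v with
  | [] => simp [List.replicate_succ] at hv
  | [y] => simp [List.replicate_succ] at hv
  | y :: u :: us =>
    simp only [List.map_cons, List.replicate_succ, List.cons.injEq] at hv
    exact ⟨y, u, us, rfl, hv.1, hv.2.1, mem_paths.2 hv.2.2⟩

theorem data_congr {Lv : List ℕ} {c c' : Node → Bool} (h : ∀ v ∈ paths Lv, c v = c' v)
    (w : List Bool) : data Lv c w = data Lv c' w := by
  unfold data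
  apply decide_eq_decide.2
  constructor
  · rintro ⟨v, hv, h1, h2⟩
    exact ⟨v, hv, h1, by rw [← h v hv]; exact h2⟩
  · rintro ⟨v, hv, h1, h2⟩
    exact ⟨v, hv, h1, by rw [h v hv]; exact h2⟩

theorem cval_congr {k m0 j : ℕ} {b b' : Idx → Bool} {j' : ℕ} {y : List Bool} {us : Node}
    (h : ∀ z, b (j, y, z) = b' (j', y, z)) : cval k m0 b j (y :: us) = cval k m0 b' j' (y :: us) := by
  cases us with
  | nil => rfl
  | cons u us =>
    simp only [cval]
    have : (fun z => b (j, y, z)) = (fun z => b' (j', y, z)) := funext h
    rw [this]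

/-- The decoy seeds below the threshold `j` depend only on the cylinder of level `j - 1`, the
copies below `j` and the real bits outside the cylinder. -/
theorem SP.tab_agree (S : SP) {j : ℕ} (hj : j ≤ S.J) {y0 y0' : List Bool} {b b' : Idx → Bool}
    (hy : S.Cyl j y0 y0') (hb : ∀ i, 1 ≤ i → i ≤ j → ∀ y z, b (i, y, z) = b' (i, y, z))
    (hb0 : ∀ y, ¬ S.Cyl j y0 y → ∀ z, b (0, y, z) = b' (0, y, z)) :
    ∀ N < S.thr (j + 1), ∀ v : List Bool, (v.length + 3) ^ 2 ≤ N →
      (S.tab y0 b v).2 N = (S.tab y0' b' v).2 N := by
  intro N hN v hv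
  unfold SP.tab
  by_cases h1 : v.length < S.n0
  · rw [if_pos h1, if_pos h1]
  rw [if_neg h1, if_neg h1]
  by_cases h2 : v.length = (S.k + 2) * S.n
  · rw [if_pos h2, if_pos h2]
    apply data_congr
    intro p hp
    obtain ⟨y, u, us, rfl, _, _, _⟩ := headD_of_paths hp
    have h3 : S.lvl N < j + 1 := S.lvl_lt (by omega) hN
    have h4 : 1 ≤ S.lvl N := by
      apply S.le_lvl (by omega)
      unfold SP.thr SP.R
      rw [← h2]
      simpa using hv
    unfold SP.cvN
    simp only [List.headD_cons]
    have hc : ∀ y, (S.Cyl (S.lvl N) y0 y ↔ S.Cyl (S.lvl N) y0' y) := by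
      intro y
      have := S.cyl_mono (show S.lvl N ≤ j by omega) hy
      unfold SP.Cyl at this ⊢
      rw [this]
    unfold SP.copyOf
    by_cases h5 : S.Cyl (S.lvl N) y0 y
    · rw [if_pos ⟨h4, by omega, h5⟩, if_pos ⟨h4, by omega, (hc y).1 h5⟩]
      exact cval_congr (hb _ h4 (by omega) y)
    · rw [if_neg (fun h => h5 h.2.2), if_neg (fun h => h5 ((hc y).2 h.2.2))]
      exact cval_congr (hb0 y (fun h => h5 (S.cyl_mono (by omega) h)))
  · rw [if_neg h2, if_neg h2]

/-- The oracle of the table. -/
theorem SP.world_orc (S : SP) (g : ℕ → Qn) (y0 : List Bool) (b : Idx → Bool) :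
    world g (S.tab y0 b) = S.orc (fun w => world g (S.tab y0 b) (true :: w)) (S.cv b 0) := by
  funext w
  match w with
  | [] => rw [world_nil]; rfl
  | false :: w =>
    rw [world_false]
    simp only [SP.orc, SP.tab]
    split_ifs <;> rfl
  | true :: w => rfl

/-- The worlds of the solver. -/
theorem SP.mask_orc (S : SP) (g : ℕ → Qn) (y0 : List Bool) (b : Idx → Bool) {N : ℕ}
    (hN : ∀ v : List Bool, v.length < S.n0 → (S.D0 v).2 N = (S.D0 v).1) :
    mask (S.tab y0 b) N (world g (S.tab y0 b)) =
      S.orc (fun w => world g (S.tab y0 b) (true :: w)) (S.cvN y0 b N) := by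
  funext w
  match w with
  | [] => simp only [mask, world_nil]; rfl
  | false :: w =>
    simp only [mask, SP.orc, SP.tab]
    by_cases h1 : w.length < S.n0
    · rw [if_pos h1, if_pos h1]
      exact hN w h1
    · rw [if_neg h1, if_neg h1]
      split_ifs <;> rfl
  | true :: w => rfl

theorem SP.orc_congr (S : SP) {κ κ' : List Bool → Bool} {c c' : Node → Bool} {Λ : ℕ}
    (hκ : ∀ w : List Bool, w.length < Λ → κ w = κ' w)
    (hc : ∀ v ∈ paths S.Lv, c v = c' v) :
    ∀ w : List Bool, w.length ≤ Λ → S.orc κ c w = S.orc κ' c' w := by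
  intro w hw
  match w with
  | [] => rfl
  | false :: w =>
    simp only [SP.orc]
    rw [data_congr hc]
  | true :: w => exact hκ w (by simpa using hw)

/-- The bits of the oracle as decision trees. -/
theorem SP.dtp_orc (S : SP) {α : Type*} {Q : Set α} {W : ℕ} (κ : List Bool → Bool)
    (c : (α → Bool) → Node → Bool)
    (hc : ∀ v ∈ paths S.Lv, DTP Q W (fun b => c b v = true)) (w : List Bool) :
    DTP Q W (fun b => S.orc κ (c b) w = true) := by
  match w with
  | [] => exact DTP.const W (false = true)
  | true :: w => exact DTP.const W (κ w = true)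
  | false :: w =>
    by_cases h1 : w.length < S.n0
    · refine (DTP.const W ((S.D0 w).1 = true)).congr ?_
      intro b
      simp only [SP.orc, if_pos h1]
    by_cases h2 : w.length = (S.k + 2) * S.n
    · have h3 : ∀ b, S.orc κ (c b) (false :: w) = data S.Lv (c b) w := by
        intro b
        simp only [SP.orc, if_neg h1, if_pos h2]
      by_cases h : ∃ v ∈ paths S.Lv, w = v.flatten.reverse
      · obtain ⟨v, hv, rfl⟩ := h
        refine (hc v hv).congr ?_
        intro b
        rw [h3, data_apply (c b) hv]
      · refine (DTP.const W (false = true)).congr ?_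
        intro b
        rw [h3]
        unfold data
        simp only [decide_eq_true_eq]
        constructor
        · intro h'; exact absurd h' (by simp)
        · rintro ⟨v, hv, h4, _⟩
          exact absurd ⟨v, hv, h4⟩ h
    · refine (DTP.const W (false = true)).congr ?_
      intro b
      simp only [SP.orc, if_neg h1, if_neg h2]

/-- The contents of a leaf as a decision tree over bits that are decision trees of depth `1`. -/
theorem dtp_cval {α : Type*} {Q : Set α} {k m0 j : ℕ} (f : (α → Bool) → Idx → Bool)
    (hf : ∀ i, DTP Q 1 (fun b => f b i = true)) (v : Node) :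
    DTP Q (2 * k + 2) (fun b => cval k m0 (f b) j v = true) := by
  match v with
  | [] => exact DTP.const _ (false = true)
  | [y] => exact DTP.const _ (false = true)
  | y :: u :: us =>
    by_cases h : u.drop m0 = List.replicate (u.length - m0) false
    · have h1 := (dtp_contB k (u.take m0 :: us)).comp (R := Q) (m := 1)
        (fun b z => f b (j, y, z)) (fun z _ => hf (j, y, z))
      rw [mul_one] at h1
      refine h1.congr ?_
      intro b
      simp only [cval, if_pos h]
    · refine (DTP.const _ (false = true)).congr ?_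
      intro b
      simp only [cval, if_neg h]

end Pool.Agent.H9
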