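import Mathlib
import Pool.Agent.H9.AvgTab

/-!
The average error of the heuristics in one stage.
-/

set_option autoImplicit false

namespace Pool.Agent.H9

open Classical

/-! ### Independent copies -/

theorem mem_apply {α : Type*} {X : Finset α} {v : α} : mem X v = true ↔ v ∈ X := by
  simp [mem]

/-- The bits `b` inside `Z` and the bits `Y` outside. -/
noncomputable def inner {α : Type*} (Z : Finset α) (Y b : α → Bool) : α → Bool :=
  fun v => if v ∈ Z then b v else Y v

theorem inner_pos {α : Type*} {Z : Finset α} {Y b : α → Bool} {v : α} (h : v ∈ Z) :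
    inner Z Y b v = b v := if_pos h

theorem inner_neg {α : Type*} {Z : Finset α} {Y b : α → Bool} {v : α} (h : v ∉ Z) :
    inner Z Y b v = Y v := if_neg h

theorem mem_mix_apply {α : Type*} (Z X X' : Finset α) :
    mem (mix Z X X') = inner Z (mem X) (mem X') := by
  funext v
  rw [Bool.eq_iff_iff, mem_apply, mem_mix]
  by_cases h : v ∈ Z
  · simp [h, inner_pos, mem_apply]
  · simp [h, inner_neg, mem_apply]

/-- The bits in the range of an injection form an independent family. -/
theorem ex_embed {α γ : Type*} (p : ℝ) (U : Finset α) (T : Finset γ) (e : γ → α) (P : α → Prop)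
    (r : α → γ) (h1 : ∀ t, P (e t)) (h2 : ∀ t, r (e t) = t) (h3 : ∀ z, P z → e (r z) = z)
    (hT : ∀ t, t ∈ T ↔ e t ∈ U) (f : (α → Bool) → ℝ) :
    ex p U (fun X => f (mem X)) = ex p U (fun X => ex p T (fun B =>
      f (fun z => if P z then mem B (r z) else mem X z))) := by
  have he : Function.Injective e := fun t t' h => by rw [← h2 t, ← h2 t', h]
  set Z : Finset α := T.image e with hZ
  have hZU : Z ⊆ U := by
    intro z hz
    obtain ⟨t, ht, rfl⟩ := Finset.mem_image.1 hz
    exact (hT t).1 ht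
  have hmemZ : ∀ z, z ∈ Z ↔ P z ∧ r z ∈ T := by
    intro z
    rw [hZ, Finset.mem_image]
    constructor
    · rintro ⟨t, ht, rfl⟩
      exact ⟨h1 t, by rw [h2]; exact ht⟩
    · rintro ⟨hP, hr⟩
      exact ⟨r z, hr, h3 z hP⟩
  rw [← ex_mix p U Z (fun X => f (mem X))]
  apply ex_congr
  intro X hX
  rw [ex_drop (V := Z) hZU, hZ, ex_image p T he]
  · apply ex_congr
    intro B hB
    congr 1
    rw [mem_mix_apply]
    funext z
    unfold inner
    have hB' : mem (B.image e) z = true ↔ P z ∧ r z ∈ B := by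
      rw [mem_apply, Finset.mem_image]
      constructor
      · rintro ⟨t, ht, rfl⟩
        exact ⟨h1 t, by rw [h2]; exact ht⟩
      · rintro ⟨hP, hr⟩
        exact ⟨r z, hr, h3 z hP⟩
    rw [← hZ]
    by_cases hP : P z
    · rw [if_pos hP]
      by_cases hr : r z ∈ T
      · rw [if_pos ((hmemZ z).2 ⟨hP, hr⟩), Bool.eq_iff_iff, hB', mem_apply]
        exact and_iff_right hP
      · rw [if_neg (fun h => hr ((hmemZ z).1 h).2), Bool.eq_iff_iff, mem_apply, mem_apply]
        constructor
        · intro h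
          exfalso
          apply hr
          rw [hT, h3 z hP]
          exact hX h
        · intro h
          exact absurd (hB h) hr
    · rw [if_neg hP, if_neg (fun h => hP ((hmemZ z).1 h).1)]
  · intro X' _ Y hY
    congr 2
    ext z
    simp only [mem_mix, Finset.mem_union]
    constructor
    · rintro (h | ⟨h | h, hz⟩)
      · exact Or.inl h
      · exact Or.inr ⟨h, hz⟩
      · exact absurd hz (Finset.mem_sdiff.1 (hY h)).2
    · rintro (h | ⟨h, hz⟩)
      · exact Or.inl h
      · exact Or.inr ⟨Or.inl h, hz⟩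

/-- Two rows of a product are independent. -/
theorem ex_copies {ι β : Type*} (p : ℝ) (I : Finset ι) (V : Finset β) {i j : ι}
    (hi : i ∈ I) (hj : j ∈ I) (f : (ι × β → Bool) → ℝ) :
    ex p (I ×ˢ V) (fun X => f (mem X)) = ex p (I ×ˢ V) (fun X => ex p V (fun A => ex p V (fun B =>
      f (fun z => if z.1 = i then mem A z.2 else if z.1 = j then mem B z.2 else mem X z)))) := by
  have key : ∀ (i : ι), i ∈ I → ∀ g : (ι × β → Bool) → ℝ,
      ex p (I ×ˢ V) (fun X => g (mem X)) = ex p (I ×ˢ V) (fun X => ex p V (fun A =>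
      g (fun z => if z.1 = i then mem A z.2 else mem X z))) := by
    intro i hi g
    exact ex_embed p (I ×ˢ V) V (fun v => (i, v)) (fun z => z.1 = i) (fun z => z.2)
      (fun _ => rfl) (fun _ => rfl) (fun z hz => by rw [← hz])
      (fun t => by rw [Finset.mem_product]; exact (and_iff_right hi).symm) g
  rw [key i hi, ex_comm]
  have h2 : ∀ A ⊆ V, ex p (I ×ˢ V) (fun X => f (fun z => if z.1 = i then mem A z.2 else mem X z)) =
      ex p (I ×ˢ V) (fun X => ex p V (fun B =>
      f (fun z => if z.1 = i then mem A z.2 else if z.1 = j then mem B z.2 else mem X z))) :=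
    fun A _ => key j hj (fun b => f (fun z => if z.1 = i then mem A z.2 else b z))
  rw [ex_congr h2, ex_comm]

/-- Bits with fresh rows `i` (inside `Z`) and `j`. -/
noncomputable def fresh {ι β : Type*} (i j : ι) (Z : Finset β) (X : Finset (ι × β))
    (Y X' B : Finset β) : ι × β → Bool := fun z =>
  if z.1 = i then mem (mix Z Y X') z.2 else if z.1 = j then mem B z.2 else mem X z

theorem fresh_one {ι β : Type*} {i j : ι} {Z : Finset β} {X : Finset (ι × β)}
    {Y X' B : Finset β} (v : β) : fresh i j Z X Y X' B (i, v) = mem (mix Z Y X') v := if_pos rfl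

theorem fresh_two {ι β : Type*} {i j : ι} (hij : j ≠ i) {Z : Finset β} {X : Finset (ι × β)}
    {Y X' B : Finset β} (v : β) : fresh i j Z X Y X' B (j, v) = mem B v := by
  unfold fresh
  simp only [if_neg hij, if_true]

theorem fresh_else {ι β : Type*} {i j l : ι} (hi : l ≠ i) (hj : l ≠ j) {Z : Finset β}
    {X : Finset (ι × β)} {Y X' B : Finset β} (v : β) :
    fresh i j Z X Y X' B (l, v) = mem X (l, v) := by
  unfold fresh
  simp only [if_neg hi, if_neg hj]

theorem ex_fresh {ι β : Type*} (p : ℝ) (I : Finset ι) (V : Finset β) {i j : ι}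
    (hi : i ∈ I) (hj : j ∈ I) (Z : Finset β) (f : (ι × β → Bool) → ℝ) :
    ex p (I ×ˢ V) (fun X => f (mem X)) = ex p (I ×ˢ V) (fun X => ex p V (fun Y => ex p V (fun X' =>
      ex p V (fun B => f (fresh i j Z X Y X' B))))) := by
  rw [ex_copies p I V hi hj]
  apply ex_congr
  intro X _
  exact (ex_mix p V Z (fun A => ex p V (fun B =>
        f (fun z => if z.1 = i then mem A z.2 else
          if z.1 = j then mem B z.2 else mem X z)))).symm

/-! ### One level, with fixed outer data -/

/-- Indices of the bits of one copy. -/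
abbrev Bit := List Bool × (Node ⊕ Node)

/-- The contents of the leaves given by the bits of one copy. -/
def SP.cw (S : SP) (a : Bit → Bool) : Node → Bool := cval S.k (2 * S.μ) (fun i => a i.2) 0

/-- The oracle given by the solver bits `κ`, outer bits `Y` and inner bits `b`. -/
noncomputable def SP.ow (S : SP) (κ : List Bool → Bool) (Z : Finset Bit) (Y b : Bit → Bool) :
    Oracle := S.orc κ (S.cw (inner Z Y b))

theorem SP.dtp_ow (S : SP) (κ : List Bool → Bool) (Z : Finset Bit) (Y : Bit → Bool)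
    (w : List Bool) :
    DTP Set.univ (2 * S.k + 2) (fun b : Bit → Bool => S.ow κ Z Y b w = true) := by
  apply S.dtp_orc κ (fun b => S.cw (inner Z Y b))
  intro v _
  apply dtp_cval (f := fun b i => inner Z Y b i.2)
  intro i
  by_cases h : i.2 ∈ Z
  · refine (DTP.var i.2 (Set.mem_univ _)).congr (fun b => by rw [inner_pos h])
  · refine (DTP.const 1 (Y i.2 = true)).congr (fun b => by rw [inner_neg h])

/-- The configuration of the sampler after `t` steps. -/
noncomputable def SP.xf (S : SP) (κ : List Bool → Bool) (Z : Finset Bit) (Y : Bit → Bool)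
    (G : Prog) (inp : List (List Bool)) (t : ℕ) (X : Finset Bit) : Cfg :=
  run (S.ow κ Z Y (mem X)) G inp t

/-- The answer to the question about the string found by the sampler. -/
noncomputable def SP.ff (S : SP) (κ : List Bool → Bool) (Z : Finset Bit) (Y : Bit → Bool)
    (G : Prog) (inp : List (List Bool)) (t : ℕ) (q : Qn) (X : Finset Bit) : Prop :=
  q.ans (S.ow κ Z Y (mem X)) ((S.xf κ Z Y G inp t X).2 0)

theorem SP.cert_xf (S : SP) (κ : List Bool → Bool) (Z : Finset Bit) (Y : Bit → Bool)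
    (G : Prog) (inp : List (List Bool)) (t : ℕ) :
    Cert (t * (2 * S.k + 2)) (S.xf κ Z Y G inp t) := by
  intro X
  obtain ⟨R, hR1, _, hR3⟩ := cert_iterate (totalLength inp + t) (S.ow κ Z Y (mem X)) t
    (start G inp) (fun i => by have := length_start_le G inp i; omega)
  have h1 : ∀ w : List Bool, ∃ Rw : Finset Bit, Rw.card ≤ 2 * S.k + 2 ∧
      ∀ X', (∀ v ∈ Rw, v ∈ X ↔ v ∈ X') →
        (S.ow κ Z Y (mem X) w = true) = (S.ow κ Z Y (mem X') w = true) := by
    intro w
    exact cert_of_dtp (S.dtp_ow κ Z Y w) X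
  choose Rw hRw1 hRw2 using h1
  refine ⟨R.biUnion Rw, ?_, ?_⟩
  · calc (R.biUnion Rw).card ≤ ∑ w ∈ R, (Rw w).card := Finset.card_biUnion_le
      _ ≤ ∑ _w ∈ R, (2 * S.k + 2) := Finset.sum_le_sum fun w _ => hRw1 w
      _ = R.card * (2 * S.k + 2) := by rw [Finset.sum_const, smul_eq_mul]
      _ ≤ _ := Nat.mul_le_mul_right _ hR1
  · intro X' hX'
    symm
    apply hR3
    intro w hw
    rw [Bool.eq_iff_iff]
    exact (hRw2 w X' (fun v hv => hX' v (Finset.mem_biUnion.2 ⟨w, hw, hv⟩))).to_iff

theorem Qn.q_mono (q : Qn) {a b : ℕ} (h : a ≤ b) : q.q a ≤ q.q b := poly_mono _ h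

theorem Qn.t_mono (q : Qn) {a b : ℕ} (h : a ≤ b) : q.t a ≤ q.t b := by
  unfold Qn.t
  apply poly_mono
  have := Nat.mul_le_mul_left q.k (q.q_mono h)
  omega

theorem Qn.bnd_mono (q : Qn) {a b : ℕ} (h : a ≤ b) : q.bnd a ≤ q.bnd b := by
  unfold Qn.bnd
  have := q.t_mono h
  have := Nat.mul_le_mul_left q.k (q.q_mono h)
  omega

/-- The answer about the found string, as a formula with fixed blocks. -/
theorem SP.dtp_ff (S : SP) (κ : List Bool → Bool) (Z : Finset Bit) (Y : Bit → Bool)
    (G : Prog) (inp : List (List Bool)) (t : ℕ) (q : Qn) {ax : ℕ}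
    (hax : totalLength inp + t ≤ ax) :
    ∃ φ : List (List Bool) → (Bit → Bool) → Prop,
      (∀ us ∈ paths (List.replicate q.k (q.q ax)),
        DTP Set.univ ((t + q.t ax) * (2 * S.k + 2)) (φ us)) ∧
      S.ff κ Z Y G inp t q = fun X => AltL true (List.replicate q.k (q.q ax))
        (fun us => φ us (mem X)) := by
  let Φ : List (List Bool) → Cfg → Oracle → Prop := fun us c B =>
    AcceptsIn B q.1 (c.2 0 :: us.map (List.take (q.q (c.2 0).length))) (q.t (c.2 0).length)
  let ψ : List (List Bool) → Oracle → Prop := fun us B =>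
    Φ us ((step B)^[t] (start G inp)) B
  refine ⟨fun us b => ψ us (S.ow κ Z Y b), ?_, ?_⟩
  · intro us hus
    have h1 : DTP Set.univ (t + q.t ax) (ψ us) := by
      apply dtp_bind Set.univ ax (q.t ax) (fun _ _ => Set.mem_univ _) (Φ us) t (start G inp)
      · intro i
        have := length_start_le G inp i
        omega
      · intro c hc
        have h2 := dtp_acceptsIn q.1 (c.2 0 :: us.map (List.take (q.q (c.2 0).length)))
          (q.t (c.2 0).length) _ le_rfl
        exact (h2.mono_set (Set.subset_univ _)).mono (q.t_mono (hc 0))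
    exact h1.comp (fun b w => S.ow κ Z Y b w) (fun w _ => S.dtp_ow κ Z Y w)
  · funext X
    unfold SP.ff SP.xf
    set B := S.ow κ Z Y (mem X) with hB
    apply propext
    set x := (run B G inp t).2 0 with hx
    have hlen : x.length ≤ ax := by
      have h3 := length_iterate B t (start G inp) ax (fun i => by
        have := length_start_le G inp i
        omega) 0
      exact h3
    unfold Qn.ans
    rw [Alt_eq, ← AltL_take (q.q_mono hlen) q.k true]
    exact Iff.rfl

/-- The bits of one copy. -/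
noncomputable def SP.Ub (S : SP) : Finset Bit :=
  strings S.n ×ˢ ((nodes S.k (2 * S.μ) S.n).disjSum (nodes S.k (2 * S.μ) S.n))

/-- The influences of a bit on the string of the sampler and on the answer. -/
noncomputable def SP.Inf (S : SP) (π : ℝ) (κ : List Bool → Bool) (Z : Finset Bit)
    (Y : Bit → Bool) (G : Prog) (inp : List (List Bool)) (t : ℕ) (q : Qn) (v : Bit) : ℝ :=
  infl π S.Ub (S.xf κ Z Y G inp t) v + infl π S.Ub (S.ff κ Z Y G inp t q) v

theorem SP.Inf_nonneg (S : SP) {π : ℝ} (h0 : 0 ≤ π) (h1 : π ≤ 1) (κ : List Bool → Bool)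
    (Z : Finset Bit) (Y : Bit → Bool) (G : Prog) (inp : List (List Bool)) (t : ℕ) (q : Qn)
    (v : Bit) : 0 ≤ S.Inf π κ Z Y G inp t q v :=
  add_nonneg (infl_nonneg h0 h1 _ _ _) (infl_nonneg h0 h1 _ _ _)

/-- The bound for the sum of the influences. -/
theorem SP.sum_Inf (S : SP) {p : ℝ} (h0 : 0 < p) (h1 : p ≤ 1 / 2) {σ d B ax : ℕ}
    (hε : (2 : ℝ) ^ B * (4 * σ * (p / (1 - p))) ^ (σ + 1) * S.Ub.card ≤ 1)
    (κ : List Bool → Bool) (Z : Finset Bit) (Y : Bit → Bool) (G : Prog)
    (inp : List (List Bool)) (t : ℕ) (q : Qn) (hax : totalLength inp + t ≤ ax)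
    (hd : q.k ≤ d) (hB : q.k * q.q ax ≤ B) (hσ : (t + q.t ax) * (2 * S.k + 2) ≤ σ) :
    ∑ v ∈ S.Ub, S.Inf (bias p d) κ Z Y G inp t q v ≤ σ + (σ + d) * (1 / (p * p)) ^ d := by
  unfold SP.Inf
  rw [Finset.sum_add_distrib]
  have hb := bias_bounds h0.le h1 d
  have hb0 : 0 ≤ bias p d := by linarith
  have hb1 : bias p d ≤ 1 := by linarith
  apply add_le_add
  · refine (tot_le_of_cert hb0 hb1 S.Ub (S.cert_xf κ Z Y G inp t)).trans ?_
    exact_mod_cast (Nat.mul_le_mul_right _ (Nat.le_add_right t (q.t ax))).trans hσ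
  · obtain ⟨φ, hφ1, hφ2⟩ := S.dtp_ff κ Z Y G inp t q hax
    have := tot_altL h0 h1 S.Ub σ B hε d (List.replicate q.k (q.q ax)) true φ (by simpa using hd)
      (by simpa using hB) (fun us hus => (hφ1 us hus).mono hσ)
    rw [hφ2]
    exact this

/-- The error with fixed outer data. -/
theorem SP.inner_error (S : SP) {π : ℝ} (h0 : 0 ≤ π) (h1 : π ≤ 1) (κ : List Bool → Bool)
    (Z : Finset Bit) (Y : Bit → Bool) (G : Prog) (inp : List (List Bool)) (t : ℕ) (q : Qn)
    (Z2 : Finset Bit) :
    ex π S.Ub (fun X => ex π S.Ub (fun B => ind (¬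
      (q.ans (S.ow κ Z Y (mem (mix Z2 X B))) ((S.xf κ Z Y G inp t X).2 0) ↔
        q.ans (S.ow κ Z Y (mem X)) ((S.xf κ Z Y G inp t X).2 0))))) ≤
      ∑ v ∈ Z2, S.Inf π κ Z Y G inp t q v := by
  unfold SP.Inf
  rw [Finset.sum_add_distrib]
  refine le_trans ?_ (add_le_add (resample h0 h1 S.Ub Z2 (S.xf κ Z Y G inp t))
    (resample h0 h1 S.Ub Z2 (S.ff κ Z Y G inp t q)))
  rw [← ex_add]
  apply ex_mono h0 h1
  intro X _
  rw [← ex_add]
  apply ex_mono h0 h1
  intro B _
  by_cases h2 : S.xf κ Z Y G inp t X ≠ S.xf κ Z Y G inp t (mix Z2 X B)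
  · rw [ind_true h2]
    have := ind_le_one (¬
      (q.ans (S.ow κ Z Y (mem (mix Z2 X B))) ((S.xf κ Z Y G inp t X).2 0) ↔
        q.ans (S.ow κ Z Y (mem X)) ((S.xf κ Z Y G inp t X).2 0)))
    have := ind_nonneg (S.ff κ Z Y G inp t q X ≠ S.ff κ Z Y G inp t q (mix Z2 X B))
    linarith
  · push Not at h2
    have h3 : (¬ (q.ans (S.ow κ Z Y (mem (mix Z2 X B))) ((S.xf κ Z Y G inp t X).2 0) ↔
        q.ans (S.ow κ Z Y (mem X)) ((S.xf κ Z Y G inp t X).2 0))) →
        S.ff κ Z Y G inp t q X ≠ S.ff κ Z Y G inp t q (mix Z2 X B) := by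
      intro h4 h5
      apply h4
      unfold SP.ff at h5
      rw [← h2] at h5
      rw [h5]
    have := ind_mono h3
    have := ind_nonneg (S.xf κ Z Y G inp t X ≠ S.xf κ Z Y G inp t (mix Z2 X B))
    linarith

end Pool.Agent.H9
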