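import Mathlib
import Pool.Agent.H9.AvgErr

/-!
The average error of the heuristics in one stage: the average over the hidden root.
-/

set_option autoImplicit false

namespace Pool.Agent.H9

open Classical

theorem run_congr {A B : Oracle} {G : Prog} {inp : List (List Bool)} {t Λ : ℕ}
    (h : ∀ w : List Bool, w.length ≤ Λ → A w = B w) (hΛ : totalLength inp + t ≤ Λ) :
    run B G inp t = run A G inp t := by
  obtain ⟨R, _, hR2, hR3⟩ := cert_iterate Λ A t (start G inp) (fun i => by
    have := length_start_le G inp i; omega)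
  exact hR3 B (fun w hw => h w (hR2 w hw))

theorem length_run (A : Oracle) (G : Prog) (inp : List (List Bool)) (t : ℕ) (i : ℕ) :
    ((run A G inp t).2 i).length ≤ totalLength inp + t :=
  length_iterate A t (start G inp) _ (fun i => by
    have := length_start_le G inp i; omega) i

theorem mem_mix_at {α : Type*} (Z X X' : Finset α) (v : α) :
    mem (mix Z X X') v = inner Z (mem X) (mem X') v := congrFun (mem_mix_apply Z X X') v

theorem card_prefix {n l : ℕ} (a : List Bool) :
    (sub (strings n) (fun y => a = y.take l)).card ≤ 2 ^ (n - l) := by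
  have h : sub (strings n) (fun y => a = y.take l) ⊆ (strings (n - l)).image (fun z => a ++ z) := by
    intro y hy
    rw [mem_sub, mem_strings] at hy
    rw [Finset.mem_image]
    refine ⟨y.drop l, by rw [mem_strings, List.length_drop, hy.1], ?_⟩
    rw [hy.2, List.take_append_drop]
  calc _ ≤ ((strings (n - l)).image (fun z => a ++ z)).card := Finset.card_le_card h
    _ ≤ (strings (n - l)).card := Finset.card_image_le
    _ = _ := card_strings _

theorem sum_cyl {β : Type*} {n l l' : ℕ} (hl : l ≤ n) (hl' : l' ≤ l) (U : Finset (List Bool × β))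
    (hU : ∀ v ∈ U, v.1.length = n) (I : List Bool → (List Bool × β) → ℝ)
    (hI : ∀ a v, 0 ≤ I a v) (C : ℝ) (hC : ∀ a, ∑ v ∈ U, I a v ≤ C) :
    ∑ y ∈ strings n, ∑ v ∈ sub U (fun v => v.1.take l = y.take l), I (y.take l') v ≤
      2 ^ (n - l) * (2 ^ l' * C) := by
  have h1 : ∀ y : List Bool, ∑ v ∈ sub U (fun v => v.1.take l = y.take l), I (y.take l') v =
      ∑ v ∈ U, if v.1.take l = y.take l then I (v.1.take l') v else 0 := by
    intro y
    unfold sub
    rw [Finset.sum_filter]
    apply Finset.sum_congr rfl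
    intro v _
    by_cases h : v.1.take l = y.take l
    · rw [if_pos h, if_pos h]
      have h2 : ∀ z : List Bool, z.take l' = (z.take l).take l' := by
        intro z
        rw [List.take_take, Nat.min_eq_left hl']
      rw [h2 y, h2 v.1, h]
    · rw [if_neg h, if_neg h]
  calc ∑ y ∈ strings n, ∑ v ∈ sub U (fun v => v.1.take l = y.take l), I (y.take l') v
      = ∑ y ∈ strings n, ∑ v ∈ U, if v.1.take l = y.take l then I (v.1.take l') v else 0 :=
        Finset.sum_congr rfl fun y _ => h1 y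
    _ = ∑ v ∈ U, ∑ y ∈ strings n, if v.1.take l = y.take l then I (v.1.take l') v else 0 :=
        Finset.sum_comm
    _ ≤ ∑ v ∈ U, 2 ^ (n - l) * I (v.1.take l') v := by
        apply Finset.sum_le_sum
        intro v _
        rw [← Finset.sum_filter, Finset.sum_const, nsmul_eq_mul]
        apply mul_le_mul_of_nonneg_right _ (hI _ _)
        have h3 := (Finset.card_le_card (show {y ∈ strings n | v.1.take l = y.take l} ⊆
          sub (strings n) (fun y => v.1.take l = y.take l) from fun y hy =>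
            mem_sub.2 (Finset.mem_filter.1 hy))).trans (card_prefix (n := n) (v.1.take l))
        exact_mod_cast h3
    _ = 2 ^ (n - l) * ∑ v ∈ U, I (v.1.take l') v := by rw [Finset.mul_sum]
    _ ≤ 2 ^ (n - l) * ∑ v ∈ U, ∑ a ∈ strings l', I a v := by
        apply mul_le_mul_of_nonneg_left _ (by positivity)
        apply Finset.sum_le_sum
        intro v hv
        apply Finset.single_le_sum (f := fun a => I a v) (fun a _ => hI a v)
        rw [mem_strings, List.length_take, hU v hv]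
        omega
    _ = 2 ^ (n - l) * ∑ a ∈ strings l', ∑ v ∈ U, I a v := by rw [Finset.sum_comm]
    _ ≤ 2 ^ (n - l) * ∑ _a ∈ strings l', C := by
        apply mul_le_mul_of_nonneg_left _ (by positivity)
        exact Finset.sum_le_sum fun a _ => hC a
    _ = 2 ^ (n - l) * (2 ^ l' * C) := by
        rw [Finset.sum_const, nsmul_eq_mul, card_strings]
        push_cast
        rfl

/-- All bits. -/
noncomputable def SP.UU (S : SP) : Finset Idx := Finset.range (S.J + 1) ×ˢ S.Ub

/-- The bits of the cylinder. -/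
noncomputable def SP.Zc (S : SP) (j : ℕ) (a : List Bool) : Finset Bit :=
  sub S.Ub (fun v => S.Cyl j a v.1)

/-- The event that the world number `N` gives the wrong answer about the string found by `G`. -/
def SP.Err (S : SP) (g : ℕ → Qn) (q : Qn) (G : Prog) (inp : List (List Bool)) (t N : ℕ)
    (y0 : List Bool) (b : Idx → Bool) : Prop :=
  ¬ (q.ans (mask (S.tab y0 b) N (world g (S.tab y0 b)))
      ((run (world g (S.tab y0 b)) G inp t).2 0) ↔
    q.ans (world g (S.tab y0 b)) ((run (world g (S.tab y0 b)) G inp t).2 0))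

/-- The solver bits below the threshold `j`. -/
noncomputable def SP.kap (S : SP) (g : ℕ → Qn) (a : List Bool) (X : Finset Idx)
    (Y : Finset Bit) : List Bool → Bool := fun w =>
  world g (S.tab a (fun z => if z.1 = 0 then mem Y z.2 else mem X z)) (true :: w)

/-- The bits with fresh copies `0` and `j`. -/
noncomputable def SP.bb (S : SP) (j : ℕ) (y0 : List Bool) (X : Finset Idx) (Y X' B : Finset Bit) :
    Idx → Bool := fresh 0 j (S.Zc (j - 1) y0) X Y X' B

theorem SP.kap_eq (S : SP) (g : ℕ → Qn) {j : ℕ} (hj1 : 1 ≤ j) (hjJ : j ≤ S.J) (y0 : List Bool)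
    (X : Finset Idx) (Y X' B : Finset Bit) {w : List Bool} (hw : w.length < S.thr j) :
    world g (S.tab y0 (S.bb j y0 X Y X' B)) (true :: w) =
      S.kap g (y0.take ((j - 1) * S.mb)) X Y w := by
  unfold SP.kap
  refine world_true_congr (M := S.thr j) ?_ w.length w le_rfl hw
  obtain ⟨j, rfl⟩ : ∃ i, j = i + 1 := ⟨j - 1, by omega⟩
  simp only [Nat.add_sub_cancel]
  apply S.tab_agree (j := j) (by omega)
  · unfold SP.Cyl
    rw [List.take_take, Nat.min_self]
  · intro i hi1 hi2 y z
    unfold SP.bb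
    rw [fresh_else (show i ≠ 0 by omega) (show i ≠ j + 1 by omega)]
    simp only [if_neg (show i ≠ 0 by omega)]
  · intro y hy z
    unfold SP.bb
    simp only [if_true, Nat.add_sub_cancel]
    have h1 : (y, z) ∉ S.Zc j y0 := fun h => hy (mem_sub.1 h).2
    rw [fresh_one, mem_mix_at, inner_neg h1]

theorem SP.cv_eq (S : SP) {j : ℕ} (y0 : List Bool) (X : Finset Idx) (Y X' B : Finset Bit)
    (v : Node) : S.cv (S.bb j y0 X Y X' B) 0 v =
      S.cw (inner (S.Zc (j - 1) y0) (mem Y) (mem X')) v := by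
  unfold SP.cv SP.cw
  match v with
  | [] => rfl
  | y :: us =>
    apply cval_congr
    intro z
    unfold SP.bb
    rw [fresh_one, mem_mix_at]

theorem SP.cvN_eq (S : SP) {j N : ℕ} (hj1 : 1 ≤ j) (hjJ : j ≤ S.J) (hN : S.lvl N = j)
    (y0 : List Bool) (X : Finset Idx) (Y X' B : Finset Bit) (hY : Y ⊆ S.Ub) (hB : B ⊆ S.Ub)
    (v : Node) : S.cvN y0 (S.bb j y0 X Y X' B) N v =
      S.cw (inner (S.Zc (j - 1) y0) (mem Y) (mem (mix (S.Zc j y0) X' B))) v := by
  unfold SP.cvN SP.cv SP.cw
  match v with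
  | [] => rfl
  | y :: us =>
    apply cval_congr
    intro z
    simp only [List.headD_cons]
    unfold SP.copyOf
    rw [hN]
    have hnot : (y, z) ∉ S.Ub → mem Y (y, z) = false ∧ mem B (y, z) = false := by
      intro h
      constructor
      · rw [Bool.eq_false_iff]
        exact fun h' => h (hY (mem_apply.1 h'))
      · rw [Bool.eq_false_iff]
        exact fun h' => h (hB (mem_apply.1 h'))
    by_cases h : S.Cyl j y0 y
    · rw [if_pos ⟨hj1, hjJ, h⟩]
      unfold SP.bb
      rw [fresh_two (show j ≠ 0 by omega)]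
      by_cases hU : (y, z) ∈ S.Ub
      · have h1 : (y, z) ∈ S.Zc (j - 1) y0 := mem_sub.2 ⟨hU, S.cyl_mono (by omega) h⟩
        have h2 : (y, z) ∈ S.Zc j y0 := mem_sub.2 ⟨hU, h⟩
        rw [inner_pos h1, mem_mix_at, inner_pos h2]
      · have h1 : (y, z) ∉ S.Zc (j - 1) y0 := fun h => hU (mem_sub.1 h).1
        rw [inner_neg h1, (hnot hU).1, (hnot hU).2]
    · rw [if_neg (fun h' => h h'.2.2)]
      unfold SP.bb
      rw [fresh_one, mem_mix_at]
      have h2 : (y, z) ∉ S.Zc j y0 := fun h' => h (mem_sub.1 h').2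
      by_cases h1 : (y, z) ∈ S.Zc (j - 1) y0
      · rw [inner_pos h1, inner_pos h1, mem_mix_at, inner_neg h2]
      · rw [inner_neg h1, inner_neg h1]

/-- The error event in terms of fresh copies. -/
theorem SP.err_eq (S : SP) (g : ℕ → Qn) {j N : ℕ} (hj1 : 1 ≤ j) (hjJ : j ≤ S.J)
    (hN : S.lvl N = j) (hD0 : ∀ v : List Bool, v.length < S.n0 → (S.D0 v).2 N = (S.D0 v).1)
    (q : Qn) (G : Prog) (inp : List (List Bool)) (t : ℕ) {ax : ℕ}
    (hax : totalLength inp + t ≤ ax) (hq : q.bnd ax ≤ S.thr j)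
    (y0 : List Bool) (X : Finset Idx) (Y X' B : Finset Bit) (hY : Y ⊆ S.Ub)
    (hB : B ⊆ S.Ub) :
    S.Err g q G inp t N y0 (S.bb j y0 X Y X' B) ↔
      ¬ (q.ans (S.ow (S.kap g (y0.take ((j - 1) * S.mb)) X Y) (S.Zc (j - 1) y0) (mem Y)
          (mem (mix (S.Zc j y0) X' B)))
          ((S.xf (S.kap g (y0.take ((j - 1) * S.mb)) X Y) (S.Zc (j - 1) y0) (mem Y) G inp t X').2 0)
        ↔ q.ans (S.ow (S.kap g (y0.take ((j - 1) * S.mb)) X Y) (S.Zc (j - 1) y0) (mem Y)
          (mem X'))
          ((S.xf (S.kap g (y0.take ((j - 1) * S.mb)) X Y) (S.Zc (j - 1) y0) (mem Y) G inp t X').2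
            0)) := by
  set b := S.bb j y0 X Y X' B with hb
  set κ := S.kap g (y0.take ((j - 1) * S.mb)) X Y with hκ
  have hsolv : ∀ w : List Bool, w.length < S.thr j →
      world g (S.tab y0 b) (true :: w) = κ w := fun w hw => S.kap_eq g hj1 hjJ y0 X Y X' B hw
  have hreal : ∀ w : List Bool, w.length ≤ S.thr j →
      S.ow κ (S.Zc (j - 1) y0) (mem Y) (mem X') w = world g (S.tab y0 b) w := by
    intro w hw
    symm
    rw [S.world_orc g y0 b]
    exact S.orc_congr hsolv (fun v _ => S.cv_eq y0 X Y X' B v) w hw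
  have hdec : ∀ w : List Bool, w.length ≤ S.thr j →
      S.ow κ (S.Zc (j - 1) y0) (mem Y) (mem (mix (S.Zc j y0) X' B)) w =
        mask (S.tab y0 b) N (world g (S.tab y0 b)) w := by
    intro w hw
    symm
    rw [S.mask_orc g y0 b hD0]
    exact S.orc_congr hsolv (fun v _ => S.cvN_eq hj1 hjJ hN y0 X Y X' B hY hB v) w hw
  have hax2 : ax ≤ q.bnd ax := by unfold Qn.bnd; omega
  have hrun : run (world g (S.tab y0 b)) G inp t =
      S.xf κ (S.Zc (j - 1) y0) (mem Y) G inp t X' :=
    run_congr hreal (hax.trans (hax2.trans hq))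
  unfold SP.Err
  rw [hrun]
  set x := (S.xf κ (S.Zc (j - 1) y0) (mem Y) G inp t X').2 0 with hx
  have hlen : x.length ≤ ax := (length_run _ G inp t 0).trans hax
  have hbx : q.bnd x.length ≤ S.thr j := (q.bnd_mono hlen).trans hq
  have h1 : q.ans (world g (S.tab y0 b)) x ↔
      q.ans (S.ow κ (S.Zc (j - 1) y0) (mem Y) (mem X')) x :=
    q.ans_congr (fun v hv => (hreal v (hv.trans hbx)).symm)
  have h2 : q.ans (mask (S.tab y0 b) N (world g (S.tab y0 b))) x ↔
      q.ans (S.ow κ (S.Zc (j - 1) y0) (mem Y) (mem (mix (S.Zc j y0) X' B))) x :=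
    q.ans_congr (fun v hv => (hdec v (hv.trans hbx)).symm)
  rw [h1, h2]

theorem SP.Zc_take (S : SP) (j : ℕ) (y0 : List Bool) :
    S.Zc j (y0.take (j * S.mb)) = S.Zc j y0 := by
  unfold SP.Zc SP.Cyl
  rw [List.take_take, Nat.min_self]

/-- **The error at one level, averaged over the hidden root.** -/
theorem SP.level_error (S : SP) (g : ℕ → Qn) {p : ℝ} (h0 : 0 < p) (h1 : p ≤ 1 / 2)
    {σ d Bd ax j N : ℕ}
    (hε : (2 : ℝ) ^ Bd * (4 * σ * (p / (1 - p))) ^ (σ + 1) * S.Ub.card ≤ 1)
    (hj1 : 1 ≤ j) (hjJ : j ≤ S.J) (hn : S.J * S.mb ≤ S.n)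
    (hN : S.lvl N = j) (hD0 : ∀ v : List Bool, v.length < S.n0 → (S.D0 v).2 N = (S.D0 v).1)
    (q : Qn) (G : Prog) (inp : List (List Bool)) (t : ℕ)
    (hax : totalLength inp + t ≤ ax) (hq : q.bnd ax ≤ S.thr j)
    (hd : q.k ≤ d) (hB : q.k * q.q ax ≤ Bd) (hσ : (t + q.t ax) * (2 * S.k + 2) ≤ σ) :
    ∑ y0 ∈ strings S.n, ex (bias p d) S.UU (fun X => ind (S.Err g q G inp t N y0 (mem X))) ≤
      2 ^ (S.n - S.mb) * (σ + (σ + d) * (1 / (p * p)) ^ d) := by
  set π := bias p d with hπ
  have hb := bias_bounds h0.le h1 d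
  have hb0 : 0 ≤ π := by linarith
  have hb1 : π ≤ 1 := by linarith
  have hjmb : j * S.mb ≤ S.n := (Nat.mul_le_mul_right _ hjJ).trans hn
  -- the function of influences
  let I : Finset Idx → Finset Bit → List Bool → Bit → ℝ := fun X Y a v =>
    S.Inf π (S.kap g a X Y) (S.Zc (j - 1) a) (mem Y) G inp t q v
  have hpt : ∀ y0 ∈ strings S.n,
      ex π S.UU (fun X => ind (S.Err g q G inp t N y0 (mem X))) ≤
      ex π S.UU (fun X => ex π S.Ub (fun Y => ∑ v ∈ S.Zc j y0,
        I X Y (y0.take ((j - 1) * S.mb)) v)) := by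
    intro y0 _
    have e2 : ex π S.UU (fun X => ind (S.Err g q G inp t N y0 (mem X))) =
        ex π S.UU (fun X => ex π S.Ub (fun Y => ex π S.Ub (fun X' => ex π S.Ub (fun B =>
          ind (S.Err g q G inp t N y0 (S.bb j y0 X Y X' B)))))) :=
      ex_fresh π (Finset.range (S.J + 1)) S.Ub (i := 0) (j := j)
      (Finset.mem_range.2 (by omega)) (Finset.mem_range.2 (by omega)) (S.Zc (j - 1) y0)
      (fun b => ind (S.Err g q G inp t N y0 b))
    rw [e2]
    apply ex_mono hb0 hb1
    intro X _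
    apply ex_mono hb0 hb1
    intro Y hY
    have e3 := S.inner_error hb0 hb1 (S.kap g (y0.take ((j - 1) * S.mb)) X Y)
      (S.Zc (j - 1) y0) (mem Y) G inp t q (S.Zc j y0)
    have e4 : ∑ v ∈ S.Zc j y0, I X Y (y0.take ((j - 1) * S.mb)) v =
        ∑ v ∈ S.Zc j y0, S.Inf π (S.kap g (y0.take ((j - 1) * S.mb)) X Y)
          (S.Zc (j - 1) y0) (mem Y) G inp t q v := by
      apply Finset.sum_congr rfl
      intro v _
      show S.Inf π _ (S.Zc (j - 1) (y0.take ((j - 1) * S.mb))) (mem Y) G inp t q v = _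
      rw [S.Zc_take]
    rw [e4]
    refine le_trans (le_of_eq ?_) e3
    apply ex_congr
    intro X' _
    apply ex_congr
    intro B hB
    exact ind_congr (S.err_eq g hj1 hjJ hN hD0 q G inp t hax hq y0 X Y X' B hY hB)
  have hsum : ∀ X Y, ∑ y0 ∈ strings S.n, ∑ v ∈ S.Zc j y0, I X Y (y0.take ((j - 1) * S.mb)) v ≤
      2 ^ (S.n - S.mb) * (σ + (σ + d) * (1 / (p * p)) ^ d) := by
    intro X Y
    have e5 := sum_cyl (l := j * S.mb) (l' := (j - 1) * S.mb) hjmb
      (Nat.mul_le_mul_right _ (by omega)) S.Ub (fun v hv => by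
        have := (Finset.mem_product.1 hv).1
        exact mem_strings.1 this) (I X Y) (fun a v => S.Inf_nonneg hb0 hb1 _ _ _ _ _ _ _ _)
      (σ + (σ + d) * (1 / (p * p)) ^ d) (fun a => S.sum_Inf h0 h1 hε _ _ _ G inp t q hax hd hB hσ)
    refine e5.trans (le_of_eq ?_)
    rw [← mul_assoc, ← pow_add]
    congr 2
    obtain ⟨i, rfl⟩ : ∃ i, j = i + 1 := ⟨j - 1, by omega⟩
    rw [Nat.add_sub_cancel]
    rw [Nat.succ_mul] at hjmb ⊢
    omega
  calc _ ≤ ∑ y0 ∈ strings S.n, ex π S.UU (fun X => ex π S.Ub (fun Y => ∑ v ∈ S.Zc j y0,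
        I X Y (y0.take ((j - 1) * S.mb)) v)) := Finset.sum_le_sum hpt
    _ = ex π S.UU (fun X => ex π S.Ub (fun Y => ∑ y0 ∈ strings S.n, ∑ v ∈ S.Zc j y0,
        I X Y (y0.take ((j - 1) * S.mb)) v)) := by
        rw [← ex_sum]
        apply ex_congr
        intro X _
        rw [← ex_sum]
    _ ≤ _ := by
        apply ex_le_const hb0 hb1
        intro X _
        apply ex_le_const hb0 hb1
        intro Y _
        exact hsum X Y

end Pool.Agent.H9
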