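import Mathlib
import Pool.Agent.H9.AvgErr2

/-!
The machine makes an error at the hidden root.
-/

set_option autoImplicit false

namespace Pool.Agent.H9

open Classical

/-- The bits with the tree of the root `y0` replaced by `Z`. -/
noncomputable def treeB {ι β γ : Type*} (i : ι) (y : β) (X : Finset (ι × β × γ)) (Z : Finset γ) :
    ι × β × γ → Bool := fun z =>
  if z.1 = i ∧ z.2.1 = y then mem Z z.2.2 else mem X z

theorem treeB_pos {ι β γ : Type*} {i : ι} {y : β} {X : Finset (ι × β × γ)} {Z : Finset γ} (v : γ) :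
    treeB i y X Z (i, y, v) = mem Z v := if_pos ⟨rfl, rfl⟩

theorem treeB_neg {ι β γ : Type*} {i : ι} {y : β} {X : Finset (ι × β × γ)} {Z : Finset γ}
    {z : ι × β × γ} (h : ¬ (z.1 = i ∧ z.2.1 = y)) : treeB i y X Z z = mem X z := if_neg h

theorem ex_treeB {ι β γ : Type*} (p : ℝ) (I : Finset ι) (V : Finset β) (T : Finset γ) {i : ι}
    {y : β} (hi : i ∈ I) (hy : y ∈ V) (f : (ι × β × γ → Bool) → ℝ) :
    ex p (I ×ˢ (V ×ˢ T)) (fun X => f (mem X)) =
      ex p (I ×ˢ (V ×ˢ T)) (fun X => ex p T (fun Z => f (treeB i y X Z))) := by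
  refine (ex_embed p (I ×ˢ (V ×ˢ T)) T (fun t => (i, y, t)) (fun z => z.1 = i ∧ z.2.1 = y)
    (fun z => z.2.2) (fun _ => ⟨rfl, rfl⟩) (fun _ => rfl)
    (fun z hz => by obtain ⟨a, b, c⟩ := z; simp only at hz; rw [hz.1, hz.2])
    (fun t => by
      rw [Finset.mem_product, Finset.mem_product]
      exact ⟨fun h => ⟨hi, hy, h⟩, fun h => h.2.2⟩) f).trans ?_
  apply ex_congr
  intro X _
  apply ex_congr
  intro Z _
  congr 1
  funext z
  unfold treeB
  split_ifs <;> rfl

/-- The contents of the leaves, with the tree of the root `y0` given by `t`. -/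
noncomputable def SP.cx (S : SP) (y0 : List Bool) (X : Finset Idx) (t : Node → Bool) :
    Node → Bool
  | y :: u :: us => if y = y0 then
      (if u.drop (2 * S.μ) = List.replicate (u.length - 2 * S.μ) false then
        t (u.take (2 * S.μ) :: us) else false) else S.cv (mem X) 0 (y :: u :: us)
  | _ => false

theorem SP.cx_eq (S : SP) (y0 : List Bool) (X : Finset Idx) (Z : Finset (Node ⊕ Node))
    (v : Node) : S.cv (treeB 0 y0 X Z) 0 v = S.cx y0 X (cont S.k Z) v := by
  match v with
  | [] => rfl
  | [_] => rfl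
  | y :: u :: us =>
    unfold SP.cv
    simp only [SP.cx]
    by_cases h : y = y0
    · subst h
      rw [if_pos rfl]
      simp only [cval]
      have : (fun z => treeB 0 y X Z (0, y, z)) = mem Z := by
        funext z
        rw [treeB_pos]
      rw [this]
      by_cases h2 : u.drop (2 * S.μ) = List.replicate (u.length - 2 * S.μ) false
      · rw [if_pos h2, if_pos h2, cont_eq]
      · rw [if_neg h2, if_neg h2]
    · rw [if_neg h]
      apply cval_congr
      intro z
      rw [treeB_neg (fun h' => h h'.2)]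

/-- **The machine errs at the hidden root** with noticeable probability. -/
theorem SP.machine_error (S : SP) (g : ℕ → Qn) {π : ℝ} {T B q t : ℕ} (e : Bool) (p : Prog)
    (hμ : 1 ≤ S.μ) (hπ0 : (1 / 2 : ℝ) ^ (S.μ + 1) ≤ π) (hπ1 : π ≤ (1 / 2 : ℝ) ^ S.μ)
    (hT : B + S.k + 5 ≤ T) (hTμ : 4 * T * (2 * T + 5) ≤ 2 ^ S.μ) (hn : 3 * S.μ + 2 ≤ S.n)
    (hnμ : 2 * S.μ + S.k * S.n + S.k + 5 ≤ 2 ^ S.μ) (hn0 : S.n0 ≤ (S.k + 2) * S.n)
    (hB : S.k * q ≤ B) (ht : t ≤ T) (hthr : S.n + S.k * q + t ≤ S.thr (S.J + 1))
    {y0 : List Bool} (hy0 : y0.length = S.n) :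
    π / 16 ≤ ex π S.UU (fun X => ind (¬ (Alt e S.k q (fun us =>
        AcceptsIn (world g (S.tab y0 (mem X))) p (y0 :: us) t) ↔
      y0 ∈ Lang3 (world g (S.tab y0 (mem X))) S.k))) := by
  have hpos : (0 : ℝ) < (1 / 2 : ℝ) ^ (S.μ + 1) := by positivity
  have hb0 : 0 ≤ π := by linarith
  have hb1 : π ≤ 1 := hπ1.trans (pow_le_one₀ (by norm_num) (by norm_num))
  have e1 : ex π S.UU (fun X => ind (¬ (Alt e S.k q (fun us =>
        AcceptsIn (world g (S.tab y0 (mem X))) p (y0 :: us) t) ↔
      y0 ∈ Lang3 (world g (S.tab y0 (mem X))) S.k))) =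
      ex π S.UU (fun X => ex π ((nodes S.k (2 * S.μ) S.n).disjSum (nodes S.k (2 * S.μ) S.n))
        (fun Z => ind (¬ (Alt e S.k q (fun us =>
        AcceptsIn (world g (S.tab y0 (treeB 0 y0 X Z))) p (y0 :: us) t) ↔
      y0 ∈ Lang3 (world g (S.tab y0 (treeB 0 y0 X Z))) S.k)))) :=
    ex_treeB π (Finset.range (S.J + 1)) (strings S.n) _ (i := 0) (y := y0)
      (Finset.mem_range.2 (by omega)) (mem_strings.2 hy0)
      (fun b => ind (¬ (Alt e S.k q (fun us =>
        AcceptsIn (world g (S.tab y0 b)) p (y0 :: us) t) ↔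
      y0 ∈ Lang3 (world g (S.tab y0 b)) S.k)))
  rw [e1]
  apply const_le_ex hb0 hb1
  intro X _
  -- the solver bits
  set κ : List Bool → Bool := fun w => world g (S.tab y0 (treeB 0 y0 X ∅)) (true :: w) with hκ
  have hsolv : ∀ Z : Finset (Node ⊕ Node), ∀ w : List Bool, w.length < S.thr (S.J + 1) →
      world g (S.tab y0 (treeB 0 y0 X Z)) (true :: w) = κ w := by
    intro Z w hw
    refine world_true_congr (M := S.thr (S.J + 1)) ?_ w.length w le_rfl hw
    apply S.tab_agree le_rfl (show S.Cyl S.J y0 y0 from rfl)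
    · intro i hi1 hi2 y z
      rw [treeB_neg (fun h => by have := h.1; simp only at this; omega),
        treeB_neg (fun h => by have := h.1; simp only at this; omega)]
    · intro y hy z
      have h1 : ¬ (((0, y, z) : Idx).1 = 0 ∧ ((0, y, z) : Idx).2.1 = y0) := by
        intro h
        apply hy
        have := h.2
        simp only at this
        rw [this]
        exact rfl
      rw [treeB_neg h1, treeB_neg h1]
  have hreal : ∀ Z : Finset (Node ⊕ Node), ∀ w : List Bool, w.length ≤ S.thr (S.J + 1) →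
      world g (S.tab y0 (treeB 0 y0 X Z)) w = S.orc κ (S.cx y0 X (cont S.k Z)) w := by
    intro Z w hw
    rw [S.world_orc g y0 (treeB 0 y0 X Z)]
    exact S.orc_congr (hsolv Z) (fun v _ => S.cx_eq y0 X Z v) w hw
  -- the formula of the machine
  let D : List (List Bool) → (Node → Bool) → Prop := fun ws c =>
    AcceptsIn (S.orc κ (S.cx y0 X c)) p (y0 :: ws) t
  have hD : ∀ ws ∈ paths (List.replicate S.k q), DTP (Qlev S.k) T (D ws) := by
    intro ws hws
    have h1 := dtp_acceptsIn p (y0 :: ws) t _ le_rfl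
    have h2 := h1.comp (R := Qlev S.k) (m := 1) (fun c w => S.orc κ (S.cx y0 X c) w) (by
      intro w _
      apply S.dtp_orc κ (fun c => S.cx y0 X c)
      intro v hv
      obtain ⟨y, u, us, rfl, _, _, hus⟩ := headD_of_paths hv
      simp only [SP.cx]
      by_cases h : y = y0
      · by_cases h3 : u.drop (2 * S.μ) = List.replicate (u.length - 2 * S.μ) false
        · refine (DTP.var (u.take (2 * S.μ) :: us) ?_).congr (fun c => ?_)
          · show (u.take (2 * S.μ) :: us).length = S.k + 1
            have h4 := congrArg List.length (mem_paths.1 hus)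
            simp only [List.length_map, List.length_replicate] at h4
            simp [h4]
          · rw [if_pos h, if_pos h3]
        · refine (DTP.const 1 (false = true)).congr (fun c => ?_)
          rw [if_pos h, if_neg h3]
      · refine (DTP.const 1 (S.cv (mem X) 0 (y :: u :: us) = true)).congr (fun c => ?_)
        rw [if_neg h])
    rw [mul_one] at h2
    exact h2.mono ht
  have hhard := avg_hard hμ hπ0 hπ1 hT hTμ hn hnμ e (List.replicate S.k q) D (by simp)
    (by simpa using hB) hD
  refine hhard.trans ?_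
  apply ex_mono hb0 hb1
  intro Z _
  apply ind_mono
  intro h1 h2
  apply h1
  have h3 : Alt e S.k q (fun us => AcceptsIn (world g (S.tab y0 (treeB 0 y0 X Z))) p
      (y0 :: us) t) ↔ AltL e (List.replicate S.k q) (fun ws => D ws (cont S.k Z)) := by
    rw [Alt_eq]
    apply AltL_congr
    intro us hus
    have h4 : totalLength (y0 :: us) + t ≤ S.thr (S.J + 1) := by
      rw [totalLength_cons_path hus, hy0]
      exact hthr
    unfold AcceptsIn
    have h5 : run (world g (S.tab y0 (treeB 0 y0 X Z))) p (y0 :: us) t =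
        run (S.orc κ (S.cx y0 X (cont S.k Z))) p (y0 :: us) t :=
      run_congr (fun w hw => (hreal Z w hw).symm) h4
    rw [h5]
    exact Iff.rfl
  have h6 : y0 ∈ Lang3 (world g (S.tab y0 (treeB 0 y0 X Z))) S.k ↔
      AltL true (2 * S.μ :: List.replicate S.k S.n) (fun us => cont S.k Z us = true) := by
    have h7 : y0 ∈ Lang3 (world g (S.tab y0 (treeB 0 y0 X Z))) S.k ↔
        Alt true (S.k + 1) y0.length (fun us =>
          world g (S.tab y0 (treeB 0 y0 X Z)) (false :: (y0 :: us).flatten.reverse) = true) :=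
      Iff.rfl
    rw [h7, Alt_eq, hy0]
    have h8 : AltL true (List.replicate (S.k + 1) S.n) (fun us =>
        world g (S.tab y0 (treeB 0 y0 X Z)) (false :: (y0 :: us).flatten.reverse) = true) ↔
        AltL true (List.replicate (S.k + 1) S.n) (fun us =>
          cval S.k (2 * S.μ) (treeB 0 y0 X Z) 0 (y0 :: us) = true) := by
      apply AltL_congr
      intro us hus
      have hpath : y0 :: us ∈ paths S.Lv := by
        unfold SP.Lv
        rw [mem_paths, List.replicate_succ, List.map_cons, hy0, hus]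
      have hlen : ((y0 :: us).flatten.reverse).length = (S.k + 2) * S.n := by
        rw [List.length_reverse, length_flatten_of_paths hpath]
        unfold SP.Lv
        simp
      rw [world_false]
      unfold SP.tab
      rw [if_neg (by rw [hlen]; omega), if_pos hlen]
      simp only
      rw [data_apply _ hpath]
      exact Iff.rfl
    rw [h8, altL_cval (by omega) (treeB 0 y0 X Z) 0 y0]
    apply AltL_congr
    intro us _
    have : (fun z => treeB 0 y0 X Z (0, y0, z)) = mem Z := by
      funext z
      rw [treeB_pos]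
    rw [this, cont_eq]
  rw [← h3, ← h6]
  exact h2

end Pool.Agent.H9
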