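import Mathlib
import Pool.Agent.H9.AvgMach

/-!
One stage of the construction: the machine errs, the heuristics rarely err.
-/

set_option autoImplicit false

namespace Pool.Agent.H9

open Classical

/-- A heuristic: number of the question type, sampler, number of random bits, running time of the
sampler, exponent. -/
abbrev Hr := ℕ × Prog × Polynomial ℕ × Polynomial ℕ × ℕ

/-- Number of random bits. -/
def Hr.m (h : Hr) (n : ℕ) : ℕ := h.2.2.1.eval n

/-- Running time of the sampler. -/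
def Hr.a (h : Hr) (n : ℕ) : ℕ := h.2.2.2.1.eval (n + h.m n)

/-- Number of the world that is asked. -/
def Hr.N (h : Hr) (n : ℕ) : ℕ := (n + 2) ^ 2 ^ h.2.2.2.2

/-- Bound for the lengths in the computation of the sampler. -/
def Hr.ax (h : Hr) (n : ℕ) : ℕ := n + h.m n + h.a n

/-- The input of the sampler. -/
def inp (n : ℕ) (r : List Bool) : List (List Bool) := [List.replicate n true, r]

/-- The string produced by the sampler. -/
def Hr.str (h : Hr) (A : Oracle) (n : ℕ) (r : List Bool) : List Bool :=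
  (run A h.2.1 (inp n r) (h.a n)).2 0

/-- The solver bit is wrong. -/
def Hr.wrong (g : ℕ → Qn) (h : Hr) (A : Oracle) (n : ℕ) (r : List Bool) : Prop :=
  ¬ (A (true :: code h.1 (h.str A n r) (h.N n)) = true ↔ (g h.1).ans A (h.str A n r))

/-- The random strings for which the solver bit is wrong. -/
noncomputable def Hr.bad (g : ℕ → Qn) (h : Hr) (A : Oracle) (n : ℕ) : Finset (List Bool) :=
  sub (strings (h.m n)) (fun r => h.wrong g A n r)

/-- The exponent of the heuristic is large enough. -/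
def Hr.ok (g : ℕ → Qn) (h : Hr) : Prop := ∀ n, ((g h.1).bnd (h.ax n) + 2) ^ 2 ≤ h.N n

theorem totalLength_inp (n : ℕ) (r : List Bool) : totalLength (inp n r) = n + r.length := by
  simp [totalLength, inp]

theorem Hr.le_N (h : Hr) (n : ℕ) : n ≤ h.N n := by
  unfold Hr.N
  calc n ≤ (n + 2) ^ 1 := by rw [pow_one]; omega
    _ ≤ (n + 2) ^ 2 ^ h.2.2.2.2 := Nat.pow_le_pow_right (by omega) Nat.one_le_two_pow

theorem Hr.wrong_iff (g : ℕ → Qn) (h : Hr) (hok : h.ok g) (S : SP) (y0 : List Bool)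
    (b : Idx → Bool) (n : ℕ) {r : List Bool} (hr : r.length = h.m n) :
    h.wrong g (world g (S.tab y0 b)) n r ↔
      S.Err g (g h.1) h.2.1 (inp n r) (h.a n) (h.N n) y0 b := by
  unfold Hr.wrong SP.Err
  have h1 : world g (S.tab y0 b) (true :: code h.1 (h.str (world g (S.tab y0 b)) n r) (h.N n)) =
      true ↔ (g h.1).ans (mask (S.tab y0 b) (h.N n) (world g (S.tab y0 b)))
        (h.str (world g (S.tab y0 b)) n r) := by
    rw [world_true, KS_code]
    apply and_iff_right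
    refine le_trans (Nat.pow_le_pow_left ?_ 2) (hok n)
    apply Nat.add_le_add_right
    apply Qn.bnd_mono
    refine (length_run _ _ _ _ 0).trans ?_
    rw [totalLength_inp, hr]
    exact le_rfl
  rw [h1]
  exact Iff.rfl

/-- No error outside the levels `1, …, J`. -/
theorem SP.no_err (S : SP) (g : ℕ → Qn) (q : Qn) (G : Prog) (inp : List (List Bool)) (t N : ℕ)
    (y0 : List Bool) (b : Idx → Bool) (hN : ¬ (1 ≤ S.lvl N ∧ S.lvl N ≤ S.J))
    (hD0 : ∀ v : List Bool, v.length < S.n0 → (S.D0 v).2 N = (S.D0 v).1) :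
    ¬ S.Err g q G inp t N y0 b := by
  have h1 : mask (S.tab y0 b) N (world g (S.tab y0 b)) = world g (S.tab y0 b) := by
    rw [S.mask_orc g y0 b hD0]
    conv_rhs => rw [S.world_orc g y0 b]
    congr 1
    funext v
    unfold SP.cvN SP.copyOf
    rw [if_neg (fun h => hN ⟨h.1, h.2.1⟩)]
  unfold SP.Err
  rw [h1]
  simp

theorem numeric {μ n mb d s σ M : ℕ} {π : ℝ} (hπ : (1 / 2 : ℝ) ^ (μ + 1) ≤ π)
    (hmb : mb = (2 * d + s + 5) * μ) (hn : mb ≤ n) (hσ : 16 * (σ + d + s + 1) ≤ 2 ^ μ)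
    (hM : M ≤ σ) :
    (s : ℝ) * M * M ^ s * (2 ^ (n - mb) *
      (σ + (σ + d) * (1 / ((1 / 2 : ℝ) ^ μ * (1 / 2 : ℝ) ^ μ)) ^ d)) < 2 ^ n * (π / 16) := by
  set x : ℝ := (2 : ℝ) ^ μ with hx
  have hx1 : 1 ≤ x := one_le_pow₀ (by norm_num)
  have hx0 : 0 < x := by linarith
  have hhalf : (1 / 2 : ℝ) ^ μ = 1 / x := by rw [hx, one_div_pow]
  have e1 : (1 / ((1 / 2 : ℝ) ^ μ * (1 / 2 : ℝ) ^ μ)) ^ d = x ^ (2 * d) := by
    rw [hhalf, pow_mul]
    congr 1
    field_simp
  have hσx : 16 * ((σ : ℝ) + d + s + 1) ≤ x := by rw [hx]; exact_mod_cast hσ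
  have hMσ : (M : ℝ) ≤ σ := by exact_mod_cast hM
  have hs0 : (0 : ℝ) ≤ s := Nat.cast_nonneg s
  have hd0 : (0 : ℝ) ≤ d := Nat.cast_nonneg d
  have hσ0 : (0 : ℝ) ≤ σ := Nat.cast_nonneg σ
  have hM0 : (0 : ℝ) ≤ M := Nat.cast_nonneg M
  have e2 : (2 : ℝ) ^ n = 2 ^ (n - mb) * x ^ (2 * d + s + 5) := by
    have h1 : n = (n - mb) + mb := by omega
    have h2 : x ^ (2 * d + s + 5) = 2 ^ mb := by
      rw [hx, ← pow_mul, hmb, mul_comm]
    rw [h2, ← pow_add, ← h1]
  rw [e1]
  have hP : (0 : ℝ) < 2 ^ (n - mb) := by positivity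
  have h1 : (s : ℝ) * M * M ^ s ≤ x * x * x ^ s := by
    have : (M : ℝ) ^ s ≤ x ^ s := pow_le_pow_left₀ hM0 (by linarith) s
    have h2 : (s : ℝ) * M ≤ x * x := mul_le_mul (by linarith) (by linarith) hM0 hx0.le
    exact mul_le_mul h2 this (by positivity) (by positivity)
  have h3 : (σ : ℝ) + (σ + d) * x ^ (2 * d) ≤ x / 8 * x ^ (2 * d) := by
    have h4 : 1 ≤ x ^ (2 * d) := one_le_pow₀ hx1
    nlinarith
  have h5 : (s : ℝ) * M * M ^ s * (2 ^ (n - mb) * (σ + (σ + d) * x ^ (2 * d))) ≤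
      2 ^ (n - mb) * x ^ (2 * d + s + 3) / 8 := by
    calc _ ≤ (x * x * x ^ s) * (2 ^ (n - mb) * (x / 8 * x ^ (2 * d))) := by
          apply mul_le_mul h1 _ _ (by positivity)
          · exact mul_le_mul_of_nonneg_left h3 hP.le
          · positivity
      _ = _ := by ring
  have h6 : (2 : ℝ) ^ n * (π / 16) ≥ 2 ^ (n - mb) * x ^ (2 * d + s + 4) / 32 := by
    have h7 : 1 / (2 * x) ≤ π := by
      refine le_trans (le_of_eq ?_) hπ
      rw [pow_succ, hhalf]
      field_simp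
    calc (2 : ℝ) ^ n * (π / 16) ≥ 2 ^ n * ((1 / (2 * x)) / 16) := by
          apply mul_le_mul_of_nonneg_left _ (by positivity)
          linarith
      _ = 2 ^ (n - mb) * x ^ (2 * d + s + 4) / 32 := by
          rw [e2]
          field_simp
          ring
  refine lt_of_le_of_lt h5 (lt_of_lt_of_le ?_ h6)
  have h8 : (0 : ℝ) < 2 ^ (n - mb) * x ^ (2 * d + s + 3) := by positivity
  have h9 : (2 : ℝ) ^ (n - mb) * x ^ (2 * d + s + 4) = 2 ^ (n - mb) * x ^ (2 * d + s + 3) * x := by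
    ring
  rw [h9]
  have h10 : (16 : ℝ) ≤ x := by linarith
  nlinarith

/-- **One stage**: there are a hidden root and random bits such that the machine errs at the
hidden root and the heuristics rarely err. -/
theorem stage_exists (g : ℕ → Qn) (hs : ℕ → Hr) (S : SP) {σ d s m0 q t T : ℕ} (e : Bool) (p : Prog)
    (hJ : 1 ≤ S.J) (hmb : S.mb = (2 * d + s + 5) * S.μ) (hn : S.J * S.mb ≤ S.n)
    (hσ1 : (4 * S.k + 4) * S.thr (S.J + 1) ≤ σ)
    (hσ2 : 2 ^ (S.thr (S.J + 1)) * S.Ub.card ≤ 2 ^ (σ + 1))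
    (hσ3 : 16 * (σ + d + s + 1) ≤ 2 ^ S.μ)
    (hcoh : ∀ N, m0 ≤ N → ∀ v : List Bool, v.length < S.n0 → (S.D0 v).2 N = (S.D0 v).1)
    (hd : ∀ i < s, (g (hs i).1).k ≤ d)
    (hT : S.k * q + S.k + 5 ≤ T) (ht : t ≤ T) (hTμ : 4 * T * (2 * T + 5) ≤ 2 ^ S.μ)
    (hn3 : 3 * S.μ + 2 ≤ S.n) (hnμ : 2 * S.μ + S.k * S.n + S.k + 5 ≤ 2 ^ S.μ)
    (hn0 : S.n0 ≤ (S.k + 2) * S.n) (hthr : S.n + S.k * q + t ≤ S.thr (S.J + 1)) :
    ∃ (y0 : List Bool) (X : Finset Idx), y0.length = S.n ∧
      ¬ (Alt e S.k q (fun us => AcceptsIn (world g (S.tab y0 (mem X))) p (y0 :: us) t) ↔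
        y0 ∈ Lang3 (world g (S.tab y0 (mem X))) S.k) ∧
      ∀ i < s, (hs i).ok g → ∀ n, m0 ≤ n → n < S.thr (S.J + 1) →
        n ^ s * ((hs i).bad g (world g (S.tab y0 (mem X))) n).card ≤ 2 ^ ((hs i).m n) := by
  by_contra hcon0
  have hcon : ∀ (y0 : List Bool) (X : Finset Idx), y0.length = S.n →
      ¬ (Alt e S.k q (fun us => AcceptsIn (world g (S.tab y0 (mem X))) p (y0 :: us) t) ↔
        y0 ∈ Lang3 (world g (S.tab y0 (mem X))) S.k) →
      ∃ i < s, (hs i).ok g ∧ ∃ n, m0 ≤ n ∧ n < S.thr (S.J + 1) ∧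
        2 ^ ((hs i).m n) < n ^ s * ((hs i).bad g (world g (S.tab y0 (mem X))) n).card := by
    intro y0 X h1 h2
    by_contra h3
    push Not at h3
    exact hcon0 ⟨y0, X, h1, h2, h3⟩
  set M := S.thr (S.J + 1) with hM
  have hμ1 : 1 ≤ S.μ := by
    by_contra h
    have : S.μ = 0 := by omega
    rw [this] at hσ3
    omega
  -- the distribution
  set p2 : ℝ := (1 / 2 : ℝ) ^ S.μ with hp2
  have hp0 : 0 < p2 := by positivity
  have hp1 : p2 ≤ 1 / 2 := by
    calc p2 ≤ (1 / 2 : ℝ) ^ 1 := pow_le_pow_of_le_one (by norm_num) (by norm_num) hμ1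
      _ = 1 / 2 := by norm_num
  set π := bias p2 d with hπ
  have hb := bias_bounds hp0.le hp1 d
  have hb0 : 0 ≤ π := by linarith
  have hb1 : π ≤ 1 := by linarith
  have hπ0 : (1 / 2 : ℝ) ^ (S.μ + 1) ≤ π := by
    rw [pow_succ]
    linarith
  have hπ1 : π ≤ (1 / 2 : ℝ) ^ S.μ := hb.2
  -- the condition for the total influence
  have hε : (2 : ℝ) ^ M * (4 * σ * (p2 / (1 - p2))) ^ (σ + 1) * S.Ub.card ≤ 1 := by
    have h1 : p2 / (1 - p2) ≤ 2 * p2 := by
      rw [div_le_iff₀ (by linarith)]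
      nlinarith
    have h2 : (16 : ℝ) * σ ≤ 2 ^ S.μ := by
      have : 16 * σ ≤ 2 ^ S.μ := by omega
      exact_mod_cast this
    have h3 : (2 : ℝ) ^ S.μ * p2 = 1 := by
      rw [hp2, ← mul_pow]; norm_num
    have h4 : 4 * (σ : ℝ) * (p2 / (1 - p2)) ≤ 1 / 2 := by
      have h5 : 4 * (σ : ℝ) * (p2 / (1 - p2)) ≤ 4 * (σ : ℝ) * (2 * p2) :=
        mul_le_mul_of_nonneg_left h1 (by positivity)
      nlinarith
    have h0 : 0 ≤ 4 * (σ : ℝ) * (p2 / (1 - p2)) := by
      have : 0 ≤ p2 / (1 - p2) := div_nonneg hp0.le (by linarith)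
      positivity
    have h6 : (4 * (σ : ℝ) * (p2 / (1 - p2))) ^ (σ + 1) ≤ (1 / 2) ^ (σ + 1) :=
      pow_le_pow_left₀ h0 h4 _
    have h7 : (2 : ℝ) ^ M * S.Ub.card ≤ 2 ^ (σ + 1) := by exact_mod_cast hσ2
    calc (2 : ℝ) ^ M * (4 * σ * (p2 / (1 - p2))) ^ (σ + 1) * S.Ub.card
        = (4 * σ * (p2 / (1 - p2))) ^ (σ + 1) * (2 ^ M * S.Ub.card) := by ring
      _ ≤ (1 / 2) ^ (σ + 1) * 2 ^ (σ + 1) := by
          apply mul_le_mul h6 h7 (by positivity) (by positivity)
      _ = 1 := by rw [← mul_pow]; norm_num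
  -- the bound for the pairs
  set C0 : ℝ := σ + (σ + d) * (1 / (p2 * p2)) ^ d with hC0
  have hC00 : 0 ≤ C0 := by positivity
  let Pp : Finset (ℕ × ℕ) := sub (Finset.range s ×ˢ Finset.range M) (fun z =>
    (hs z.1).ok g ∧ m0 ≤ z.2 ∧ 1 ≤ S.lvl ((hs z.1).N z.2) ∧ S.lvl ((hs z.1).N z.2) ≤ S.J)
  let E : (ℕ × ℕ) → List Bool → List Bool → Finset Idx → Prop := fun z r y0 X =>
    S.Err g (g (hs z.1).1) (hs z.1).2.1 (inp z.2 r) ((hs z.1).a z.2) ((hs z.1).N z.2) y0 (mem X)
  have hlevel : ∀ z ∈ Pp, ∀ r ∈ strings ((hs z.1).m z.2),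
      ∑ y0 ∈ strings S.n, ex π S.UU (fun X => ind (E z r y0 X)) ≤ 2 ^ (S.n - S.mb) * C0 := by
    intro z hz r hr
    obtain ⟨hz1, hok, hm0, hl1, hl2⟩ := mem_sub.1 hz
    have hzs : z.1 < s := Finset.mem_range.1 (Finset.mem_product.1 hz1).1
    set h := hs z.1 with hh
    set N := h.N z.2 with hN
    have hNm : m0 ≤ N := hm0.trans (h.le_N z.2)
    have hNlt : N < S.thr (S.lvl N) ^ 2 := by
      rw [← S.thr_succ]
      exact S.lt_thr_of_lvl hl2 rfl
    have hbnd : (g h.1).bnd (h.ax z.2) + 2 < S.thr (S.lvl N) := by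
      have h1 := hok z.2
      exact lt_of_pow_lt_pow_left₀ 2 (by omega) (lt_of_le_of_lt h1 hNlt)
    have hthrM : S.thr (S.lvl N) ≤ M := S.thr_mono (by omega)
    have hq1 : (g h.1).bnd (h.ax z.2) =
      (g h.1).t (h.ax z.2) + h.ax z.2 + (g h.1).k * (g h.1).q (h.ax z.2) := rfl
    have hax : h.a z.2 ≤ h.ax z.2 := by unfold Hr.ax; omega
    apply S.level_error g hp0 hp1 hε hl1 hl2 hn rfl (hcoh N hNm) (g h.1) h.2.1 (inp z.2 r)
      (h.a z.2) (ax := h.ax z.2)
    · rw [totalLength_inp, mem_strings.1 hr]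
      exact le_rfl
    · omega
    · exact hd z.1 hzs
    · omega
    · refine le_trans ?_ hσ1
      calc (h.a z.2 + (g h.1).t (h.ax z.2)) * (2 * S.k + 2) ≤ (2 * M) * (2 * S.k + 2) :=
            Nat.mul_le_mul_right _ (by omega)
        _ = (4 * S.k + 4) * M := by ring
  -- the machine error forces an error of a heuristic
  let Me : List Bool → Finset Idx → Prop := fun y0 X =>
    ¬ (Alt e S.k q (fun us => AcceptsIn (world g (S.tab y0 (mem X))) p (y0 :: us) t) ↔
        y0 ∈ Lang3 (world g (S.tab y0 (mem X))) S.k)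
  have hpt : ∀ y0 ∈ strings S.n, ∀ X ⊆ S.UU, ind (Me y0 X) ≤
      ∑ z ∈ Pp, ((z.2 : ℝ) ^ s / 2 ^ ((hs z.1).m z.2)) *
        ∑ r ∈ strings ((hs z.1).m z.2), ind (E z r y0 X) := by
    intro y0 hy0 X _
    have hnonneg : ∀ z ∈ Pp, 0 ≤ ((z.2 : ℝ) ^ s / 2 ^ ((hs z.1).m z.2)) *
        ∑ r ∈ strings ((hs z.1).m z.2), ind (E z r y0 X) := fun z _ =>
      mul_nonneg (by positivity) (Finset.sum_nonneg fun r _ => ind_nonneg _)
    by_cases hme : Me y0 X
    · obtain ⟨i, hi, hok, n, hn1, hn2, hn3⟩ := hcon y0 X (mem_strings.1 hy0) hme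
      have hEbad : ∀ r ∈ strings ((hs i).m n),
          ((hs i).wrong g (world g (S.tab y0 (mem X))) n r ↔ E (i, n) r y0 X) := by
        intro r hr
        exact (hs i).wrong_iff g hok S y0 (mem X) n (mem_strings.1 hr)
      have hNm : m0 ≤ (hs i).N n := hn1.trans ((hs i).le_N n)
      have hmemP : (i, n) ∈ Pp := by
        refine mem_sub.2 ⟨Finset.mem_product.2 ⟨Finset.mem_range.2 hi, Finset.mem_range.2 hn2⟩,
          hok, hn1, ?_⟩
        by_contra hlv
        have hempty : (hs i).bad g (world g (S.tab y0 (mem X))) n = ∅ := by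
          rw [Finset.eq_empty_iff_forall_notMem]
          intro r hr
          obtain ⟨hr1, hr2⟩ := mem_sub.1 hr
          exact S.no_err g _ _ _ _ _ y0 (mem X) hlv (hcoh _ hNm) ((hEbad r hr1).1 hr2)
        rw [hempty] at hn3
        simp at hn3
      refine le_trans ?_ (Finset.single_le_sum hnonneg hmemP)
      have hcard : ∑ r ∈ strings ((hs i).m n), ind (E (i, n) r y0 X) =
          ((hs i).bad g (world g (S.tab y0 (mem X))) n).card := by
        have h1 : ∑ r ∈ strings ((hs i).m n), ind (E (i, n) r y0 X) =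
            ∑ r ∈ strings ((hs i).m n), ind ((hs i).wrong g (world g (S.tab y0 (mem X))) n r) :=
          Finset.sum_congr rfl fun r hr => ind_congr (hEbad r hr).symm
        rw [h1]
        unfold ind Hr.bad sub
        rw [Finset.card_filter]
        push_cast
        rfl
      have h2 : (2 : ℝ) ^ ((hs i).m n) <
          (n : ℝ) ^ s * ((hs i).bad g (world g (S.tab y0 (mem X))) n).card := by
        exact_mod_cast hn3
      show ind (Me y0 X) ≤ ((n : ℝ) ^ s / 2 ^ ((hs i).m n)) *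
        ∑ r ∈ strings ((hs i).m n), ind (E (i, n) r y0 X)
      rw [hcard, div_mul_eq_mul_div]
      refine (ind_le_one _).trans ?_
      rw [le_div_iff₀ (by positivity), one_mul]
      exact h2.le
    · rw [ind_false hme]
      exact Finset.sum_nonneg hnonneg
  -- averages
  have hlow : (2 : ℝ) ^ S.n * (π / 16) ≤
      ∑ y0 ∈ strings S.n, ex π S.UU (fun X => ind (Me y0 X)) := by
    calc (2 : ℝ) ^ S.n * (π / 16) = ∑ _y0 ∈ strings S.n, (π / 16) := by
          rw [Finset.sum_const, nsmul_eq_mul, card_strings]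
          push_cast
          rfl
      _ ≤ _ := by
          apply Finset.sum_le_sum
          intro y0 hy0
          exact S.machine_error g (B := S.k * q) e p hμ1 hπ0 hπ1 hT hTμ hn3 hnμ hn0 le_rfl ht hthr
            (mem_strings.1 hy0)
  have hup : ∑ y0 ∈ strings S.n, ex π S.UU (fun X => ind (Me y0 X)) ≤
      (s : ℝ) * M * M ^ s * (2 ^ (S.n - S.mb) * C0) := by
    calc ∑ y0 ∈ strings S.n, ex π S.UU (fun X => ind (Me y0 X))
        ≤ ∑ y0 ∈ strings S.n, ex π S.UU (fun X =>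
          ∑ z ∈ Pp, ((z.2 : ℝ) ^ s / 2 ^ ((hs z.1).m z.2)) *
            ∑ r ∈ strings ((hs z.1).m z.2), ind (E z r y0 X)) := by
          apply Finset.sum_le_sum
          intro y0 hy0
          apply ex_mono hb0 hb1
          intro X hX
          exact hpt y0 hy0 X hX
      _ = ∑ z ∈ Pp, ((z.2 : ℝ) ^ s / 2 ^ ((hs z.1).m z.2)) *
            ∑ r ∈ strings ((hs z.1).m z.2), ∑ y0 ∈ strings S.n,
              ex π S.UU (fun X => ind (E z r y0 X)) := by
          have e1 : ∀ y0, ex π S.UU (fun X =>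
            ∑ z ∈ Pp, ((z.2 : ℝ) ^ s / 2 ^ ((hs z.1).m z.2)) *
            ∑ r ∈ strings ((hs z.1).m z.2), ind (E z r y0 X)) =
            ∑ z ∈ Pp, ((z.2 : ℝ) ^ s / 2 ^ ((hs z.1).m z.2)) *
            ∑ r ∈ strings ((hs z.1).m z.2), ex π S.UU (fun X => ind (E z r y0 X)) := by
            intro y0
            rw [ex_sum]
            apply Finset.sum_congr rfl
            intro z _
            rw [ex_mul, ex_sum]
          rw [Finset.sum_congr rfl (fun y0 _ => e1 y0), Finset.sum_comm]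
          apply Finset.sum_congr rfl
          intro z _
          rw [← Finset.mul_sum, Finset.sum_comm]
      _ ≤ ∑ z ∈ Pp, (M : ℝ) ^ s * (2 ^ (S.n - S.mb) * C0) := by
          apply Finset.sum_le_sum
          intro z hz
          have hz2 : z.2 < M :=
            Finset.mem_range.1 (Finset.mem_product.1 (mem_sub.1 hz).1).2
          calc ((z.2 : ℝ) ^ s / 2 ^ ((hs z.1).m z.2)) *
              ∑ r ∈ strings ((hs z.1).m z.2), ∑ y0 ∈ strings S.n,
              ex π S.UU (fun X => ind (E z r y0 X))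
              ≤ ((z.2 : ℝ) ^ s / 2 ^ ((hs z.1).m z.2)) *
              ∑ _r ∈ strings ((hs z.1).m z.2), (2 ^ (S.n - S.mb) * C0) := by
                apply mul_le_mul_of_nonneg_left _ (by positivity)
                exact Finset.sum_le_sum fun r hr => hlevel z hz r hr
            _ = (z.2 : ℝ) ^ s * (2 ^ (S.n - S.mb) * C0) := by
                rw [Finset.sum_const, nsmul_eq_mul, card_strings]
                push_cast
                field_simp
            _ ≤ (M : ℝ) ^ s * (2 ^ (S.n - S.mb) * C0) := by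
                apply mul_le_mul_of_nonneg_right _ (by positivity)
                apply pow_le_pow_left₀ (by positivity)
                exact_mod_cast hz2.le
      _ = Pp.card * ((M : ℝ) ^ s * (2 ^ (S.n - S.mb) * C0)) := by
          rw [Finset.sum_const, nsmul_eq_mul]
      _ ≤ ((s : ℝ) * M) * ((M : ℝ) ^ s * (2 ^ (S.n - S.mb) * C0)) := by
          apply mul_le_mul_of_nonneg_right _ (by positivity)
          have h1 : Pp.card ≤ s * M := by
            refine (Finset.card_le_card (sub_subset _ _)).trans ?_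
            rw [Finset.card_product, Finset.card_range, Finset.card_range]
          exact_mod_cast h1
      _ = _ := by ring
  have hmbn : S.mb ≤ S.n := (Nat.le_mul_of_pos_left _ hJ).trans hn
  have hMσ : M ≤ σ := (Nat.le_mul_of_pos_left _ (by omega)).trans hσ1
  have hnum := numeric (s := s) hπ0 hmb hmbn hσ3 hMσ
  rw [← hp2, ← hC0] at hnum
  linarith

end Pool.Agent.H9
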