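import Mathlib
import Pool.Agent.H9.AvgStage

/-!
Choice of the parameters of a stage.
-/

set_option autoImplicit false

namespace Pool.Agent.H9

open Classical

theorem sq_le_two_pow (K : ℕ) : ∃ x0 : ℕ, ∀ x ≥ x0, K * (x + 1) ^ 2 ≤ 2 ^ x := by
  have h1 : Filter.Tendsto (fun n : ℕ => (n : ℝ) ^ 2 / 2 ^ n) Filter.atTop (nhds 0) :=
    tendsto_pow_const_div_const_pow_of_one_lt 2 (by norm_num)
  have hpos : (0 : ℝ) < 1 / (2 * (K + 1)) := by positivity
  have h2 : ∀ᶠ n : ℕ in Filter.atTop, (n : ℝ) ^ 2 / 2 ^ n < 1 / (2 * (K + 1)) :=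
    h1.eventually (gt_mem_nhds hpos)
  obtain ⟨x0, hx0⟩ := Filter.eventually_atTop.1 h2
  refine ⟨x0, fun x hx => ?_⟩
  have h3 := hx0 (x + 1) (by omega)
  rw [div_lt_div_iff₀ (by positivity) (by positivity)] at h3
  have h4 : ((K * (x + 1) ^ 2 : ℕ) : ℝ) ≤ ((2 ^ x : ℕ) : ℝ) := by
    push_cast at h3 ⊢
    rw [pow_succ (2 : ℝ) x] at h3
    have h5 : (0 : ℝ) ≤ ((x : ℝ) + 1) ^ 2 := by positivity
    nlinarith
  exact_mod_cast h4

theorem card_nodes_le (k m0 n : ℕ) : (nodes k m0 n).card ≤ 2 ^ (k + m0 + k * n) := by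
  unfold nodes
  calc _ ≤ ∑ l ∈ Finset.range (k + 1), (paths (m0 :: List.replicate l n)).card :=
        Finset.card_biUnion_le
    _ ≤ ∑ _l ∈ Finset.range (k + 1), 2 ^ (m0 + k * n) := by
        apply Finset.sum_le_sum
        intro l hl
        rw [card_paths]
        apply Nat.pow_le_pow_right (by norm_num)
        simp only [List.sum_cons, List.sum_replicate, smul_eq_mul]
        have := Nat.mul_le_mul_right n (Nat.lt_succ_iff.1 (Finset.mem_range.1 hl))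
        omega
    _ = (k + 1) * 2 ^ (m0 + k * n) := by
        rw [Finset.sum_const, Finset.card_range, smul_eq_mul]
    _ ≤ 2 ^ k * 2 ^ (m0 + k * n) := by
        apply Nat.mul_le_mul_right
        have := Nat.lt_two_pow_self (n := k)
        omega
    _ = 2 ^ (k + m0 + k * n) := by
        rw [← pow_add]
        congr 1
        ring

theorem SP.card_Ub_le (S : SP) :
    S.Ub.card ≤ 2 ^ ((S.k + 1) * S.n + 2 * S.μ + S.k + 1) := by
  unfold SP.Ub
  rw [Finset.card_product, Finset.card_disjSum, card_strings]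
  have h1 := card_nodes_le S.k (2 * S.μ) S.n
  calc 2 ^ S.n * ((nodes S.k (2 * S.μ) S.n).card + (nodes S.k (2 * S.μ) S.n).card)
      ≤ 2 ^ S.n * (2 ^ (S.k + 2 * S.μ + S.k * S.n) + 2 ^ (S.k + 2 * S.μ + S.k * S.n)) :=
        Nat.mul_le_mul_left _ (Nat.add_le_add h1 h1)
    _ = 2 ^ S.n * 2 ^ (S.k + 2 * S.μ + S.k * S.n + 1) := by
        rw [pow_succ]; ring
    _ = 2 ^ ((S.k + 1) * S.n + 2 * S.μ + S.k + 1) := by
        rw [← pow_add]
        congr 1
        ring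

/-- The arithmetic of the parameters. -/
theorem params_arith {k d s C K x z n μ M f1 f2 : ℕ} (hC : C = 2 * d + s + 5)
    (hK : K = 1000 * ((k + 2) * (C + 1))) (hz : K * (x + 1) ^ 2 ≤ z) (hμ : μ = 64 * x)
    (hn : n ≤ 64 * C * (x * x)) (hM1 : z ^ 2 ≤ M) (hM2 : M ≤ z ^ 4) (hf1 : f1 ≤ z) (hf2 : f2 ≤ z) :
    ∃ σ T : ℕ, (4 * k + 4) * M ≤ σ ∧ M + ((k + 1) * n + 2 * μ + k + 1) ≤ σ + 1 ∧
      16 * (σ + d + s + 1) ≤ z ^ 64 ∧ k * f1 + k + 5 ≤ T ∧ f2 ≤ T ∧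
      4 * T * (2 * T + 5) ≤ z ^ 64 ∧ 2 * μ + k * n + k + 5 ≤ z ^ 64 ∧ n + k * f1 + f2 ≤ M := by
  have hKz : K ≤ z := by
    calc K = K * 1 := (Nat.mul_one K).symm
      _ ≤ K * (x + 1) ^ 2 := Nat.mul_le_mul_left _ (Nat.one_le_pow _ _ (by omega))
      _ ≤ z := hz
  have hK2 : 1000 * (k + 2) ≤ K := by
    rw [hK]
    exact Nat.mul_le_mul_left _ (Nat.le_mul_of_pos_right _ (by omega))
  have hK3 : 1000 * (C + 1) ≤ K := by
    rw [hK]
    exact Nat.mul_le_mul_left _ (Nat.le_mul_of_pos_left _ (by omega))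
  have hz1 : 1 ≤ z := by omega
  have hx2 : x + 1 ≤ (x + 1) ^ 2 := Nat.le_self_pow (by norm_num) _
  -- the linear part is small
  have hlin : (k + 1) * n + 2 * μ + k + 5 ≤ z := by
    refine le_trans ?_ hz
    have h1 : (k + 1) * n ≤ (k + 2) * (C + 1) * (64 * (x + 1) ^ 2) := by
      calc (k + 1) * n ≤ (k + 1) * (64 * C * (x * x)) := Nat.mul_le_mul_left _ hn
        _ ≤ (k + 2) * ((C + 1) * (64 * (x + 1) ^ 2)) := by
            apply Nat.mul_le_mul (by omega)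
            have : x * x ≤ (x + 1) ^ 2 := by
              rw [pow_two]; exact Nat.mul_le_mul (by omega) (by omega)
            calc 64 * C * (x * x) ≤ 64 * C * (x + 1) ^ 2 := Nat.mul_le_mul_left _ this
              _ = C * (64 * (x + 1) ^ 2) := by ring
              _ ≤ (C + 1) * (64 * (x + 1) ^ 2) := Nat.mul_le_mul_right _ (by omega)
        _ = _ := by ring
    have h2 : 2 * μ + k + 5 ≤ (k + 2) * (C + 1) * (200 * (x + 1) ^ 2) := by
      have h3 : 1 ≤ C + 1 := by omega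
      calc 2 * μ + k + 5 ≤ 2 * (200 * (x + 1)) + k * (200 * (x + 1)) := by
            have := Nat.le_mul_of_pos_right k (show 0 < 200 * (x + 1) by omega)
            omega
        _ = (k + 2) * (200 * (x + 1)) := by ring
        _ ≤ (k + 2) * (C + 1) * (200 * (x + 1) ^ 2) := by
            calc (k + 2) * (200 * (x + 1)) ≤ (k + 2) * (200 * (x + 1) ^ 2) :=
                  Nat.mul_le_mul_left _ (Nat.mul_le_mul_left _ hx2)
              _ = (k + 2) * 1 * (200 * (x + 1) ^ 2) := by ring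
              _ ≤ _ := Nat.mul_le_mul_right _ (Nat.mul_le_mul_left _ h3)
    rw [hK]
    calc (k + 1) * n + 2 * μ + k + 5 = (k + 1) * n + (2 * μ + k + 5) := by ring
      _ ≤ (k + 2) * (C + 1) * (64 * (x + 1) ^ 2) + (k + 2) * (C + 1) * (200 * (x + 1) ^ 2) :=
          Nat.add_le_add h1 h2
      _ = (k + 2) * (C + 1) * (264 * (x + 1) ^ 2) := by ring
      _ ≤ (k + 2) * (C + 1) * (1000 * (x + 1) ^ 2) :=
          Nat.mul_le_mul_left _ (Nat.mul_le_mul_right _ (by norm_num))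
      _ = _ := by ring
  have hz4 : z ^ 5 ≤ z ^ 64 := Nat.pow_le_pow_right hz1 (by norm_num)
  have hz14 : z ≤ z ^ 4 := Nat.le_self_pow (by norm_num) _
  have hzz : z ≤ z ^ 64 := Nat.le_self_pow (by norm_num) _
  have hz24 : z ^ 2 ≤ z ^ 4 := Nat.pow_le_pow_right hz1 (by norm_num)
  have hkn : k * n ≤ (k + 1) * n := Nat.mul_le_mul_right _ (by omega)
  have hnk : n ≤ (k + 1) * n := Nat.le_mul_of_pos_left _ (by omega)
  have hkz : z ≤ (k + 1) * z := Nat.le_mul_of_pos_left _ (by omega)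
  have hkf : k * f1 ≤ (k + 1) * z := Nat.mul_le_mul (by omega) hf1
  have hT : (k + 1) * z + k + 5 ≤ z ^ 2 := by
    calc (k + 1) * z + k + 5 ≤ (k + 1) * z + 6 * z := by omega
      _ = (k + 7) * z := by ring
      _ ≤ z * z := Nat.mul_le_mul_right _ (by omega)
      _ = z ^ 2 := by ring
  refine ⟨(4 * k + 4) * M + M + ((k + 1) * n + 2 * μ + k + 1), (k + 1) * z + k + 5,
    by omega, by omega, ?_, by omega, by omega, ?_, by omega, ?_⟩
  · have h1 : (4 * k + 4) * M + M + ((k + 1) * n + 2 * μ + k + 1) + d + s + 1 ≤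
        (4 * k + 7) * z ^ 4 := by
      have h2 : (4 * k + 5) * M ≤ (4 * k + 5) * z ^ 4 := Nat.mul_le_mul_left _ hM2
      calc (4 * k + 4) * M + M + ((k + 1) * n + 2 * μ + k + 1) + d + s + 1
          = (4 * k + 5) * M + (((k + 1) * n + 2 * μ + k + 1) + (d + s + 1)) := by ring
        _ ≤ (4 * k + 5) * z ^ 4 + (z ^ 4 + z ^ 4) :=
            Nat.add_le_add h2 (Nat.add_le_add (by omega) (by omega))
        _ = (4 * k + 7) * z ^ 4 := by ring
    calc 16 * ((4 * k + 4) * M + M + ((k + 1) * n + 2 * μ + k + 1) + d + s + 1) ≤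
        16 * ((4 * k + 7) * z ^ 4) := Nat.mul_le_mul_left _ h1
      _ = (16 * (4 * k + 7)) * z ^ 4 := by ring
      _ ≤ z * z ^ 4 := Nat.mul_le_mul_right _ (by omega)
      _ = z ^ 5 := by ring
      _ ≤ z ^ 64 := hz4
  · calc 4 * ((k + 1) * z + k + 5) * (2 * ((k + 1) * z + k + 5) + 5) ≤
        4 * z ^ 2 * (2 * z ^ 2 + 5) :=
          Nat.mul_le_mul (Nat.mul_le_mul_left _ hT)
            (Nat.add_le_add_right (Nat.mul_le_mul_left _ hT) _)
      _ ≤ 4 * z ^ 2 * (7 * z ^ 2) := by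
          apply Nat.mul_le_mul_left
          have : 1 ≤ z ^ 2 := Nat.one_le_pow _ _ (by omega)
          omega
      _ = 28 * z ^ 4 := by ring
      _ ≤ z * z ^ 4 := Nat.mul_le_mul_right _ (by omega)
      _ = z ^ 5 := by ring
      _ ≤ z ^ 64 := hz4
  · calc n + k * f1 + f2 ≤ z + k * z + z := by
          have := Nat.mul_le_mul_left k hf1
          omega
      _ = (k + 2) * z := by ring
      _ ≤ z * z := Nat.mul_le_mul_right _ (by omega)
      _ = z ^ 2 := by ring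
      _ ≤ M := hM1

/-- **The parameters of a stage.** `f1` and `f2` are the bounds for the blocks and the running time
of the machine. -/
theorem exists_params (k d s n0 m0 : ℕ) (f1 f2 : ℕ → ℕ)
    (h1 : ∀ r > 0, ∃ n1, ∀ n ≥ n1, f1 n ≤ 2 ^ (n / (r * Nat.log 2 n)))
    (h2 : ∀ r > 0, ∃ n1, ∀ n ≥ n1, f2 n ≤ 2 ^ (n / (r * Nat.log 2 n))) :
    ∃ μ n J σ T M : ℕ, M = ((k + 2) * n + 3) ^ 2 ^ (J + 1) ∧ 1 ≤ J ∧
      J * ((2 * d + s + 5) * μ) ≤ n ∧ (4 * k + 4) * M ≤ σ ∧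
      M + ((k + 1) * n + 2 * μ + k + 1) ≤ σ + 1 ∧ 16 * (σ + d + s + 1) ≤ 2 ^ μ ∧
      k * f1 n + k + 5 ≤ T ∧ f2 n ≤ T ∧ 4 * T * (2 * T + 5) ≤ 2 ^ μ ∧ 3 * μ + 2 ≤ n ∧
      2 * μ + k * n + k + 5 ≤ 2 ^ μ ∧ n0 ≤ (k + 2) * n ∧ n + k * f1 n + f2 n ≤ M ∧ m0 < M := by
  obtain ⟨C, hC⟩ : ∃ C, C = 2 * d + s + 5 := ⟨_, rfl⟩
  obtain ⟨K, hK⟩ : ∃ K, K = 1000 * ((k + 2) * (C + 1)) := ⟨_, rfl⟩
  obtain ⟨x0, hx0⟩ := sq_le_two_pow K
  obtain ⟨a1, ha1⟩ := h1 (64 * C) (by omega)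
  obtain ⟨a2, ha2⟩ := h2 (64 * C) (by omega)
  obtain ⟨γ, hγ⟩ : ∃ γ, γ = x0 + a1 + a2 + n0 + m0 + 10 := ⟨_, rfl⟩
  obtain ⟨lo, hlo⟩ : ∃ lo, lo = 2 ^ γ := ⟨_, rfl⟩
  obtain ⟨x, hx⟩ : ∃ x, x = 2 ^ (lo - 6) := ⟨_, rfl⟩
  obtain ⟨z, hz⟩ : ∃ z, z = 2 ^ x := ⟨_, rfl⟩
  have hγlo2 : 2 * γ ≤ lo := by
    rw [hlo]
    obtain ⟨e, he⟩ : ∃ e, γ = e + 1 := ⟨γ - 1, by omega⟩
    rw [he, pow_succ]
    have := Nat.lt_two_pow_self (n := e)
    omega
  have hμx : 2 ^ lo = 64 * x := by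
    rw [hx]
    have : lo = (lo - 6) + 6 := by omega
    conv_lhs => rw [this, pow_add]
    norm_num
    ring
  have hK7 : 2000 ≤ K := by
    rw [hK]
    exact Nat.mul_le_mul_left 1000 (Nat.mul_le_mul (show 2 ≤ k + 2 by omega)
      (show 1 ≤ C + 1 by omega))
  have hlox : lo ≤ x := by
    have h5 : K * (lo - 6 + 1) ^ 2 ≤ 2 ^ (lo - 6) := hx0 _ (by omega)
    rw [← hx] at h5
    have h7 : lo - 6 + 1 ≤ (lo - 6 + 1) ^ 2 := Nat.le_self_pow (by norm_num) _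
    have h8 : 7 * (lo - 6 + 1) ≤ K * (lo - 6 + 1) ^ 2 := Nat.mul_le_mul (by omega) h7
    omega
  obtain ⟨n, hn⟩ : ∃ n, n = C * (64 * x) * lo := ⟨_, rfl⟩
  have hn_le : n ≤ 64 * C * (x * x) := by
    rw [hn]
    calc C * (64 * x) * lo ≤ C * (64 * x) * x := Nat.mul_le_mul_left _ hlox
      _ = _ := by ring
  have hC5 : 5 ≤ C := by omega
  have hlo20 : 20 ≤ lo := by omega
  have hμn : 5 * (64 * x) ≤ n := by
    rw [hn]
    calc 5 * (64 * x) ≤ C * (64 * x) := Nat.mul_le_mul_right _ hC5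
      _ = C * (64 * x) * 1 := by ring
      _ ≤ _ := Nat.mul_le_mul_left _ (by omega)
  have hzK : K * (x + 1) ^ 2 ≤ z := by
    rw [hz]
    exact hx0 x (by omega)
  -- the bounds for the machine
  have hlog : lo ≤ Nat.log 2 n := by
    apply Nat.le_log_of_pow_le (by norm_num)
    rw [hμx]
    omega
  have hdiv : n / (64 * C * Nat.log 2 n) ≤ x := by
    calc n / (64 * C * Nat.log 2 n) ≤ n / (64 * C * lo) :=
          Nat.div_le_div_left (Nat.mul_le_mul_left _ hlog) (by positivity)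
      _ = x := by
          rw [hn]
          have : C * (64 * x) * lo = x * (64 * C * lo) := by ring
          rw [this]
          exact Nat.mul_div_cancel _ (by positivity)
  have hf1 : f1 n ≤ z := by
    rw [hz]
    exact (ha1 n (by omega)).trans (Nat.pow_le_pow_right (by norm_num) hdiv)
  have hf2 : f2 n ≤ z := by
    rw [hz]
    exact (ha2 n (by omega)).trans (Nat.pow_le_pow_right (by norm_num) hdiv)
  -- the number of levels
  obtain ⟨J, hJ⟩ : ∃ J, J = lo - γ - 6 := ⟨_, rfl⟩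
  have hJpow : lo * 2 ^ (J + 1) = 2 * x := by
    have h3 : 32 * (lo * 2 ^ (J + 1)) = 2 ^ lo := by
      have h4 : 2 ^ lo = 2 ^ 5 * (2 ^ γ * 2 ^ (J + 1)) := by
        rw [← pow_add, ← pow_add]
        congr 1
        omega
      rw [h4, ← hlo]
      norm_num
    rw [hμx] at h3
    omega
  -- the base
  have hnk2 : n ≤ (k + 2) * n := Nat.le_mul_of_pos_left _ (by omega)
  have hR1 : 2 ^ lo ≤ (k + 2) * n + 3 := by
    rw [hμx]
    omega
  have hR2 : (k + 2) * n + 3 ≤ 2 ^ (2 * lo) := by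
    have h5 : K * (lo + 1) ^ 2 ≤ 2 ^ lo := hx0 lo (by omega)
    have h6 : (k + 2) * C * lo + 3 ≤ 2 ^ lo := by
      refine le_trans ?_ h5
      rw [hK]
      have h7 : (k + 2) * C * lo ≤ (k + 2) * (C + 1) * (lo + 1) ^ 2 := by
        calc (k + 2) * C * lo ≤ (k + 2) * (C + 1) * lo :=
              Nat.mul_le_mul_right _ (Nat.mul_le_mul_left _ (by omega))
          _ ≤ _ := Nat.mul_le_mul_left _
              ((Nat.le_succ lo).trans (Nat.le_self_pow (by norm_num) _))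
      have h8 : 1 ≤ (k + 2) * (C + 1) * (lo + 1) ^ 2 := Nat.one_le_iff_ne_zero.2 (by positivity)
      calc (k + 2) * C * lo + 3 ≤ 1000 * ((k + 2) * (C + 1) * (lo + 1) ^ 2) := by omega
        _ = 1000 * ((k + 2) * (C + 1)) * (lo + 1) ^ 2 := by ring
    calc (k + 2) * n + 3 = (64 * x) * ((k + 2) * C * lo) + 3 := by rw [hn]; ring
      _ ≤ (64 * x) * ((k + 2) * C * lo + 3) := by
          rw [Nat.mul_add]
          omega
      _ ≤ 2 ^ lo * 2 ^ lo := by rw [hμx] at h6 ⊢; exact Nat.mul_le_mul_left _ h6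
      _ = 2 ^ (2 * lo) := by rw [← pow_add]; congr 1; ring
  obtain ⟨M, hM⟩ : ∃ M, M = ((k + 2) * n + 3) ^ 2 ^ (J + 1) := ⟨_, rfl⟩
  have hM1 : z ^ 2 ≤ M := by
    calc z ^ 2 = 2 ^ (2 * x) := by rw [hz, ← pow_mul, mul_comm]
      _ = (2 ^ lo) ^ 2 ^ (J + 1) := by rw [← pow_mul, hJpow]
      _ ≤ M := by rw [hM]; exact Nat.pow_le_pow_left hR1 _
  have hM2 : M ≤ z ^ 4 := by
    calc M ≤ (2 ^ (2 * lo)) ^ 2 ^ (J + 1) := by rw [hM]; exact Nat.pow_le_pow_left hR2 _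
      _ = 2 ^ (4 * x) := by rw [← pow_mul, mul_assoc, hJpow]; congr 1; ring
      _ = z ^ 4 := by rw [hz, ← pow_mul, mul_comm]
  have h64 : 2 ^ (64 * x) = z ^ 64 := by rw [hz, ← pow_mul, mul_comm]
  obtain ⟨σ, T, c1, c2, c3, c4, c5, c6, c7, c8⟩ := params_arith hC hK hzK rfl hn_le hM1 hM2 hf1 hf2
  have hJlo : J ≤ lo := by omega
  have hxz : x < z := by rw [hz]; exact Nat.lt_two_pow_self
  have hzM : z ≤ M := by
    refine le_trans ?_ hM1
    calc z = z ^ 1 := (pow_one z).symm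
      _ ≤ z ^ 2 := Nat.pow_le_pow_right (by omega) (by norm_num)
  refine ⟨64 * x, n, J, σ, T, M, hM, by omega, ?_, c1, c2, ?_, c4, c5, ?_, by omega, ?_, ?_, c8, ?_⟩
  · rw [← hC, hn]
    calc J * (C * (64 * x)) ≤ lo * (C * (64 * x)) := Nat.mul_le_mul_right _ hJlo
      _ = _ := by ring
  · rw [h64]; exact c3
  · rw [h64]; exact c6
  · rw [h64]; exact c7
  · omega
  · omega

end Pool.Agent.H9
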