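import Mathlib
import Pool.Agent.H9.World

/-!
The heuristic algorithm: write down the code of the input and ask the solver.
-/

set_option autoImplicit false

namespace Pool.Agent.H9

open Classical

/-- Program: from the inputs `y`, `x` on stacks `0`, `1` compute the code `(e, x, (|y| + 2)^(2^c))`
on stack `2`. -/
def mkCode2 (e c : ℕ) : Prog :=
  seqs [Prog.loop 0 (seqs [Prog.pop 0, Prog.push 2 true]), moveAll 1 0,
    Prog.push 2 true, Prog.push 2 true,
    sqs c,
    Prog.push 2 false,
    Prog.loop 0 (Prog.cond 0 Prog.skip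
      (seqs [Prog.pop 0, Prog.push 2 false, Prog.push 2 true])
      (seqs [Prog.pop 0, Prog.push 2 true, Prog.push 2 true])),
    Prog.push 2 false,
    seqs (List.replicate e (Prog.push 2 true))]

/-- A bound for the running time of `mkCode2 e c` on inputs of lengths `n` and `l`. -/
def codeTime2 (e c n l : ℕ) : ℕ :=
  c * (20 * ((n + 2) ^ 2 ^ c + 1) * ((n + 2) ^ 2 ^ c + 1) + 1) + 20 * n + 20 * l + 2 * e + 40

theorem exec_mkCode2 (A : Oracle) (e c : ℕ) (s : ℕ → List Bool) (h2 : s 2 = [])
    (h3 : s 3 = []) (h4 : s 4 = []) (h5 : s 5 = []) :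
    ∃ s', Exec A (mkCode2 e c) s s' (codeTime2 e c (s 0).length (s 1).length) ∧
      s' 2 = code e (s 1) (((s 0).length + 2) ^ 2 ^ c) ∧ s' 0 = [] := by
  -- first loop
  obtain ⟨s1, e1, a0, ⟨r, hr1, hr2⟩, a1, a3, a4, a5⟩ := exec_loop_inv (A := A) (i := 0) (N := 5)
    (p := seqs [Prog.pop 0, Prog.push 2 true])
    (Inv := fun l t => (∃ r, t 2 = List.replicate r true ∧ r + l.length = (s 0).length) ∧
      t 1 = s 1 ∧ t 3 = [] ∧ t 4 = [] ∧ t 5 = []) (by
      intro b l t ht hI
      obtain ⟨⟨r, hr1, hr2⟩, hI1, hI3, hI4, hI5⟩ := hI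
      refine ⟨Function.update (Function.update t 0 l) 2 (true :: t 2), ?_, ?_,
        ⟨r + 1, ?_, ?_⟩, ?_, ?_, ?_, ?_⟩
      · have g1 := exec_pop A t 0
        rw [ht, List.tail_cons] at g1
        have g2 := exec_push A (Function.update t 0 l) 2 true
        simp only [Function.update_of_ne (show (2 : ℕ) ≠ 0 by norm_num)] at g2
        exact exec_seqs_cons g1 (exec_seqs_cons g2 (exec_seqs_nil _ _))
      · simp [Function.update_of_ne]
      · rw [Function.update_self, hr1, List.replicate_succ]
      · rw [← hr2]
        simp only [List.length_cons]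
        omega
      · simp [Function.update_of_ne, hI1]
      · simp [Function.update_of_ne, hI3]
      · simp [Function.update_of_ne, hI4]
      · simp [Function.update_of_ne, hI5]) (s 0) s rfl
      ⟨⟨0, by simp [h2], by simp⟩, rfl, h3, h4, h5⟩
  simp only [List.length_nil, Nat.add_zero] at hr2
  subst hr2
  -- move `x` to stack 0
  obtain ⟨s2, e2, b1, b0, bm⟩ := exec_moveAll A (show (1 : ℕ) ≠ 0 by norm_num) s1
  rw [a1, a0, List.append_nil] at b0
  have b2 : s2 2 = List.replicate (s 0).length true := by
    rw [bm 2 (by norm_num) (by norm_num), hr1]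
  -- push
  have e3 := exec_push A s2 2 true
  have e4 := exec_push A (Function.update s2 2 (true :: s2 2)) 2 true
  rw [Function.update_self, Function.update_idem] at e4
  set s4 := Function.update s2 2 (true :: true :: s2 2) with hs4
  have c2 : s4 2 = List.replicate ((s 0).length + 2) true := by
    rw [hs4, Function.update_self, b2, List.replicate_succ, List.replicate_succ]
  have c0 : s4 0 = (s 1).reverse := by rw [hs4, Function.update_of_ne (by norm_num), b0]
  have c3 : s4 3 = [] := by
    rw [hs4, Function.update_of_ne (by norm_num), bm 3 (by norm_num) (by norm_num), a3]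
  have c4 : s4 4 = [] := by
    rw [hs4, Function.update_of_ne (by norm_num), bm 4 (by norm_num) (by norm_num), a4]
  have c5 : s4 5 = [] := by
    rw [hs4, Function.update_of_ne (by norm_num), bm 5 (by norm_num) (by norm_num), a5]
  -- squarings
  obtain ⟨s5, e5, d2, d3, d4, d5, d0, d1⟩ := exec_sqs A c s4 ((s 0).length + 2) (by omega)
    c2 c3 c4 c5
  set N := ((s 0).length + 2) ^ 2 ^ c with hN
  have e6 := exec_push A s5 2 false
  set s6 := Function.update s5 2 (false :: s5 2) with hs6
  have f00 : s6 0 = (s 1).reverse := by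
    rw [hs6, Function.update_of_ne (by norm_num), d0, c0]
  -- second loop
  obtain ⟨s7, e7, f0, f2⟩ := exec_loop_inv (A := A) (i := 0) (N := 8)
    (p := Prog.cond 0 Prog.skip
      (seqs [Prog.pop 0, Prog.push 2 false, Prog.push 2 true])
      (seqs [Prog.pop 0, Prog.push 2 true, Prog.push 2 true]))
    (Inv := fun l t => l.reverse.flatMap (fun b => [true, b]) ++ t 2 =
      (s 1).flatMap (fun b => [true, b]) ++ false :: List.replicate N true) (by
      intro b l t ht hI
      refine ⟨Function.update (Function.update t 0 l) 2 (true :: b :: t 2), ?_, ?_, ?_⟩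
      · apply exec_cond_cons ht
        have g1 := exec_pop A t 0
        rw [ht, List.tail_cons] at g1
        have g2 := exec_push A (Function.update t 0 l) 2 b
        have g3 := exec_push A (Function.update (Function.update t 0 l) 2 (b :: t 2)) 2 true
        simp only [Function.update_of_ne (show (2 : ℕ) ≠ 0 by norm_num)] at g2
        rw [Function.update_self, Function.update_idem] at g3
        have g4 := exec_seqs_cons g1 (exec_seqs_cons g2 (exec_seqs_cons g3 (exec_seqs_nil _ _)))
        cases b
        · simpa using g4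
        · simpa using g4
      · simp [Function.update_of_ne]
      · rw [Function.update_self]
        rw [← hI]
        simp) (s6 0) s6 rfl (by
        rw [f00, List.reverse_reverse, hs6, Function.update_self, d2])
  simp only [List.reverse_nil, List.flatMap_nil, List.nil_append] at f2
  have e8 := exec_push A s7 2 false
  set s8 := Function.update s7 2 (false :: s7 2) with hs8
  obtain ⟨s9, e9, g2, gj⟩ := exec_pushes A 2 e s8
  refine ⟨s9, ?_, ?_, ?_⟩
  · refine (exec_seqs_cons e1 (exec_seqs_cons e2 (exec_seqs_cons e3 (exec_seqs_cons e4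
      (exec_seqs_cons e5 (exec_seqs_cons e6 (exec_seqs_cons e7 (exec_seqs_cons e8
      (exec_seqs_cons e9 (exec_seqs_nil _ _)))))))))).mono ?_
    rw [f00, List.length_reverse, a1, codeTime2, ← hN]
    ring_nf
    omega
  · rw [g2, hs8, Function.update_self, f2]
    rfl
  · rw [gj 0 (by norm_num), hs8, Function.update_of_ne (by norm_num), f0]

/-- The heuristic algorithm. -/
def heur (e c : ℕ) : Prog :=
  Prog.seq (mkCode2 e c) (Prog.seq (Prog.push 2 true) (Prog.ask 2 (Prog.push 0 true) Prog.skip))

theorem run_heur (A : Oracle) (e c : ℕ) (y x : List Bool) :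
    ∃ s', run A (heur e c) [y, x] (codeTime2 e c y.length x.length + 5) = ([], s') ∧
      ((s' 0).head? = some true ↔ A (true :: code e x ((y.length + 2) ^ 2 ^ c)) = true) := by
  obtain ⟨s1, h1, h2, h3⟩ := exec_mkCode2 A e c (fun i => [y, x].getD i []) (by simp) (by simp)
    (by simp) (by simp)
  have e1 := exec_push A s1 2 true
  set s2 := Function.update s1 2 (true :: s1 2) with hs2
  have g2 : s2 2 = true :: code e x ((y.length + 2) ^ 2 ^ c) := by
    rw [hs2, Function.update_self, h2]
    simp
  have g0 : s2 0 = [] := by rw [hs2, Function.update_of_ne (by norm_num), h3]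
  have h1' : Exec A (mkCode2 e c) (fun i => [y, x].getD i []) s1
      (codeTime2 e c y.length x.length) := by simpa using h1
  by_cases h : A (s2 2) = true
  · refine ⟨Function.update s2 0 (true :: s2 0), run_of_exec ?_, ?_⟩
    · exact (h1'.seq (e1.seq (exec_ask (N := 1) (by
        rw [if_pos h]; exact exec_push A s2 0 true)))).mono (by omega)
    · rw [Function.update_self]
      rw [g2] at h
      simp [h]
  · refine ⟨s2, run_of_exec ?_, ?_⟩
    · exact (h1'.seq (e1.seq (exec_ask (N := 1) (by
        rw [if_neg h]; exact exec_skip A s2)))).mono (by omega)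
    · rw [g0]
      rw [g2] at h
      simp [h]

theorem polyTime_heur (A : Oracle) (e c : ℕ) : PolyTime A 2 (heur e c) := by
  refine ⟨Polynomial.C c * (20 * ((Polynomial.X + 2) ^ 2 ^ c + 1) *
      ((Polynomial.X + 2) ^ 2 ^ c + 1) + 1) + 20 * Polynomial.X + 20 * Polynomial.X +
      Polynomial.C (2 * e + 45), ?_⟩
  intro xs hxs
  obtain ⟨y, x, rfl⟩ := List.length_eq_two.1 hxs
  obtain ⟨s', h1, _⟩ := run_heur A e c y x
  have h2 : (run A (heur e c) [y, x] (codeTime2 e c y.length x.length + 5)).1 = [] := by
    rw [h1]
  rw [run_of_halted h2]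
  · exact h2
  · have h3 : totalLength [y, x] = y.length + x.length := by simp [totalLength]
    rw [h3]
    simp only [Polynomial.eval_add, Polynomial.eval_mul, Polynomial.eval_X,
        Polynomial.eval_ofNat, Polynomial.eval_C, Polynomial.eval_pow, Polynomial.eval_one,
        codeTime2]
    have h4 : (y.length + 2) ^ 2 ^ c ≤ (y.length + x.length + 2) ^ 2 ^ c :=
      Nat.pow_le_pow_left (by omega) _
    have h5 : c * (20 * ((y.length + 2) ^ 2 ^ c + 1) * ((y.length + 2) ^ 2 ^ c + 1) + 1) ≤
        c * (20 * ((y.length + x.length + 2) ^ 2 ^ c + 1) *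
          ((y.length + x.length + 2) ^ 2 ^ c + 1) + 1) := by
      gcongr
    omega

theorem accepts_heur (A : Oracle) (e c : ℕ) (y x : List Bool) :
    Accepts A (heur e c) [y, x] ↔ A (true :: code e x ((y.length + 2) ^ 2 ^ c)) = true := by
  obtain ⟨s', h1, h2⟩ := run_heur A e c y x
  have h3 : (run A (heur e c) [y, x] (codeTime2 e c y.length x.length + 5)).1 = [] := by
    rw [h1]
  rw [accepts_iff_of_halted h3]
  unfold AcceptsIn
  rw [h1]
  simp only [true_and]
  exact h2

end Pool.Agent.H9
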