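import Mathlib
import Pool.Agent.H9.AvgParam
import Pool.Agent.H9.Heur

/-!
The diagonal construction.
-/

set_option autoImplicit false

namespace Pool.Agent.H9

open Classical

/-! ### Locality of the requirements -/

theorem lang3_congr {A A' : Oracle} {k Λ : ℕ} {y : List Bool} (hΛ : (k + 2) * y.length + 1 ≤ Λ)
    (h : ∀ w : List Bool, w.length ≤ Λ → A w = A' w) : y ∈ Lang3 A k ↔ y ∈ Lang3 A' k := by
  have h0 : ∀ B : Oracle, y ∈ Lang3 B k ↔ Alt true (k + 1) y.length
      (fun us => B (false :: (y :: us).flatten.reverse) = true) := fun B => Iff.rfl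
  rw [h0, h0, Alt_eq, Alt_eq]
  apply AltL_congr
  intro us hus
  have hpath : y :: us ∈ paths (List.replicate (k + 2) y.length) := by
    rw [mem_paths, List.replicate_succ, List.map_cons, hus]
  rw [h]
  rw [List.length_cons, List.length_reverse, length_flatten_of_paths hpath]
  simpa using hΛ

theorem alt_accepts_congr {A A' : Oracle} {e : Bool} {k q t Λ : ℕ} {p : Prog} {y : List Bool}
    (hΛ : y.length + k * q + t ≤ Λ) (h : ∀ w : List Bool, w.length ≤ Λ → A w = A' w) :
    Alt e k q (fun us => AcceptsIn A p (y :: us) t) ↔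
      Alt e k q (fun us => AcceptsIn A' p (y :: us) t) := by
  rw [Alt_eq, Alt_eq]
  apply AltL_congr
  intro us hus
  unfold AcceptsIn
  rw [run_congr (A := A) (B := A') h (by rw [totalLength_cons_path hus]; exact hΛ)]

/-- Length bound for the requirement of the heuristic `h` at `n`. -/
def Hr.len (g : ℕ → Qn) (h : Hr) (n : ℕ) : ℕ :=
  (g h.1).bnd (h.ax n) + h.1 + 2 * h.ax n + h.N n + 3

theorem Hr.bad_congr {g : ℕ → Qn} {h : Hr} {A A' : Oracle} {n Λ : ℕ} (hΛ : h.len g n ≤ Λ)
    (hA : ∀ w : List Bool, w.length ≤ Λ → A w = A' w) : h.bad g A n = h.bad g A' n := by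
  unfold Hr.bad
  ext r
  rw [mem_sub, mem_sub]
  apply and_congr_right
  intro hr
  rw [mem_strings] at hr
  unfold Hr.len at hΛ
  have hax : totalLength (inp n r) + h.a n ≤ h.ax n := by
    rw [totalLength_inp, hr]
    exact le_rfl
  have hstr : h.str A' n r = h.str A n r := by
    unfold Hr.str
    rw [run_congr (A := A) (B := A') hA (by omega)]
  have hlen : (h.str A n r).length ≤ h.ax n := (length_run _ _ _ _ 0).trans hax
  unfold Hr.wrong
  rw [hstr]
  have h1 : A (true :: code h.1 (h.str A n r) (h.N n)) =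
      A' (true :: code h.1 (h.str A n r) (h.N n)) := by
    apply hA
    rw [List.length_cons, code_length]
    omega
  have h2 : (g h.1).ans A (h.str A n r) ↔ (g h.1).ans A' (h.str A n r) := by
    apply Qn.ans_congr
    intro v hv
    apply hA
    have := (g h.1).bnd_mono hlen
    omega
  rw [h1, h2]

/-! ### The requirements -/

/-- Machine requirements: program, number of blocks, numbers of the bounds for the length of the
blocks and the running time, type of the first block. -/
abbrev Mr := Prog × ℕ × ℕ × ℕ × Bool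

/-- The machine `r` does not decide the diagonal language. -/
def Fails (FT : ℕ → ℕ → ℕ) (r : Mr) (A : Oracle) : Prop :=
  ∃ y : List Bool, ¬ (Alt r.2.2.2.2 r.2.1 (FT r.2.2.1 y.length)
    (fun us => AcceptsIn A r.1 (y :: us) (FT r.2.2.2.1 y.length)) ↔ y ∈ Lang3 A r.2.1)

/-- The first `s` heuristics rarely err between `a` and `b`. -/
def Good (g : ℕ → Qn) (hs : ℕ → Hr) (s a b : ℕ) (A : Oracle) : Prop :=
  ∀ i < s, (hs i).ok g → ∀ n, a ≤ n → n < b →
    n ^ s * ((hs i).bad g A n).card ≤ 2 ^ ((hs i).m n)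

/-- A partial table. -/
structure Stt where
  /-- the table -/
  D : Tab
  /-- the length below which the table is fixed -/
  n : ℕ
  /-- the number of the first world that sees the real seeds -/
  m : ℕ
  coh : ∀ N, m ≤ N → ∀ v : List Bool, v.length < n → (D v).2 N = (D v).1

theorem step_exists (FT : ℕ → ℕ → ℕ)
    (hFT : ∀ i, ∀ r > 0, ∃ n1, ∀ n ≥ n1, FT i n ≤ 2 ^ (n / (r * Nat.log 2 n)))
    (g : ℕ → Qn) (hs : ℕ → Hr) (r : Mr) (s : ℕ) (st : Stt) :
    ∃ st' : Stt, (∀ v : List Bool, v.length < st.n → st'.D v = st.D v) ∧ st.n < st'.n ∧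
      st.m < st'.m ∧ ∀ D : Tab, (∀ v : List Bool, v.length < st'.n → D v = st'.D v) →
        Fails FT r (world g D) ∧ Good g hs s st.m st'.m (world g D) := by
  obtain ⟨d, hd⟩ : ∃ d, ∀ i < s, (g (hs i).1).k ≤ d :=
    ⟨∑ i ∈ Finset.range s, (g (hs i).1).k, fun i hi =>
      Finset.single_le_sum (f := fun i => (g (hs i).1).k) (fun _ _ => Nat.zero_le _)
        (Finset.mem_range.2 hi)⟩
  obtain ⟨μ, n, J, σ, T, M, hM, hJ, hn, hσ1, hσ2, hσ3, hT1, hT2, hTμ, hn3, hnμ, hn0, hthr, hm0⟩ :=
    exists_params r.2.1 d s st.n st.m (FT r.2.2.1) (FT r.2.2.2.1) (hFT _) (hFT _)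
  let S : SP := ⟨r.2.1, μ, n, (2 * d + s + 5) * μ, J, st.D, st.n⟩
  have hSthr : S.thr (S.J + 1) = M := hM.symm
  have hcard : 2 ^ (S.thr (S.J + 1)) * S.Ub.card ≤ 2 ^ (σ + 1) := by
    rw [hSthr]
    calc 2 ^ M * S.Ub.card ≤ 2 ^ M * 2 ^ ((S.k + 1) * S.n + 2 * S.μ + S.k + 1) :=
          Nat.mul_le_mul_left _ S.card_Ub_le
      _ = 2 ^ (M + ((S.k + 1) * S.n + 2 * S.μ + S.k + 1)) := by rw [← pow_add]
      _ ≤ 2 ^ (σ + 1) := Nat.pow_le_pow_right (by norm_num) hσ2
  obtain ⟨y0, X, hy0, hfail, hgood⟩ := stage_exists g hs S (σ := σ) (d := d) (s := s) (m0 := st.m)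
    (q := FT r.2.2.1 n) (t := FT r.2.2.2.1 n) (T := T) r.2.2.2.2 r.1 hJ rfl hn (by rw [hSthr]; exact hσ1)
    hcard hσ3 st.coh hd hT1 hT2 hTμ hn3 hnμ hn0 (by rw [hSthr]; exact hthr)
  rw [hSthr] at hgood
  obtain ⟨L, hL⟩ : ∃ L, ∀ i < s, ∀ n' < M, (hs i).len g n' ≤ L :=
    ⟨∑ i ∈ Finset.range s, ∑ n' ∈ Finset.range M, (hs i).len g n', fun i hi n' hn' =>
      le_trans (Finset.single_le_sum (f := fun n' => (hs i).len g n') (fun _ _ => Nat.zero_le _)
        (Finset.mem_range.2 hn')) (Finset.single_le_sum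
        (f := fun i => ∑ n' ∈ Finset.range M, (hs i).len g n') (fun _ _ => Nat.zero_le _)
        (Finset.mem_range.2 hi))⟩
  let D1 : Tab := S.tab y0 (mem X)
  let n1 := L + M + (r.2.1 + 2) * n + 1
  have hcoh : ∀ N, M ≤ N → ∀ v : List Bool, v.length < n1 → (D1 v).2 N = (D1 v).1 := by
    intro N hN v _
    show (S.tab y0 (mem X) v).2 N = (S.tab y0 (mem X) v).1
    unfold SP.tab
    by_cases h1 : v.length < S.n0
    · rw [if_pos h1]
      exact st.coh N (by omega) v h1
    · rw [if_neg h1]
      by_cases h2 : v.length = (S.k + 2) * S.n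
      · rw [if_pos h2]
        simp only
        have h3 : S.cvN y0 (mem X) N = S.cv (mem X) 0 := by
          funext u
          unfold SP.cvN SP.copyOf
          have h4 : S.J + 1 ≤ S.lvl N := S.le_lvl le_rfl (by rw [hSthr]; exact hN)
          rw [if_neg (fun h => by omega)]
        rw [h3]
      · rw [if_neg h2]
  refine ⟨⟨D1, n1, M, hcoh⟩, ?_, ?_, hm0, ?_⟩
  · intro v hv
    show S.tab y0 (mem X) v = st.D v
    unfold SP.tab
    rw [if_pos (show v.length < S.n0 from hv)]
  · show st.n < L + M + (r.2.1 + 2) * n + 1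
    omega
  · intro D hD
    have hw : ∀ w : List Bool, w.length ≤ n1 → world g D w = world g D1 w :=
      world_congr hD
    have hw' : ∀ w : List Bool, w.length ≤ n1 → world g D1 w = world g D w :=
      fun w h => (hw w h).symm
    constructor
    · refine ⟨y0, fun h => hfail ?_⟩
      have hlen : y0.length = n := hy0
      rw [hlen] at h
      have e1 := alt_accepts_congr (A := world g D1) (A' := world g D) (e := r.2.2.2.2)
        (k := r.2.1) (q := FT r.2.2.1 n) (t := FT r.2.2.2.1 n) (p := r.1) (y := y0) (Λ := n1)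
        (by rw [hlen]; show _ ≤ L + M + (r.2.1 + 2) * n + 1; omega) hw'
      have e2 := lang3_congr (A := world g D1) (A' := world g D) (k := r.2.1) (y := y0) (Λ := n1)
        (by rw [hlen]; show _ ≤ L + M + (r.2.1 + 2) * n + 1; omega) hw'
      exact e1.trans (h.trans e2.symm)
    · intro i hi hok n' hn1' hn2'
      have hn2'' : n' < M := hn2'
      have e3 : (hs i).bad g (world g D) n' = (hs i).bad g (world g D1) n' := by
        apply Hr.bad_congr (Λ := n1) _ hw
        have := hL i hi n' hn2''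
        show _ ≤ L + M + (r.2.1 + 2) * n + 1
        omega
      rw [e3]
      exact hgood i hi hok n' hn1' hn2''

/-- **The diagonal construction.** -/
theorem exists_table (FT : ℕ → ℕ → ℕ)
    (hFT : ∀ i, ∀ r > 0, ∃ n1, ∀ n ≥ n1, FT i n ≤ 2 ^ (n / (r * Nat.log 2 n)))
    (g : ℕ → Qn) (hs : ℕ → Hr) (rs : ℕ → Mr) :
    ∃ (D : Tab) (m : ℕ → ℕ), (∀ s, s ≤ m s) ∧ (∀ s, Fails FT (rs s) (world g D)) ∧
      ∀ s, Good g hs s (m s) (m (s + 1)) (world g D) := by
  choose nxt hnxt1 hnxt2 hnxt3 hnxt4 using fun (s : ℕ) (st : Stt) =>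
    step_exists FT hFT g hs (rs s) s st
  let st0 : Stt := ⟨fun _ => (false, fun _ => false), 0, 0, fun _ _ _ _ => rfl⟩
  let seq : ℕ → Stt := fun s => Nat.rec st0 (fun s st => nxt s st) s
  have hseq : ∀ s, seq (s + 1) = nxt s (seq s) := fun s => rfl
  have hn : ∀ s, s ≤ (seq s).n := by
    intro s
    induction s with
    | zero => exact Nat.zero_le _
    | succ s ih =>
      rw [hseq]
      have := hnxt2 s (seq s)
      omega
  have hm : ∀ s, s ≤ (seq s).m := by
    intro s
    induction s with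
    | zero => exact Nat.zero_le _
    | succ s ih =>
      rw [hseq]
      have := hnxt3 s (seq s)
      omega
  have hnmono : ∀ s t, s ≤ t → (seq s).n ≤ (seq t).n := by
    intro s t hst
    induction t, hst using Nat.le_induction with
    | base => exact le_rfl
    | succ t _ ih =>
      rw [hseq]
      have := hnxt2 t (seq t)
      omega
  have hag : ∀ s t, s ≤ t → ∀ v : List Bool, v.length < (seq s).n →
      (seq t).D v = (seq s).D v := by
    intro s t hst
    induction t, hst using Nat.le_induction with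
    | base => intro v _; rfl
    | succ t hst ih =>
      intro v hv
      rw [hseq, hnxt1 t (seq t) v (lt_of_lt_of_le hv (hnmono s t hst))]
      exact ih v hv
  let D : Tab := fun v => (seq (v.length + 1)).D v
  have hD : ∀ s, ∀ v : List Bool, v.length < (seq s).n → D v = (seq s).D v := by
    intro s v hv
    show (seq (v.length + 1)).D v = (seq s).D v
    rcases Nat.le_total s (v.length + 1) with h | h
    · exact hag s _ h v hv
    · refine (hag _ s h v ?_).symm
      have := hn (v.length + 1)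
      omega
  refine ⟨D, fun s => (seq s).m, hm, fun s => ?_, fun s => ?_⟩
  · exact (hnxt4 s (seq s) D (hD (s + 1))).1
  · exact (hnxt4 s (seq s) D (hD (s + 1))).2

end Pool.Agent.H9
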