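import Mathlib
import Pool.Agent.H9.Machine

/-!
Time-bounded alternating classes and outputs of programs.
-/

set_option autoImplicit false

namespace Pool.Agent.H9

/-- With oracle `A`, the program `G` halts on the inputs `xs` with the string `y` on stack `0`. -/
def Outputs (A : Oracle) (G : Prog) (xs : List (List Bool)) (y : List Bool) : Prop :=
  ∃ t, (run A G xs t).1 = [] ∧ (run A G xs t).2 0 = y

/-- The languages decided relative to `A` by alternating machines with `k` blocks of length
`q(|x|)`, the first one existential if `e = true` and universal if `e = false`, and running time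
`t(|x|)`. -/
def AltTime (A : Oracle) (e : Bool) (k : ℕ) (q t : ℕ → ℕ) : Set (Set (List Bool)) :=
  {L | ∃ p : Prog, ∀ x : List Bool, x ∈ L ↔
    Alt e k (q x.length) (fun us => AcceptsIn A p (x :: us) (t x.length))}

end Pool.Agent.H9
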