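import Mathlib
import Pool.Agent.H9.AvgDiag
import Pool.Agent.H9.AvgDefs

/-!
Conclusion: the hierarchy is infinite and all its problems are easy on average.
-/

set_option autoImplicit false

namespace Pool.Agent.H9

open Classical

theorem outputs_unique {A : Oracle} {G : Prog} {xs : List (List Bool)} {y : List Bool} {a : ℕ}
    (ha : (run A G xs a).1 = []) (h : Outputs A G xs y) : y = (run A G xs a).2 0 := by
  obtain ⟨t, h1, h2⟩ := h
  rcases Nat.le_total a t with h3 | h3
  · rw [← h2, run_of_halted ha h3]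
  · rw [← h2, run_of_halted h1 h3]

theorem poly_small (P : Polynomial ℕ) : ∀ r > 0, ∃ n1, ∀ n ≥ n1,
    P.eval n ≤ 2 ^ (n / (r * Nat.log 2 n)) := by
  intro r hr
  obtain ⟨c, hc⟩ := poly_le_pow P
  obtain ⟨x0, hx0⟩ := sq_le_two_pow (2 * 2 ^ c * r)
  refine ⟨2 ^ (x0 + 1), fun n hn => ?_⟩
  have hn0 : n ≠ 0 := by
    have := Nat.one_le_two_pow (n := x0 + 1)
    omega
  have hl : x0 + 1 ≤ Nat.log 2 n := Nat.le_log_of_pow_le (by norm_num) hn
  obtain ⟨l, hl'⟩ : ∃ l, l = Nat.log 2 n := ⟨_, rfl⟩
  have h1 : n < 2 ^ (l + 1) := by rw [hl']; exact Nat.lt_pow_succ_log_self (by norm_num) n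
  have h2 : 2 ^ l ≤ n := by rw [hl']; exact Nat.pow_log_le_self 2 hn0
  rw [← hl'] at hl ⊢
  have h3 : 2 * 2 ^ c * r * (l + 1) ^ 2 ≤ 2 ^ l := hx0 l (by omega)
  have h4 : n + 2 ≤ 2 ^ (l + 2) := by
    rw [pow_succ 2 (l + 1)]
    have := Nat.one_le_two_pow (n := l + 1)
    have : 2 ^ 1 ≤ 2 ^ (l + 1) := Nat.pow_le_pow_right (by norm_num) (by omega)
    omega
  calc P.eval n ≤ (n + 2) ^ 2 ^ c := hc n
    _ ≤ (2 ^ (l + 2)) ^ 2 ^ c := Nat.pow_le_pow_left h4 _
    _ = 2 ^ ((l + 2) * 2 ^ c) := by rw [← pow_mul]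
    _ ≤ 2 ^ (n / (r * l)) := by
        apply Nat.pow_le_pow_right (by norm_num)
        rw [Nat.le_div_iff_mul_le (by apply Nat.mul_pos hr; omega)]
        refine le_trans ?_ (h3.trans h2)
        calc (l + 2) * 2 ^ c * (r * l) = (2 ^ c * r) * ((l + 2) * l) := by ring
          _ ≤ (2 ^ c * r) * (2 * (l + 1) ^ 2) := Nat.mul_le_mul_left _ (by nlinarith)
          _ = _ := by ring

theorem countable_poly : Countable (Polynomial ℕ) := by
  rw [← Cardinal.mk_le_aleph0_iff]
  refine (Polynomial.cardinalMk_le_max (R := ℕ)).trans ?_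
  simp

/-- A polynomial that bounds all lengths of a question. -/
theorem bnd_poly (q : Qn) : ∃ P : Polynomial ℕ, ∀ n, q.bnd n = P.eval n := by
  refine ⟨q.2.2.1.comp (Polynomial.X + Polynomial.C q.k * q.2.1) + Polynomial.X +
    Polynomial.C q.k * q.2.1, fun n => ?_⟩
  unfold Qn.bnd Qn.t Qn.q
  simp [Polynomial.eval_comp]

theorem average (T : ℕ → ℕ → ℕ)
    (hT : ∀ i, ∀ r > 0, ∃ n0, ∀ n ≥ n0, T i n ≤ 2 ^ (n / (r * Nat.log 2 n))) :
    ∃ A : Oracle,
      (∀ k, SigmaP A k ⊂ SigmaP A (k + 1)) ∧
      (∀ k, ∃ L ∈ SigmaP A (k + 1), ∀ e i j, L ∉ AltTime A e k (T i) (T j)) ∧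
      ∀ k, ∀ L ∈ SigmaP A k, ∀ (G : Prog) (m : Polynomial ℕ), PolyTime A 2 G →
        ∃ B : Prog, PolyTime A 2 B ∧ ∀ c, ∃ n0, ∀ n ≥ n0,
          n ^ c * Set.ncard {r : List Bool | r.length = m.eval n ∧ ∃ x : List Bool,
            Outputs A G [List.replicate n true, r] x ∧
            ¬ (Accepts A B [List.replicate n true, x] ↔ x ∈ L)} ≤ 2 ^ (m.eval n) := by
  have hcP : Countable (Polynomial ℕ) := countable_poly
  have hcQ : Countable Qn := inferInstance
  have hcH : Countable Hr := inferInstance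
  have hcM : Countable Mr := inferInstance
  have hneQ : Nonempty Qn := ⟨(Prog.skip, 0, 0, 0)⟩
  have hneH : Nonempty Hr := ⟨(0, Prog.skip, 0, 0, 0)⟩
  have hneM : Nonempty Mr := ⟨(Prog.skip, 0, 0, 0, true)⟩
  obtain ⟨g, hg⟩ := exists_surjective_nat Qn
  obtain ⟨hs, hhs⟩ := exists_surjective_nat Hr
  obtain ⟨rs, hrs⟩ := exists_surjective_nat Mr
  obtain ⟨φ, hφ⟩ := exists_surjective_nat (ℕ ⊕ Polynomial ℕ)
  let FT : ℕ → ℕ → ℕ := fun i => Sum.elim (fun j => T j) (fun P n => P.eval n) (φ i)
  have hFT : ∀ i, ∀ r > 0, ∃ n1, ∀ n ≥ n1, FT i n ≤ 2 ^ (n / (r * Nat.log 2 n)) := by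
    intro i r hr
    show ∃ n1, ∀ n ≥ n1, Sum.elim (fun j => T j) (fun (P : Polynomial ℕ) n => P.eval n) (φ i) n ≤
      2 ^ (n / (r * Nat.log 2 n))
    cases φ i with
    | inl j => exact hT j r hr
    | inr P => exact poly_small P r hr
  obtain ⟨D, m, hm, hfail, hgood⟩ := exists_table FT hFT g hs rs
  set A : Oracle := world g D with hA
  -- no machine decides the diagonal language
  have hno : ∀ (e : Bool) (k : ℕ) (a b : ℕ ⊕ Polynomial ℕ) (p : Prog),
      ¬ ∀ x : List Bool, x ∈ Lang3 A k ↔
        Alt e k (Sum.elim (fun j => T j) (fun (P : Polynomial ℕ) n => P.eval n) a x.length)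
          (fun us => AcceptsIn A p (x :: us)
            (Sum.elim (fun j => T j) (fun (P : Polynomial ℕ) n => P.eval n) b x.length)) := by
    intro e k a b p hall
    obtain ⟨ia, rfl⟩ := hφ a
    obtain ⟨ib, rfl⟩ := hφ b
    obtain ⟨s, hs'⟩ := hrs (p, k, ia, ib, e)
    obtain ⟨y, hy⟩ := hfail s
    rw [hs'] at hy
    exact hy (hall y).symm
  refine ⟨A, ?_, ?_, ?_⟩
  · intro k
    refine ⟨sigmaP_mono A k, fun hsub => ?_⟩
    obtain ⟨q, p, ⟨TT, hTT⟩, hL⟩ := hsub (lang3_mem A k)
    apply hno true k (Sum.inr q) (Sum.inr (TT.comp (Polynomial.X + Polynomial.C k * q))) p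
    intro x
    rw [hL x]
    simp only [Sum.elim_inr]
    rw [Alt_eq, Alt_eq]
    apply AltL_congr
    intro us hus
    have h1 : totalLength (x :: us) = x.length + k * q.eval x.length := totalLength_cons_path hus
    have hlen : us.length = k := by
      have := congrArg List.length hus
      simpa using this
    have h2 := hTT (x :: us) (by simp [hlen])
    have h3 : (TT.comp (Polynomial.X + Polynomial.C k * q)).eval x.length =
        TT.eval (totalLength (x :: us)) := by
      rw [h1]
      simp [Polynomial.eval_comp]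
    rw [h3]
    exact accepts_iff_of_halted h2
  · intro k
    refine ⟨Lang3 A k, lang3_mem A k, ?_⟩
    rintro e i j ⟨p, hp⟩
    exact hno e k (Sum.inl i) (Sum.inl j) p hp
  · rintro k L ⟨q, p, ⟨TT, hTT⟩, hL⟩ G mP ⟨TG, hTG⟩
    obtain ⟨e, he⟩ := hg (p, q, TT, k)
    -- the question type decides `L`
    have hans : ∀ x, x ∈ L ↔ (g e).ans A x := by
      intro x
      rw [hL x, he]
      unfold Qn.ans
      rw [Alt_eq, Alt_eq]
      apply AltL_congr
      intro us hus
      have h1 : totalLength (x :: us) = x.length + k * q.eval x.length :=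
        totalLength_cons_path hus
      have hlen : us.length = k := by
        have := congrArg List.length hus
        simpa using this
      have h2 := hTT (x :: us) (by simp [hlen])
      have h3 : Qn.t (p, q, TT, k) x.length = TT.eval (totalLength (x :: us)) := by
        rw [h1]; rfl
      rw [h3]
      exact accepts_iff_of_halted h2
    -- the exponent
    obtain ⟨P1, hP1⟩ := bnd_poly (g e)
    obtain ⟨c0, hc0⟩ := poly_le_pow
      ((P1.comp (Polynomial.X + mP + TG.comp (Polynomial.X + mP)) + 2) ^ 2)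
    obtain ⟨i, hi⟩ := hhs (e, G, mP, TG, c0)
    have hok : (hs i).ok g := by
      intro n
      rw [hi]
      show ((g e).bnd (n + mP.eval n + TG.eval (n + mP.eval n)) + 2) ^ 2 ≤ (n + 2) ^ 2 ^ c0
      rw [hP1]
      have := hc0 n
      simpa [Polynomial.eval_comp] using this
    refine ⟨heur e c0, polyTime_heur A e c0, fun c => ?_⟩
    refine ⟨m (i + c + 1) + 1, fun n hn => ?_⟩
    -- the stage
    obtain ⟨t, ht1, ht2, ht3⟩ : ∃ t, i + c + 1 ≤ t ∧ m t ≤ n ∧ n < m (t + 1) := by
      have hex : ∃ t, n < m t := ⟨n + 1, by have := hm (n + 1); omega⟩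
      have hfind := Nat.find_spec hex
      set t' := Nat.find hex with ht'
      by_cases hle : t' ≤ i + c + 1
      · -- use a later stage: look for the first stage after `i + c + 1`
        have hex2 : ∃ t, i + c + 1 < t ∧ n < m t :=
          ⟨n + i + c + 2, by omega, by have := hm (n + i + c + 2); omega⟩
        have h2 := Nat.find_spec hex2
        have h3 : ∀ u < Nat.find hex2, ¬ (i + c + 1 < u ∧ n < m u) := fun u hu =>
          Nat.find_min hex2 hu
        refine ⟨Nat.find hex2 - 1, by omega, ?_, ?_⟩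
        · by_contra hcon
          by_cases h4 : i + c + 1 < Nat.find hex2 - 1
          · exact h3 _ (by omega) ⟨h4, by omega⟩
          · have h5 : Nat.find hex2 - 1 = i + c + 1 := by omega
            rw [h5] at hcon
            omega
        · have h6 : Nat.find hex2 - 1 + 1 = Nat.find hex2 := by omega
          rw [h6]
          exact h2.2
      · refine ⟨t' - 1, by omega, ?_, ?_⟩
        · by_contra hcon
          exact Nat.find_min hex (m := t' - 1) (by omega) (by omega)
        · have h6 : t' - 1 + 1 = t' := by omega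
          rw [h6]
          exact hfind
    have hgd := hgood t i (by omega) hok n ht2 ht3
    have hcount : Set.ncard {r : List Bool | r.length = mP.eval n ∧ ∃ x : List Bool,
        Outputs A G [List.replicate n true, r] x ∧
          ¬ (Accepts A (heur e c0) [List.replicate n true, x] ↔ x ∈ L)} ≤
        ((hs i).bad g A n).card := by
      rw [← Set.ncard_coe_finset]
      apply Set.ncard_le_ncard _ (Finset.finite_toSet _)
      rintro r ⟨hr1, x, hx, hne⟩
      rw [Finset.mem_coe]
      have hr2 : r.length = (hs i).m n := by rw [hi]; exact hr1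
      refine mem_sub.2 ⟨mem_strings.2 hr2, ?_⟩
      have hhalt : (run A G (inp n r) (TG.eval (n + mP.eval n))).1 = [] := by
        have := hTG (inp n r) (by simp [inp])
        rw [totalLength_inp, hr1] at this
        exact this
      have hxe : x = (hs i).str A n r := by
        rw [hi]
        exact outputs_unique hhalt hx
      have hN : (hs i).N n = ((List.replicate n true).length + 2) ^ 2 ^ c0 := by
        rw [hi, List.length_replicate]
        rfl
      have hi1 : (hs i).1 = e := by rw [hi]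
      unfold Hr.wrong
      rw [← hxe, hN, hi1]
      intro h
      apply hne
      rw [accepts_heur, hans x]
      exact h
    calc n ^ c * Set.ncard {r : List Bool | r.length = mP.eval n ∧ ∃ x : List Bool,
        Outputs A G [List.replicate n true, r] x ∧
          ¬ (Accepts A (heur e c0) [List.replicate n true, x] ↔ x ∈ L)}
        ≤ n ^ t * ((hs i).bad g A n).card :=
          Nat.mul_le_mul (Nat.pow_le_pow_right (by omega) (by omega)) hcount
      _ ≤ 2 ^ ((hs i).m n) := hgd
      _ = 2 ^ (mP.eval n) := by rw [hi]; rfl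

end Pool.Agent.H9
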