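import Mathlib
import Pool.Agent.H9.Layers

/-!
Forcing one requirement: hidden Sipser functions shared by two oracles.
-/

set_option autoImplicit false

namespace Pool.Agent.H9

open Classical

/-- The oracle number `i` determined by the table of seeds `D`. -/
noncomputable def ora (g : ℕ → Prog × Polynomial ℕ × Polynomial ℕ) (D : List Bool → ℕ → Bool)
    (i : ℕ) : Oracle := cl g (fun w => D w i)

/-- The requirement: the machine `p` with bounds `q`, `T` does not recognise the pointer walk
language of level `k + 1` relative to the join of the oracles number `i` and `j`. -/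
def Req (g : ℕ → Prog × Polynomial ℕ × Polynomial ℕ) (i j k : ℕ) (q : Polynomial ℕ) (p : Prog)
    (T : Polynomial ℕ) (D : List Bool → ℕ → Bool) : Prop :=
  i ≠ j → ∃ n : ℕ, ¬ (AltL true (List.replicate (k + 1) n)
      (fun us => val (join (ora g D i) (ora g D j)) n us) ↔
    AltL true (List.replicate k (q.eval n)) (fun us =>
      AcceptsIn (join (ora g D i) (ora g D j)) p (List.replicate n true :: us)
        (T.eval (n + k * q.eval n))))

theorem totalLength_path {k q n : ℕ} {us : List (List Bool)} (h : us ∈ paths (List.replicate k q)) :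
    totalLength (List.replicate n true :: us) = n + k * q := by
  simp only [totalLength, List.map_cons, List.length_replicate, List.sum_cons, mem_paths.1 h,
    List.sum_replicate, smul_eq_mul]

theorem force (g : ℕ → Prog × Polynomial ℕ × Polynomial ℕ) (i j k : ℕ) (q : Polynomial ℕ)
    (p : Prog) (T : Polynomial ℕ) (D : List Bool → ℕ → Bool) (n0 : ℕ) :
    ∃ (D' : List Bool → ℕ → Bool) (n' : ℕ),
      (∀ w : List Bool, w.length < n0 → D' w = D w) ∧
      ∀ D'' : List Bool → ℕ → Bool, (∀ w : List Bool, w.length < n' → D'' w = D' w) →
        Req g i j k q p T D'' := by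
  by_cases hij : i = j
  · exact ⟨D, 0, fun _ _ => rfl, fun _ _ h => absurd hij h⟩
  -- parameters
  obtain ⟨c, hc⟩ := poly_le_pow (T.comp (Polynomial.X + Polynomial.C k * q) + Polynomial.X +
    Polynomial.C k * q + q)
  have hc' : ∀ n : ℕ, T.eval (n + k * q.eval n) + n + k * q.eval n + q.eval n ≤
      (n + 2) ^ 2 ^ c := by
    intro n
    have := hc n
    simpa [Polynomial.eval_comp] using this
  let Lp : Polynomial ℕ := ((Polynomial.C ((k + 2) * (4 * (c + 1))) * Polynomial.X) ^ 2) ^ 2 ^ c
  obtain ⟨μ, hμ1, hμ2⟩ := exists_large (Polynomial.C (2 ^ (k + 5)) * (Lp * (Lp + 3)) +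
    16 * (Lp * (Lp + 3)) + Polynomial.C ((k + 2) * (4 * (c + 1))) * Polynomial.X + 3) (n0 + 1)
  obtain ⟨n, hn⟩ : ∃ n, n = 4 * (c + 1) * μ := ⟨_, rfl⟩
  obtain ⟨R0, hR0⟩ : ∃ R0, R0 = (k + 2) * n := ⟨_, rfl⟩
  obtain ⟨L, hL⟩ : ∃ L, L = (R0 ^ 2) ^ 2 ^ c := ⟨_, rfl⟩
  have hLp : Lp.eval μ = L := by
    simp only [Lp, Polynomial.eval_pow, Polynomial.eval_mul, Polynomial.eval_C,
      Polynomial.eval_X]
    rw [hL, hR0, hn]
    congr 2
    ring
  have hR0' : (k + 2) * (4 * (c + 1)) * μ = R0 := by
    rw [hR0, hn]; ring
  simp only [Polynomial.eval_add, Polynomial.eval_mul, Polynomial.eval_C, Polynomial.eval_X,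
    Polynomial.eval_ofNat, hLp, hR0'] at hμ2
  have hn4 : 4 * μ ≤ n := by
    rw [hn]; nlinarith
  have hnn0 : n0 + 1 ≤ n := by omega
  have hnR : n + n ≤ R0 := by
    rw [hR0]; nlinarith
  have hkR : (k + 1) * n + n = R0 := by rw [hR0]; ring
  have hR1 : 1 ≤ R0 := by omega
  have hRR : R0 ≤ R0 ^ 2 := by nlinarith
  have hLR : R0 ^ 2 ≤ L := by
    rw [hL]
    calc R0 ^ 2 = (R0 ^ 2) ^ 1 := (pow_one _).symm
      _ ≤ (R0 ^ 2) ^ 2 ^ c := Nat.pow_le_pow_right (by positivity) Nat.one_le_two_pow
  have hL1 : 1 ≤ L := by omega
  obtain ⟨Λ, hΛ⟩ : ∃ Λ, Λ = T.eval (n + k * q.eval n) + n + k * q.eval n + q.eval n := ⟨_, rfl⟩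
  have hΛL : Λ ≤ L := by
    rw [hΛ, hL]
    refine (hc' n).trans (Nat.pow_le_pow_left ?_ _)
    omega
  -- the variable seed of the oracle `i`
  let Lv : List ℕ := List.replicate (k + 1) n ++ (List.replicate c (4 * μ) ++ [4 * μ])
  have hLv : Lv.sum = R0 := by
    simp only [Lv, List.sum_append, List.sum_replicate, smul_eq_mul, List.sum_cons, List.sum_nil]
    rw [← hkR, hn]
    ring
  let Si : (List (List Bool) → Bool) → Oracle := fun X r =>
    if r.length = R0 then data Lv X r else D r i
  have hSi : ∀ r, DTP Set.univ 1 (fun X => Si X r = true) := by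
    intro r
    by_cases hr : r.length = R0
    · exact (data_dtp Lv r).congr (fun X => by simp only [Si, if_pos hr])
    · exact (DTP.const 1 (D r i = true)).congr (fun X => by simp only [Si, if_neg hr])
  let ℓ : ℕ → ℕ := fun a => (R0 ^ 2) ^ 2 ^ a
  have hℓmono : ∀ a, a ≤ c → ℓ a ≤ L := by
    intro a ha
    rw [hL]
    exact Nat.pow_le_pow_right (by positivity) (Nat.pow_le_pow_right (by norm_num) ha)
  have hℓs : ∀ a, ℓ (a + 1) = ℓ a ^ 2 := by
    intro a
    simp only [ℓ]
    rw [pow_succ 2 a, pow_mul]
  obtain ⟨σ, hσ1, hσ2⟩ := hidden (μ := μ) (B := R0) (T := L + 3) (L := L)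
    (List.replicate (k + 1) n) ℓ (by omega) (by omega) hL1 le_rfl (by
      have : 16 * (L * (L + 3)) ≤ 2 ^ μ := by omega
      exact this) c 0 (4 * μ) (fun X => cl g (Si X)) (by omega) (by
      rw [List.sum_replicate, smul_eq_mul, ← hkR, hn]
      apply le_of_eq
      ring) (fun a ha => hℓmono a (by omega)) (by
      intro w hw
      refine (base_cl g Si hSi R0 ?_ w ?_).mono (by omega)
      · intro X Y r hr
        simp only [Si, if_neg (Nat.ne_of_lt hr)]
      · simpa [ℓ] using hw) (by
      intro a ha
      rw [Nat.zero_add, hℓs]
      exact layer_cl g Si hSi (ℓ a) L (hℓmono a (by omega)))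
  rw [Nat.zero_add] at hσ1
  -- the pointers
  choose! as has1 has2 using hσ2
  let addr : List Bool → List Bool := fun w =>
    if h : ∃ us ∈ paths (List.replicate (k + 1) n), us.flatten = w then
      (as (Classical.choose h)).flatten else []
  have haddr : ∀ us ∈ paths (List.replicate (k + 1) n),
      addr us.flatten = (as us).flatten := by
    intro us hus
    have h : ∃ us' ∈ paths (List.replicate (k + 1) n), us'.flatten = us.flatten :=
      ⟨us, hus, rfl⟩
    have h1 := Classical.choose_spec h
    have h2 : Classical.choose h = us := by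
      rw [List.eq_iff_flatten_eq]
      exact ⟨h1.2, by rw [mem_paths.1 h1.1, mem_paths.1 hus]⟩
    simp only [addr, dif_pos h, h2]
  let Pj : Oracle := fun r =>
    if (k + 1) * n ≤ r.length ∧ r.length < R0 then ptr ((k + 1) * n) addr r else D r j
  -- the machine as a family of decision trees
  have htree : ∀ ws ∈ paths (List.replicate k (q.eval n)),
      DTP Set.univ (L * (L + 3)) (fun a => AcceptsIn (join (cl g (Si (σ a))) (cl g Pj)) p
        (List.replicate n true :: ws) (T.eval (n + k * q.eval n))) := by
    intro ws hws
    have h1 := (dtp_acceptsIn p (List.replicate n true :: ws) (T.eval (n + k * q.eval n)) Λ (by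
      rw [totalLength_path hws, hΛ]
      omega)).comp (R := Set.univ) (m := L + 3)
      (fun a => join (cl g (Si (σ a))) (cl g Pj)) (by
        intro w hw
        have hw' : w.length ≤ Λ := hw
        match w, hw' with
        | [], _ => exact (DTP.const _ False).congr (fun a => by simp [join])
        | false :: w, hw' =>
          have h2 := hσ1 w (by
            simp only [List.length_cons] at hw'
            show w.length ≤ (R0 ^ 2) ^ 2 ^ c
            rw [← hL]
            omega)
          exact h2
        | true :: w, _ => exact DTP.const _ (cl g Pj w = true))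
    refine h1.mono ?_
    apply Nat.mul_le_mul_right
    omega
  obtain ⟨a, ha⟩ := hierarchy (q := q.eval n) (T := L * (L + 3)) (μ := μ) (K := k) (B := R0)
    (by omega) (by nlinarith) (by
      have : 2 ^ (k + 5) * (L * (L + 3)) ≤ 2 ^ μ := by omega
      rw [mul_comm]
      exact this) k true (List.replicate k n) n
    (fun ws a => AcceptsIn (join (cl g (Si (σ a))) (cl g Pj)) p
        (List.replicate n true :: ws) (T.eval (n + k * q.eval n))) le_rfl (by simp)
    (fun x hx => by rw [List.eq_of_mem_replicate hx]; exact hn4) (by omega) (by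
      rw [List.sum_replicate, smul_eq_mul]
      have : (k + 1) * n = k * n + n := by ring
      omega) htree
  rw [← List.replicate_succ'] at ha
  -- the new table of seeds
  refine ⟨fun r l => if l = i then Si (σ a) r else if l = j then Pj r else D r l,
    L + R0 + 1, ?_, ?_⟩
  · intro w hw
    funext l
    by_cases hl : l = i
    · subst hl
      have : w.length ≠ R0 := by omega
      simp only [if_true, Si, if_neg this]
    · by_cases hl' : l = j
      · subst hl'
        have : ¬ ((k + 1) * n ≤ w.length ∧ w.length < R0) := by
          intro h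
          have : n ≤ (k + 1) * n := by nlinarith
          omega
        simp only [if_neg hl, if_true, Pj, if_neg this]
      · simp only [if_neg hl, if_neg hl']
  · intro D'' hD'' _
    have hDi : ∀ r : List Bool, r.length < L + R0 + 1 → D'' r i = Si (σ a) r := by
      intro r hr
      rw [hD'' r hr]
      simp
    have hDj : ∀ r : List Bool, r.length < L + R0 + 1 → D'' r j = Pj r := by
      intro r hr
      rw [hD'' r hr]
      have : j ≠ i := fun h => hij h.symm
      simp [this]
    refine ⟨n, ?_⟩
    intro hcon
    apply ha
    have hleft : AltL true (List.replicate (k + 1) n) (fun us => a us = true) ↔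
        AltL true (List.replicate (k + 1) n)
          (fun us => val (join (ora g D'' i) (ora g D'' j)) n us) := by
      apply AltL_congr
      intro us hus
      have husp : us ∈ paths (List.replicate (k + 1) n) := mem_paths.2 hus
      have hflat : us.flatten.length = (k + 1) * n := by
        rw [length_flatten_of_paths husp, List.sum_replicate, smul_eq_mul]
      have haslen : (as us).flatten.length = n := by
        rw [List.length_flatten, has1 us husp]
        simp only [List.sum_append, List.sum_replicate, smul_eq_mul, List.sum_cons, List.sum_nil]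
        rw [hn]
        ring
      have hwalk : walk (rightSeed (join (ora g D'' i) (ora g D'' j))) n us.flatten.reverse =
          (us.flatten ++ addr us.flatten).reverse := by
        refine walk_ptr (L0 := (k + 1) * n) (m := n) ?_ hflat (by rw [haddr us husp, haslen])
        intro r hr1 hr2
        have e1 : rightSeed (join (ora g D'' i) (ora g D'' j)) r = D'' r j := by
          show cl g (fun w => D'' w j) (false :: r) = D'' r j
          rw [cl_false]
        rw [e1, hDj r (by omega)]
        have : (k + 1) * n ≤ r.length ∧ r.length < R0 := ⟨hr1, by omega⟩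
        simp only [Pj, if_pos this]
      unfold val
      rw [hwalk]
      have e2 : leftSeed (join (ora g D'' i) (ora g D'' j))
          (us.flatten ++ addr us.flatten).reverse =
          D'' (us.flatten ++ addr us.flatten).reverse i := by
        show cl g (fun w => D'' w i) (false :: _) = _
        rw [cl_false]
      have hlen : (us.flatten ++ addr us.flatten).reverse.length = R0 := by
        rw [List.length_reverse, List.length_append, hflat, haddr us husp, haslen, hkR]
      rw [e2, hDi _ (by rw [hlen]; omega)]
      have e3 : Si (σ a) (us.flatten ++ addr us.flatten).reverse =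
          data Lv (σ a) (us ++ as us).flatten.reverse := by
        simp only [Si, if_pos hlen]
        rw [haddr us husp, List.flatten_append]
      rw [e3, data_apply (σ a) (by
        rw [mem_paths, List.map_append, hus, has1 us husp]), has2 us husp]
    have hright : AltL true (List.replicate k (q.eval n)) (fun us =>
        AcceptsIn (join (ora g D'' i) (ora g D'' j)) p (List.replicate n true :: us)
          (T.eval (n + k * q.eval n))) ↔
        AltL true (List.replicate k (q.eval n)) (fun ws =>
          AcceptsIn (join (cl g (Si (σ a))) (cl g Pj)) p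
            (List.replicate n true :: ws) (T.eval (n + k * q.eval n))) := by
      apply AltL_congr
      intro ws hws
      have hwsp : ws ∈ paths (List.replicate k (q.eval n)) := mem_paths.2 hws
      refine (dtp_acceptsIn p (List.replicate n true :: ws) (T.eval (n + k * q.eval n)) Λ (by
        rw [totalLength_path hwsp, hΛ]
        omega)).depends ?_
      intro w hw
      have hw' : w.length ≤ Λ := hw
      match w, hw' with
      | [], _ => rfl
      | false :: w, hw' =>
        simp only [List.length_cons] at hw'
        exact cl_congr g (n := Λ) (fun r hr => hDi r (by omega)) w (by omega)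
      | true :: w, hw' =>
        simp only [List.length_cons] at hw'
        exact cl_congr g (n := Λ) (fun r hr => hDj r (by omega)) w (by omega)
    rw [hleft, hcon, hright]

/-- **Joins of oracles.** There is an infinite sequence of oracles such that `P = NP` relative to
each of them, while the polynomial hierarchy is infinite relative to the join of any two. -/
theorem join_infinite : ∃ A : ℕ → Oracle, (∀ i, SigmaP (A i) 0 = SigmaP (A i) 1) ∧
    ∀ i j, i ≠ j → ∀ k, SigmaP (join (A i) (A j)) k ⊂ SigmaP (join (A i) (A j)) (k + 1) := by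
  obtain ⟨g, hg⟩ := exists_enum
  obtain ⟨dec, hdec⟩ := exists_surjective_nat (ℕ × ℕ × ℕ × ℕ)
  obtain ⟨D, hD⟩ := diagonal
    (fun s D => Req g (dec s).1 (dec s).2.1 (dec s).2.2.1 (g (dec s).2.2.2).2.1
      (g (dec s).2.2.2).1 (g (dec s).2.2.2).2.2 D) (fun _ _ => false)
    (fun s D n => force g _ _ _ _ _ _ D n)
  refine ⟨fun i => ora g D i, fun i => sigma_cl g hg _, ?_⟩
  intro i j hij k
  rw [Set.ssubset_iff_subset_ne]
  refine ⟨sigmaP_mono _ k, ?_⟩
  intro heq
  have hmem := lang_mem (join (ora g D i) (ora g D j)) k
  rw [← heq] at hmem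
  obtain ⟨q, p, ⟨T, hT⟩, hL⟩ := hmem
  obtain ⟨e, he⟩ := hg (p, q, T)
  obtain ⟨s, hs⟩ := hdec (i, j, k, e)
  have hreq := hD s
  simp only [hs, he] at hreq
  obtain ⟨n, hn⟩ := hreq hij
  apply hn
  have h1 := hL (List.replicate n true)
  have h2 : List.replicate n true ∈ Lang (join (ora g D i) (ora g D j)) k ↔
      AltL true (List.replicate (k + 1) n)
        (fun us => val (join (ora g D i) (ora g D j)) n us) := by
    show Alt true (k + 1) (List.replicate n true).length _ ↔ _
    rw [Alt_eq, List.length_replicate]
  rw [← h2, h1, Alt_eq, List.length_replicate]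
  apply AltL_congr
  intro us hus
  have husp : us ∈ paths (List.replicate k (q.eval n)) := mem_paths.2 hus
  have h3 := hT (List.replicate n true :: us) (by
    have := congrArg List.length hus
    simpa using this)
  rw [totalLength_path husp] at h3
  exact accepts_iff_of_halted h3

end Pool.Agent.H9
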