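import Mathlib
import Pool.Agent.H9.Layers

/-!
A sequence of oracles, each making the hierarchy infinite, any two of which make `P = NP`.
-/

set_option autoImplicit false

namespace Pool.Agent.H9

open Classical

/-! ### Fixpoints -/

/-- The value of `Φ F` at `w` depends only on the values of `F` at shorter words. -/
def ContrB {β : Type*} (Φ : (List Bool → β) → (List Bool → β)) : Prop :=
  ∀ (F F' : List Bool → β) (w : List Bool),
    (∀ v : List Bool, v.length < w.length → F v = F' v) → Φ F w = Φ F' w

/-- The fixpoint of a contractive operator. -/
def fixB {β : Type*} (z : β) (Φ : (List Bool → β) → (List Bool → β)) : List Bool → β :=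
  fun w => Φ^[w.length + 1] (fun _ => z) w

theorem iterateB_agree {β : Type*} {z : β} {Φ : (List Bool → β) → (List Bool → β)}
    (h : ContrB Φ) : ∀ (n m : ℕ) (w : List Bool), w.length < n → w.length < m →
      Φ^[n] (fun _ => z) w = Φ^[m] (fun _ => z) w := by
  intro n
  induction n with
  | zero => intro m w hn; omega
  | succ n ih =>
    intro m w hn hm
    cases m with
    | zero => omega
    | succ m =>
      rw [Function.iterate_succ_apply', Function.iterate_succ_apply']
      apply h
      intro v hv
      exact ih m v (by omega) (by omega)

theorem fixB_eq {β : Type*} {z : β} {Φ : (List Bool → β) → (List Bool → β)}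
    (h : ContrB Φ) : Φ (fixB z Φ) = fixB z Φ := by
  funext w
  have : fixB z Φ w = Φ (Φ^[w.length] (fun _ => z)) w := by
    unfold fixB
    rw [Function.iterate_succ_apply']
  rw [this]
  apply h
  intro v hv
  exact iterateB_agree h _ _ v (by omega) hv

theorem fixB_congr {β : Type*} {z : β} {Φ Φ' : (List Bool → β) → (List Bool → β)}
    (h : ContrB Φ) (h' : ContrB Φ') (n : ℕ)
    (heq : ∀ (F : List Bool → β) (w : List Bool), w.length ≤ n → Φ F w = Φ' F w) :
    ∀ (m : ℕ) (w : List Bool), w.length ≤ m → w.length ≤ n → fixB z Φ w = fixB z Φ' w := by
  intro m
  induction m with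
  | zero =>
    intro w hm hn
    rw [← fixB_eq h, ← fixB_eq h', heq _ w hn]
    apply h'
    intro v hv
    omega
  | succ m ih =>
    intro w hm hn
    rw [← fixB_eq h, ← fixB_eq h', heq _ w hn]
    apply h'
    intro v hv
    exact ih v (by omega) (by omega)

/-! ### The family of oracles -/

/-- The table: seeds of all oracles, and for every length the index of the active oracle. -/
abbrev Table := List Bool → (ℕ → Bool) × ℕ

/-- The oracle number `i` of a family. -/
def slice (F : List Bool → ℕ → Bool) (i : ℕ) : Oracle := fun w => F w i

/-- The join of the oracles number `i` and `j`, in the order given by `c`. -/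
def joinC (F : List Bool → ℕ → Bool) (c : Bool) (i j : ℕ) : Oracle :=
  if c then join (slice F j) (slice F i) else join (slice F i) (slice F j)

/-- The operator defining the family. -/
noncomputable def famOp (g : ℕ → Prog × Polynomial ℕ × Polynomial ℕ) (D : Table) :
    (List Bool → ℕ → Bool) → (List Bool → ℕ → Bool)
  | _, [], _ => false
  | _, false :: r, i => (D r).1 i
  | _, [true], _ => false
  | F, true :: c :: r, i => decide (∃ (j : ℕ) (w : List Bool),
      r = List.replicate j true ++ false :: w ∧ (D (List.replicate w.length true)).2 ≠ i ∧
      KProp g (joinC F c i j) w)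

theorem kprop_joinC {g : ℕ → Prog × Polynomial ℕ × Polynomial ℕ}
    {F F' : List Bool → ℕ → Bool} {c : Bool} {i j : ℕ} {w : List Bool}
    (h : ∀ v : List Bool, v.length < w.length → F v = F' v) :
    KProp g (joinC F c i j) w ↔ KProp g (joinC F' c i j) w := by
  apply kprop_local
  intro v hv
  have hv' : v.length ≤ w.length := by nlinarith
  cases c with
  | true =>
    simp only [joinC, if_true]
    match v with
    | [] => rfl
    | false :: v =>
      show F v j = F' v j
      rw [h v (by simpa using hv')]
    | true :: v =>
      show F v i = F' v i
      rw [h v (by simpa using hv')]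
  | false =>
    simp only [joinC, Bool.false_eq_true, if_false]
    match v with
    | [] => rfl
    | false :: v =>
      show F v i = F' v i
      rw [h v (by simpa using hv')]
    | true :: v =>
      show F v j = F' v j
      rw [h v (by simpa using hv')]

theorem famOp_contr (g : ℕ → Prog × Polynomial ℕ × Polynomial ℕ) (D : Table) :
    ContrB (famOp g D) := by
  intro F F' w h
  funext i
  match w with
  | [] => rfl
  | false :: r => rfl
  | [true] => rfl
  | true :: c :: r =>
    simp only [famOp]
    congr 1
    apply propext
    apply exists_congr; intro j
    apply exists_congr; intro w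
    apply and_congr_right; intro hr
    apply and_congr_right; intro _
    apply kprop_joinC
    intro v hv
    apply h
    rw [hr]
    simp only [List.length_cons, List.length_append, List.length_replicate]
    omega

/-- The family of oracles with table `D`. -/
noncomputable def fam (g : ℕ → Prog × Polynomial ℕ × Polynomial ℕ) (D : Table) :
    List Bool → ℕ → Bool := fixB (fun _ => false) (famOp g D)

theorem fam_eq (g : ℕ → Prog × Polynomial ℕ × Polynomial ℕ) (D : Table) :
    famOp g D (fam g D) = fam g D := fixB_eq (famOp_contr g D)

theorem fam_nil (g : ℕ → Prog × Polynomial ℕ × Polynomial ℕ) (D : Table) (i : ℕ) :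
    fam g D [] i = false := by
  rw [← fam_eq]; rfl

theorem fam_false (g : ℕ → Prog × Polynomial ℕ × Polynomial ℕ) (D : Table) (r : List Bool)
    (i : ℕ) : fam g D (false :: r) i = (D r).1 i := by
  rw [← fam_eq]; rfl

theorem fam_one (g : ℕ → Prog × Polynomial ℕ × Polynomial ℕ) (D : Table) (i : ℕ) :
    fam g D [true] i = false := by
  rw [← fam_eq]; rfl

theorem replicate_append_false_inj' {a b : ℕ} {u v : List Bool}
    (h : List.replicate a true ++ false :: u = List.replicate b true ++ false :: v) :
    a = b ∧ u = v := replicate_append_false_inj h

theorem fam_true (g : ℕ → Prog × Polynomial ℕ × Polynomial ℕ) (D : Table) (c : Bool)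
    (j : ℕ) (w : List Bool) (i : ℕ) :
    fam g D (true :: c :: (List.replicate j true ++ false :: w)) i = true ↔
      (D (List.replicate w.length true)).2 ≠ i ∧ KProp g (joinC (fam g D) c i j) w := by
  rw [← fam_eq]
  simp only [famOp, decide_eq_true_eq]
  rw [fam_eq]
  constructor
  · rintro ⟨j', w', h1, h2, h3⟩
    obtain ⟨rfl, rfl⟩ := replicate_append_false_inj h1
    exact ⟨h2, h3⟩
  · rintro ⟨h2, h3⟩
    exact ⟨j, w, rfl, h2, h3⟩

theorem fam_congr (g : ℕ → Prog × Polynomial ℕ × Polynomial ℕ) {D D' : Table} {n : ℕ}
    (h : ∀ w : List Bool, w.length < n → D w = D' w) :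
    ∀ w : List Bool, w.length ≤ n → fam g D w = fam g D' w := by
  intro w hw
  refine fixB_congr (famOp_contr g D) (famOp_contr g D') n ?_ w.length w le_rfl hw
  intro F v hv
  funext i
  match v, hv with
  | [], _ => rfl
  | false :: v, hv =>
    simp only [famOp]
    rw [h v (by simpa using hv)]
  | [true], _ => rfl
  | true :: c :: r, hv =>
    simp only [famOp]
    congr 1
    apply propext
    apply exists_congr; intro j
    apply exists_congr; intro w
    apply and_congr_right; intro hr
    rw [h (List.replicate w.length true) (by
      rw [hr] at hv
      simp only [List.length_cons, List.length_append, List.length_replicate] at hv ⊢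
      omega)]

/-! ### `P = NP` relative to the join of two oracles -/

/-- Query the two halves of the join for the stored copies of the slow universal set. -/
def finPair (i j : ℕ) : Prog :=
  seqs [Prog.push 2 false, seqs (List.replicate j (Prog.push 2 true)),
    Prog.push 2 false, Prog.push 2 true, Prog.push 2 false,
    Prog.ask 2 (Prog.push 0 true) (seqs [Prog.pop 2, Prog.pop 2, Prog.pop 2,
      seqs (List.replicate j (Prog.pop 2)),
      seqs (List.replicate i (Prog.push 2 true)),
      Prog.push 2 true, Prog.push 2 true, Prog.push 2 true,
      Prog.ask 2 (Prog.push 0 true) Prog.skip])]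

theorem exec_pops (A : Oracle) (i : ℕ) : ∀ (e : ℕ) (l : List Bool) (s : ℕ → List Bool),
    s i = List.replicate e true ++ l →
    Exec A (seqs (List.replicate e (Prog.pop i))) s (Function.update s i l) (2 * e + 1) := by
  intro e
  induction e with
  | zero =>
    intro l s hs
    have : Function.update s i l = s := by
      have : l = s i := by simpa using hs.symm
      rw [this]; exact Function.update_eq_self i s
    rw [this]
    simpa [seqs] using exec_skip A s
  | succ e ih =>
    intro l s hs
    rw [List.replicate_succ, List.cons_append] at hs
    have h1 := exec_pop A s i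
    rw [hs, List.tail_cons] at h1
    have h2 := ih l (Function.update s i (List.replicate e true ++ l)) (by simp)
    rw [Function.update_idem] at h2
    rw [List.replicate_succ]
    exact (exec_seqs_cons h1 h2).mono (by omega)

theorem exec_pushes' (A : Oracle) (i : ℕ) (e : ℕ) (s : ℕ → List Bool) :
    Exec A (seqs (List.replicate e (Prog.push i true))) s
      (Function.update s i (List.replicate e true ++ s i)) (2 * e + 1) := by
  obtain ⟨s', h1, h2, h3⟩ := exec_pushes A i e s
  have : s' = Function.update s i (List.replicate e true ++ s i) := by
    funext j
    by_cases hj : j = i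
    · subst hj; rw [Function.update_self, h2]
    · rw [Function.update_of_ne hj, h3 j hj]
  rw [← this]
  exact h1

theorem push_upd (A : Oracle) (i : ℕ) (b : Bool) (s : ℕ → List Bool) (l : List Bool) :
    Exec A (Prog.push i b) (Function.update s i l) (Function.update s i (b :: l)) 1 := by
  have := exec_push A (Function.update s i l) i b
  rwa [Function.update_self, Function.update_idem] at this

theorem pop_upd (A : Oracle) (i : ℕ) (b : Bool) (s : ℕ → List Bool) (l : List Bool) :
    Exec A (Prog.pop i) (Function.update s i (b :: l)) (Function.update s i l) 1 := by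
  have := exec_pop A (Function.update s i (b :: l)) i
  rwa [Function.update_self, Function.update_idem, List.tail_cons] at this

theorem exec_finPair (g : ℕ → Prog × Polynomial ℕ × Polynomial ℕ) (D : Table) (i j : ℕ)
    (hij : i ≠ j) (s : ℕ → List Bool) (hs : s 0 = []) :
    ∃ s', Exec (join (slice (fam g D) i) (slice (fam g D) j)) (finPair i j) s s'
        (20 * (i + j) + 60) ∧
      ((s' 0).head? = some true ↔
        KProp g (join (slice (fam g D) i) (slice (fam g D) j)) (s 2)) := by
  set J := join (slice (fam g D) i) (slice (fam g D) j) with hJ
  set w := s 2 with hw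
  have e1 : Exec J (Prog.push 2 false) s (Function.update s 2 (false :: w)) 1 :=
    exec_push J s 2 false
  have e2 : Exec J (seqs (List.replicate j (Prog.push 2 true)))
      (Function.update s 2 (false :: w))
      (Function.update s 2 (List.replicate j true ++ false :: w)) (2 * j + 1) := by
    have := exec_pushes' J 2 j (Function.update s 2 (false :: w))
    rwa [Function.update_self, Function.update_idem] at this
  have e3 := push_upd J 2 false s (List.replicate j true ++ false :: w)
  have e4 := push_upd J 2 true s (false :: (List.replicate j true ++ false :: w))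
  have e5 := push_upd J 2 false s (true :: false :: (List.replicate j true ++ false :: w))
  -- first answer
  have ans1 : J (false :: true :: false :: (List.replicate j true ++ false :: w)) = true ↔
      (D (List.replicate w.length true)).2 ≠ i ∧ KProp g J w := by
    show fam g D (true :: false :: (List.replicate j true ++ false :: w)) i = true ↔ _
    rw [fam_true]
    rfl
  have ans2 : J (true :: true :: true :: (List.replicate i true ++ false :: w)) = true ↔
      (D (List.replicate w.length true)).2 ≠ j ∧ KProp g J w := by
    show fam g D (true :: true :: (List.replicate i true ++ false :: w)) j = true ↔ _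
    rw [fam_true]
    rfl
  by_cases h1 : J (false :: true :: false :: (List.replicate j true ++ false :: w)) = true
  · have e6 : Exec J (Prog.ask 2 (Prog.push 0 true) (seqs [Prog.pop 2, Prog.pop 2, Prog.pop 2,
      seqs (List.replicate j (Prog.pop 2)),
      seqs (List.replicate i (Prog.push 2 true)),
      Prog.push 2 true, Prog.push 2 true, Prog.push 2 true,
      Prog.ask 2 (Prog.push 0 true) Prog.skip]))
        (Function.update s 2 (false :: true :: false :: (List.replicate j true ++ false :: w)))
        (Function.update (Function.update s 2
          (false :: true :: false :: (List.replicate j true ++ false :: w))) 0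
          (true :: (Function.update s 2
          (false :: true :: false :: (List.replicate j true ++ false :: w))) 0)) 2 := by
      apply exec_ask
      rw [Function.update_self, if_pos h1]
      exact exec_push J _ 0 true
    refine ⟨_, (exec_seqs_cons e1 (exec_seqs_cons e2 (exec_seqs_cons e3 (exec_seqs_cons e4
      (exec_seqs_cons e5 (exec_seqs_cons e6 (exec_seqs_nil _ _))))))).mono (by omega), ?_⟩
    rw [Function.update_self]
    simp [(ans1.1 h1).2]
  · have f1 := pop_upd J 2 false s (true :: false :: (List.replicate j true ++ false :: w))
    have f2 := pop_upd J 2 true s (false :: (List.replicate j true ++ false :: w))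
    have f3 := pop_upd J 2 false s (List.replicate j true ++ false :: w)
    have f4 : Exec J (seqs (List.replicate j (Prog.pop 2)))
        (Function.update s 2 (List.replicate j true ++ false :: w))
        (Function.update s 2 (false :: w)) (2 * j + 1) := by
      have := exec_pops J 2 j (false :: w)
        (Function.update s 2 (List.replicate j true ++ false :: w)) (by simp)
      rwa [Function.update_idem] at this
    have f5 : Exec J (seqs (List.replicate i (Prog.push 2 true)))
        (Function.update s 2 (false :: w))
        (Function.update s 2 (List.replicate i true ++ false :: w)) (2 * i + 1) := by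
      have := exec_pushes' J 2 i (Function.update s 2 (false :: w))
      rwa [Function.update_self, Function.update_idem] at this
    have f6 := push_upd J 2 true s (List.replicate i true ++ false :: w)
    have f7 := push_upd J 2 true s (true :: (List.replicate i true ++ false :: w))
    have f8 := push_upd J 2 true s (true :: true :: (List.replicate i true ++ false :: w))
    have f9 : ∃ s', Exec J (Prog.ask 2 (Prog.push 0 true) Prog.skip)
        (Function.update s 2 (true :: true :: true :: (List.replicate i true ++ false :: w)))
        s' 2 ∧ ((s' 0).head? = some true ↔ KProp g J w) := by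
      by_cases h2 : J (true :: true :: true :: (List.replicate i true ++ false :: w)) = true
      · refine ⟨_, exec_ask (N := 1) (by
          rw [Function.update_self, if_pos h2]
          exact exec_push J _ 0 true), ?_⟩
        rw [Function.update_self]
        simp [(ans2.1 h2).2]
      · refine ⟨_, exec_ask (N := 1) (by
          rw [Function.update_self, if_neg h2]
          exact exec_skip J _), ?_⟩
        rw [Function.update_of_ne (by norm_num), hs]
        have h3 : ¬ KProp g J w := by
          intro hK
          rw [ans1] at h1
          rw [ans2] at h2
          have h4 : (D (List.replicate w.length true)).2 = i := by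
            by_contra h; exact h1 ⟨h, hK⟩
          have h5 : (D (List.replicate w.length true)).2 = j := by
            by_contra h; exact h2 ⟨h, hK⟩
          exact hij (h4.symm.trans h5)
        simp [h3]
    obtain ⟨s', f9, f10⟩ := f9
    have e6 := exec_ask (A := J) (i := 2) (p := Prog.push 0 true)
      (q := seqs [Prog.pop 2, Prog.pop 2, Prog.pop 2,
      seqs (List.replicate j (Prog.pop 2)),
      seqs (List.replicate i (Prog.push 2 true)),
      Prog.push 2 true, Prog.push 2 true, Prog.push 2 true,
      Prog.ask 2 (Prog.push 0 true) Prog.skip])
      (s := Function.update s 2 (false :: true :: false :: (List.replicate j true ++ false :: w)))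
      (s' := s') (N := 2 * i + 2 * j + 30) (by
        rw [Function.update_self, if_neg h1]
        exact (exec_seqs_cons f1 (exec_seqs_cons f2 (exec_seqs_cons f3 (exec_seqs_cons f4
          (exec_seqs_cons f5 (exec_seqs_cons f6 (exec_seqs_cons f7 (exec_seqs_cons f8
          (exec_seqs_cons f9 (exec_seqs_nil _ _)))))))))).mono (by omega))
    exact ⟨s', (exec_seqs_cons e1 (exec_seqs_cons e2 (exec_seqs_cons e3 (exec_seqs_cons e4
      (exec_seqs_cons e5 (exec_seqs_cons e6 (exec_seqs_nil _ _))))))).mono (by omega), f10⟩

theorem sigma_pair (g : ℕ → Prog × Polynomial ℕ × Polynomial ℕ) (hg : Function.Surjective g)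
    (D : Table) (i j : ℕ) (hij : i ≠ j) :
    SigmaP (join (slice (fam g D) i) (slice (fam g D) j)) 0 =
      SigmaP (join (slice (fam g D) i) (slice (fam g D) j)) 1 :=
  sigma_zero_eq_one _ g hg (finPair i j) (20 * (i + j) + 60)
    (fun s hs => exec_finPair g D i j hij s hs)

/-! ### The diagonal languages -/

/-- The language of level `k + 1` read off from the seeds. -/
def Lang2 (A : Oracle) (k : ℕ) : Set (List Bool) :=
  {x | Alt true (k + 1) x.length (fun us => A (false :: us.flatten.reverse) = true)}

/-- The program deciding the value at a path. -/
def readProg (k : ℕ) : Prog :=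
  seqs [moves (k + 2) (List.range' 1 (k + 1)), Prog.loop 0 (Prog.pop 0),
    Prog.push (k + 2) false, Prog.ask (k + 2) (Prog.push 0 true) Prog.skip]

theorem run_readProg (A : Oracle) (k : ℕ) (x : List Bool) (us : List (List Bool))
    (hus : us.length = k + 1) :
    ∃ s', run A (readProg k) (x :: us) (30 * totalLength (x :: us) + (2 * k + 40)) = ([], s') ∧
      ((s' 0).head? = some true ↔ A (false :: us.flatten.reverse) = true) := by
  obtain ⟨s1, e1, h1, h2⟩ := exec_moves A (k + 2) (List.range' 1 (k + 1)) List.nodup_range' (by
    simp [List.mem_range']; omega) (fun i => (x :: us).getD i [])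
  rw [← hus, map_range'_getD] at e1 h1
  have h0 : s1 0 = x := by
    rw [h2 0 (by simp [List.mem_range']; omega) (by omega)]
    simp
  have hWk : us.length + 1 = k + 2 := by omega
  have hW : s1 (k + 2) = us.flatten.reverse := by
    rw [h1, ← hWk]
    have : (x :: us).getD (us.length + 1) [] = [] := by simp
    rw [this, List.append_nil]
  have e2 := exec_clear A 0 x s1 h0
  set s2 := Function.update s1 0 [] with hs2
  have e3 := exec_push A s2 (k + 2) false
  set s3 := Function.update s2 (k + 2) (false :: s2 (k + 2)) with hs3
  have hs3W : s3 (k + 2) = false :: us.flatten.reverse := by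
    rw [hs3, Function.update_self, hs2, Function.update_of_ne (by omega), hW]
  have hs30 : s3 0 = [] := by
    rw [hs3, Function.update_of_ne (by omega), hs2, Function.update_self]
  have e5 : ∃ s5, Exec A (Prog.ask (k + 2) (Prog.push 0 true) Prog.skip) s3 s5 2 ∧
      ((s5 0).head? = some true ↔ A (false :: us.flatten.reverse) = true) := by
    by_cases h : A (s3 (k + 2)) = true
    · refine ⟨Function.update s3 0 (true :: s3 0), ?_, ?_⟩
      · apply exec_ask
        rw [if_pos h]
        exact exec_push A s3 0 true
      · rw [Function.update_self]
        rw [hs3W] at h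
        simp [h]
    · refine ⟨s3, ?_, ?_⟩
      · apply exec_ask
        rw [if_neg h]
        exact exec_skip A s3
      · rw [hs30]
        rw [hs3W] at h
        simp [h]
  obtain ⟨s5, e5, h6⟩ := e5
  refine ⟨s5, run_of_exec ?_, h6⟩
  have e6 := exec_seqs_cons e1 (exec_seqs_cons e2 (exec_seqs_cons e3
    (exec_seqs_cons e5 (exec_seqs_nil _ _))))
  unfold readProg
  rw [← hWk, ← hus]
  rw [← hWk] at e6
  refine e6.mono ?_
  have h7 : totalLength (x :: us) = x.length + (us.map List.length).sum := by
    simp [totalLength]
  rw [h7, List.length_range']
  omega

theorem lang2_mem (A : Oracle) (k : ℕ) : Lang2 A k ∈ SigmaP A (k + 1) := by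
  refine ⟨Polynomial.X, readProg k, ?_, ?_⟩
  · refine ⟨30 * Polynomial.X + Polynomial.C (2 * k + 40), ?_⟩
    intro xs hxs
    cases xs with
    | nil => simp at hxs
    | cons x us =>
      have hus : us.length = k + 1 := by simpa using hxs
      obtain ⟨s', h1, _⟩ := run_readProg A k x us hus
      have h2 : (30 * Polynomial.X + Polynomial.C (2 * k + 40) : Polynomial ℕ).eval
          (totalLength (x :: us)) = 30 * totalLength (x :: us) + (2 * k + 40) := by
        simp
      rw [h2, h1]
  · intro x
    rw [Polynomial.eval_X]
    have h0 : x ∈ Lang2 A k ↔ Alt true (k + 1) x.length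
      (fun us => A (false :: us.flatten.reverse) = true) := Iff.rfl
    rw [h0, Alt_eq, Alt_eq]
    apply AltL_congr
    intro us hus
    have hlen : us.length = k + 1 := by
      have := congrArg List.length hus
      simpa using this
    obtain ⟨s', h1, h2⟩ := run_readProg A k x us hlen
    have h3 : (run A (readProg k) (x :: us)
        (30 * totalLength (x :: us) + (2 * k + 40))).1 = [] := by rw [h1]
    rw [accepts_iff_of_halted h3]
    unfold AcceptsIn
    rw [h1]
    simp only [true_and]
    exact h2.symm

end Pool.Agent.H9
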