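import Mathlib
import Pool.Agent.H9.Pairs

/-!
Forcing one requirement for the family of oracles with active windows.
-/

set_option autoImplicit false

namespace Pool.Agent.H9

open Classical

/-- The requirement: the machine `p` with bounds `q`, `T` does not recognise the diagonal
language of level `k + 1` relative to the oracle number `i`. -/
def Req2 (g : ℕ → Prog × Polynomial ℕ × Polynomial ℕ) (i k : ℕ) (q : Polynomial ℕ) (p : Prog)
    (T : Polynomial ℕ) (D : Table) : Prop :=
  ∃ n : ℕ, ¬ (AltL true (List.replicate (k + 1) n)
      (fun us => slice (fam g D) i (false :: us.flatten.reverse) = true) ↔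
    AltL true (List.replicate k (q.eval n)) (fun us =>
      AcceptsIn (slice (fam g D) i) p (List.replicate n true :: us)
        (T.eval (n + k * q.eval n))))

theorem totalLength_path' {k q n : ℕ} {us : List (List Bool)}
    (h : us ∈ paths (List.replicate k q)) :
    totalLength (List.replicate n true :: us) = n + k * q := by
  simp only [totalLength, List.map_cons, List.length_replicate, List.sum_cons, mem_paths.1 h,
    List.sum_replicate, smul_eq_mul]

theorem force2 (g : ℕ → Prog × Polynomial ℕ × Polynomial ℕ) (i k : ℕ) (q : Polynomial ℕ)
    (p : Prog) (T : Polynomial ℕ) (D : Table) (n0 : ℕ) :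
    ∃ (D' : Table) (n' : ℕ), (∀ w : List Bool, w.length < n0 → D' w = D w) ∧
      ∀ D'' : Table, (∀ w : List Bool, w.length < n' → D'' w = D' w) →
        Req2 g i k q p T D'' := by
  -- parameters
  let Λp : Polynomial ℕ := (T.comp (Polynomial.X + Polynomial.C k * q) + Polynomial.X +
    Polynomial.C k * q + q)
  obtain ⟨μ, hμ1, hμ2⟩ := exists_large (Polynomial.C (2 ^ (k + 5)) * (Λp.comp (4 * Polynomial.X)) +
    Polynomial.C (k + 1) * (4 * Polynomial.X) + 3) (n0 + 1)
  obtain ⟨n, hn⟩ : ∃ n, n = 4 * μ := ⟨_, rfl⟩
  obtain ⟨Λ, hΛ⟩ : ∃ Λ, Λ = T.eval (n + k * q.eval n) + n + k * q.eval n + q.eval n := ⟨_, rfl⟩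
  have hΛp : (Λp.comp (4 * Polynomial.X)).eval μ = Λ := by
    rw [hΛ, hn]
    simp [Λp, Polynomial.eval_comp]
  simp only [Polynomial.eval_add, Polynomial.eval_mul, Polynomial.eval_C, Polynomial.eval_X,
    Polynomial.eval_ofNat, hΛp] at hμ2
  have hB : (k + 1) * n + 3 ≤ 2 ^ μ := by
    rw [hn]; omega
  let Lv : List ℕ := List.replicate (k + 1) n
  -- the table with data `X`
  let E : (List (List Bool) → Bool) → Table := fun X r =>
    if r.length < n0 then D r
    else (fun l => if l = i ∧ r.length = (k + 1) * n then data Lv X r else false, i)
  have hkn : n ≤ (k + 1) * n := by nlinarith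
  -- all short bits are trivial
  have hbit : ∀ w : List Bool, w.length ≤ Λ →
      DTP Set.univ 1 (fun X => slice (fam g (E X)) i w = true) := by
    intro w _
    match w with
    | [] => exact (DTP.const 1 False).congr (fun X => by
        show _ ↔ fam g (E X) [] i = true
        rw [fam_nil]; simp)
    | false :: r =>
      by_cases hr : r.length < n0
      · refine (DTP.const 1 ((D r).1 i = true)).congr (fun X => ?_)
        show _ ↔ fam g (E X) (false :: r) i = true
        rw [fam_false]
        simp only [E, if_pos hr]
      · refine DTP.congr (f := fun X => (if r.length = (k + 1) * n then data Lv X r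
          else false) = true) ?_ (fun X => ?_)
        · by_cases h : r.length = (k + 1) * n
          · exact (data_dtp Lv r).congr (fun X => by simp only [if_pos h])
          · exact (DTP.const 1 False).congr (fun X => by simp [h])
        · show _ ↔ fam g (E X) (false :: r) i = true
          rw [fam_false]
          simp only [E, if_neg hr, true_and]
    | [true] => exact (DTP.const 1 False).congr (fun X => by
        show _ ↔ fam g (E X) [true] i = true
        rw [fam_one]; simp)
    | true :: c :: r =>
      by_cases hr : ∃ (j : ℕ) (w : List Bool), r = List.replicate j true ++ false :: w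
      · obtain ⟨j, w, rfl⟩ := hr
        by_cases hw : w.length < n0
        · refine (DTP.const 1 ((D (List.replicate w.length true)).2 ≠ i ∧
            KProp g (joinC (fam g D) c i j) w)).congr (fun X => ?_)
          show _ ↔ fam g (E X) (true :: c :: (List.replicate j true ++ false :: w)) i = true
          rw [fam_true]
          have e1 : E X (List.replicate w.length true) = D (List.replicate w.length true) := by
            simp only [E, List.length_replicate, if_pos hw]
          rw [e1]
          apply and_congr_right
          intro _
          apply kprop_joinC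
          intro v hv
          refine fam_congr g (n := n0) ?_ v (by omega)
          intro v' hv'
          simp only [E, if_pos hv']
        · refine (DTP.const 1 False).congr (fun X => ?_)
          show _ ↔ fam g (E X) (true :: c :: (List.replicate j true ++ false :: w)) i = true
          rw [fam_true]
          have e1 : (E X (List.replicate w.length true)).2 = i := by
            simp only [E, List.length_replicate, if_neg hw]
          rw [e1]
          simp
      · refine (DTP.const 1 False).congr (fun X => ?_)
        show _ ↔ fam g (E X) (true :: c :: r) i = true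
        rw [← fam_eq]
        simp only [famOp, decide_eq_true_eq]
        constructor
        · exact fun h => h.elim
        · rintro ⟨j, w, h1, _⟩
          exact hr ⟨j, w, h1⟩
  have htree : ∀ ws ∈ paths (List.replicate k (q.eval n)),
      DTP Set.univ Λ (fun a => AcceptsIn (slice (fam g (E a)) i) p
        (List.replicate n true :: ws) (T.eval (n + k * q.eval n))) := by
    intro ws hws
    have h1 := (dtp_acceptsIn p (List.replicate n true :: ws) (T.eval (n + k * q.eval n)) Λ (by
      rw [totalLength_path' hws, hΛ]
      omega)).comp (R := Set.univ) (m := 1) (fun a => slice (fam g (E a)) i)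
      (fun w hw => hbit w hw)
    refine h1.mono ?_
    omega
  obtain ⟨a, ha⟩ := hierarchy (q := q.eval n) (T := Λ) (μ := μ) (K := k) (B := (k + 1) * n)
    hB (by omega) (by
      rw [mul_comm]
      omega) k true (List.replicate k n) n
    (fun ws a => AcceptsIn (slice (fam g (E a)) i) p
        (List.replicate n true :: ws) (T.eval (n + k * q.eval n))) le_rfl (by simp)
    (fun x hx => by rw [List.eq_of_mem_replicate hx]; omega) (by omega) (by
      rw [List.sum_replicate, smul_eq_mul]
      apply le_of_eq
      ring) htree
  rw [← List.replicate_succ'] at ha
  refine ⟨E a, Λ + (k + 1) * n + 1, ?_, ?_⟩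
  · intro w hw
    simp only [E, if_pos hw]
  · intro D'' hD''
    refine ⟨n, ?_⟩
    intro hcon
    apply ha
    have hfam : ∀ w : List Bool, w.length ≤ Λ + (k + 1) * n + 1 →
        fam g D'' w = fam g (E a) w := fam_congr g hD''
    have hleft : AltL true (List.replicate (k + 1) n) (fun us => a us = true) ↔
        AltL true (List.replicate (k + 1) n)
          (fun us => slice (fam g D'') i (false :: us.flatten.reverse) = true) := by
      apply AltL_congr
      intro us hus
      have husp : us ∈ paths (List.replicate (k + 1) n) := mem_paths.2 hus
      have hflat : us.flatten.length = (k + 1) * n := by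
        rw [length_flatten_of_paths husp, List.sum_replicate, smul_eq_mul]
      have hrev : us.flatten.reverse.length = (k + 1) * n := by
        rw [List.length_reverse, hflat]
      have e1 : slice (fam g D'') i (false :: us.flatten.reverse) = a us := by
        show fam g D'' (false :: us.flatten.reverse) i = a us
        rw [hfam _ (by rw [List.length_cons, hrev]; omega), fam_false]
        have h2 : ¬ us.flatten.reverse.length < n0 := by rw [hrev]; omega
        simp only [E, if_neg h2]
        rw [if_pos ⟨trivial, hrev⟩]
        exact data_apply a husp
      rw [e1]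
    have hright : AltL true (List.replicate k (q.eval n)) (fun us =>
        AcceptsIn (slice (fam g D'') i) p (List.replicate n true :: us)
          (T.eval (n + k * q.eval n))) ↔
        AltL true (List.replicate k (q.eval n)) (fun ws =>
          AcceptsIn (slice (fam g (E a)) i) p
            (List.replicate n true :: ws) (T.eval (n + k * q.eval n))) := by
      apply AltL_congr
      intro ws hws
      have hwsp : ws ∈ paths (List.replicate k (q.eval n)) := mem_paths.2 hws
      refine (dtp_acceptsIn p (List.replicate n true :: ws) (T.eval (n + k * q.eval n)) Λ (by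
        rw [totalLength_path' hwsp, hΛ]
        omega)).depends ?_
      intro w hw
      have hw' : w.length ≤ Λ := hw
      show fam g D'' w i = fam g (E a) w i
      rw [hfam w (by omega)]
    rw [hleft, hcon, hright]

/-- There is an infinite sequence of oracles such that the polynomial hierarchy is infinite
relative to each of them, while `P = NP` relative to the join of any two. -/
theorem join_collapse : ∃ A : ℕ → Oracle,
    (∀ i k, SigmaP (A i) k ⊂ SigmaP (A i) (k + 1)) ∧
    ∀ i j, i ≠ j → SigmaP (join (A i) (A j)) 0 = SigmaP (join (A i) (A j)) 1 := by
  obtain ⟨g, hg⟩ := exists_enum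
  obtain ⟨dec, hdec⟩ := exists_surjective_nat (ℕ × ℕ × ℕ)
  obtain ⟨D, hD⟩ := diagonal
    (fun s D => Req2 g (dec s).1 (dec s).2.1 (g (dec s).2.2).2.1
      (g (dec s).2.2).1 (g (dec s).2.2).2.2 D) (fun _ => (fun _ => false, 0))
    (fun s D n => force2 g _ _ _ _ _ D n)
  refine ⟨fun i => slice (fam g D) i, ?_, fun i j hij => sigma_pair g hg D i j hij⟩
  intro i k
  rw [Set.ssubset_iff_subset_ne]
  refine ⟨sigmaP_mono _ k, ?_⟩
  intro heq
  have hmem := lang2_mem (slice (fam g D) i) k
  rw [← heq] at hmem
  obtain ⟨q, p, ⟨T, hT⟩, hL⟩ := hmem
  obtain ⟨e, he⟩ := hg (p, q, T)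
  obtain ⟨s, hs⟩ := hdec (i, k, e)
  have hreq := hD s
  simp only [hs, he] at hreq
  obtain ⟨n, hn⟩ := hreq
  apply hn
  have h1 := hL (List.replicate n true)
  have h2 : List.replicate n true ∈ Lang2 (slice (fam g D) i) k ↔
      AltL true (List.replicate (k + 1) n)
        (fun us => slice (fam g D) i (false :: us.flatten.reverse) = true) := by
    have h0 : List.replicate n true ∈ Lang2 (slice (fam g D) i) k ↔
      Alt true (k + 1) (List.replicate n true).length
        (fun us => slice (fam g D) i (false :: us.flatten.reverse) = true) := Iff.rfl
    rw [h0, Alt_eq, List.length_replicate]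
  rw [← h2, h1, Alt_eq, List.length_replicate]
  apply AltL_congr
  intro us hus
  have husp : us ∈ paths (List.replicate k (q.eval n)) := mem_paths.2 hus
  have h3 := hT (List.replicate n true :: us) (by
    have := congrArg List.length hus
    simpa using this)
  rw [totalLength_path' husp] at h3
  exact accepts_iff_of_halted h3

end Pool.Agent.H9
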